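import Pool.Agent.Helper79.EOL.Quot

/-!
# The second positive theorem: terminal blocks with an active symbol
-/

namespace Pool.Agent.Helper79.EOL

open List Pool.Agent.Helper76.EOL

/-- Admissible numbers of pieces on one side. -/
def Adm (i p0 p : ℕ) : Prop := i ∣ p ∧ (p = 0 ∨ p0 ≤ p)

lemma exists_pieces {i p0 k₀ B R : ℕ} (hi : 1 ≤ i) (hp0 : 1 ≤ p0) (hk : 1 ≤ k₀)
    (hB : 2 * k₀ ≤ B) (hR : i * p0 * k₀ ≤ R) :
    ∃ p, i ∣ p ∧ p0 ≤ p ∧ p ≤ R ∧ p * k₀ ≤ R ∧ R ≤ p * B := by
  have hex : ∃ x, p0 ≤ x ∧ R ≤ i * x * B := by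
    refine ⟨p0 + R, by omega, ?_⟩
    calc R ≤ p0 + R := by omega
      _ ≤ i * (p0 + R) := Nat.le_mul_of_pos_left _ hi
      _ ≤ i * (p0 + R) * B := Nat.le_mul_of_pos_right _ (by omega)
  obtain ⟨⟨h1, h2⟩, hmin⟩ : (p0 ≤ Nat.find hex ∧ R ≤ i * Nat.find hex * B) ∧
      ∀ m < Nat.find hex, ¬ (p0 ≤ m ∧ R ≤ i * m * B) :=
    ⟨Nat.find_spec hex, fun m hm => Nat.find_min hex hm⟩
  set x := Nat.find hex with hx
  have h3 : i * x * k₀ ≤ R := by
    by_cases h : x = p0
    · rw [h]; exact hR
    · obtain ⟨y, hy⟩ : ∃ y, x = y + 1 := ⟨x - 1, by omega⟩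
      have h4 := hmin y (by omega)
      have h5 : i * y * B < R := by
        by_contra hcon
        exact h4 ⟨by omega, by omega⟩
      have h6 : i * (y + 1) * k₀ ≤ i * y * (2 * k₀) := by
        have : y + 1 ≤ 2 * y := by omega
        calc i * (y + 1) * k₀ ≤ i * (2 * y) * k₀ :=
              Nat.mul_le_mul_right _ (Nat.mul_le_mul_left _ this)
          _ = i * y * (2 * k₀) := by ring
      have h7 : i * y * (2 * k₀) ≤ i * y * B := Nat.mul_le_mul_left _ hB
      rw [hy]
      omega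
  refine ⟨i * x, Dvd.intro _ rfl, h1.trans (Nat.le_mul_of_pos_left _ hi), ?_, h3, h2⟩
  exact (Nat.le_mul_of_pos_right _ hk).trans h3

/-- Cutting a side. -/
lemma exists_side {V : Type} {i p0 k₀ B : ℕ} (hi : 1 ≤ i) (hp0 : 1 ≤ p0) (hk : 1 ≤ k₀)
    (hB : 2 * k₀ ≤ B) {w : List V} (hw : w = [] ∨ i * p0 * k₀ ≤ w.length) :
    ∃ L : List (List V), L.flatten = w ∧ Adm i p0 L.length ∧ L.length ≤ w.length ∧
      (∀ b ∈ L, k₀ ≤ b.length ∧ b.length ≤ B) ∧ (w ≠ [] → L.length ≠ 0) := by
  by_cases hw0 : w = []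
  · subst hw0
    exact ⟨[], rfl, ⟨by simp, Or.inl rfl⟩, by simp, by simp, fun h => absurd rfl h⟩
  · have h1 := hw.resolve_left hw0
    obtain ⟨p, h2, h3, h4, h5, h6⟩ := exists_pieces hi hp0 hk hB h1
    obtain ⟨L, h7, h8, h9⟩ := exists_cut (show k₀ ≤ B by omega) p w h5 h6
    exact ⟨L, h8, ⟨by rw [h7]; exact h2, Or.inr (by omega)⟩, by omega, h9, fun _ => by omega⟩

/-- Cutting around an active symbol. -/
lemma exists_act_cut {V : Type} {act : V → Prop} {i j p0 k₀ B : ℕ} (hi : 1 ≤ i) (hj : 1 ≤ j)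
    (hp0 : 1 ≤ p0) (hk : 1 ≤ k₀) (hB : 2 * ((i + j) * p0 * k₀ + k₀) ≤ B) {w : List V}
    (hw : ∃ x ∈ w, act x) (hlen : 2 * ((i + j) * p0 * k₀ + k₀) ≤ w.length) :
    ∃ (L₁ : List (List V)) (b : List V) (L₂ : List (List V)), L₁.flatten ++ (b ++ L₂.flatten) = w ∧
      (∃ x ∈ b, act x) ∧ k₀ ≤ b.length ∧ b.length ≤ B ∧ (∀ b ∈ L₁, k₀ ≤ b.length ∧ b.length ≤ B) ∧
      (∀ b ∈ L₂, k₀ ≤ b.length ∧ b.length ≤ B) ∧ Adm i p0 L₁.length ∧ Adm j p0 L₂.length ∧
      L₁.length ≤ w.length ∧ L₂.length ≤ w.length ∧ ¬ (L₁.length = 0 ∧ L₂.length = 0) := by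
  set K0 := (i + j) * p0 * k₀ with hK0
  have hKi : i * p0 * k₀ ≤ K0 := by
    apply Nat.mul_le_mul_right
    apply Nat.mul_le_mul_right
    omega
  have hKj : j * p0 * k₀ ≤ K0 := by
    apply Nat.mul_le_mul_right
    apply Nat.mul_le_mul_right
    omega
  have hKpos : 1 ≤ K0 := Nat.mul_pos (Nat.mul_pos (by omega) hp0) hk
  obtain ⟨x, hx, hact⟩ := hw
  obtain ⟨b₁, b₂, rfl⟩ := append_of_mem hx
  rw [length_append, length_cons] at hlen
  -- the left side
  obtain ⟨l₁, c₁, e1, h1, h2, h3⟩ : ∃ l₁ c₁, b₁ = l₁ ++ c₁ ∧ (l₁ = [] ∨ K0 ≤ l₁.length) ∧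
      c₁.length < K0 + k₀ ∧ (l₁ = [] ∨ k₀ ≤ c₁.length) := by
    by_cases h : b₁.length < K0 + k₀
    · exact ⟨[], b₁, rfl, Or.inl rfl, h, Or.inl rfl⟩
    · refine ⟨take (b₁.length - k₀) b₁, drop (b₁.length - k₀) b₁, (take_append_drop _ _).symm,
        Or.inr ?_, ?_, Or.inr ?_⟩
      · rw [length_take]; omega
      · rw [length_drop]; omega
      · rw [length_drop]; omega
  obtain ⟨c₂, l₂, e2, h4, h5, h6⟩ : ∃ c₂ l₂, b₂ = c₂ ++ l₂ ∧ (l₂ = [] ∨ K0 ≤ l₂.length) ∧
      c₂.length < K0 + k₀ ∧ (l₂ = [] ∨ k₀ ≤ c₂.length) := by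
    by_cases h : b₂.length < K0 + k₀
    · exact ⟨b₂, [], by simp, Or.inl rfl, h, Or.inl rfl⟩
    · refine ⟨take k₀ b₂, drop k₀ b₂, (take_append_drop _ _).symm, Or.inr ?_, ?_, Or.inr ?_⟩
      · rw [length_drop]; omega
      · rw [length_take]; omega
      · rw [length_take]; omega
  subst e1; subst e2
  simp only [length_append] at hlen
  have hnot : ¬ (l₁ = [] ∧ l₂ = []) := by
    rintro ⟨rfl, rfl⟩
    simp only [length_nil] at hlen
    omega
  obtain ⟨L₁, f1, f2, f3, f4, f5⟩ := exists_side (w := l₁) (B := B) hi hp0 hk (by omega)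
    (h1.imp id (fun h => hKi.trans h))
  obtain ⟨L₂, g1, g2, g3, g4, g5⟩ := exists_side (w := l₂) (B := B) hj hp0 hk (by omega)
    (h4.imp id (fun h => hKj.trans h))
  refine ⟨L₁, c₁ ++ x :: c₂, L₂, by rw [f1, g1]; simp, ⟨x, by simp, hact⟩, ?_, ?_, f4, g4, f2, g2,
    ?_, ?_, ?_⟩
  · simp only [length_append, length_cons]
    by_cases hl : l₁ = []
    · have := h6.resolve_left (fun h => hnot ⟨hl, h⟩)
      omega
    · have := h3.resolve_left hl
      omega
  · simp only [length_append, length_cons]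
    omega
  · simp only [length_append, length_cons]
    omega
  · simp only [length_append, length_cons]
    omega
  · rintro ⟨h7, h8⟩
    apply hnot
    constructor
    · by_contra h9; exact f5 h9 h7
    · by_contra h9; exact g5 h9 h8

/-- The word of types of a cut around an active symbol. -/
def tyPat (p q : ℕ) : List Bool := replicate p true ++ ([false] ++ replicate q true)

/-- The labelled pieces. -/
def lab {V : Type} (L₁ : List (List V)) (b : List V) (L₂ : List (List V)) :
    List (Bool × List V) :=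
  L₁.map (fun c => (true, c)) ++ ([(false, b)] ++ L₂.map (fun c => (true, c)))

lemma lab_flatten {V : Type} (L₁ : List (List V)) (b : List V) (L₂ : List (List V)) :
    ((lab L₁ b L₂).map Prod.snd).flatten = L₁.flatten ++ (b ++ L₂.flatten) := by
  have e : ∀ L : List (List V), (L.map (fun c => (true, c))).map Prod.snd = L := by
    intro L
    rw [map_map]
    exact map_id'' (fun _ => rfl) L
  unfold lab
  simp [e]

lemma lab_ty {V : Type} (L₁ : List (List V)) (b : List V) (L₂ : List (List V)) :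
    (lab L₁ b L₂).map (fun p => p.1) = tyPat L₁.length L₂.length := by
  have e : ∀ L : List (List V), (L.map (fun c => (true, c))).map (fun p => p.1) =
      replicate L.length true := by
    intro L
    rw [map_map]
    exact map_const' ..
  unfold lab tyPat
  rw [map_append, map_append, e, e]
  rfl

/-- **The second positive theorem.** -/
theorem simSys_of_act {F : Grammar} {a : ℕ} (hF : IsSaForm F a)
    (hA : ∃ w, Sh F a false w ∧ true ∈ w) (hB : ∃ w, Sh F a true w ∧ true ∈ w)
    (hK : ∀ k, 1 ≤ k → ∃ t, Go (Sh F a) t True true (replicate k false))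
    (i j p0 k₀ l1 s₀ s₁ : ℕ) (hi : 1 ≤ i) (hj : 1 ≤ j) (hp0 : 1 ≤ p0) (hk₀ : 1 ≤ k₀)
    (hl1 : 1 ≤ l1)
    (hR : ∀ N, ∃ r, Go (Sh F a) r False true [true] ∧
      ((∀ l, l1 ≤ l → l ≤ N → Go (Sh F a) r False true (replicate l true)) ∨
        (∀ p q, Adm i p0 p → Adm j p0 q → p ≤ N → q ≤ N → ¬ (p = 0 ∧ q = 0) →
          Go (Sh F a) r False true (tyPat p q))) ∧
      (∀ k, k₀ ≤ k → k ≤ N → Go (Sh F a) r False true (replicate k false)) ∧
      (∀ p q, Adm i p0 p → Adm j p0 q → p ≤ N → q ≤ N → ¬ (p = 0 ∧ q = 0) →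
        Go (Sh F a) r True false (tyPat p q)) ∧
      (∀ k, k₀ ≤ k → k ≤ N → Go (Sh F a) r True false (replicate k false)))
    (hI : ∀ p q, Adm i p0 p → Adm j p0 q → ¬ (p = 0 ∧ q = 0) →
      ∃ t, Go (Sh F a) t True true (tyPat (s₀ + p) (q + s₁))) : SimSys F := by
  classical
  intro V hV H x A hAf
  set K0 := (i + j) * p0 * k₀ with hK0
  set T := 2 * (K0 + k₀) with hT
  obtain ⟨V', hV', H', act, Z, A', hA'f, hZf, hNF, hZ, hL⟩ :=
    repr_all H x (s₀ * k₀) (s₁ * k₀) (T + 1) (T + 2) (by omega)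
  obtain ⟨D, hD1, hD2, hD3⟩ := H'.exists_bound
  obtain ⟨B₁, hB₁⟩ := (hZf.image List.length).bddAbove
  have hB₁' : ∀ z ∈ Z, z.length ≤ B₁ := fun z hz => hB₁ ⟨z, hz, rfl⟩
  set B := T + l1 * k₀ + B₁ with hBdef
  have hBT : T ≤ B := by omega
  have h2k : 2 * k₀ ≤ B := by omega
  obtain ⟨r, hr1, hr2, hr3, hr4, hr5⟩ := hR (D * B)
  let valid : Bool → List V' → Prop := fun κ β =>
    k₀ ≤ β.length ∧ β.length ≤ B ∧ (κ = false → ∃ x ∈ β, act x)
  have hAne : ∀ w ∈ (A \ {[]}) ∪ (A' \ {[]}), w ≠ [] ∧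
      ∃ t, Go (Sh F a) t True true (replicate w.length false) := by
    rintro w (⟨_, hw⟩ | ⟨_, hw⟩)
    · exact ⟨hw, hK _ (length_pos_iff.2 hw)⟩
    · exact ⟨hw, hK _ (length_pos_iff.2 hw)⟩
  have weak : ∀ {r x w}, Go (Sh F a) r False x w → ∀ κ : Bool, κ = true →
      Go (Sh F a) r (κ = false) x w := by
    intro r x w h κ hκ
    obtain ⟨z, h1, h2, _⟩ := h
    exact ⟨z, h1, h2, fun h => by rw [hκ] at h; simp at h⟩
  have strong : ∀ {r x w}, Go (Sh F a) r True x w → ∀ κ : Bool,
      Go (Sh F a) r (κ = false) x w := by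
    intro r x w h κ
    obtain ⟨z, h1, h2, h3⟩ := h
    exact ⟨z, h1, h2, fun _ => h3 trivial⟩
  -- activity persists
  have persist : ∀ {β β' : List V'}, Par H'.N β β' → (∃ x ∈ β, act x) → ∃ x ∈ β', act x := by
    intro β β' h ⟨x, hx, hact⟩
    obtain ⟨v, h1, h2⟩ := h.sub hx
    obtain ⟨_, y, hy, hy2⟩ := hNF.grow x v hact h1
    exact ⟨y, h2 y hy, hy2⟩
  have grow : ∀ {β β' : List V'}, Par H'.N β β' → (∃ x ∈ β, act x) → T + 2 ≤ β'.length := by
    intro β β' h ⟨x, hx, hact⟩
    obtain ⟨b₁, b₂, rfl⟩ := append_of_mem hx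
    obtain ⟨u, v, h1, h2, rfl⟩ := par_append.1 h
    obtain ⟨v₁, v₂, h3, h4, rfl⟩ := par_cons.1 h2
    have := (hNF.grow x v₁ hact h3).1
    simp only [length_append]
    omega
  have longer : ∀ {β β' : List V'}, Par H'.N β β' → β.length < β'.length →
      ∃ x ∈ β', act x := by
    intro β β' h hlt
    by_contra hcon
    push Not at hcon
    have : β'.length ≤ β.length := by
      clear hlt
      induction h with
      | nil => simp
      | @cons x u xs v h1 _ ih =>
        have h2 := ih (fun y hy => hcon y (by simp [hy]))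
        have h3 : u.length = 1 := by
          by_cases hx : act x
          · obtain ⟨_, y, hy, hy2⟩ := hNF.grow x u hx h1
            exact absurd hy2 (hcon y (by simp [hy]))
          · rcases hNF.wait x u hx h1 with ⟨y, rfl⟩ | ⟨y, hy, hy2⟩
            · rfl
            · exact absurd hy2 (hcon y (by simp [hy]))
        simp only [length_append, length_cons, h3]
        omega
    omega
  -- the cut around an active symbol
  have cutAct : ∀ {κ : Bool} {β' : List V'}, (∃ x ∈ β', act x) → T ≤ β'.length →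
      (∀ p q, Adm i p0 p → Adm j p0 q → p ≤ β'.length → q ≤ β'.length → ¬ (p = 0 ∧ q = 0) →
        Go (Sh F a) r (κ = false) κ (tyPat p q)) →
      ∃ l, Cut (fun κ => κ) (fun κ => κ = false) valid r (Sh F a) κ β' l := by
    intro κ β' hact hlen hgo
    obtain ⟨L₁, b, L₂, e, h1, h2, h3, h4, h5, h6, h7, h8, h9, h10⟩ :=
      exists_act_cut hi hj hp0 hk₀ hBT hact hlen
    refine ⟨lab L₁ b L₂, ?_, by rw [lab_flatten, e], ?_, ?_, ?_⟩
    · intro p hp
      simp only [lab, mem_append, mem_map, mem_singleton] at hp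
      rcases hp with ⟨c, hc, rfl⟩ | rfl | ⟨c, hc, rfl⟩
      · exact ⟨(h4 c hc).1, (h4 c hc).2, fun h => by simp at h⟩
      · exact ⟨h2, h3, fun _ => h1⟩
      · exact ⟨(h5 c hc).1, (h5 c hc).2, fun h => by simp at h⟩
    · intro _
      by_cases hL₁ : L₁ = []
      · have hL₂ : L₂ ≠ [] := by
          rintro rfl
          exact h10 ⟨by rw [hL₁]; rfl, rfl⟩
        obtain ⟨c, hc⟩ := exists_mem_of_ne_nil _ hL₂
        exact ⟨(true, c), by simp [lab, hc], rfl⟩
      · obtain ⟨c, hc⟩ := exists_mem_of_ne_nil _ hL₁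
        exact ⟨(true, c), by simp [lab, hc], rfl⟩
    · intro _
      exact ⟨(false, b), by simp [lab], rfl⟩
    · rw [lab_ty]
      exact hgo _ _ h6 h7 h8 h9 h10
  obtain ⟨G', hG1, hG2⟩ := block_interp hF H' (fun κ => κ) (fun κ => κ = false) valid
    (by
      intro κ
      apply (List.finite_length_le V' B).subset
      intro β hβ
      exact hβ.2.1) r hA hB
    (by
      intro κ β hβ β' hβ'
      have hlen1 : β.length ≤ β'.length := hβ'.le_length H'.N_ne
      have hlen2 : β'.length ≤ D * B := (hβ'.length_le hD2).trans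
        (Nat.mul_le_mul_left _ hβ.2.1)
      cases κ with
      | true =>
        by_cases hsmall : β'.length ≤ B
        · refine ⟨[(true, β')], ?_, by simp, ?_, by simp, ?_⟩
          · intro p hp
            rw [mem_singleton] at hp
            subst hp
            exact ⟨hβ.1.trans hlen1, hsmall, fun h => by simp at h⟩
          · intro _
            exact ⟨_, mem_singleton_self _, rfl⟩
          · exact weak hr1 true rfl
        · rcases hr2 with hr2 | hr2
          · obtain ⟨p, _, h1, h2, h3, h4⟩ := exists_pieces (i := 1) (p0 := l1) (k₀ := k₀) (B := B)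
              (R := β'.length) le_rfl hl1 hk₀ h2k (by rw [Nat.one_mul]; omega)
            obtain ⟨L, h5, h6, h7⟩ := exists_cut (show k₀ ≤ B by omega) p β' h3 h4
            have hty : (L.map (fun c => (true, c))).map (fun p => p.1) = replicate p true := by
              rw [map_map, ← h5]
              exact map_const' ..
            refine ⟨L.map (fun c => (true, c)), ?_, ?_, ?_, by simp, ?_⟩
            · intro q hq
              rw [mem_map] at hq
              obtain ⟨c, hc, rfl⟩ := hq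
              exact ⟨(h7 c hc).1, (h7 c hc).2, fun h => by simp at h⟩
            · have : (L.map (fun c => (true, c))).map Prod.snd = L := by
                rw [map_map]
                exact map_id'' (fun _ => rfl) L
              rw [this]; exact h6
            · intro hne
              obtain ⟨q, hq⟩ := exists_mem_of_ne_nil _ hne
              refine ⟨q, hq, ?_⟩
              rw [mem_map] at hq
              obtain ⟨c, _, rfl⟩ := hq
              rfl
            · rw [hty]
              exact weak (hr2 p h1 (by omega)) true rfl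
          · apply cutAct (longer hβ' (by have := hβ.2.1; omega)) (by omega)
            intro p q h1 h2 h3 h4 h5
            exact weak (hr2 p q h1 h2 (by omega) (by omega) h5) true rfl
      | false =>
        have hact := hβ.2.2 rfl
        apply cutAct (persist hβ' hact) (by have := grow hβ' hact; omega)
        intro p q h1 h2 h3 h4 h5
        exact strong (hr4 p q h1 h2 (by omega) (by omega) h5) false)
    (by
      intro κ β hβ w hw
      have hlen1 : β.length ≤ w.length := hw.le_length H'.F_ne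
      have hlen2 : w.length ≤ D * B := (hw.length_le hD3).trans
        (Nat.mul_le_mul_left _ hβ.2.1)
      have h0 := hβ.1
      refine ⟨?_, ?_⟩
      · rintro _ rfl
        simp only [length_nil] at hlen1
        omega
      · cases κ with
        | true => exact weak (hr3 w.length (by omega) hlen2) true rfl
        | false => exact strong (hr5 w.length (by omega) hlen2) false)
    ((A \ {[]}) ∪ (A' \ {[]})) ((hAf.sdiff).union (hA'f.sdiff)) hAne Z hZf
    (by
      intro z hz
      obtain ⟨u₁, z₀, u₂, rfl, h1, h2, h3, h4⟩ := hZ z hz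
      have hz2 := hB₁' _ hz
      simp only [length_append] at hz2
      obtain ⟨L₁, b, L₂, e, f1, f2, f3, f4, f5, f6, f7, f8, f9, f10⟩ :=
        exists_act_cut hi hj hp0 hk₀ hBT h4 (by omega)
      obtain ⟨M₁, g1, g2, g3⟩ := exists_cut (show k₀ ≤ k₀ by omega) s₀ u₁ (by omega) (by omega)
      obtain ⟨M₂, g4, g5, g6⟩ := exists_cut (show k₀ ≤ k₀ by omega) s₁ u₂ (by omega) (by omega)
      obtain ⟨t, ht⟩ := hI _ _ f6 f7 f10
      refine ⟨?_, t, lab (M₁ ++ L₁) b (L₂ ++ M₂), ?_, ?_, ?_, ?_, ?_⟩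
      · intro hcon
        simp only [append_eq_nil_iff] at hcon
        rw [hcon.2.1] at h3
        simp only [length_nil] at h3
        omega
      · intro p hp
        simp only [lab, mem_append, mem_map, mem_singleton] at hp
        rcases hp with ⟨c, hc | hc, rfl⟩ | rfl | ⟨c, hc | hc, rfl⟩
        · exact ⟨(g3 c hc).1, by have := (g3 c hc).2; simp only; omega, fun h => by simp at h⟩
        · exact ⟨(f4 c hc).1, (f4 c hc).2, fun h => by simp at h⟩
        · exact ⟨f2, f3, fun _ => f1⟩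
        · exact ⟨(f5 c hc).1, (f5 c hc).2, fun h => by simp at h⟩
        · exact ⟨(g6 c hc).1, by have := (g6 c hc).2; simp only; omega, fun h => by simp at h⟩
      · rw [lab_flatten, flatten_append, flatten_append, g2, g5, ← e]
        simp
      · exact ⟨(false, b), by simp [lab], rfl⟩
      · by_cases hL₁ : L₁ = []
        · have hL₂ : L₂ ≠ [] := by
            rintro rfl
            exact f10 ⟨by rw [hL₁]; rfl, rfl⟩
          obtain ⟨c, hc⟩ := exists_mem_of_ne_nil _ hL₂
          exact ⟨(true, c), by simp [lab, hc], rfl⟩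
        · obtain ⟨c, hc⟩ := exists_mem_of_ne_nil _ hL₁
          exact ⟨(true, c), by simp [lab, hc], rfl⟩
      · rw [lab_ty, length_append, length_append, g1, g4]
        exact ht)
  refine ⟨G', hG1, ?_⟩
  rw [hG2, hL]
  ext w
  simp only [Set.mem_union, Set.mem_sdiff, Set.mem_singleton_iff, Set.mem_iUnion, exists_prop]
  constructor
  · rintro ((h | h) | h)
    · exact Or.inl h
    · exact Or.inr (Or.inl h.1)
    · exact Or.inr (Or.inr h)
  · rintro (h | h | h)
    · exact Or.inl (Or.inl h)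
    · refine Or.inl (Or.inr ⟨h, ?_⟩)
      have : w ∈ H.L [x] := by rw [hL]; exact Or.inl h
      exact Sys.L_ne_nil (by simp) this
    · exact Or.inr h

end Pool.Agent.Helper79.EOL
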