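import Pool.Agent.Helper79.EOL.Form

/-!
# Synchronised propagating systems
-/

namespace Pool.Agent.Helper79.EOL

open List Pool.Agent.Helper76.EOL

lemma par_finite {α β : Type*} {N : α → List β → Prop} (h : ∀ x, {w | N x w}.Finite)
    (u : List α) : {w | Par N u w}.Finite := by
  induction u with
  | nil =>
    apply (Set.finite_singleton ([] : List β)).subset
    intro w hw
    exact par_nil.1 hw
  | cons x xs ih =>
    apply ((h x).image2 (fun u v => u ++ v) ih).subset
    intro w hw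
    obtain ⟨u, v, h1, h2, rfl⟩ := par_cons.1 hw
    exact ⟨u, h1, v, h2, rfl⟩

lemma it_finite {α : Type*} {N : α → List α → Prop} (h : ∀ x, {w | N x w}.Finite) (n : ℕ)
    (x : α) : {w | It N n x w}.Finite := by
  induction n generalizing x with
  | zero =>
    apply (Set.finite_singleton [x]).subset
    intro w hw; exact hw
  | succ n ih =>
    apply ((h x).biUnion (t := fun u => {w | Par (It N n) u w}) (fun u _ => par_finite ih u)).subset
    rintro w ⟨u, h1, h2⟩
    simp only [Set.mem_iUnion, exists_prop]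
    exact ⟨u, h1, h2⟩

lemma it_finite' {α β : Type*} {N : α → List α → Prop} {F : α → List β → Prop}
    (h : ∀ x, {w | N x w}.Finite) (hF : ∀ x, {w | F x w}.Finite) (x : α) :
    {w | Then N F x w}.Finite := by
  apply ((h x).biUnion (t := fun u => {w | Par F u w}) (fun u _ => par_finite hF u)).subset
  rintro w ⟨u, h1, h2⟩
  simp only [Set.mem_iUnion, exists_prop]
  exact ⟨u, h1, h2⟩

/-- A synchronised propagating system: nonfinal and final rules, all right-hand sides are
nonempty. -/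
structure Sys (V : Type) where
  N : V → List V → Prop
  F : V → List ℕ → Prop
  N_ne : ∀ x w, N x w → w ≠ []
  F_ne : ∀ x w, F x w → w ≠ []
  N_fin : ∀ x, {w | N x w}.Finite
  F_fin : ∀ x, {w | F x w}.Finite

namespace Sys

variable {V : Type} (H : Sys V)

/-- The language of a system with a given start word. -/
def L (u : List V) : Set (List ℕ) := {w | ∃ n v, Par (It H.N n) u v ∧ Par H.F v w}

variable {H}

lemma le_length {n : ℕ} {u v : List V} (h : Par (It H.N n) u v) : u.length ≤ v.length :=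
  h.le_length (fun _ _ h => h.ne_nil H.N_ne)

lemma L_ne_nil {u : List V} (hu : u ≠ []) {w : List ℕ} (hw : w ∈ H.L u) : w ≠ [] := by
  obtain ⟨n, v, h1, h2⟩ := hw
  have h3 := le_length h1
  have h4 := h2.le_length H.F_ne
  have h5 : 0 < u.length := length_pos_iff.2 hu
  exact length_pos_iff.1 (by omega)

lemma exists_bound [Finite V] (H : Sys V) : ∃ D, 1 ≤ D ∧ (∀ x w, H.N x w → w.length ≤ D) ∧
    ∀ x w, H.F x w → w.length ≤ D := by
  have h1 : (⋃ x, (fun w : List V => w.length) '' {w | H.N x w}).Finite :=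
    Set.finite_iUnion (fun x => (H.N_fin x).image _)
  have h2 : (⋃ x, (fun w : List ℕ => w.length) '' {w | H.F x w}).Finite :=
    Set.finite_iUnion (fun x => (H.F_fin x).image _)
  obtain ⟨D1, hD1⟩ := h1.bddAbove
  obtain ⟨D2, hD2⟩ := h2.bddAbove
  refine ⟨D1 + D2 + 1, by omega, ?_, ?_⟩
  · intro x w h
    have : w.length ≤ D1 := hD1 (Set.mem_iUnion.2 ⟨x, w, h, rfl⟩)
    omega
  · intro x w h
    have : w.length ≤ D2 := hD2 (Set.mem_iUnion.2 ⟨x, w, h, rfl⟩)
    omega

lemma mem_L_step {u u' : List V} (h : Par H.N u u') {w : List ℕ} (hw : w ∈ H.L u') :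
    w ∈ H.L u := by
  obtain ⟨n, v, h1, h2⟩ := hw
  exact ⟨n + 1, v, par_it_succ.2 ⟨u', h, h1⟩, h2⟩

lemma mem_L_steps {n : ℕ} {u u' : List V} (h : Par (It H.N n) u u') {w : List ℕ}
    (hw : w ∈ H.L u') : w ∈ H.L u := by
  obtain ⟨m, v, h1, h2⟩ := hw
  exact ⟨n + m, v, par_it_add.2 ⟨u', h, h1⟩, h2⟩

/-- Restarting from long words. -/
lemma restart [Finite V] (H : Sys V) (u : List V) (N₀ : ℕ) (hu : u.length < N₀) :
    ∃ (A : Set (List ℕ)) (Z : Set (List V)), A.Finite ∧ Z.Finite ∧
      (∀ z ∈ Z, N₀ ≤ z.length ∧ ∃ n, Par (It H.N n) u z) ∧ H.L u = A ∪ ⋃ z ∈ Z, H.L z := by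
  obtain ⟨D, hD1, hD2, hD3⟩ := H.exists_bound
  refine ⟨{w | ∃ v ∈ {v : List V | v.length ≤ N₀}, (∃ n, Par (It H.N n) u v) ∧ Par H.F v w},
    {z | z ∈ {z : List V | z.length ≤ D * N₀} ∧ N₀ ≤ z.length ∧ ∃ n, Par (It H.N n) u z},
    ?_, ?_, ?_, ?_⟩
  · apply ((List.finite_length_le V N₀).biUnion (t := fun v => {w | Par H.F v w})
      (fun v _ => par_finite H.F_fin v)).subset
    rintro w ⟨v, h1, _, h2⟩
    simp only [Set.mem_iUnion, exists_prop]
    exact ⟨v, h1, h2⟩
  · apply (List.finite_length_le V (D * N₀)).subset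
    rintro z ⟨h1, _⟩
    exact h1
  · rintro z ⟨_, h2⟩
    exact h2
  · ext w
    constructor
    · rintro ⟨n, v, h1, h2⟩
      have key : ∀ (n : ℕ) (u' : List V), u'.length < N₀ → (∃ m, Par (It H.N m) u u') →
          Par (It H.N n) u' v →
          (v.length ≤ N₀ ∧ ∃ m, Par (It H.N m) u v) ∨ ∃ z, z.length ≤ D * N₀ ∧ N₀ ≤ z.length ∧
            (∃ m, Par (It H.N m) u z) ∧ w ∈ H.L z := by
        intro n
        induction n with
        | zero =>
          intro u' hu' hm h
          rw [par_it_zero] at h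
          subst h
          exact Or.inl ⟨hu'.le, hm⟩
        | succ n ih =>
          intro u' hu' hm h
          obtain ⟨u'', h3, h4⟩ := par_it_succ.1 h
          obtain ⟨m, hm⟩ := hm
          have hm' : ∃ m, Par (It H.N m) u u'' := ⟨m + 1, Par.it_succ'.2 ⟨u', hm, h3⟩⟩
          by_cases hlen : u''.length < N₀
          · exact ih u'' hlen hm' h4
          · right
            refine ⟨u'', ?_, by omega, hm', n, v, h4, h2⟩
            calc u''.length ≤ D * u'.length := h3.length_le hD2
              _ ≤ D * N₀ := Nat.mul_le_mul_left _ hu'.le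
      rcases key n u hu ⟨0, par_it_zero.2 rfl⟩ h1 with ⟨h3, h4⟩ | ⟨z, h3, h4, h5, h6⟩
      · exact Or.inl ⟨v, h3, h4, h2⟩
      · right
        simp only [Set.mem_iUnion, exists_prop]
        exact ⟨z, ⟨h3, h4, h5⟩, h6⟩
    · rintro (⟨v, _, ⟨n, h1⟩, h2⟩ | h)
      · exact ⟨n, v, h1, h2⟩
      · simp only [Set.mem_iUnion, exists_prop] at h
        obtain ⟨z, ⟨_, _, n, h1⟩, h2⟩ := h
        exact mem_L_steps h1 h2

end Sys

/-! ### From grammars to systems -/

section OfGrammar

variable (G : Grammar)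

lemma it_nil_mono {α : Type*} {N : α → List α → Prop} {k : ℕ} {x : α} (h : It N k x [])
    (j : ℕ) : It N (k + j) x [] := by
  rw [it_add]
  exact ⟨[], h, Par.nil⟩

lemma exists_vanish : ∃ q, ∀ x ∈ G.V, ∀ k, It (pr G) k x [] → It (pr G) q x [] := by
  have h : ∀ x : ℕ, ∃ q, ∀ k, It (pr G) k x [] → ∀ j, It (pr G) (q + j) x [] := by
    intro x
    by_cases hx : ∃ k, It (pr G) k x []
    · obtain ⟨k, hk⟩ := hx
      exact ⟨k, fun _ _ j => it_nil_mono hk j⟩
    · exact ⟨0, fun k hk => absurd ⟨k, hk⟩ hx⟩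
  choose q hq using h
  refine ⟨G.V.sup q, ?_⟩
  intro x hx k hk
  have : q x ≤ G.V.sup q := Finset.le_sup hx
  obtain ⟨j, hj⟩ := Nat.exists_eq_add_of_le this
  rw [hj]
  exact hq x k hk j

variable {G}

/-- Deleting vanishing symbols. -/
inductive Del (van : ℕ → Prop) : List ℕ → List ℕ → Prop
  | nil : Del van [] []
  | keep {x : ℕ} {α β : List ℕ} : Del van α β → Del van (x :: α) (x :: β)
  | drop {x : ℕ} {α β : List ℕ} : van x → Del van α β → Del van (x :: α) β

lemma Del.subset {van : ℕ → Prop} {α β : List ℕ} (h : Del van α β) : ∀ x ∈ β, x ∈ α := by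
  induction h with
  | nil => simp
  | keep _ ih =>
    intro y hy
    rw [mem_cons] at hy ⊢
    rcases hy with rfl | hy
    · exact Or.inl rfl
    · exact Or.inr (ih y hy)
  | drop _ _ ih =>
    intro y hy
    exact mem_cons_of_mem _ (ih y hy)

lemma Del.length_le {van : ℕ → Prop} {α β : List ℕ} (h : Del van α β) :
    β.length ≤ α.length := by
  induction h with
  | nil => simp
  | keep _ ih => simpa using ih
  | drop _ _ ih => simp only [length_cons]; omega

/-- The system of a grammar. -/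
def sysOf (G : Grammar) (q : ℕ) : Sys {x // x ∈ G.V} where
  N x β := β ≠ [] ∧ ∃ α, pr G x α ∧ Del (fun y => It (pr G) q y []) α (β.map Subtype.val)
  F x w := w ≠ [] ∧ It (pr G) q x w ∧ ∀ y ∈ w, y ∈ G.T
  N_ne := fun _ _ h => h.1
  F_ne := fun _ _ h => h.1
  N_fin := by
    intro x
    obtain ⟨r, _, hr⟩ := Pool.Agent.Helper76.EOL.exists_bound G
    apply (List.finite_length_le {x // x ∈ G.V} r).subset
    rintro β ⟨_, α, h1, h2⟩
    have h3 := h2.length_le
    rw [length_map] at h3
    have h4 : α.length ≤ r := hr _ h1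
    exact h3.trans h4
  F_fin := by
    intro x
    have h0 : ∀ y : ℕ, {w | pr G y w}.Finite := by
      intro y
      apply ((G.P.finite_toSet).image Prod.snd).subset
      intro w hw
      exact ⟨(y, w), hw, rfl⟩
    apply (it_finite h0 q x).subset
    rintro w ⟨_, h, _⟩
    exact h

lemma del_par {q : ℕ} {n : ℕ} {α β : List ℕ} (h : Del (fun y => It (pr G) q y []) α β)
    {w : List ℕ} (hw : Par (It (pr G) (n + q)) β w) : Par (It (pr G) (n + q)) α w := by
  induction h generalizing w with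
  | nil => exact hw
  | keep _ ih =>
    obtain ⟨u, v, h1, h2, rfl⟩ := par_cons.1 hw
    exact Par.cons h1 (ih h2)
  | drop hv _ ih =>
    have h1 := it_nil_mono hv n
    rw [Nat.add_comm] at h1
    exact Par.cons (u := []) h1 (ih hw)

lemma sysOf_sound {q n : ℕ} {u v : List {x // x ∈ G.V}} {w : List ℕ}
    (h1 : Par (It (sysOf G q).N n) u v) (h2 : Par (sysOf G q).F v w) :
    Par (It (pr G) (n + q)) (u.map Subtype.val) w := by
  induction n generalizing u with
  | zero =>
    rw [par_it_zero] at h1; subst h1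
    rw [Nat.zero_add, par_map]
    exact h2.mono (fun x w h => h.2.1)
  | succ n ih =>
    obtain ⟨u', h3, h4⟩ := par_it_succ.1 h1
    have h5 := ih h4
    clear ih h1 h4
    -- split along `h3`
    have : ∀ w, Par (It (pr G) (n + q)) (u'.map Subtype.val) w →
        Par (It (pr G) (n + 1 + q)) (u.map Subtype.val) w := by
      clear h5 h2
      induction h3 with
      | nil => intro w hw; rw [map_nil, par_nil] at hw; subst hw; exact Par.nil
      | @cons x a xs b hx _ ih =>
        intro w hw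
        rw [map_append, par_append] at hw
        obtain ⟨w1, w2, hw1, hw2, rfl⟩ := hw
        rw [map_cons]
        refine Par.cons ?_ (ih w2 hw2)
        obtain ⟨_, α, h6, h7⟩ := hx
        rw [show n + 1 + q = (n + q) + 1 by omega, it_succ]
        exact ⟨α, h6, del_par h7 hw1⟩
    exact this w h5

lemma sysOf_complete {q : ℕ} (hq : ∀ x ∈ G.V, ∀ k, It (pr G) k x [] → It (pr G) q x [])
    {n : ℕ} : ∀ (x : {x // x ∈ G.V}) (w : List ℕ), w ≠ [] → (∀ y ∈ w, y ∈ G.T) →
      It (pr G) (n + q) x w → ∃ v, It (sysOf G q).N n x v ∧ Par (sysOf G q).F v w := by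
  induction n with
  | zero =>
    intro x w hw hT h
    rw [Nat.zero_add] at h
    exact ⟨[x], rfl, par_single.2 ⟨hw, h, hT⟩⟩
  | succ n ih =>
    intro x w hw hT h
    rw [show n + 1 + q = (n + q) + 1 by omega, it_succ] at h
    obtain ⟨α, h1, h2⟩ := h
    have hαV : ∀ y ∈ α, y ∈ G.V := (G.prod_wf _ h1).2
    have key : ∀ (α : List ℕ) (w : List ℕ), (∀ y ∈ α, y ∈ G.V) → (∀ y ∈ w, y ∈ G.T) →
        Par (It (pr G) (n + q)) α w → ∃ β : List {x // x ∈ G.V},
          Del (fun y => It (pr G) q y []) α (β.map Subtype.val) ∧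
          ∃ v, Par (It (sysOf G q).N n) β v ∧ Par (sysOf G q).F v w := by
      intro α
      induction α with
      | nil =>
        intro w _ _ h
        rw [par_nil] at h; subst h
        exact ⟨[], Del.nil, [], Par.nil, Par.nil⟩
      | cons y α ihα =>
        intro w hV hT h
        obtain ⟨w1, w2, hw1, hw2, rfl⟩ := par_cons.1 h
        obtain ⟨β, h3, v, h4, h5⟩ := ihα w2 (fun z hz => hV z (by simp [hz]))
          (fun z hz => hT z (by simp [hz])) hw2
        by_cases hne : w1 = []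
        · subst hne
          exact ⟨β, Del.drop (hq y (hV y (by simp)) _ hw1) h3, v, h4, h5⟩
        · obtain ⟨v1, h6, h7⟩ := ih ⟨y, hV y (by simp)⟩ w1 hne (fun z hz => hT z (by simp [hz])) hw1
          exact ⟨⟨y, hV y (by simp)⟩ :: β, Del.keep h3, v1 ++ v, Par.cons h6 h4, h7.append h5⟩
    obtain ⟨β, h3, v, h4, h5⟩ := key α w hαV hT h2
    refine ⟨v, ?_, h5⟩
    rw [it_succ]
    refine ⟨β, ⟨?_, α, h1, h3⟩, h4⟩
    rintro rfl
    rw [par_nil] at h4; subst h4
    rw [par_nil] at h5
    exact hw h5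

/-- Every EOL language is, up to the empty word and a finite set, the language of a synchronised
propagating system. -/
theorem exists_sys (G : Grammar) : ∃ (V : Type) (_ : Finite V) (H : Sys V) (x : V)
    (A : Set (List ℕ)), A.Finite ∧ lang G \ {[]} = (A \ {[]}) ∪ H.L [x] := by
  obtain ⟨q, hq⟩ := exists_vanish G
  refine ⟨{x // x ∈ G.V}, inferInstance, sysOf G q, ⟨G.S, G.S_mem⟩,
    {w | ∃ n < q, It (pr G) n G.S w ∧ ∀ y ∈ w, y ∈ G.T}, ?_, ?_⟩
  · have h0 : ∀ y : ℕ, {w | pr G y w}.Finite := by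
      intro y
      apply ((G.P.finite_toSet).image Prod.snd).subset
      intro w hw
      exact ⟨(y, w), hw, rfl⟩
    apply ((Set.finite_lt_nat q).biUnion (t := fun n => {w | It (pr G) n G.S w})
      (fun n _ => it_finite h0 n G.S)).subset
    rintro w ⟨n, h1, h2, _⟩
    simp only [Set.mem_iUnion, exists_prop]
    exact ⟨n, h1, h2⟩
  · ext w
    simp only [Set.mem_sdiff, Set.mem_singleton_iff, Set.mem_union, Set.mem_ofPred_eq,
      mem_lang_iff]
    constructor
    · rintro ⟨⟨h1, n, h2⟩, h3⟩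
      by_cases hn : n < q
      · exact Or.inl ⟨⟨n, hn, h2, h1⟩, h3⟩
      · right
        obtain ⟨m, rfl⟩ : ∃ m, n = m + q := ⟨n - q, by omega⟩
        obtain ⟨v, h4, h5⟩ := sysOf_complete hq ⟨G.S, G.S_mem⟩ w h3 h1 h2
        exact ⟨m, v, par_single.2 h4, h5⟩
    · rintro (⟨⟨n, _, h1, h2⟩, h3⟩ | h)
      · exact ⟨⟨h2, n, h1⟩, h3⟩
      · have hne := Sys.L_ne_nil (by simp) h
        obtain ⟨n, v, h1, h2⟩ := h
        refine ⟨⟨?_, n + q, ?_⟩, hne⟩
        · intro y hy
          obtain ⟨x, _, u, h3, h4⟩ := h2.mem hy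
          exact h3.2.2 y h4
        · have := sysOf_sound h1 h2
          rw [map_cons, map_nil, par_single] at this
          exact this

end OfGrammar

end Pool.Agent.Helper79.EOL
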