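import Pool.Agent.Helper79.EOL.Macro
import Pool.Agent.Helper79.EOL.Sys

/-!
# The block simulation theorem
-/

namespace Pool.Agent.Helper79.EOL

open List Pool.Agent.Helper76.EOL

/-- `Go Sp r gd x w`: the letter `x` derives `w` in `r + 1` steps in the form; if `gd` holds all
intermediate words contain `true`. -/
def Go (Sp : Bool → List Bool → Prop) (r : ℕ) (gd : Prop) (x : Bool) (w : List Bool) : Prop :=
  ∃ z, Sp x z ∧ Par (It Sp r) z w ∧ (gd → GCh Sp r z w)

lemma GCh.par {Sp : Bool → List Bool → Prop} {n : ℕ} {z w : List Bool} (h : GCh Sp n z w) :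
    Par (It Sp n) z w := by
  induction n generalizing z with
  | zero => exact par_it_zero.2 h
  | succ n ih =>
    obtain ⟨_, z', h1, h2⟩ := h
    exact par_it_succ.2 ⟨z', h1, ih h2⟩

lemma Go.plan {Sp : Bool → List Bool → Prop} {L : Type} {ty : L → Bool} {r : ℕ} {gd : Prop}
    {x : Bool} {w : List Bool} (h : Go Sp r gd x w) {u : List L} (hu : u.map ty = w) :
    ∃ P : Plan L (r + 1), P.1 = x ∧ Ok ty Sp (r + 1) P ∧ flat (r + 1) P = u ∧
      (gd → Gd ty r (kids P)) := by
  obtain ⟨z, h1, h2, h3⟩ := h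
  by_cases hg : gd
  · obtain ⟨ps, h4, h5, h6, h7⟩ := (h3 hg).plan u hu
    refine ⟨(x, ps), rfl, ⟨?_, h5⟩, h6, fun _ => h7⟩
    change Sp x (ps.map (rt ty r))
    rw [h4]; exact h1
  · obtain ⟨ps, h4, h5, h6⟩ := par_plan h2 u hu
    refine ⟨(x, ps), rfl, ⟨?_, h5⟩, h6, fun h => absurd h hg⟩
    change Sp x (ps.map (rt ty r))
    rw [h4]; exact h1

lemma Go.length_le {Sp : Bool → List Bool → Prop} {r : ℕ} {gd : Prop} {x : Bool} {w : List Bool}
    (h : Go Sp r gd x w) {d : ℕ} (hd : ∀ x w, Sp x w → w.length ≤ d) :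
    w.length ≤ d ^ (r + 1) := by
  obtain ⟨z, h1, h2, _⟩ := h
  have : It Sp (r + 1) x w := ⟨z, h1, h2⟩
  exact this.length_le hd

section

variable {F : Grammar} {a : ℕ}

lemma sh_bound (F : Grammar) (a : ℕ) : ∃ d, ∀ x w, Sh F a x w → w.length ≤ d := by
  obtain ⟨r, _, hr⟩ := Pool.Agent.Helper76.EOL.exists_bound F
  refine ⟨r, ?_⟩
  intro x w h
  have := hr _ h
  simpa using this

variable {V : Type} (H : Sys V) {K : Type} (tyK : K → Bool) (gK : K → Prop)
  (valid : K → List V → Prop) (r : ℕ) (Sp : Bool → List Bool → Prop)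

/-- Cutting the word `β'` into blocks that a block of kind `κ` can produce. -/
structure Cut (κ : K) (β' : List V) (l : List (K × List V)) : Prop where
  val : ∀ p ∈ l, valid p.1 p.2
  flat : (l.map Prod.snd).flatten = β'
  hasS : l ≠ [] → ∃ p ∈ l, tyK p.1 = true
  hasG : gK κ → ∃ p ∈ l, gK p.1
  go : Go Sp r (gK κ) (tyK κ) (l.map (fun p => tyK p.1))

/-- Macro symbols: blocks. -/
abbrev Blk : Type := {p : K × List V // valid p.1 p.2}

variable {valid}

/-- The word of a list of blocks. -/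
def wd (u : List (Blk valid)) : List V := (u.map (fun p => p.1.2)).flatten

lemma wd_cons (p : Blk valid) (u : List (Blk valid)) : wd (p :: u) = p.1.2 ++ wd u := rfl

lemma wd_append (u v : List (Blk valid)) : wd (u ++ v) = wd u ++ wd v := by
  simp [wd]

/-- Nonfinal data of a block. -/
def ND (p : Blk valid) : Set (List (Blk valid)) :=
  {u | Par H.N p.1.2 (wd u) ∧ (u ≠ [] → ∃ x ∈ u, tyK x.1.1 = true) ∧
    (gK p.1.1 → ∃ x ∈ u, gK x.1.1) ∧ Go Sp r (gK p.1.1) (tyK p.1.1) (u.map (fun x => tyK x.1.1))}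

/-- Final data of a block. -/
def FD (p : Blk valid) : Set (List ℕ) :=
  {w | Par H.F p.1.2 w ∧ (gK p.1.1 → w ≠ []) ∧
    Go Sp r (gK p.1.1) (tyK p.1.1) (replicate w.length false)}

/-- Type of the leaf labels. -/
def tyLb : Blk valid ⊕ ℕ → Bool := Sum.elim (fun p => tyK p.1.1) (fun _ => false)

lemma exists_planN {p : Blk valid} {u : List (Blk valid)} (h : u ∈ ND H tyK gK r Sp p) :
    ∃ P : Plan (Blk valid ⊕ ℕ) (r + 1), P.1 = tyK p.1.1 ∧ Ok (tyLb tyK) Sp (r + 1) P ∧
      flat (r + 1) P = u.map Sum.inl ∧ (gK p.1.1 → Gd (tyLb tyK) r (kids P)) := by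
  apply h.2.2.2.plan
  rw [map_map]; rfl

lemma exists_planF {p : Blk valid} {w : List ℕ} (h : w ∈ FD H tyK gK r Sp p) :
    ∃ P : Plan (Blk valid ⊕ ℕ) (r + 1), P.1 = tyK p.1.1 ∧ Ok (tyLb tyK) Sp (r + 1) P ∧
      flat (r + 1) P = w.map Sum.inr ∧ (gK p.1.1 → Gd (tyLb tyK) r (kids P)) := by
  apply h.2.2.plan
  rw [map_map]
  exact map_const'

/-- The block simulation theorem. -/
theorem block_interp (hF : IsSaForm F a) [Finite V] [Finite K] (H : Sys V) (tyK : K → Bool)
    (gK : K → Prop) (valid : K → List V → Prop) (hval : ∀ κ, {β | valid κ β}.Finite) (r : ℕ)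
    (hA : ∃ w, Sh F a false w ∧ true ∈ w) (hB : ∃ w, Sh F a true w ∧ true ∈ w)
    (cut : ∀ κ β, valid κ β → ∀ β', Par H.N β β' →
      ∃ l, Cut tyK gK valid r (Sh F a) κ β' l)
    (fin : ∀ κ β, valid κ β → ∀ w, Par H.F β w →
      (gK κ → w ≠ []) ∧ Go (Sh F a) r (gK κ) (tyK κ) (replicate w.length false))
    (A : Set (List ℕ)) (hAf : A.Finite)
    (hA1 : ∀ w ∈ A, w ≠ [] ∧ ∃ t, Go (Sh F a) t True true (replicate w.length false))
    (Z : Set (List V)) (hZf : Z.Finite)
    (hZ1 : ∀ z ∈ Z, z ≠ [] ∧ ∃ t, ∃ l : List (K × List V), (∀ p ∈ l, valid p.1 p.2) ∧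
      (l.map Prod.snd).flatten = z ∧ (∃ p ∈ l, gK p.1) ∧ (∃ p ∈ l, tyK p.1 = true) ∧
      Go (Sh F a) t True true (l.map (fun p => tyK p.1))) :
    ∃ G', Interprets G' F ∧ lang G' \ {[]} = A ∪ ⋃ z ∈ Z, H.L z := by
  classical
  set Sp := Sh F a with hSp
  obtain ⟨d, hd⟩ := sh_bound F a
  have hMfin : Finite (Blk valid) := by
    have : {p : K × List V | valid p.1 p.2}.Finite := by
      have e : {p : K × List V | valid p.1 p.2} = ⋃ κ, (fun β => (κ, β)) '' {β | valid κ β} := by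
        ext ⟨κ, β⟩
        simp only [Set.mem_ofPred_eq, Set.mem_iUnion, Set.mem_image, Prod.mk.injEq]
        constructor
        · intro h; exact ⟨κ, β, h, rfl, rfl⟩
        · rintro ⟨κ', β', h, rfl, rfl⟩; exact h
      rw [e]
      exact Set.finite_iUnion (fun κ => (hval κ).image _)
    exact this.to_subtype
  have hNDfin : ∀ p : Blk valid, (ND H tyK gK r Sp p).Finite := by
    intro p
    apply (List.finite_length_le (Blk valid) (d ^ (r + 1))).subset
    intro u hu
    have := hu.2.2.2.length_le hd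
    simpa using this
  have hFDfin : ∀ p : Blk valid, (FD H tyK gK r Sp p).Finite := by
    intro p
    apply (par_finite H.F_fin p.1.2).subset
    intro w hw
    exact hw.1
  -- chosen plans
  choose pN hpN using fun (p : Blk valid) (u : {u // u ∈ ND H tyK gK r Sp p}) =>
    exists_planN H tyK gK r Sp u.2
  choose pF hpF using fun (p : Blk valid) (w : {w // w ∈ FD H tyK gK r Sp p}) =>
    exists_planF H tyK gK r Sp w.2
  have exA : ∀ w : {w // w ∈ A}, ∃ i : Σ n, Plan (Blk valid ⊕ ℕ) (n + 1), i.2.1 = true ∧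
      Ok (tyLb tyK) Sp _ i.2 ∧ flat _ i.2 = w.1.map Sum.inr ∧ Gd (tyLb tyK) i.1 (kids i.2) := by
    intro w
    obtain ⟨_, t, ht⟩ := hA1 w.1 w.2
    obtain ⟨P, h1, h2, h3, h4⟩ := ht.plan (ty := tyLb (valid := valid) tyK)
      (u := w.1.map Sum.inr) (by rw [map_map]; exact map_const')
    exact ⟨⟨t, P⟩, h1, h2, h3, h4 trivial⟩
  choose iA hiA using exA
  have exZ : ∀ z : {z // z ∈ Z}, ∃ i : Σ n, Plan (Blk valid ⊕ ℕ) (n + 1), i.2.1 = true ∧
      Ok (tyLb tyK) Sp _ i.2 ∧ Gd (tyLb tyK) i.1 (kids i.2) ∧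
      ∃ u : List (Blk valid), flat _ i.2 = u.map Sum.inl ∧ wd u = z.1 ∧
        (∃ x ∈ u, gK x.1.1) ∧ ∃ x ∈ u, tyK x.1.1 = true := by
    intro z
    obtain ⟨_, t, l, hl1, hl2, ⟨p, hp1, hp2⟩, ⟨q, hq1, hq2⟩, hgo⟩ := hZ1 z.1 z.2
    have hu : (l.attach.map (fun p => (⟨p.1, hl1 p.1 p.2⟩ : Blk valid))).map Subtype.val = l := by
      rw [map_map]
      exact attach_map_subtype_val l
    set u := l.attach.map (fun p => (⟨p.1, hl1 p.1 p.2⟩ : Blk valid)) with hudef
    obtain ⟨P, h1, h2, h3, h4⟩ := hgo.plan (ty := tyLb (valid := valid) tyK)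
      (u := u.map Sum.inl) (by
        rw [map_map]
        conv_rhs => rw [← hu, map_map]
        rfl)
    refine ⟨⟨t, P⟩, h1, h2, h4 trivial, u, h3, ?_, ?_, ?_⟩
    · rw [← hl2, ← hu, map_map]
      rfl
    · exact ⟨⟨p, hl1 p hp1⟩, mem_map.2 ⟨⟨p, hp1⟩, mem_attach _ _, rfl⟩, hp2⟩
    · exact ⟨⟨q, hl1 q hq1⟩, mem_map.2 ⟨⟨q, hq1⟩, mem_attach _ _, rfl⟩, hq2⟩
  choose iZ hiZ using exZ
  let D : MacroData :=
    { M := Blk valid
      finM := hMfin
      tyM := fun p => tyK p.1.1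
      guard := fun p => gK p.1.1
      r := r
      rules := fun p => Set.range (pN p) ∪ Set.range (pF p)
      rules_fin := by
        intro p
        have h1 : Finite {u // u ∈ ND H tyK gK r Sp p} := (hNDfin p).to_subtype
        have h2 : Finite {w // w ∈ FD H tyK gK r Sp p} := (hFDfin p).to_subtype
        exact (Set.finite_range _).union (Set.finite_range _)
      init := Set.range iA ∪ Set.range iZ
      init_fin := by
        have h1 : Finite {u // u ∈ A} := hAf.to_subtype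
        have h2 : Finite {w // w ∈ Z} := hZf.to_subtype
        exact (Set.finite_range _).union (Set.finite_range _) }
  have hNM : ∀ p u, D.NM p u → Par H.N p.1.2 (wd u) := by
    rintro p u ⟨P, hP, hP2⟩
    rcases hP with ⟨⟨u', hu'⟩, rfl⟩ | ⟨⟨w, hw⟩, rfl⟩
    · have h1 := (hpN p ⟨u', hu'⟩).2.2.1
      rw [h1] at hP2
      have h2 : u' = u := map_injective_iff.2 Sum.inl_injective hP2
      rw [← h2]
      exact hu'.1
    · have h1 := (hpF p ⟨w, hw⟩).2.2.1
      rw [h1] at hP2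
      have hw0 : w = [] := by
        cases w with
        | nil => rfl
        | cons x w =>
          cases u with
          | nil => simp at hP2
          | cons y u => simp at hP2
      subst hw0
      have hu0 : u = [] := by simpa using hP2.symm
      subst hu0
      have h3 := hw.1
      have h4 := h3.le_length H.F_ne
      have h5 : p.1.2 = [] := length_eq_zero_iff.1 (by simpa using h4)
      rw [h5]
      exact Par.nil
  have hFM : ∀ p w, D.FM p w → Par H.F p.1.2 w := by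
    rintro p w ⟨P, hP, hP2⟩
    rcases hP with ⟨⟨u', hu'⟩, rfl⟩ | ⟨⟨w', hw'⟩, rfl⟩
    · have h1 := (hpN p ⟨u', hu'⟩).2.2.1
      rw [h1] at hP2
      have hw0 : w = [] := by
        cases w with
        | nil => rfl
        | cons x w =>
          cases u' with
          | nil => simp at hP2
          | cons y u => simp at hP2
      subst hw0
      have hu0 : u' = [] := by simpa using hP2
      subst hu0
      have h3 := hu'.1
      have h4 := h3.le_length H.N_ne
      have h5 : p.1.2 = [] := length_eq_zero_iff.1 (by simpa [wd] using h4)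
      rw [h5]
      exact Par.nil
    · have h1 := (hpF p ⟨w', hw'⟩).2.2.1
      rw [h1] at hP2
      have h2 : w' = w := map_injective_iff.2 Sum.inr_injective hP2
      rw [← h2]
      exact hw'.1
  have hNM' : ∀ p u, u ∈ ND H tyK gK r Sp p → D.NM p u := by
    intro p u hu
    exact ⟨pN p ⟨u, hu⟩, Or.inl ⟨_, rfl⟩, (hpN p ⟨u, hu⟩).2.2.1⟩
  have hFM' : ∀ p w, w ∈ FD H tyK gK r Sp p → D.FM p w := by
    intro p w hw
    exact ⟨pF p ⟨w, hw⟩, Or.inr ⟨_, rfl⟩, (hpF p ⟨w, hw⟩).2.2.1⟩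
  have tyeq : D.tyL = tyLb tyK := rfl
  have hD : D.Good Sp :=
    { rules_ty := by
        rintro m p (⟨u, rfl⟩ | ⟨w, rfl⟩)
        · exact (hpN m u).1
        · exact (hpF m w).1
      rules_ok := by
        rintro m p (⟨u, rfl⟩ | ⟨w, rfl⟩)
        · exact (hpN m u).2.1
        · exact (hpF m w).2.1
      rules_leaf := by
        rintro m p (⟨u, rfl⟩ | ⟨w, rfl⟩)
        · exact Or.inl ⟨u.1, (hpN m u).2.2.1, u.2.2.1⟩
        · exact Or.inr ⟨w.1, (hpF m w).2.2.1⟩
      guard_gd := by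
        rintro m hm p (⟨u, rfl⟩ | ⟨w, rfl⟩)
        · exact (hpN m u).2.2.2 hm
        · exact (hpF m w).2.2.2 hm
      guard_leaf := by
        rintro m hm p (⟨u, rfl⟩ | ⟨w, rfl⟩)
        · exact Or.inl ⟨u.1, (hpN m u).2.2.1, u.2.2.2.1 hm⟩
        · exact Or.inr ⟨w.1, w.2.2.1 hm, (hpF m w).2.2.1⟩
      init_ty := by
        rintro i (⟨w, rfl⟩ | ⟨z, rfl⟩)
        · exact (hiA w).1
        · exact (hiZ z).1
      init_ok := by
        rintro i (⟨w, rfl⟩ | ⟨z, rfl⟩)
        · exact (hiA w).2.1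
        · exact (hiZ z).2.1
      init_gd := by
        rintro i (⟨w, rfl⟩ | ⟨z, rfl⟩)
        · exact (hiA w).2.2.2
        · exact (hiZ z).2.2.1
      init_leaf := by
        rintro i (⟨w, rfl⟩ | ⟨z, rfl⟩)
        · exact Or.inl ⟨w.1, (hA1 w.1 w.2).1, (hiA w).2.2.1⟩
        · obtain ⟨u, h1, _, h2, h3⟩ := (hiZ z).2.2.2
          exact Or.inr ⟨u, h1, h2, h3⟩ }
  obtain ⟨G', hG1, hG2⟩ := MacroData.exists_interp_macro hF D hD hA hB
  refine ⟨G', hG1, ?_⟩
  rw [hG2]
  -- soundness of iterated macro steps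
  have sound : ∀ (k : ℕ) (u v : List (Blk valid)), Par (It D.NM k) u v →
      Par (It H.N k) (wd u) (wd v) := by
    have one : ∀ (u v : List (Blk valid)), Par D.NM u v → Par H.N (wd u) (wd v) := by
      intro u v h
      induction h with
      | nil => exact Par.nil
      | @cons x u xs v h1 _ ih =>
        rw [wd_cons, wd_append]
        exact (hNM _ _ h1).append ih
    intro k
    induction k with
    | zero =>
      intro u v h
      rw [par_it_zero] at h ⊢
      rw [h]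
    | succ k ih =>
      intro u v h
      obtain ⟨u', h1, h2⟩ := par_it_succ.1 h
      exact par_it_succ.2 ⟨_, one _ _ h1, ih _ _ h2⟩
  have soundF : ∀ (u : List (Blk valid)) (w : List ℕ), Par D.FM u w → Par H.F (wd u) w := by
    intro u w h
    induction h with
    | nil => exact Par.nil
    | @cons x u xs v h1 _ ih =>
      rw [wd_cons]
      exact (hFM _ _ h1).append ih
  -- completeness
  have comp1 : ∀ (u : List (Blk valid)) (β' : List V), Par H.N (wd u) β' →
      ∃ v, Par D.NM u v ∧ wd v = β' := by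
    intro u
    induction u with
    | nil =>
      intro β' h
      have h' : Par H.N [] β' := h
      rw [par_nil] at h'
      subst h'
      exact ⟨[], Par.nil, rfl⟩
    | cons p u ih =>
      intro β' h
      rw [wd_cons, par_append] at h
      obtain ⟨b1, b2, h1, h2, rfl⟩ := h
      obtain ⟨v, h3, rfl⟩ := ih b2 h2
      obtain ⟨l, hl⟩ := cut p.1.1 p.1.2 p.2 b1 h1
      have hu : (l.attach.map (fun p => (⟨p.1, hl.val p.1 p.2⟩ : Blk valid))).map Subtype.val = l := by
        rw [map_map]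
        exact attach_map_subtype_val l
      set v' := l.attach.map (fun p => (⟨p.1, hl.val p.1 p.2⟩ : Blk valid)) with hvdef
      have hwd : wd v' = b1 := by
        rw [← hl.flat, ← hu, map_map]
        rfl
      refine ⟨v' ++ v, Par.cons (hNM' p v' ⟨?_, ?_, ?_, ?_⟩) h3, ?_⟩
      · rw [hwd]; exact h1
      · intro hne
        have hlne : l ≠ [] := by
          rintro rfl
          exact hne rfl
        obtain ⟨q, hq1, hq2⟩ := hl.hasS hlne
        exact ⟨⟨q, hl.val q hq1⟩, mem_map.2 ⟨⟨q, hq1⟩, mem_attach _ _, rfl⟩, hq2⟩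
      · intro hg
        obtain ⟨q, hq1, hq2⟩ := hl.hasG hg
        exact ⟨⟨q, hl.val q hq1⟩, mem_map.2 ⟨⟨q, hq1⟩, mem_attach _ _, rfl⟩, hq2⟩
      · have := hl.go
        rw [← hu, map_map] at this
        exact this
      · rw [wd_append, hwd]
  have compF : ∀ (u : List (Blk valid)) (w : List ℕ), Par H.F (wd u) w → Par D.FM u w := by
    intro u
    induction u with
    | nil =>
      intro w h
      have h' : Par H.F [] w := h
      rw [par_nil] at h'
      subst h'
      exact Par.nil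
    | cons p u ih =>
      intro w h
      rw [wd_cons, par_append] at h
      obtain ⟨b1, b2, h1, h2, rfl⟩ := h
      obtain ⟨h3, h4⟩ := fin p.1.1 p.1.2 p.2 b1 h1
      exact Par.cons (hFM' p b1 ⟨h1, h3, h4⟩) (ih b2 h2)
  have comp : ∀ (k : ℕ) (u : List (Blk valid)) (β' : List V), Par (It H.N k) (wd u) β' →
      ∃ v, Par (It D.NM k) u v ∧ wd v = β' := by
    intro k
    induction k with
    | zero =>
      intro u β' h
      rw [par_it_zero] at h
      exact ⟨u, par_it_zero.2 rfl, h⟩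
    | succ k ih =>
      intro u β' h
      obtain ⟨b, h1, h2⟩ := par_it_succ.1 h
      obtain ⟨v, h3, rfl⟩ := comp1 u b h1
      obtain ⟨v', h4, h5⟩ := ih v β' h2
      exact ⟨v', par_it_succ.2 ⟨v, h3, h4⟩, h5⟩
  ext w
  simp only [MacroData.MLang, Set.mem_ofPred_eq, Set.mem_union, Set.mem_iUnion, exists_prop]
  constructor
  · rintro ⟨hw, ⟨i, hi, h1⟩ | ⟨v, ⟨i, hi, u, h1, k, h2⟩, h3⟩⟩
    · rcases hi with ⟨w', rfl⟩ | ⟨z, rfl⟩
      · left
        have h2 := (hiA w').2.2.1
        rw [h1] at h2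
        have h3 : w = w'.1 := map_injective_iff.2 Sum.inr_injective h2
        rw [h3]; exact w'.2
      · exfalso
        obtain ⟨u, h2, _, ⟨x, hx, _⟩, _⟩ := (hiZ z).2.2.2
        rw [h1] at h2
        have : (Sum.inl x : Blk valid ⊕ ℕ) ∈ w.map Sum.inr := by
          rw [h2]; exact mem_map_of_mem hx
        simp at this
    · rcases hi with ⟨w', rfl⟩ | ⟨z, rfl⟩
      · exfalso
        have h4 := (hiA w').2.2.1
        rw [h1] at h4
        obtain ⟨y, hy⟩ := exists_mem_of_ne_nil w'.1 (hA1 w'.1 w'.2).1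
        have : (Sum.inr y : Blk valid ⊕ ℕ) ∈ u.map Sum.inl := by
          rw [h4]; exact mem_map_of_mem hy
        simp at this
      · right
        obtain ⟨u', h4, h5, _⟩ := (hiZ z).2.2.2
        rw [h1] at h4
        have h6 : u = u' := map_injective_iff.2 Sum.inl_injective h4
        subst h6
        refine ⟨z.1, z.2, k, wd v, ?_, soundF v w h3⟩
        rw [← h5]
        exact sound k u v h2
  · rintro (hw | ⟨z, hz, k, b, h1, h2⟩)
    · refine ⟨(hA1 w hw).1, Or.inl ⟨iA ⟨w, hw⟩, Or.inl ⟨_, rfl⟩, (hiA ⟨w, hw⟩).2.2.1⟩⟩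
    · obtain ⟨u, h4, h5, _⟩ := (hiZ ⟨z, hz⟩).2.2.2
      have h1' : Par (It H.N k) (wd u) b := by rw [h5]; exact h1
      obtain ⟨v, h6, rfl⟩ := comp k u b h1'
      refine ⟨?_, Or.inr ⟨v, ⟨iZ ⟨z, hz⟩, Or.inr ⟨_, rfl⟩, u, h4, k, h6⟩, compF v w h2⟩⟩
      exact Sys.L_ne_nil (hZ1 z hz).1 ⟨k, _, h1, h2⟩

end

end Pool.Agent.Helper79.EOL
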