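import Pool.Agent.Helper79.EOL.NegRC

/-!
# Conditions on the shapes in terms of the productions
-/

namespace Pool.Agent.Helper79.EOL

open List Pool.Agent.Helper76.EOL

/-- The words derivable from the start letter by a derivation in which every word except possibly
the last one contains the start letter. -/
inductive Guarded (F : Grammar) : List ℕ → Prop
  | start : Guarded F [F.S]
  | step {u v : List ℕ} : Guarded F u → F.S ∈ u → Step F u v → Guarded F v

variable {F : Grammar} {a : ℕ}

lemma exists_map_sl (hF : IsSaForm F a) {v : List ℕ} (hv : ∀ x ∈ v, x ∈ F.V) :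
    ∃ w : List Bool, v = w.map (sl F a) := by
  induction v with
  | nil => exact ⟨[], rfl⟩
  | cons x v ih =>
    obtain ⟨w, hw⟩ := ih (fun y hy => hv y (by simp [hy]))
    have hx := hv x (by simp)
    rw [hF.1, Finset.mem_insert, Finset.mem_singleton] at hx
    rcases hx with rfl | rfl
    · exact ⟨true :: w, by simp [hw]⟩
    · exact ⟨false :: w, by simp [hw]⟩

lemma pr_form (hF : IsSaForm F a) {b : Bool} {v : List ℕ} :
    pr F (sl F a b) v ↔ ∃ w, Sh F a b w ∧ v = w.map (sl F a) := by
  constructor
  · intro h
    obtain ⟨w, rfl⟩ := exists_map_sl hF (F.prod_wf _ h).2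
    exact ⟨w, h, rfl⟩
  · rintro ⟨w, h, rfl⟩
    exact h

lemma par_form (hF : IsSaForm F a) {w : List Bool} {v : List ℕ} :
    Par (pr F) (w.map (sl F a)) v ↔ ∃ w', Par (Sh F a) w w' ∧ v = w'.map (sl F a) := by
  rw [par_map, ← par_map_right]
  constructor
  · intro h
    exact h.mono (fun _ _ h => (pr_form hF).1 h)
  · intro h
    exact h.mono (fun _ _ h => (pr_form hF).2 h)

lemma mem_map_sl (hF : IsSaForm F a) {w : List Bool} : F.S ∈ w.map (sl F a) ↔ true ∈ w := by
  rw [show F.S = sl F a true from rfl, mem_map_of_injective (sl_inj hF)]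

lemma mem_map_sl' (hF : IsSaForm F a) {w : List Bool} : a ∈ w.map (sl F a) ↔ false ∈ w := by
  exact mem_map_of_injective (sl_inj hF) (a := false)

lemma count_map_sl (hF : IsSaForm F a) {w : List Bool} :
    (w.map (sl F a)).count a = w.count false := by
  have := count_map_of_injective w (sl F a) (sl_inj hF) false
  rw [sl_false] at this
  exact this

lemma count_map_sl' (hF : IsSaForm F a) {w : List Bool} :
    (w.map (sl F a)).count F.S = w.count true := by
  have := count_map_of_injective w (sl F a) (sl_inj hF) true
  rw [sl_true] at this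
  exact this

/-- Conditions on `S`-productions. -/
lemma exists_true_iff (hF : IsSaForm F a) (b : Bool) (p : List ℕ → Prop) :
    (∃ α, (sl F a b, α) ∈ F.P ∧ p α) ↔ ∃ w, Sh F a b w ∧ p (w.map (sl F a)) := by
  constructor
  · rintro ⟨α, h1, h2⟩
    obtain ⟨w, h3, rfl⟩ := (pr_form hF).1 (show pr F (sl F a b) α from h1)
    exact ⟨w, h3, h2⟩
  · rintro ⟨w, h1, h2⟩
    exact ⟨w.map (sl F a), h1, h2⟩

lemma guarded_iff_GCh (hF : IsSaForm F a) {v : List ℕ} :
    Guarded F v ↔ ∃ n w, GCh (Sh F a) n [true] w ∧ v = w.map (sl F a) := by
  constructor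
  · intro h
    induction h with
    | start => exact ⟨0, [true], rfl, rfl⟩
    | step _ h2 h3 ih =>
      obtain ⟨n, w, h4, rfl⟩ := ih
      rw [step_iff, par_form hF] at h3
      obtain ⟨w', h5, rfl⟩ := h3
      rw [mem_map_sl hF] at h2
      exact ⟨n + 1, w', GCh.succ'.2 ⟨w, h4, h2, h5⟩, rfl⟩
  · rintro ⟨n, w, h, rfl⟩
    induction n generalizing w with
    | zero =>
      have : [true] = w := h
      subst this
      exact Guarded.start
    | succ n ih =>
      obtain ⟨z, h1, h2, h3⟩ := GCh.succ'.1 h
      exact Guarded.step (ih z h1) ((mem_map_sl hF).2 h2) (step_iff.2 ((par_form hF).2 ⟨w, h3, rfl⟩))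

lemma guarded_iff (hF : IsSaForm F a) {k : ℕ} :
    Guarded F (replicate k a) ↔ GK (Sh F a) k := by
  rw [guarded_iff_GCh hF]
  constructor
  · rintro ⟨n, w, h1, h2⟩
    have e : w = replicate k false := by
      apply (map_injective_iff.2 (sl_inj hF))
      rw [← h2, map_replicate]
      rfl
    subst e
    cases n with
    | zero =>
      exfalso
      have h3 : [true] = replicate k false := h1
      have : true ∈ replicate k false := by rw [← h3]; simp
      have := eq_of_mem_replicate this
      simp at this
    | succ n => exact ⟨n, h1⟩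
  · rintro ⟨t, h⟩
    exact ⟨t + 1, _, h, by rw [map_replicate]; rfl⟩

lemma sh_replicate {b c : Bool} {j : ℕ} :
    Sh F a b (replicate j c) ↔ (sl F a b, replicate j (sl F a c)) ∈ F.P := by
  unfold Sh
  rw [map_replicate]

/-- The classification of the erasing forms in terms of the productions. -/
theorem complete_iff_erasing (hF : IsSaForm F a) (he : ∃ X, (X, []) ∈ F.P) :
    Complete F ↔ (∃ α, (a, α) ∈ F.P ∧ F.S ∈ α) ∧ (∀ k, 1 ≤ k → Guarded F (replicate k a)) ∧
      ((∃ α, (a, α) ∈ F.P ∧ α.count a ≤ 1 ∧ α ≠ [a]) ∨
        ∃ s, 2 ≤ s ∧ (F.S, replicate s F.S) ∈ F.P) := by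
  have he' : ∃ x, Sh F a x [] := by
    obtain ⟨X, hX⟩ := he
    have hXV := (F.prod_wf _ hX).1
    rw [hF.1, Finset.mem_insert, Finset.mem_singleton] at hXV
    rcases hXV with rfl | rfl
    · exact ⟨true, hX⟩
    · exact ⟨false, hX⟩
  rw [complete_iff_of_erasing hF he']
  have h1 := exists_true_iff hF false (fun α => F.S ∈ α)
  rw [sl_false] at h1
  have h2 := exists_true_iff hF false (fun α => α.count a ≤ 1 ∧ α ≠ [a])
  rw [sl_false] at h2
  rw [h1, h2]
  simp only [mem_map_sl hF, guarded_iff hF, count_map_sl hF]
  refine and_congr_right (fun _ => and_congr_right (fun _ => ?_))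
  have ha : ∀ w : List Bool, w.map (sl F a) ≠ [a] ↔ w ≠ [false] := by
    intro w
    rw [not_iff_not]
    constructor
    · intro h
      apply (map_injective_iff.2 (sl_inj hF))
      rw [h]; rfl
    · rintro rfl; rfl
  simp only [ha]
  have hs : (∃ s, 2 ≤ s ∧ (F.S, replicate s F.S) ∈ F.P) ↔
      ∃ s, 2 ≤ s ∧ Sh F a true (replicate s true) := by
    simp only [sh_replicate, sl_true]
  rw [hs]
  constructor
  · rintro (h | ⟨_, j, hj, h⟩ | ⟨_, h | ⟨j, hj, h⟩⟩ | ⟨_, h⟩ | ⟨_, w, h, h3, h4⟩)
    · exact Or.inl ⟨[], h, by simp, by simp⟩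
    · refine Or.inl ⟨_, h, ?_, ?_⟩
      · rw [count_eq_zero.2 (fun h => by have := eq_of_mem_replicate h; simp at this)]
        omega
      · intro e
        have : false ∈ replicate j true := by rw [e]; simp
        have := eq_of_mem_replicate this
        simp at this
    · exact Or.inr h
    · refine Or.inl ⟨_, h, ?_, ?_⟩
      · rw [count_eq_zero.2 (fun h => by have := eq_of_mem_replicate h; simp at this)]
        omega
      · intro e
        have : false ∈ replicate j true := by rw [e]; simp
        have := eq_of_mem_replicate this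
        simp at this
    · exact Or.inr h
    · refine Or.inl ⟨w, h, by omega, ?_⟩
      rintro rfl
      simp at h4
  · intro h
    by_cases hl : Sh F a false []
    · exact Or.inl hl
    · have h0 : Sh F a true [] := by
        obtain ⟨x, hx⟩ := he'
        cases x
        · exact absurd hx hl
        · exact hx
      rcases h with ⟨w, h3, h4, h5⟩ | h
      · by_cases hc : w.count false = 0
        · have hw : w = replicate w.length true := by
            apply eq_replicate_of_mem
            intro b hb
            cases b
            · exact absurd hb (count_eq_zero.1 hc)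
            · rfl
          refine Or.inr (Or.inl ⟨h0, w.length, ?_, by rw [← hw]; exact h3⟩)
          rw [Nat.one_le_iff_ne_zero]
          intro h6
          rw [length_eq_zero_iff] at h6
          subst h6
          exact hl h3
        · refine Or.inr (Or.inr (Or.inr (Or.inr ⟨h0, w, h3, by omega, ?_⟩)))
          by_contra ht
          have hw : w = replicate w.length false := by
            apply eq_replicate_of_mem
            intro b hb
            cases b
            · rfl
            · exact absurd hb ht
          have : w.length = 1 := by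
            rw [hw, count_replicate_self] at h4 hc
            omega
          rw [this] at hw
          exact h5 hw
      · exact Or.inr (Or.inr (Or.inr (Or.inl ⟨h0, h⟩)))

end Pool.Agent.Helper79.EOL
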