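import Pool.Agent.Helper79.EOL.Flex

/-!
# Completeness in the second regime (without `S → S`): conclusion
-/

namespace Pool.Agent.Helper79.EOL

open List Pool.Agent.Helper76.EOL

variable {Sp : Bool → List Bool → Prop}

lemma Sa_of_propagating (hp : ∀ x w, Sp x w → w ≠ []) (hK : GK Sp 1) : Sp true [false] := by
  obtain ⟨t, ht⟩ := hK
  obtain ⟨z, _, h2, h3⟩ := GCh.succ'.1 ht
  have h4 := h3.le_length hp
  rw [length_replicate] at h4
  obtain ⟨y, rfl⟩ : ∃ y, z = [y] := by
    match z, h2, h4 with
    | [], h, _ => simp at h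
    | [y], _, _ => exact ⟨y, rfl⟩
    | _ :: _ :: _, _, h => simp at h
  have : true = y := mem_singleton.1 h2
  subst this
  exact par_single.1 h3

lemma rep3 (b : Bool) (P Q g : ℕ) :
    replicate P b ++ (replicate g b ++ replicate Q b) = replicate (P + g + Q) b := by
  rw [← replicate_add, ← replicate_add]
  congr 1
  omega

lemma rep3' (b : Bool) (P Q : ℕ) :
    replicate P b ++ ([b] ++ replicate Q b) = replicate (P + 1 + Q) b := rep3 b P Q 1

/-- Regime II without `S → S`. -/
theorem simSys_II {F : Grammar} {a : ℕ} (hF : IsSaForm F a)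
    (hK : ∀ k, 1 ≤ k → GK (Sh F a) k) (hp : ∀ x w, Sh F a x w → w ≠ [])
    (haS : Sh F a false [true]) (hns : ¬ Sh F a true [true]) : SimSys F := by
  set Sp := Sh F a with hSp
  obtain ⟨d, hd⟩ := sh_bound F a
  have hSa : Sp true [false] := Sa_of_propagating hp (hK 1 le_rfl)
  have hu : ∀ x, Sp x [!x] := by
    intro x
    cases x
    · exact haS
    · exact hSa
  obtain ⟨ω, hω, hωt, hωf⟩ := exists_mixed hu hd hp hns (hK _ (by omega))
  obtain ⟨u₁, v₁, hW1, hl1⟩ := exists_type1 hu hω hωt hωf
  obtain ⟨u₂, v₂, hW2, hl2⟩ := exists_type2 hu hω hωt hωf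
  have hW3 : PW Sp (u₂ ++ ([false] ++ (v₂ ++ ([true] ++ (u₁ ++ ([false] ++ v₁)))))) := by
    have := PW.comp hu (u := []) (v := u₁ ++ ([false] ++ v₁)) (y := true)
      (ρ := u₂ ++ ([false] ++ (v₂ ++ [true]))) hW1 hW2
    simpa using this
  obtain ⟨t₁, ht₁⟩ := hW1
  obtain ⟨t₂, ht₂⟩ := hW2
  obtain ⟨t₃, ht₃⟩ := hW3
  obtain ⟨l₁, hl₁, hflex⟩ := flex_unif hu hd hp hns hK
  obtain ⟨g, hg⟩ : ∃ g, (1 ≤ g ∧ Sp true (replicate g true)) ∨ Sp false (replicate g false) := by
    rcases exists_flip hd hp hns (hK _ (by omega)) with ⟨j, h1, h2⟩ | ⟨g, h1, h2⟩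
    · exact ⟨j, Or.inl ⟨by omega, h2⟩⟩
    · exact ⟨g, Or.inr h2⟩
  set p0 := 1 + (u₁.length + v₁.length + u₂.length + v₂.length + 1) * l₁ with hp0
  set k₀ := 1 + g + (u₁.length + v₁.length) * l₁ + l₁ with hk₀
  have hb1 : 1 + (u₁.length + v₁.length) * l₁ ≤ p0 := by
    have : (u₁.length + v₁.length) * l₁ ≤
        (u₁.length + v₁.length + u₂.length + v₂.length + 1) * l₁ :=
      Nat.mul_le_mul_right _ (by omega)
    omega
  have hb2 : 1 + (u₂.length + v₂.length) * l₁ ≤ p0 := by
    have : (u₂.length + v₂.length) * l₁ ≤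
        (u₁.length + v₁.length + u₂.length + v₂.length + 1) * l₁ :=
      Nat.mul_le_mul_right _ (by omega)
    omega
  have hb3 : (u₁.length + 1 + v₁.length) * l₁ ≤ p0 := by
    have : (u₁.length + 1 + v₁.length) * l₁ ≤
        (u₁.length + v₁.length + u₂.length + v₂.length + 1) * l₁ :=
      Nat.mul_le_mul_right _ (by omega)
    omega
  have key : ∀ N, ∃ r₀, ∀ r, r₀ ≤ r → r % 2 = 1 →
      (∀ p q, Adm 1 p0 p → Adm 1 p0 q → p ≤ N → q ≤ N → ¬ (p = 0 ∧ q = 0) →
        GCh Sp r [true] (tyPat p q)) ∧
      (∀ k, k₀ ≤ k → k ≤ N → GCh Sp r [true] (replicate k false)) ∧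
      (∀ l, l₁ ≤ l → l ≤ N → ∀ y, It Sp (r + 1) true (replicate l y)) := by
    intro N
    obtain ⟨n1, hn1⟩ := hflex N
    refine ⟨t₁ + t₂ + t₃ + n1 + 3, ?_⟩
    intro r hr hodd
    refine ⟨?_, ?_, fun l h1 h2 y => hn1 (r + 1) (by omega) l h1 h2 true y⟩
    · intro p q hap haq hpN hqN hpq
      have hap' := hap.2
      have haq' := haq.2
      by_cases hp0' : p = 0
      · subst hp0'
        have hq : p0 ≤ q := by
          rcases haq' with h | h
          · exact absurd ⟨rfl, h⟩ hpq
          · exact h
        obtain ⟨n, rfl⟩ : ∃ n, r = t₁ + (n + 1) := ⟨r - 1 - t₁, by omega⟩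
        obtain ⟨Q, R, h1, h2, h3, h4, h5⟩ := split_num l₁ u₁ v₁ hl1 (m := q - 1) (by omega)
        have hX : Sp (fl (t₁ + n) true) [false] := by
          rw [fl_even (by omega)]; exact hSa
        have hY : Sp (fl (t₁ + n) false) [true] := by
          rw [fl_even (by omega)]; exact haS
        have h6 := lead_word hu (u := []) (v := u₁) (c := v₁) (x := true) (y := false) (P := 0)
          (Q := Q) (R := R) true rfl (ht₁ t₁ le_rfl) (hn1 (n + 1) (by omega)) hX hY
          (fun _ => rfl) (by simp) (by omega) h2 h3 (by omega) h4 h5 (by omega)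
        rw [rep3' true Q R, show Q + 1 + R = q by omega] at h6
        exact h6
      · have hpp : p0 ≤ p := hap'.resolve_left hp0'
        obtain ⟨P, Q, h1, h2, h3, h4, h5⟩ := split_num l₁ u₂ v₂ hl2 (m := p - 1) (by omega)
        by_cases hq0 : q = 0
        · subst hq0
          obtain ⟨n, rfl⟩ : ∃ n, r = t₂ + (n + 1) := ⟨r - 1 - t₂, by omega⟩
          have hX : Sp (fl (t₂ + n) false) [true] := by
            rw [fl_even (by omega)]; exact haS
          have hY : Sp (fl (t₂ + n) true) [false] := by
            rw [fl_even (by omega)]; exact hSa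
          have h6 := lead_word hu (u := u₂) (v := v₂) (c := []) (x := false) (y := true) (P := P)
            (Q := Q) (R := 0) true rfl (by simpa using ht₂ t₂ le_rfl) (hn1 (n + 1) (by omega))
            hX hY h2 h3 (by omega) h4 h5 (by omega) (fun _ => rfl) (by simp) (by omega)
          have e : replicate P true ++ ([true] ++ (replicate Q true ++ ([false] ++
              replicate 0 true))) = tyPat p 0 := by
            unfold tyPat
            rw [show p = P + 1 + Q by omega, ← rep3' true P Q]
            simp only [append_assoc]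
          rw [e] at h6
          exact h6
        · have hqq : p0 ≤ q := haq'.resolve_left hq0
          obtain ⟨n, rfl⟩ : ∃ n, r = t₃ + (n + 1) := ⟨r - 1 - t₃, by omega⟩
          have hX : Sp (fl (t₃ + n) false) [true] := by
            rw [fl_even (by omega)]; exact haS
          have hY : Sp (fl (t₃ + n) true) [false] := by
            rw [fl_even (by omega)]; exact hSa
          have hlen : (u₁ ++ ([false] ++ v₁)).length * l₁ ≤ q := by
            have : (u₁ ++ ([false] ++ v₁)).length = u₁.length + 1 + v₁.length := by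
              simp only [length_append, length_cons, length_nil]
              omega
            rw [this]
            omega
          have h6 := lead_word hu (u := u₂) (v := v₂) (c := u₁ ++ ([false] ++ v₁)) (x := false)
            (y := true) (P := P) (Q := Q) (R := q) true rfl (ht₃ t₃ le_rfl)
            (hn1 (n + 1) (by omega)) hX hY h2 h3 (by omega) h4 h5 (by omega)
            (fun h => by simp at h) hlen (by omega)
          have e : replicate P true ++ ([true] ++ (replicate Q true ++ ([false] ++
              replicate q true))) = tyPat p q := by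
            unfold tyPat
            rw [show p = P + 1 + Q by omega, ← rep3' true P Q]
            simp only [append_assoc]
          rw [e] at h6
          exact h6
    · intro k hk hkN
      obtain ⟨Q, R, h1, h2, h3, h4, h5⟩ := split_num l₁ u₁ v₁ hl1 (m := k - 1 - g) (by omega)
      rcases hg with ⟨hg1, hg⟩ | hg
      · obtain ⟨n, rfl⟩ : ∃ n, r = t₁ + (n + 1) + 1 := ⟨r - 2 - t₁, by omega⟩
        have hX : Sp (fl (t₁ + n) true) [true] := by
          rw [fl_odd (by omega)]; exact haS
        have hY : Sp (fl (t₁ + n) false) (replicate g true) := by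
          rw [fl_odd (by omega)]; exact hg
        have h6 := lead_word hu (u := []) (v := u₁) (c := v₁) (x := true) (y := false) (P := 0)
          (Q := Q) (R := R) true rfl (ht₁ t₁ le_rfl) (hn1 (n + 1) (by omega)) hX hY
          (fun _ => rfl) (by simp) (by omega) h2 h3 (by omega) h4 h5 (by omega)
        have e : replicate 0 true ++ ([true] ++ (replicate Q true ++ (replicate g true ++
            replicate R true))) = replicate k true := by
          rw [rep3, rep3']
          congr 1
          omega
        rw [e] at h6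
        rw [GCh.succ']
        refine ⟨_, h6, ?_, par_rep_flip hu k true⟩
        rw [mem_replicate]
        exact ⟨by omega, rfl⟩
      · obtain ⟨n, rfl⟩ : ∃ n, r = t₁ + (n + 1) := ⟨r - 1 - t₁, by omega⟩
        have hX : Sp (fl (t₁ + n) true) [false] := by
          rw [fl_even (by omega)]; exact hSa
        have hY : Sp (fl (t₁ + n) false) (replicate g false) := by
          rw [fl_even (by omega)]; exact hg
        have h6 := lead_word hu (u := []) (v := u₁) (c := v₁) (x := true) (y := false) (P := 0)
          (Q := Q) (R := R) false rfl (ht₁ t₁ le_rfl) (hn1 (n + 1) (by omega)) hX hY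
          (fun _ => rfl) (by simp) (by omega) h2 h3 (by omega) h4 h5 (by omega)
        have e : replicate 0 false ++ ([false] ++ (replicate Q false ++ (replicate g false ++
            replicate R false))) = replicate k false := by
          rw [rep3, rep3']
          congr 1
          omega
        rw [e] at h6
        exact h6
  apply simSys_of_act hF ⟨[true], haS, by simp⟩ (exists_S_rule hd hK)
    (fun k hk => by
      obtain ⟨t, ht⟩ := hK k hk
      exact ⟨t, go_true.2 ht⟩)
    1 1 p0 k₀ l₁ 0 0 le_rfl le_rfl (by omega) (by omega) hl₁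
  · intro N
    obtain ⟨r₀, hr₀⟩ := key N
    obtain ⟨h1, h2, h3⟩ := hr₀ (2 * r₀ + 1) (by omega) (by omega)
    refine ⟨2 * r₀ + 1, ?_, Or.inl ?_, ?_, ?_, ?_⟩
    · rw [go_false_iff]
      have := it_fl hu (2 * r₀ + 1 + 1) true
      rw [fl_even (by omega)] at this
      exact this
    · intro l hl hlN
      rw [go_false_iff]
      exact h3 l hl hlN true
    · intro k hk hkN
      rw [go_false_iff]
      exact h3 k (by omega) hkN false
    · intro p q hap haq hpN hqN hpq
      rw [go_iff]
      exact ⟨[true], haS, h1 p q hap haq hpN hqN hpq⟩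
    · intro k hk hkN
      rw [go_iff]
      exact ⟨[true], haS, h2 k hk hkN⟩
  · intro p q hap haq hpq
    obtain ⟨r₀, hr₀⟩ := key (p + q)
    obtain ⟨h1, _, _⟩ := hr₀ (2 * r₀ + 1) (by omega) (by omega)
    refine ⟨2 * r₀, ?_⟩
    rw [go_true, Nat.zero_add, Nat.add_zero]
    exact h1 p q hap haq (by omega) (by omega) hpq

end Pool.Agent.Helper79.EOL
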