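import Pool.Agent.Helper79.EOL.Act

/-!
# Completeness in the sixth regime
-/

namespace Pool.Agent.Helper79.EOL

open List Pool.Agent.Helper76.EOL

variable {Sp : Bool → List Bool → Prop}

lemma it_wait {b : Bool} (h : Sp b [b]) (n : ℕ) : It Sp n b [b] := by
  induction n with
  | zero => rfl
  | succ n ih => exact it_succ.2 ⟨[b], h, par_single.2 ih⟩

lemma par_rep {n m : ℕ} {b c : Bool} (h : It Sp n b [c]) :
    Par (It Sp n) (replicate m b) (replicate m c) := by
  have := par_replicate h m
  rw [show [c] = replicate 1 c from rfl, replicate_flatten, Nat.mul_one] at this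
  exact this

lemma gch_wait (h : Sp true [true]) (n : ℕ) : GCh Sp n [true] [true] := by
  induction n with
  | zero => rfl
  | succ n ih => exact ⟨by simp, [true], par_single.2 h, ih⟩

lemma tyPat_mem {p q : ℕ} (h : 1 ≤ p + q) : true ∈ tyPat p q := by
  unfold tyPat
  simp only [mem_append, mem_replicate, mem_singleton]
  by_cases hp : p = 0
  · exact Or.inr (Or.inr ⟨by omega, trivial⟩)
  · exact Or.inl ⟨hp, trivial⟩

/-- One step of a word with one `a`. -/
lemma par_tyPat (hS : Sp true [true]) {p q i j : ℕ} {w : List Bool} (h : Sp false w)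
    (hw : w = tyPat i j) : Par Sp (tyPat p q) (tyPat (p + i) (q + j)) := by
  subst hw
  have h1 : ∀ m, Par Sp (replicate m true) (replicate m true) := by
    intro m
    have := par_replicate hS m
    rw [show [true] = replicate 1 true from rfl, replicate_flatten, Nat.mul_one] at this
    exact this
  have h2 := (h1 p).append ((par_single.2 h).append (h1 q))
  have e : replicate p true ++ (tyPat i j ++ replicate q true) = tyPat (p + i) (q + j) := by
    unfold tyPat
    rw [Nat.add_comm q j, replicate_add, replicate_add]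
    simp only [append_assoc]
  rw [e] at h2
  exact h2

lemma shedG (hS : Sp true [true]) (ha : Sp false [false]) {i j : ℕ}
    (hi : Sp false (tyPat i 0)) (hj : Sp false (tyPat 0 j)) (n : ℕ) :
    ∀ p q x y, 1 ≤ p + q → x + y ≤ n →
      GCh Sp n (tyPat p q) (tyPat (p + i * x) (q + j * y)) := by
  induction n with
  | zero =>
    intro p q x y _ h
    obtain rfl : x = 0 := by omega
    obtain rfl : y = 0 := by omega
    exact rfl
  | succ n ih =>
    intro p q x y hpq h
    refine ⟨tyPat_mem hpq, ?_⟩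
    by_cases hx : x = 0
    · subst hx
      by_cases hy : y = 0
      · subst hy
        refine ⟨_, par_tyPat (i := 0) (j := 0) hS ha rfl, ?_⟩
        have := ih p q 0 0 hpq (by omega)
        exact this
      · obtain ⟨y, rfl⟩ : ∃ y', y = y' + 1 := ⟨y - 1, by omega⟩
        refine ⟨_, par_tyPat (i := 0) (j := j) hS hj rfl, ?_⟩
        have := ih (p + 0) (q + j) 0 y (by omega) (by omega)
        rw [show p + 0 + i * 0 = p + i * 0 by ring, show q + j + j * y = q + j * (y + 1) by ring]
          at this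
        exact this
    · obtain ⟨x, rfl⟩ : ∃ x', x = x' + 1 := ⟨x - 1, by omega⟩
      refine ⟨_, par_tyPat (i := i) (j := 0) hS hi rfl, ?_⟩
      have := ih (p + i) (q + 0) x y (by omega) (by omega)
      rw [show p + i + i * x = p + i * (x + 1) by ring, show q + 0 + j * y = q + j * y by ring]
        at this
      exact this

/-- Regime VI. -/
theorem simSys_VI {F : Grammar} {a : ℕ} (hF : IsSaForm F a)
    (hK : ∀ k, 1 ≤ k → GK (Sh F a) k) (hS : Sh F a true [true]) (hSa : Sh F a true [false])
    (ha : Sh F a false [false]) {s₀ s₁ i j : ℕ} (hs : 1 ≤ s₀ + s₁) (hw : Sh F a true (tyPat s₀ s₁))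
    (hi1 : 1 ≤ i) (hj1 : 1 ≤ j) (hi : Sh F a false (tyPat i 0)) (hj : Sh F a false (tyPat 0 j)) :
    SimSys F := by
  set Sp := Sh F a with hSp
  apply simSys_of_act hF ⟨_, hi, tyPat_mem (by omega)⟩ ⟨_, hS, by simp⟩
    (fun k hk => by
      obtain ⟨t, ht⟩ := hK k hk
      exact ⟨t, go_true.2 ht⟩)
    i j 1 (i + 1) 1 s₀ s₁ hi1 hj1 le_rfl (by omega) le_rfl
  · intro N
    -- guarded powers at all late times
    have hGK : ∃ n₁, ∀ k, 1 ≤ k → k ≤ N → ∀ n, n₁ ≤ n → GCh Sp n [true] (replicate k false) := by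
      have h1 : ∀ k, ∃ n₁, 1 ≤ k → ∀ n, n₁ ≤ n → GCh Sp n [true] (replicate k false) := by
        intro k
        by_cases hk : 1 ≤ k
        · obtain ⟨t, ht⟩ := hK k hk
          refine ⟨t + 1, fun _ n hn => ?_⟩
          obtain ⟨m, rfl⟩ := Nat.exists_eq_add_of_le hn
          rw [Nat.add_comm]
          exact (gch_wait hS m).trans ht
        · exact ⟨0, fun h => absurd h hk⟩
      choose n₁ hn₁ using h1
      refine ⟨(Finset.range (N + 1)).sup n₁, ?_⟩
      intro k hk hkN n hn
      have : n₁ k ≤ (Finset.range (N + 1)).sup n₁ :=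
        Finset.le_sup (Finset.mem_range.2 (by omega))
      exact hn₁ k hk n (by omega)
    obtain ⟨n₁, hn₁⟩ := hGK
    have hadm : ∀ {i p : ℕ}, 1 ≤ i → Adm i 1 p → p ≤ N → ∃ x, p = i * x ∧ x ≤ N := by
      intro i p hi hp hpN
      obtain ⟨x, rfl⟩ := hp.1
      exact ⟨x, rfl, (Nat.le_mul_of_pos_left _ hi).trans hpN⟩
    have hpat : ∀ r p q, Adm i 1 p → Adm j 1 q → p ≤ N → q ≤ N → ¬ (p = 0 ∧ q = 0) →
        2 * N ≤ r → Go Sp r True false (tyPat p q) := by
      intro r p q hp hq hpN hqN hpq hr
      obtain ⟨x, rfl, hx⟩ := hadm hi1 hp hpN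
      obtain ⟨y, rfl, hy⟩ := hadm hj1 hq hqN
      by_cases hx0 : x = 0
      · subst hx0
        have hy0 : y ≠ 0 := by
          rintro rfl
          exact hpq ⟨rfl, rfl⟩
        obtain ⟨y, rfl⟩ : ∃ y', y = y' + 1 := ⟨y - 1, by omega⟩
        have h1 := shedG hS ha hi hj r 0 j 0 y (by omega) (by omega)
        rw [show (0 + i * 0 : ℕ) = i * 0 by ring, show j + j * y = j * (y + 1) by ring] at h1
        exact ⟨_, hj, h1.par, fun _ => h1⟩
      · obtain ⟨x, rfl⟩ : ∃ x', x = x' + 1 := ⟨x - 1, by omega⟩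
        have h1 := shedG hS ha hi hj r i 0 x y (by omega) (by omega)
        rw [show (0 + j * y : ℕ) = j * y by ring, show i + i * x = i * (x + 1) by ring] at h1
        exact ⟨_, hi, h1.par, fun _ => h1⟩
    refine ⟨n₁ + 2 * N + 1, ?_, Or.inr ?_, ?_, ?_, ?_⟩
    · rw [go_false_iff]
      exact it_wait hS _
    · intro p q hp hq hpN hqN hpq
      rw [go_false_iff, it_succ]
      refine ⟨[false], hSa, par_single.2 ?_⟩
      obtain ⟨z, h1, h2, _⟩ := hpat (n₁ + 2 * N) p q hp hq hpN hqN hpq (by omega)
      exact ⟨z, h1, h2⟩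
    · intro k hk hkN
      rw [go_false_iff]
      exact par_single.1 (hn₁ k (by omega) hkN _ (by omega)).par
    · intro p q hp hq hpN hqN hpq
      exact hpat _ p q hp hq hpN hqN hpq (by omega)
    · intro k hk hkN
      obtain ⟨k', rfl⟩ : ∃ k', k = k' + i := ⟨k - i, by omega⟩
      obtain ⟨i', rfl⟩ : ∃ i', i = i' + 1 := ⟨i - 1, by omega⟩
      have h1 : GCh Sp (n₁ + 2 * N + 1) [true] (replicate k' false) :=
        hn₁ k' (by omega) (by omega) _ (by omega)
      have h2 : It Sp (n₁ + 2 * N + 1) true [false] := by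
        rw [it_add]
        exact ⟨[true], it_wait hS _, par_single.2 (it_one.2 hSa)⟩
      have h3 : Par (It Sp (n₁ + 2 * N + 1)) (replicate i' true ++ [false])
          (replicate i' false ++ [false]) :=
        (par_rep h2).append (par_single.2 (it_wait ha _))
      have h4 := h1.ctx_right h3
      have e1 : [true] ++ (replicate i' true ++ [false]) = tyPat (i' + 1) 0 := by
        unfold tyPat
        rw [replicate_succ]
        simp
      have e2 : replicate k' false ++ (replicate i' false ++ [false]) =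
          replicate (k' + (i' + 1)) false := by
        rw [← replicate_succ', ← replicate_add]
      rw [e1, e2] at h4
      exact ⟨_, hi, h4.par, fun _ => h4⟩
  · intro p q hp hq _
    obtain ⟨x, rfl⟩ := hp.1
    obtain ⟨y, rfl⟩ := hq.1
    have h1 := shedG hS ha hi hj (x + y) s₀ s₁ x y hs le_rfl
    rw [show s₁ + j * y = j * y + s₁ by ring] at h1
    exact ⟨x + y, _, hw, h1.par, fun _ => h1⟩

end Pool.Agent.Helper79.EOL
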