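import Pool.Agent.Helper79.EOL.NegCorner
import Pool.Agent.Helper79.EOL.FormIff
import Pool.Agent.Helper79.EOL.Pos2b
import Pool.Agent.Helper79.EOL.Pos3

/-!
# The classification
-/

namespace Pool.Agent.Helper79.EOL

open List Pool.Agent.Helper76.EOL

variable {F : Grammar} {a : ℕ}

lemma eq_tyPat_of_count {w : List Bool} (h : w.count false = 1) :
    ∃ p q, w = tyPat p q := by
  have hf : false ∈ w := by
    rw [← count_pos_iff]; omega
  obtain ⟨u, v, rfl⟩ := append_of_mem hf
  rw [count_append, count_cons_self] at h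
  have hu : u = replicate u.length true := by
    apply eq_replicate_of_mem
    intro b hb
    cases b
    · have := count_pos_iff.2 hb
      omega
    · rfl
  have hv : v = replicate v.length true := by
    apply eq_replicate_of_mem
    intro b hb
    cases b
    · have := count_pos_iff.2 hb
      omega
    · rfl
  refine ⟨u.length, v.length, ?_⟩
  unfold tyPat
  rw [← hu, ← hv]
  simp

/-- The conditions on the productions of a propagating form. -/
def CondP (Sp : Bool → List Bool → Prop) : Prop :=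
  Sp false [true] ∨
    (Sp true [true] ∧ ((∃ j, 2 ≤ j ∧ Sp true (replicate j true)) ∨
      ∃ j, 2 ≤ j ∧ Sp false (replicate j true))) ∨
    (Sp true [true] ∧ Sp false [false] ∧
      (∃ w, Sp true w ∧ true ∈ w ∧ w.count false = 1) ∧
      (∃ i, 1 ≤ i ∧ Sp false (replicate i true ++ [false])) ∧
      ∃ j, 1 ≤ j ∧ Sp false (false :: replicate j true))

theorem complete_iff_propagating_sh (hF : IsSaForm F a) (h0 : ∀ x w, Sh F a x w → w ≠ []) :
    Complete F ↔ (∃ w, Sh F a false w ∧ true ∈ w) ∧ (∀ k, 1 ≤ k → GK (Sh F a) k) ∧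
      CondP (Sh F a) := by
  constructor
  · intro hc
    exact ⟨A0_of_complete hF hc, fun k hk => GK_of_complete hF hc hk, cond_of_complete hF h0 hc⟩
  · rintro ⟨hA, hK, h⟩
    by_cases h1 : Sh F a false [true]
    · by_cases h2 : Sh F a true [true]
      · exact complete_of_reg1 hF hK hA (Or.inr (Or.inr (Or.inl ⟨h2, Or.inr ⟨1, le_rfl, h1⟩⟩)))
      · exact (simSys_II hF hK h0 h1 h2).simulates.complete
    rcases h with h | ⟨h2, h⟩ | ⟨h2, h3, ⟨w, h4, h5, h6⟩, ⟨i, h7, h8⟩, j, h9, h10⟩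
    · exact absurd h h1
    · refine complete_of_reg1 hF hK hA (Or.inr (Or.inr (Or.inl ⟨h2, ?_⟩)))
      rcases h with h | ⟨j, hj, h⟩
      · exact Or.inl h
      · exact Or.inr ⟨j, by omega, h⟩
    · obtain ⟨p, q, rfl⟩ := eq_tyPat_of_count h6
      have hpq : 1 ≤ p + q := by
        by_contra hcon
        obtain rfl : p = 0 := by omega
        obtain rfl : q = 0 := by omega
        unfold tyPat at h5
        simp at h5
      have hSa : Sh F a true [false] := Sa_of_propagating h0 (hK 1 le_rfl)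
      refine (simSys_VI hF hK h2 hSa h3 hpq h4 h7 h9 ?_ h10).simulates.complete
      have e : tyPat i 0 = replicate i true ++ [false] := by
        unfold tyPat
        simp
      rw [e]
      exact h8

/-- The classification of the propagating forms in terms of the productions. -/
theorem complete_iff_propagating (hF : IsSaForm F a) (he : ¬ ∃ X, (X, []) ∈ F.P) :
    Complete F ↔ (∃ α, (a, α) ∈ F.P ∧ F.S ∈ α) ∧ (∀ k, 1 ≤ k → Guarded F (replicate k a)) ∧
      ((a, [F.S]) ∈ F.P ∨
        ((F.S, [F.S]) ∈ F.P ∧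
          ∃ j, 2 ≤ j ∧ ((F.S, replicate j F.S) ∈ F.P ∨ (a, replicate j F.S) ∈ F.P)) ∨
        ((F.S, [F.S]) ∈ F.P ∧ (a, [a]) ∈ F.P ∧
          (∃ α, (F.S, α) ∈ F.P ∧ F.S ∈ α ∧ α.count a = 1) ∧
          (∃ i, 1 ≤ i ∧ (a, replicate i F.S ++ [a]) ∈ F.P) ∧
          ∃ j, 1 ≤ j ∧ (a, a :: replicate j F.S) ∈ F.P)) := by
  have h0 : ∀ x w, Sh F a x w → w ≠ [] := by
    rintro x w h rfl
    exact he ⟨sl F a x, h⟩
  rw [complete_iff_propagating_sh hF h0]
  have h1 := exists_true_iff hF false (fun α => F.S ∈ α)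
  rw [sl_false] at h1
  have h2 := exists_true_iff hF true (fun α => F.S ∈ α ∧ α.count a = 1)
  rw [sl_true] at h2
  rw [h1, h2]
  simp only [mem_map_sl hF, guarded_iff hF, count_map_sl hF]
  refine and_congr_right (fun _ => and_congr_right (fun _ => ?_))
  have e1 : ∀ j b, (sl F a b, replicate j F.S) ∈ F.P ↔ Sh F a b (replicate j true) := by
    intro j b
    rw [sh_replicate, sl_true]
  have e2 : (F.S, [F.S]) ∈ F.P ↔ Sh F a true [true] := e1 1 true
  have e3 : (a, [F.S]) ∈ F.P ↔ Sh F a false [true] := e1 1 false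
  have e4 : (a, [a]) ∈ F.P ↔ Sh F a false [false] := Iff.rfl
  have e5 : ∀ i, (a, replicate i F.S ++ [a]) ∈ F.P ↔ Sh F a false (replicate i true ++ [false]) := by
    intro i
    unfold Sh
    rw [map_append, map_replicate]
    rfl
  have e6 : ∀ j, (a, a :: replicate j F.S) ∈ F.P ↔ Sh F a false (false :: replicate j true) := by
    intro j
    unfold Sh
    rw [map_cons, map_replicate]
    rfl
  have e7 : ∀ j, (F.S, replicate j F.S) ∈ F.P ↔ Sh F a true (replicate j true) := fun j => e1 j true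
  have e8 : ∀ j, (a, replicate j F.S) ∈ F.P ↔ Sh F a false (replicate j true) :=
    fun j => e1 j false
  unfold CondP
  simp only [e2, e3, e4, e5, e6, e7, e8]
  constructor
  · rintro (h | ⟨h, ⟨j, hj, h'⟩ | ⟨j, hj, h'⟩⟩ | h)
    · exact Or.inl h
    · exact Or.inr (Or.inl ⟨h, j, hj, Or.inl h'⟩)
    · exact Or.inr (Or.inl ⟨h, j, hj, Or.inr h'⟩)
    · exact Or.inr (Or.inr h)
  · rintro (h | ⟨h, j, hj, h' | h'⟩ | h)
    · exact Or.inl h
    · exact Or.inr (Or.inl ⟨h, Or.inl ⟨j, hj, h'⟩⟩)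
    · exact Or.inr (Or.inl ⟨h, Or.inr ⟨j, hj, h'⟩⟩)
    · exact Or.inr (Or.inr h)

end Pool.Agent.Helper79.EOL
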