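import Pool.Agent.Helper79.EOL.Short3
import Pool.Agent.Helper79.EOL.Pos2b
import Pool.Agent.Helper79.EOL.Final

/-!
# The condition on guarded powers is a finite condition
-/

namespace Pool.Agent.Helper79.EOL

open List Pool.Agent.Helper76.EOL

variable {Sp : Bool → List Bool → Prop}

lemma all_of_clo {T p B : ℕ} (hp : 1 ≤ p) (hT : T + p ≤ B)
    (hclo : ∀ k, T < k → GK Sp k → GK Sp (k + p)) (hB : ∀ k, 1 ≤ k → k ≤ B → GK Sp k) :
    ∀ k, 1 ≤ k → GK Sp k := by
  intro k
  induction k using Nat.strong_induction_on with
  | _ k ih =>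
    intro hk
    by_cases h : k ≤ B
    · exact hB k hk h
    · have := hclo (k - p) (by omega) (ih (k - p) (by omega) (by omega))
      rw [Nat.sub_add_cancel (by omega)] at this
      exact this

lemma count_uv {u v : List Bool} {b : Bool} :
    (u ++ true :: v).count b = (u ++ v).count b + (if b then 1 else 0) := by
  rw [count_append, count_append]
  cases b
  · rw [count_cons_of_ne (by simp)]; simp
  · rw [count_cons_self]; simp; omega

lemma clo_C3c {d : ℕ} (hd : ∀ x w, Sp x w → w.length ≤ d) (hS : Sp true []) {α : List Bool}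
    (hα : Sp false α) (hα1 : α.count false = 1) {g : ℕ} (hg1 : 1 ≤ g)
    (hg : Sp false (replicate g false)) {w₁ : List Bool} (hw1 : Sp true w₁) (hw2 : true ∈ w₁)
    (hw3 : false ∈ w₁) :
    ∃ p, 1 ≤ p ∧ p ≤ d * d ∧ ∀ k, 0 < k → GK Sp k → GK Sp (k + p) := by
  have hgd : g ≤ d := by
    have := hd _ _ hg
    rw [length_replicate] at this
    exact this
  have hcd : w₁.count false ≤ d := count_le_length.trans (hd _ _ hw1)
  have hc1 : 1 ≤ w₁.count false := count_pos_iff.2 hw3
  have hvan : ∀ t, 1 ≤ t → It Sp t true [] := fun t ht => it_nil_of_le (it_one.2 hS) ht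
  have hout : ∀ t, 1 ≤ t → It Sp t false (replicate g false) := by
    intro t ht
    obtain ⟨m, rfl⟩ := Nat.exists_eq_add_of_le ht
    clear ht
    induction m with
    | zero => exact it_one.2 hg
    | succ m ih =>
      rw [show 1 + (m + 1) = (1 + m) + 1 by ring]
      refine ⟨α, hα, ?_⟩
      have := par_const (Sp := Sp) (t := 1 + m) (f := fun b => if b then 0 else g) (c := α) (by
        intro y _
        cases y
        · exact ih
        · exact hvan _ (by omega))
      simpa [hα1] using this
  obtain ⟨u, v, rfl⟩ := append_of_mem hw2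
  refine ⟨g * (u ++ true :: v).count false, Nat.mul_pos hg1 hc1, Nat.mul_le_mul hgd hcd, ?_⟩
  intro k _ hGK
  obtain ⟨t, ht⟩ := hGK
  have := ins_const (f := fun b => if b then 0 else g) hw1 (by
    intro y _
    cases y
    · exact hout _ (by omega)
    · exact hvan _ (by omega)) ht
  rw [count_uv]
  refine GK.of_gch (t := t + 1 + 1) ?_
  simpa using this

lemma exists_ag {d : ℕ} (hd : ∀ x w, Sp x w → w.length ≤ d)
    (hLa : ∀ v, Sp false v → false ∈ v)
    (hLS : ∀ v, Sp true v → false ∈ v ∨ v = [] ∨ v = [true]) (hK : GK Sp (d + 1)) :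
    ∃ g, 1 ≤ g ∧ Sp false (replicate g false) := by
  by_contra hcon
  push Not at hcon
  have h1 : ∀ n z, GCh Sp n [true] z → false ∉ z → z = [] ∨ z = [true] := by
    intro n
    induction n with
    | zero =>
      intro z h _
      have : [true] = z := h
      exact Or.inr this.symm
    | succ n ih =>
      intro z h hf
      obtain ⟨z', h2, h3, h4⟩ := GCh.succ'.1 h
      have h5 : false ∉ z' := by
        intro hf'
        obtain ⟨v, hv, hv'⟩ := h4.sub hf'
        exact hf (hv' _ (hLa v hv))
      rcases ih z' h2 h5 with rfl | rfl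
      · simp at h3
      · have h6 := par_single.1 h4
        rcases hLS z h6 with h | h | h
        · exact absurd h hf
        · exact Or.inl h
        · exact Or.inr h
  obtain ⟨t, ht⟩ := hK
  obtain ⟨z', h2, h3, h4⟩ := GCh.succ'.1 ht
  have h5 : false ∉ z' := by
    intro hf'
    obtain ⟨v, hv, hv'⟩ := h4.sub hf'
    have e : v = replicate v.length false := by
      apply eq_replicate_of_mem
      intro b hb
      exact eq_of_mem_replicate (hv' b hb)
    have hne : 1 ≤ v.length := by
      have := length_pos_of_mem (hLa v hv)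
      omega
    rw [e] at hv
    exact hcon _ hne hv
  rcases h1 _ _ h2 h5 with rfl | rfl
  · simp at h3
  · have := hd _ _ (par_single.1 h4)
    simp at this

lemma it_Sa (hSS : Sp true [true]) (hSa : Sp true [false]) {t : ℕ} (ht : 1 ≤ t) :
    It Sp t true [false] := by
  obtain ⟨m, rfl⟩ := Nat.exists_eq_add_of_le ht
  clear ht
  induction m with
  | zero => exact it_one.2 hSa
  | succ m ih =>
    rw [show 1 + (m + 1) = (1 + m) + 1 by ring]
    exact ⟨[true], hSS, par_single.2 ih⟩

lemma clo_SSA {d : ℕ} (hd : ∀ x w, Sp x w → w.length ≤ d) (hSS : Sp true [true])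
    (hSa : Sp true [false]) {c : ℕ} (hc1 : 1 ≤ c) (hcd : c ≤ d)
    (hc : ∀ t, 2 ≤ t → It Sp t false (replicate c false)) {w₁ : List Bool}
    (hw1 : Sp true w₁) (hw2 : true ∈ w₁) (hw3 : 2 ≤ w₁.length) :
    ∃ p, 1 ≤ p ∧ p ≤ d * d ∧ ∀ k, d < k → GK Sp k → GK Sp (k + p) := by
  obtain ⟨u, v, rfl⟩ := append_of_mem hw2
  have hlen := hd _ _ hw1
  have hadd := count_add (u ++ v)
  have hl2 : (u ++ true :: v).length = (u ++ v).length + 1 := by
    rw [length_append, length_cons, length_append]; omega
  refine ⟨(u ++ v).count true + c * (u ++ v).count false, ?_, ?_, ?_⟩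
  · have : (u ++ v).count false ≤ c * (u ++ v).count false := Nat.le_mul_of_pos_left _ hc1
    omega
  · calc (u ++ v).count true + c * (u ++ v).count false
        ≤ d * (u ++ v).count true + d * (u ++ v).count false := by
          apply Nat.add_le_add
          · exact Nat.le_mul_of_pos_left _ (by omega)
          · exact Nat.mul_le_mul_right _ hcd
      _ = d * (u ++ v).length := by rw [← hadd]; ring
      _ ≤ d * d := Nat.mul_le_mul_left _ (by omega)
  · intro k hk hGK
    obtain ⟨t, ht, hG⟩ := exists_long hd (by omega) (m := 1) (by simpa using hk) hGK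
    have := ins_const (f := fun b => if b then 1 else c) hw1 (by
      intro y _
      cases y
      · exact hc _ (by omega)
      · exact it_Sa hSS hSa (by omega)) hG
    refine GK.of_gch (t := t + 1) ?_
    simpa using this

lemma clo_SSB {d : ℕ} (hd : ∀ x w, Sp x w → w.length ≤ d) (hSS : Sp true [true])
    (hSa : Sp true [false]) {j : ℕ} (hj : 2 ≤ j) (hj' : Sp true (replicate j true)) :
    ∃ p, 1 ≤ p ∧ p ≤ d * d ∧ ∀ k, d < k → GK Sp k → GK Sp (k + p) := by
  have hjd : j ≤ d := by
    have := hd _ _ hj'
    rw [length_replicate] at this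
    exact this
  refine ⟨j - 1, by omega, ?_, ?_⟩
  · have : d ≤ d * d := Nat.le_mul_of_pos_left _ (by omega)
    omega
  · intro k _ hGK
    obtain ⟨t, ht⟩ := hGK
    have e : replicate j true = [] ++ true :: replicate (j - 1) true := by
      rw [nil_append, ← replicate_succ, show j - 1 + 1 = j by omega]
    have h1 := par_rep (m := j - 1) (it_Sa hSS hSa (t := t + 1) (by omega))
    rw [e] at hj'
    have := ins (p := 0) (q := j - 1) hj' Par.nil h1 ht
    rw [Nat.zero_add] at this
    exact GK.of_gch this

lemma clo_II {d : ℕ} (hd : ∀ x w, Sp x w → w.length ≤ d) (hu : ∀ x, Sp x [!x]) {g : ℕ}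
    (hg1 : 1 ≤ g) (hg : Sp true (replicate g true) ∨ Sp false (replicate g false))
    {w₁ : List Bool} (hw1 : Sp true w₁) (hw2 : true ∈ w₁) (hw3 : 2 ≤ w₁.length) :
    ∃ p, 1 ≤ p ∧ d + p ≤ d * d + d ∧ ∀ k, d < k → GK Sp k → GK Sp (k + p) := by
  obtain ⟨u, v, rfl⟩ := append_of_mem hw2
  have hlen := hd _ _ hw1
  have hgd : g ≤ d := by
    rcases hg with h | h
    · have := hd _ _ h
      rw [length_replicate] at this
      exact this
    · have := hd _ _ h
      rw [length_replicate] at this
      exact this
  have hadd := count_add (u ++ v)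
  have hl2 : (u ++ true :: v).length = (u ++ v).length + 1 := by
    rw [length_append, length_cons, length_append]; omega
  have hS1 : ∀ t, t % 2 = 1 → It Sp t true [false] := by
    intro t ht
    have := it_fl hu t true
    rw [fl_odd ht] at this
    exact this
  have ha1 : ∀ t, t % 2 = 0 → It Sp t false [false] := by
    intro t ht
    have := it_fl hu t false
    rw [fl_even ht] at this
    exact this
  have hSg : ∀ t, 2 ≤ t → t % 2 = 0 → It Sp t true (replicate g false) := by
    intro t ht1 ht2
    obtain ⟨m, rfl⟩ : ∃ m, t = m + 1 := ⟨t - 1, by omega⟩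
    rcases hg with h | h
    · exact ⟨_, h, par_rep (hS1 m (by omega))⟩
    · rw [← par_single (N := It Sp (m + 1)), Par.it_succ']
      exact ⟨[false], par_single.2 (hS1 m (by omega)), par_single.2 h⟩
  have hag : ∀ t, 3 ≤ t → t % 2 = 1 → It Sp t false (replicate g false) := by
    intro t ht1 ht2
    obtain ⟨m, rfl⟩ : ∃ m, t = m + 1 := ⟨t - 1, by omega⟩
    exact ⟨[true], hu false, par_single.2 (hSg m (by omega) (by omega))⟩
  have hodd : ∀ {t k : ℕ}, 2 ≤ t → t % 2 = 1 → GCh Sp t [true] (replicate k false) →
      GCh Sp (t + 1) [true] (replicate (k + ((u ++ v).count true + g * (u ++ v).count false))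
        false) := by
    intro t k ht1 ht2 hG
    have := ins_const (f := fun b => if b then 1 else g) hw1 (by
      intro y _
      cases y
      · exact hag _ (by omega) ht2
      · exact hS1 _ ht2) hG
    simpa using this
  have heven : ∀ {t k : ℕ}, 2 ≤ t → t % 2 = 0 → GCh Sp t [true] (replicate k false) →
      GCh Sp (t + 1) [true] (replicate (k + (g * (u ++ v).count true + (u ++ v).count false))
        false) := by
    intro t k ht1 ht2 hG
    have := ins_const (f := fun b => if b then g else 1) hw1 (by
      intro y _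
      cases y
      · exact ha1 _ ht2
      · exact hSg _ ht1 ht2) hG
    simpa using this
  refine ⟨(1 + g) * (u ++ v).length, ?_, ?_, ?_⟩
  · exact Nat.mul_pos (by omega) (by omega)
  · have h1 : (1 + g) * (u ++ v).length ≤ (1 + d) * (u ++ v).length :=
      Nat.mul_le_mul_right _ (by omega)
    obtain ⟨e, rfl⟩ : ∃ e, d = e + 1 := ⟨d - 1, by omega⟩
    have h2 : (1 + (e + 1)) * (u ++ v).length ≤ (1 + (e + 1)) * e :=
      Nat.mul_le_mul_left _ (by omega)
    have h3 : e + 1 + (1 + (e + 1)) * e ≤ (e + 1) * (e + 1) + (e + 1) := by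
      have : (e + 1) * (e + 1) + (e + 1) = e + 1 + (1 + (e + 1)) * e + 1 := by ring
      omega
    omega
  · intro k hk hGK
    obtain ⟨t, ht, hG⟩ := exists_long hd (by omega) (m := 1) (by simpa using hk) hGK
    refine GK.of_gch (t := t + 1 + 1) ?_
    rcases Nat.mod_two_eq_zero_or_one t with h | h
    · have := hodd (by omega) (by omega) (heven (by omega) h hG)
      rw [show k + (g * (u ++ v).count true + (u ++ v).count false) +
        ((u ++ v).count true + g * (u ++ v).count false) =
        k + (1 + g) * ((u ++ v).count true + (u ++ v).count false) by ring, hadd] at this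
      exact this
    · have := heven (by omega) (by omega) (hodd (by omega) h hG)
      rw [show k + ((u ++ v).count true + g * (u ++ v).count false) +
        (g * (u ++ v).count true + (u ++ v).count false) =
        k + (1 + g) * ((u ++ v).count true + (u ++ v).count false) by ring, hadd] at this
      exact this

/-- The last letter in a form with `a` erasable and `S` not erasable. -/
lemma Sa_of_C2 (hS : ¬ Sp true []) (h : GK Sp 1) : Sp true [false] := by
  obtain ⟨t, ht⟩ := h
  obtain ⟨z, _, h2, h3⟩ := GCh.succ'.1 ht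
  rw [replicate_one] at h3
  obtain ⟨L, M, h4, h5, h6, h7, h8⟩ := par_dec h3
  have h9 : L.flatten.length + M.flatten.length = 1 := by
    rw [← length_append, h8.length_eq]; rfl
  have h10 : 1 ≤ L.length := by
    rw [h4]
    exact count_pos_iff.2 h2
  obtain ⟨v, hv⟩ : ∃ v, v ∈ L := exists_mem_of_length_pos h10
  have h11 := length_le_flatten hv
  have h12 : v ≠ [] := fun e => hS (e ▸ h6 v hv)
  have h13 : ∀ y ∈ v, y = false := by
    intro y hy
    have : y ∈ L.flatten ++ M.flatten := by
      rw [mem_append, mem_flatten]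
      exact Or.inl ⟨v, hv, hy⟩
    exact mem_singleton.1 (h8.mem_iff.1 this)
  have e : v = [false] := by
    match v, h12, h11, h13 with
    | [x], _, _, h => rw [h x (by simp)]
    | _ :: _ :: _, _, h, _ =>
      simp only [length_cons] at h
      omega
  rw [← e]
  exact h6 v hv

/-- The conditions on the productions of an erasing form. -/
def CondE (Sp : Bool → List Bool → Prop) : Prop :=
  (∃ w, Sp false w ∧ w.count false ≤ 1 ∧ w ≠ [false]) ∨ ∃ s, 2 ≤ s ∧ Sp true (replicate s true)

/-- The condition (K) is a finite condition. -/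
theorem K_finite {d : ℕ} (hd : ∀ x w, Sp x w → w.length ≤ d)
    (hA : ∃ w, Sp false w ∧ true ∈ w)
    (hR : ((∃ x, Sp x []) ∧ CondE Sp) ∨ ((∀ x w, Sp x w → w ≠ []) ∧ CondP Sp))
    (hK : ∀ k, 1 ≤ k → k ≤ d * d + d → GK Sp k) :
    ∀ k, 1 ≤ k → GS Sp ((k + 2) ^ 2 + 1) k := by
  obtain ⟨w₀, hw4, hw5⟩ := hA
  have hd1 : 1 ≤ d := by
    have := length_pos_of_mem hw5
    have := hd _ _ hw4
    omega
  have hdd : d ≤ d * d := Nat.le_mul_of_pos_left _ hd1
  have hK1 : GK Sp 1 := hK 1 le_rfl (by omega)
  have hKd : GK Sp (d + 1) := hK (d + 1) (by omega) (by omega)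
  obtain ⟨w₁, hw1, hw2, hw3⟩ := exists_grow hd hKd
  have hd2 : 2 ≤ d := hw3.trans (hd _ _ hw1)
  by_cases ha : Sp false []
  · by_cases hS : Sp true []
    · intro k hk
      refine (gs_C1 ha hS hK1 hw1 hw2 hw3 hw4 hw5 k).mono ?_
      nlinarith
    · have hSa := Sa_of_C2 hS hK1
      obtain ⟨p, h1, h2, h3⟩ := clo_C2 hd ha hSa hw1 hw2 hw3 hw4 hw5
      have hall := all_of_clo h1 (T := d ^ 2) (B := d * d + d) (by rw [sq]; omega) h3 hK
      intro k hk
      refine (gs_C2 ha hSa hS hw1 hw2 hw3 hw4 hw5 (hall k hk)).mono ?_
      have h4 : (k + 2) ^ 2 + 1 = k * k + 4 * k + 5 := by ring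
      have h5 : 2 * k ≤ k * k + 2 := by
        by_cases hk2 : 2 ≤ k
        · have := Nat.mul_le_mul_right k hk2
          omega
        · omega
      omega
  · by_cases hS : Sp true []
    · have hE : CondE Sp := by
        rcases hR with ⟨_, h⟩ | ⟨h, _⟩
        · exact h
        · exact absurd rfl (h _ _ hS)
      by_cases hs : ∃ s, 2 ≤ s ∧ Sp true (replicate s true)
      · obtain ⟨s, hs1, hs2⟩ := hs
        intro k hk
        refine (gs_C3a hS hs1 hs2 ha hK1 k).mono ?_
        nlinarith
      · have hLS : ∀ v, Sp true v → false ∈ v ∨ v = [] ∨ v = [true] := by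
          intro v hv
          by_cases hf : false ∈ v
          · exact Or.inl hf
          · right
            have e := all_true hf
            have hl : ¬ 2 ≤ v.length := fun hl => hs ⟨_, hl, by rw [← e]; exact hv⟩
            have : v.length = 0 ∨ v.length = 1 := by omega
            rcases this with h | h
            · exact Or.inl (length_eq_zero_iff.1 h)
            · rw [h] at e
              exact Or.inr e
        have hwf : false ∈ w₁ := by
          rcases hLS w₁ hw1 with h | h | h
          · exact h
          · rw [h] at hw2; simp at hw2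
          · rw [h] at hw3; simp at hw3
        by_cases hj : ∃ j, 1 ≤ j ∧ Sp false (replicate j true)
        · obtain ⟨j, hj1, hj2⟩ := hj
          intro k hk
          refine (gs_C3b hS hj1 hj2 hK1 hw1 hw2 hw3 hwf hw4 hw5 k).mono ?_
          nlinarith
        · have hLa : ∀ v, Sp false v → false ∈ v := by
            intro v hv
            by_contra hf
            have e := all_true hf
            by_cases hl : v.length = 0
            · rw [length_eq_zero_iff] at hl
              subst hl
              exact ha hv
            · exact hj ⟨v.length, by omega, by rw [← e]; exact hv⟩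
          obtain ⟨α, hα, hα1, hα2⟩ := hE.resolve_right hs
          have hα3 : α.count false = 1 := by
            have := count_pos_iff.2 (hLa α hα)
            omega
          obtain ⟨g, hg1, hg⟩ := exists_ag hd hLa hLS hKd
          obtain ⟨p, h1, h2, h3⟩ := clo_C3c hd hS hα hα3 hg1 hg hw1 hw2 hwf
          have hall := all_of_clo h1 (T := 0) (B := d * d + d) (by omega) h3 hK
          intro k hk
          exact gs_C3c hS hLa hLS (hall k hk)
    · -- propagating
      have hp : ∀ x w, Sp x w → w ≠ [] := by
        rintro x w h rfl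
        cases x
        · exact ha h
        · exact hS h
      have hP : CondP Sp := by
        rcases hR with ⟨⟨x, hx⟩, _⟩ | ⟨_, h⟩
        · exact absurd rfl (hp _ _ hx)
        · exact h
      have hSa : Sp true [false] := Sa_of_propagating hp hK1
      have hall : ∀ k, 1 ≤ k → GK Sp k := by
        by_cases hSS : Sp true [true]
        · have key : (∃ j, 2 ≤ j ∧ Sp true (replicate j true)) ∨
              ∃ c, 1 ≤ c ∧ c ≤ d ∧ ∀ t, 2 ≤ t → It Sp t false (replicate c false) := by
            have hj : ∀ j, 1 ≤ j → Sp false (replicate j true) →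
                ∃ c, 1 ≤ c ∧ c ≤ d ∧ ∀ t, 2 ≤ t → It Sp t false (replicate c false) := by
              intro j hj1 hj
              refine ⟨j, hj1, ?_, ?_⟩
              · have := hd _ _ hj
                rw [length_replicate] at this
                exact this
              · intro t ht
                obtain ⟨m, rfl⟩ : ∃ m, t = m + 1 := ⟨t - 1, by omega⟩
                exact ⟨_, hj, par_rep (it_Sa hSS hSa (by omega))⟩
            rcases hP with h | ⟨_, h | ⟨j, hj1, h⟩⟩ | ⟨_, h, _⟩
            · exact Or.inr (hj 1 le_rfl h)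
            · exact Or.inl h
            · exact Or.inr (hj j (by omega) h)
            · exact Or.inr ⟨1, le_rfl, hd1, fun t _ => it_wait h t⟩
          rcases key with ⟨j, hj1, hj⟩ | ⟨c, hc1, hc2, hc3⟩
          · obtain ⟨p, h1, h2, h3⟩ := clo_SSB hd hSS hSa hj1 hj
            exact all_of_clo h1 (by omega) h3 hK
          · obtain ⟨p, h1, h2, h3⟩ := clo_SSA hd hSS hSa hc1 hc2 hc3 hw1 hw2 hw3
            exact all_of_clo h1 (by omega) h3 hK
        · have haS : Sp false [true] := by
            rcases hP with h | ⟨h, _⟩ | ⟨h, _⟩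
            · exact h
            · exact absurd h hSS
            · exact absurd h hSS
          have hu : ∀ x, Sp x [!x] := by
            intro x
            cases x
            · exact haS
            · exact hSa
          obtain ⟨g, hg1, hg⟩ : ∃ g, 1 ≤ g ∧
              (Sp true (replicate g true) ∨ Sp false (replicate g false)) := by
            rcases exists_flip hd hp hSS hKd with ⟨j, h1, h2⟩ | ⟨g, h1, h2⟩
            · exact ⟨j, by omega, Or.inl h2⟩
            · exact ⟨g, h1, Or.inr h2⟩
          obtain ⟨p, h1, h2, h3⟩ := clo_II hd hu hg1 hg hw1 hw2 hw3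
          exact all_of_clo h1 h2 h3 hK
      intro k hk
      refine (gs_prop hp (hall k hk)).mono ?_
      have : (k + 2) ^ 2 = (k + 1) ^ 2 + (2 * k + 3) := by ring
      omega

end Pool.Agent.Helper79.EOL
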