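import Pool.Agent.Helper79.EOL.Dich

/-!
# Linear growth of terminals, and the first corner language
-/

namespace Pool.Agent.Helper79.EOL

open List Pool.Agent.Helper76.EOL

variable {G : Grammar} {L : Set (List ℕ)} {Sig : Finset ℕ} {n₀ P : ℕ}

lemma exists_chain' (hne : ∀ x w, pr G x w → w ≠ [])
    (hper : ∀ X α, X ∈ G.T → pr G X α → ∃ y ∈ α, y ∈ G.T) {k : ℕ} :
    ∀ {Y : ℕ} {y : List ℕ}, Y ∈ G.T → It (pr G) k Y y → y.length ≤ 1 →
      ∃ c : ℕ → ℕ, c 0 = Y ∧ (∀ i < k, pr G (c i) [c (i + 1)] ∧ c (i + 1) ∈ G.T) ∧ y = [c k] := by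
  induction k with
  | zero =>
    intro Y y _ h _
    rw [it_zero] at h
    exact ⟨fun _ => Y, rfl, by simp, h⟩
  | succ k ih =>
    intro Y y hY h hy
    obtain ⟨α, h3, h4⟩ := it_succ.1 h
    have h5 := h4.le_length (fun x v h => It.ne_nil hne h)
    have h6 : 0 < α.length := length_pos_iff.2 (hne _ _ h3)
    obtain ⟨Z, rfl⟩ := length_eq_one_iff.1 (show α.length = 1 by omega)
    obtain ⟨x, hx, hx2⟩ := hper Y _ hY h3
    rw [mem_singleton] at hx
    subst hx
    rw [par_single] at h4
    obtain ⟨c, hc1, hc2, hc3⟩ := ih hx2 h4 hy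
    refine ⟨fun i => if i = 0 then Y else c (i - 1), by simp, ?_, ?_⟩
    · intro i hi
      cases i with
      | zero =>
        simp only [if_true, Nat.zero_add, one_ne_zero, if_false, Nat.sub_self, hc1]
        exact ⟨h3, hx2⟩
      | succ i =>
        simp only [Nat.succ_ne_zero, if_false, Nat.add_sub_cancel]
        exact hc2 i (by omega)
    · simp only [Nat.succ_ne_zero, if_false, Nat.add_sub_cancel]
      exact hc3

/-- Terminals have outcomes of linear length. -/
lemma Test.linear (h : Test G L Sig n₀ P) (hne : ∀ x w, pr G x w → w ≠ [])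
    (hper : ∀ X α, X ∈ G.T → pr G X α → ∃ y ∈ α, y ∈ G.T) (m : ℕ) :
    ∀ {u v w₁ w w₂ : List ℕ} {Y τ : ℕ}, Rc G (u ++ ([Y] ++ v)) → Par (It (pr G) τ) u w₁ →
      It (pr G) τ Y w → Par (It (pr G) τ) v w₂ → (∀ x ∈ w₁, x ∈ Sig) → (∀ x ∈ w, x ∈ Sig) →
      (∀ x ∈ w₂, x ∈ Sig) → Y ∈ G.T → m * (n₀ + P * (Sig.card + 2)) ≤ τ → m + 1 ≤ w.length := by
  induction m with
  | zero =>
    intro u v w₁ w w₂ Y τ _ _ hw _ _ _ _ hY _
    exact length_pos_iff.2 (hw.ne_nil hne)
  | succ m ih =>
    intro u v w₁ w w₂ Y τ hR hu hw hv hs1 hs hs2 hY hτ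
    set W := n₀ + P * (Sig.card + 2) with hW
    obtain ⟨τ₁, rfl⟩ : ∃ τ₁, τ = W + τ₁ := ⟨τ - W, by rw [Nat.succ_mul] at hτ; omega⟩
    obtain ⟨y, hy1, hy2⟩ := it_add.1 hw
    by_cases hle : y.length ≤ 1
    · exfalso
      obtain ⟨c, hc1, hc2, _⟩ := exists_chain' hne hper hY hy1 hle
      subst hc1
      exact h.no_chain hR hu hv hs1 hs2 (by omega) hc2
    · have hyT := hcount_it (Hv := fun x => x ∈ G.T) hper hY hy1
      obtain ⟨a, Z, b, rfl, hZ, _⟩ := exists_heavy hyT
      obtain ⟨u', hu1, hu2⟩ := par_it_add.1 hu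
      obtain ⟨v', hv1, hv2⟩ := par_it_add.1 hv
      obtain ⟨wa, w', ha, hb, rfl⟩ := par_append.1 hy2
      obtain ⟨wZ, wb, hZ', hc, rfl⟩ := par_append.1 hb
      rw [par_single] at hZ'
      have hτ1 : m * W ≤ τ₁ := by rw [Nat.succ_mul] at hτ; omega
      have hR' : Rc G (u' ++ ((a ++ ([Z] ++ b)) ++ v')) :=
        hR.trans (hu1.append ((par_single.2 hy1).append hv1))
      have e1 := ih (u := u' ++ a) (v := b ++ v') (Y := Z)
        (by simpa [append_assoc] using hR') (hu2.append ha) hZ' (hc.append hv2)
        (by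
          intro x hx
          rw [mem_append] at hx
          rcases hx with hx | hx
          · exact hs1 x hx
          · exact hs x (by simp [hx]))
        (fun x hx => hs x (by simp [hx]))
        (by
          intro x hx
          rw [mem_append] at hx
          rcases hx with hx | hx
          · apply hs x
            simp only [mem_append]
            tauto
          · exact hs2 x hx) hZ hτ1
      have e2 := ha.le_length (fun x v h => It.ne_nil hne h)
      have e3 := hc.le_length (fun x v h => It.ne_nil hne h)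
      simp only [length_append, length_singleton] at hle ⊢
      omega

/-! ### The language `{x^i f^j y^i}` -/

/-- The words `x^i f^j y^i` with `f = 0`, `x = 1`, `y = 2`. -/
def wdA (i j : ℕ) : List ℕ := replicate i 1 ++ (replicate j 0 ++ replicate i 2)

/-- The first corner language. -/
def LA : Set (List ℕ) :=
  {w | (∃ i j, 1 ≤ i ∧ 1 ≤ j ∧ w = wdA i j) ∨ ∃ l, l < 3 ∧ ∃ n, w = replicate (2 ^ n) l}

/-- Symbols of the system. -/
inductive VA
  | st | c1 | c2 | x' | y' | f' | p (l : Fin 3)
  deriving DecidableEq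

instance : Finite VA := by
  apply Finite.of_surjective (fun x : Fin 6 ⊕ Fin 3 => match x with
    | Sum.inl 0 => VA.st | Sum.inl 1 => VA.c1 | Sum.inl 2 => VA.c2 | Sum.inl 3 => VA.x'
    | Sum.inl 4 => VA.y' | Sum.inl 5 => VA.f' | Sum.inr l => VA.p l)
  intro y
  cases y with
  | st => exact ⟨Sum.inl 0, rfl⟩
  | c1 => exact ⟨Sum.inl 1, rfl⟩
  | c2 => exact ⟨Sum.inl 2, rfl⟩
  | x' => exact ⟨Sum.inl 3, rfl⟩
  | y' => exact ⟨Sum.inl 4, rfl⟩
  | f' => exact ⟨Sum.inl 5, rfl⟩
  | p l => exact ⟨Sum.inr l, rfl⟩

/-- Nonfinal rules. -/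
def NA : VA → List (List VA)
  | .st => [[.c1], [.p 0], [.p 1], [.p 2]]
  | .c1 => [[.x', .c1, .y'], [.x', .c2, .y']]
  | .c2 => [[.c2, .f']]
  | .x' => [[.x']]
  | .y' => [[.y']]
  | .f' => [[.f']]
  | .p l => [replicate 2 (.p l)]

/-- Final rules. -/
def FA : VA → List (List ℕ)
  | .st => []
  | .c1 => []
  | .c2 => [[0]]
  | .x' => [[1]]
  | .y' => [[2]]
  | .f' => [[0]]
  | .p l => [[l.1]]

/-- The system. -/
def sysLA : Sys VA := Sys.ofLists NA FA
  (by
    intro x w hw
    cases x <;> simp only [NA, mem_cons, not_mem_nil, or_false] at hw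
    · rcases hw with rfl | rfl | rfl | rfl <;> simp
    · rcases hw with rfl | rfl <;> simp
    · subst hw; simp
    · subst hw; simp
    · subst hw; simp
    · subst hw; simp
    · subst hw; simp)
  (by
    intro x w hw
    cases x <;> simp only [FA, mem_cons, not_mem_nil, or_false] at hw <;> subst hw <;> simp)

lemma sysLA_L : sysLA.L [VA.st] = LA := by
  have hN : ∀ x u, sysLA.N x u ↔ u ∈ NA x := fun _ _ => Iff.rfl
  have hF : ∀ x u, sysLA.F x u ↔ u ∈ FA x := fun _ _ => Iff.rfl
  have hc2 := Sys.on_count (H := sysLA) (x := VA.c2) (y := VA.f') (l := 0)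
    (by intro u; rw [hN]; simp [NA]) (by intro u; rw [hF]; simp [FA])
    (by intro u; rw [hN]; simp [NA]) (by intro u; rw [hF]; simp [FA])
  have hx := Sys.on_wait (H := sysLA) (x := VA.x') (l := 1)
    (by intro u; rw [hN]; simp [NA]) (by intro u; rw [hF]; simp [FA])
  have hy := Sys.on_wait (H := sysLA) (x := VA.y') (l := 2)
    (by intro u; rw [hN]; simp [NA]) (by intro u; rw [hF]; simp [FA])
  have hp : ∀ l : Fin 3, ∀ n w, sysLA.On n [VA.p l] w ↔ w = replicate (2 ^ n) l.1 := by
    intro l
    exact Sys.on_mul (H := sysLA) (x := VA.p l) (M := 2) (l := l.1)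
      (by intro u; rw [hN]; simp only [NA, mem_singleton]) (by intro u; rw [hF]; simp [FA])
  have h3 : ∀ (c : VA) n w, sysLA.On n [VA.x', c, VA.y'] w ↔
      ∃ w', sysLA.On n [c] w' ∧ w = [1] ++ (w' ++ [2]) := by
    intro c n w
    rw [Sys.on_cons]
    constructor
    · rintro ⟨w₁, w₂, rfl, h1, h2⟩
      obtain ⟨w₃, w₄, rfl, h4, h5⟩ := Sys.on_cons.1 h2
      rw [hx] at h1
      rw [hy] at h5
      subst h1; subst h5
      exact ⟨w₃, h4, rfl⟩
    · rintro ⟨w', h1, rfl⟩
      exact ⟨_, _, rfl, (hx n _).2 rfl, Sys.on_cons.2 ⟨_, _, rfl, h1, (hy n _).2 rfl⟩⟩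
  have hc1 : ∀ n w, sysLA.On n [VA.c1] w ↔ ∃ k l, 1 ≤ k ∧ k + l = n ∧ w = wdA k (l + 1) := by
    intro n
    induction n with
    | zero =>
      intro w
      rw [Sys.on_zero, hF]
      simp only [FA, not_mem_nil, false_iff]
      rintro ⟨k, l, h1, h2, _⟩
      omega
    | succ n ih =>
      intro w
      rw [Sys.on_succ]
      constructor
      · rintro ⟨u, h1, h2⟩
        rw [hN] at h1
        simp only [NA, mem_cons, not_mem_nil, or_false] at h1
        rcases h1 with rfl | rfl
        · obtain ⟨w', h4, rfl⟩ := (h3 _ _ _).1 h2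
          obtain ⟨k, l, h5, h6, rfl⟩ := (ih w').1 h4
          refine ⟨k + 1, l, by omega, by omega, ?_⟩
          unfold wdA
          rw [replicate_succ' (n := k) (a := 2), replicate_succ (n := k) (a := 1)]
          simp
        · obtain ⟨w', h4, rfl⟩ := (h3 _ _ _).1 h2
          rw [hc2] at h4
          subst h4
          exact ⟨1, n, le_rfl, by omega, rfl⟩
      · rintro ⟨k, l, h1, h2, rfl⟩
        by_cases hk : k = 1
        · subst hk
          refine ⟨[VA.x', VA.c2, VA.y'], by rw [hN]; simp [NA], (h3 _ _ _).2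
            ⟨replicate (l + 1) 0, ?_, rfl⟩⟩
          rw [hc2]
          congr 1; omega
        · obtain ⟨k', rfl⟩ : ∃ k', k = k' + 1 := ⟨k - 1, by omega⟩
          refine ⟨[VA.x', VA.c1, VA.y'], by rw [hN]; simp [NA], (h3 _ _ _).2
            ⟨wdA k' (l + 1), (ih _).2 ⟨k', l, by omega, by omega, rfl⟩, ?_⟩⟩
          unfold wdA
          rw [replicate_succ' (n := k') (a := 2), replicate_succ (n := k') (a := 1)]
          simp
  ext w
  rw [Sys.mem_L_iff]
  constructor
  · rintro ⟨n, hn⟩
    cases n with
    | zero =>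
      rw [Sys.on_zero, hF] at hn
      simp [FA] at hn
    | succ n =>
      obtain ⟨u, h1, h2⟩ := Sys.on_succ.1 hn
      rw [hN] at h1
      simp only [NA, mem_cons, not_mem_nil, or_false] at h1
      rcases h1 with rfl | rfl | rfl | rfl
      · left
        obtain ⟨k, l, h4, h5, rfl⟩ := (hc1 n w).1 h2
        exact ⟨k, l + 1, h4, by omega, rfl⟩
      · right; exact ⟨0, by omega, n, (hp 0 n w).1 h2⟩
      · right; exact ⟨1, by omega, n, (hp 1 n w).1 h2⟩
      · right; exact ⟨2, by omega, n, (hp 2 n w).1 h2⟩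
  · rintro (⟨i, j, hi, hj, rfl⟩ | ⟨l, hl, n, rfl⟩)
    · obtain ⟨j, rfl⟩ : ∃ j', j = j' + 1 := ⟨j - 1, by omega⟩
      refine ⟨i + j + 1, Sys.on_succ.2 ⟨[VA.c1], by rw [hN]; simp [NA], (hc1 _ _).2
        ⟨i, j, hi, rfl, rfl⟩⟩⟩
    · refine ⟨n + 1, Sys.on_succ.2 ⟨[VA.p ⟨l, hl⟩], ?_, (hp ⟨l, hl⟩ n _).2 rfl⟩⟩
      rw [hN]
      have : l = 0 ∨ l = 1 ∨ l = 2 := by omega
      rcases this with rfl | rfl | rfl
      · simp [NA]
      · simp [NA]
      · simp [NA]

/-- Letters in the wrong order do not occur. -/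
def ordA (x y : ℕ) : Prop := ¬ (x = 0 ∧ y = 1) ∧ ¬ (x = 2 ∧ y = 1) ∧ ¬ (x = 2 ∧ y = 0)

lemma wdA_ord {i j : ℕ} {w₁ w₂ : List ℕ} (h : wdA i j = w₁ ++ w₂) {x y : ℕ} (hx : x ∈ w₁)
    (hy : y ∈ w₂) : ordA x y := by
  have hp : (wdA i j).Pairwise ordA := by
    unfold wdA
    rw [pairwise_append, pairwise_append]
    refine ⟨?_, ⟨?_, ?_, ?_⟩, ?_⟩
    · rw [pairwise_replicate]; right; simp [ordA]
    · rw [pairwise_replicate]; right; simp [ordA]
    · rw [pairwise_replicate]; right; simp [ordA]
    · intro a ha b hb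
      rw [eq_of_mem_replicate ha, eq_of_mem_replicate hb]
      simp [ordA]
    · intro a ha b hb
      rw [eq_of_mem_replicate ha]
      rw [mem_append] at hb
      rcases hb with hb | hb
      · rw [eq_of_mem_replicate hb]; simp [ordA]
      · rw [eq_of_mem_replicate hb]; simp [ordA]
  rw [h, pairwise_append] at hp
  exact hp.2.2 x hx y hy

lemma wdA_count0 (i j : ℕ) : (wdA i j).count 0 = j := by
  unfold wdA
  simp [count_replicate]

lemma wdA_count1 (i j : ℕ) : (wdA i j).count 1 = i := by
  unfold wdA
  simp [count_replicate]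

lemma wdA_count2 (i j : ℕ) : (wdA i j).count 2 = i := by
  unfold wdA
  simp [count_replicate]

lemma wdA_length (i j : ℕ) : (wdA i j).length = i + (j + i) := by
  unfold wdA
  simp

lemma mem_LA_of {w : List ℕ} (h : w ∈ LA) {x y : ℕ} (hx : x ∈ w) (hy : y ∈ w) (hxy : x ≠ y) :
    ∃ i j, 1 ≤ i ∧ 1 ≤ j ∧ w = wdA i j := by
  rcases h with h | ⟨l, _, n, rfl⟩
  · exact h
  · have e1 := eq_of_mem_replicate hx
    have e2 := eq_of_mem_replicate hy
    omega

lemma wdA_mem {i j : ℕ} (hi : 1 ≤ i) (hj : 1 ≤ j) {x : ℕ} :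
    x ∈ wdA i j ↔ x = 1 ∨ x = 0 ∨ x = 2 := by
  unfold wdA
  simp only [mem_append, mem_replicate]
  constructor
  · rintro (⟨_, h⟩ | ⟨_, h⟩ | ⟨_, h⟩)
    · exact Or.inl h
    · exact Or.inr (Or.inl h)
    · exact Or.inr (Or.inr h)
  · rintro (h | h | h)
    · exact Or.inl ⟨by omega, h⟩
    · exact Or.inr (Or.inl ⟨by omega, h⟩)
    · exact Or.inr (Or.inr ⟨by omega, h⟩)

lemma LA_pow {l : ℕ} (hl : l ∈ ({0, 1, 2} : Finset ℕ)) (k : ℕ) (_hk : 1 ≤ k) :
    replicate k l ∈ LA ↔ ∃ n, k = 2 ^ n := by
  constructor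
  · rintro (⟨i, j, hi, hj, h⟩ | ⟨l', _, n, h⟩)
    · exfalso
      have h1 : 1 ∈ replicate k l := by rw [h, wdA_mem hi hj]; simp
      have h2 : 2 ∈ replicate k l := by rw [h, wdA_mem hi hj]; simp
      have e1 := eq_of_mem_replicate h1
      have e2 := eq_of_mem_replicate h2
      omega
    · refine ⟨n, ?_⟩
      have := congrArg length h
      simpa using this
  · rintro ⟨n, rfl⟩
    right
    refine ⟨l, ?_, n, rfl⟩
    simp only [Finset.mem_insert, Finset.mem_singleton] at hl
    omega

lemma LA_sig {w : List ℕ} (hw : w ∈ LA) : ∀ x ∈ w, x ∈ ({0, 1, 2} : Finset ℕ) := by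
  intro x hx
  rcases hw with ⟨i, j, hi, hj, rfl⟩ | ⟨l, hl, n, rfl⟩
  · rw [wdA_mem hi hj] at hx
    simp only [Finset.mem_insert, Finset.mem_singleton]
    tauto
  · rw [eq_of_mem_replicate hx]
    simp only [Finset.mem_insert, Finset.mem_singleton]
    omega

/-- The first corner theorem. -/
theorem cornerA {D : ℕ} (hD2 : 2 ≤ D) (hb : ∀ x w, pr G x w → w.length ≤ D) (hG : Gen G LA)
    (hne : ∀ x w, pr G x w → w ≠ [])
    (hper : ∀ X α, X ∈ G.T → pr G X α → ∃ y ∈ α, y ∈ G.T)
    (hS : ∀ X α, X ∉ G.T → pr G X α → (∃ Z, Z ∉ G.T ∧ α = [Z]) ∨ (∀ y ∈ α, y ∈ G.T) ∨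
      2 ≤ hcount (fun x => x ∈ G.T) α) : False := by
  obtain ⟨n₀, P, ht⟩ := exists_test hG (fun w hw => LA_sig hw) (fun l hl => LA_pow hl)
  obtain ⟨C7, C8, hdich⟩ := dichotomy_par ht.hP ht.tab hb 1
  set W := n₀ + P * (({0, 1, 2} : Finset ℕ).card + 2) with hW
  set i := C7 * D + 1 with hi
  set T₀ := i * W + C8 * (i + 1) + n₀ + 1 with hT₀
  set j := D ^ (T₀ + 1) with hj
  have hj1 : 1 ≤ j := Nat.one_le_pow _ _ (by omega)
  have hmem : wdA i j ∈ LA := Or.inl ⟨i, j, by omega, hj1, rfl⟩
  have hSig := ht.sig _ hmem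
  -- long outcomes of terminals
  have long : ∀ {u v w₁ w w₂ : List ℕ} {Y τ : ℕ}, Rc G (u ++ ([Y] ++ v)) →
      Par (It (pr G) τ) u w₁ → It (pr G) τ Y w → Par (It (pr G) τ) v w₂ →
      w₁ ++ (w ++ w₂) = wdA i j → Y ∈ G.T → T₀ ≤ τ → i + 1 ≤ w.length := by
    intro u v w₁ w w₂ Y τ hR h1 h2 h3 h4 hY hτ
    exact ht.linear hne hper i hR h1 h2 h3 (fun x hx => hSig x (by rw [← h4]; simp [hx]))
      (fun x hx => hSig x (by rw [← h4]; simp [hx]))
      (fun x hx => hSig x (by rw [← h4]; simp [hx])) hY (by change i * W ≤ τ; omega)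
  have main : ∀ τ X, X ∉ G.T → Rc G [X] → It (pr G) τ X (wdA i j) → False := by
    intro τ
    induction τ with
    | zero =>
      intro X _ _ h
      rw [it_zero] at h
      have := congrArg length h
      rw [wdA_length, length_singleton] at this
      omega
    | succ τ ih =>
      intro X hX hR h
      obtain ⟨α, h1, h2⟩ := it_succ.1 h
      have hRα : Rc G α := hR.step (par_single.2 h1)
      have hτ : T₀ ≤ τ := by
        have h3 := Par.it_length_le hb h2
        rw [wdA_length] at h3
        have h4 : D ^ τ * α.length ≤ D ^ τ * D := Nat.mul_le_mul_left _ (hb _ _ h1)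
        rw [← pow_succ] at h4
        have h5 : D ^ (T₀ + 1) < D ^ (τ + 1) := by omega
        have := (Nat.pow_lt_pow_iff_right (by omega)).1 h5
        omega
      rcases hS X α hX h1 with ⟨Z, hZ, rfl⟩ | hT | h2a
      · exact ih Z hZ hRα (par_single.1 h2)
      · -- a real word
        have hαne := hne _ _ h1
        obtain ⟨x₁, β, rfl⟩ := exists_cons_of_ne_nil hαne
        have hαL := hG.mem hRα hT (by simp)
        have hx₁ : x₁ ∈ ({0, 1, 2} : Finset ℕ) := LA_sig hαL x₁ (by simp)
        obtain ⟨p, r, h3, h4, h5⟩ := par_cons.1 h2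
        have hlen := long (u := []) (v := β) (w₁ := []) hRα Par.nil h3 h4 h5.symm
          (hT x₁ (by simp)) hτ
        have hpS : ∀ x ∈ p, x ∈ G.T := fun x hx => ht.sigT x (hSig x (by rw [h5]; simp [hx]))
        have h1w : 1 ∈ wdA i j := (wdA_mem (by omega) hj1).2 (Or.inl rfl)
        have h0w : 0 ∈ wdA i j := (wdA_mem (by omega) hj1).2 (Or.inr (Or.inl rfl))
        have h0p : 0 ∈ p := by
          by_contra hcon
          have h0r : 0 ∈ r := by
            rw [h5, mem_append] at h0w
            exact h0w.resolve_left hcon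
          have hall : ∀ x ∈ p, x = 1 := by
            intro x hx
            have h6 : x ∈ wdA i j := by rw [h5]; simp [hx]
            rw [wdA_mem (by omega) hj1] at h6
            rcases h6 with h6 | h6 | h6
            · exact h6
            · subst h6; exact absurd hx hcon
            · exact absurd ⟨h6, rfl⟩ (wdA_ord h5 hx h0r).2.2
          have h6 : p.count 1 = p.length := count_eq_length.2 (fun x hx => (hall x hx).symm)
          have h7 := congrArg (List.count 1) h5
          rw [wdA_count1, count_append] at h7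
          omega
        have h1p : 1 ∈ p := by
          by_contra hcon
          rw [h5, mem_append] at h1w
          exact (wdA_ord h5 h0p (h1w.resolve_left hcon)).1 ⟨rfl, rfl⟩
        have hxx : Rc G (replicate (2 ^ 1) x₁) := hG.rc ((LA_pow hx₁ _ (by norm_num)).2 ⟨1, rfl⟩)
        have hpp : Rc G (p ++ p) := by
          apply hxx.trans (n := τ)
          have := Par.cons h3 (par_single.2 h3)
          exact this
        have hppL := hG.mem hpp (by
          intro x hx
          rw [mem_append] at hx
          rcases hx with hx | hx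
          · exact hpS x hx
          · exact hpS x hx) (by
          intro h
          have : (0 : ℕ) ∈ p ++ p := by simp [h0p]
          rw [h] at this
          simp at this)
        obtain ⟨i', j', _, _, e⟩ := mem_LA_of hppL (x := 0) (y := 1) (by simp [h0p])
          (by simp [h1p]) (by omega)
        exact (wdA_ord e.symm h0p h1p).1 ⟨rfl, rfl⟩
      · -- at least two terminals
        have hcut := cut_or (lr := 2) (ll := 1) (p := replicate i 1 ++ replicate j 0)
          (q := replicate i 2) (by rw [append_assoc]; exact h2)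
          (by
            intro h
            rw [mem_append] at h
            rcases h with h | h
            · have := eq_of_mem_replicate h
              omega
            · have := eq_of_mem_replicate h
              omega)
          (by
            intro h
            have := eq_of_mem_replicate h
            omega)
        rw [append_assoc] at hcut
        rcases hcut with ⟨u, X', v, w₁, w, w₂, rfl, e, h3, h4, h5, h6, h7⟩ |
          ⟨u, v, w₁, w₂, rfl, e, h3, h4, h5, h6⟩
        · have e' : wdA i j = w₁ ++ (w ++ w₂) := e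
          have hcnt : 1 ≤ hcount (fun x => x ∈ G.T) u ∨ 1 ≤ hcount (fun x => x ∈ G.T) v := by
            rw [hcount_append, hcount_append] at h2a
            have := hcount_le_length (Hv := fun x => x ∈ G.T) [X']
            simp only [length_singleton] at this
            omega
          rcases hcnt with hcnt | hcnt
          · obtain ⟨u1, Y, u2, rfl, hY, _⟩ := exists_heavy hcnt
            obtain ⟨wa, w', g1, g2, rfl⟩ := par_append.1 h3
            obtain ⟨wY, wb, g3, g4, rfl⟩ := par_append.1 g2
            have hlen := long (u := u1) (v := u2 ++ ([X'] ++ v)) (w₁ := wa) (w := wY)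
              (w₂ := wb ++ (w ++ w₂))
              (by simpa [append_assoc] using hRα) g1 (par_single.1 g3)
              (g4.append ((par_single.2 h4).append h5))
              (by rw [e']; simp [append_assoc]) hY hτ
            have hall : ∀ x ∈ wY, x = 1 := by
              intro x hx
              have h8 : x ∈ wdA i j := by rw [e']; simp [hx]
              rw [wdA_mem (by omega) hj1] at h8
              have h9 := wdA_ord e' (x := x) (y := 1) (by simp [hx]) (by simp [h7])
              rcases h8 with h8 | h8 | h8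
              · exact h8
              · exact absurd ⟨h8, rfl⟩ h9.1
              · exact absurd ⟨h8, rfl⟩ h9.2.1
            have h8 : wY.count 1 = wY.length := count_eq_length.2 (fun x hx => (hall x hx).symm)
            have h9 := congrArg (List.count 1) e'
            rw [wdA_count1] at h9
            simp only [count_append] at h9
            omega
          · obtain ⟨u1, Y, u2, rfl, hY, _⟩ := exists_heavy hcnt
            obtain ⟨wa, w', g1, g2, rfl⟩ := par_append.1 h5
            obtain ⟨wY, wb, g3, g4, rfl⟩ := par_append.1 g2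
            have hlen := long (u := u ++ ([X'] ++ u1)) (v := u2) (w₁ := w₁ ++ (w ++ wa)) (w := wY)
              (w₂ := wb)
              (by simpa [append_assoc] using hRα) (h3.append ((par_single.2 h4).append g1))
              (par_single.1 g3) g4
              (by rw [e']; simp [append_assoc]) hY hτ
            have hall : ∀ x ∈ wY, x = 2 := by
              intro x hx
              have h8 : x ∈ wdA i j := by rw [e']; simp [hx]
              rw [wdA_mem (by omega) hj1] at h8
              have e2 : wdA i j = (w₁ ++ w) ++ (wa ++ (wY ++ wb)) := by rw [e']; simp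
              have h9 := wdA_ord e2 (x := 2) (y := x) (by simp [h6]) (by simp [hx])
              rcases h8 with h8 | h8 | h8
              · exact absurd ⟨rfl, h8⟩ h9.2.1
              · exact absurd ⟨rfl, h8⟩ h9.2.2
              · exact h8
            have h8 : wY.count 2 = wY.length := count_eq_length.2 (fun x hx => (hall x hx).symm)
            have h9 := congrArg (List.count 2) e'
            rw [wdA_count2] at h9
            simp only [count_append] at h9
            omega
        · have e' : wdA i j = w₁ ++ w₂ := e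
          obtain ⟨w₁', g1, g2, g3⟩ := hdich u (fun X hX => hRα.mem_V X (by simp [hX])) τ (by omega)
            w₁ h3 (fun x hx => hSig x (by rw [e']; simp [hx]))
          have tr : ∀ x, x ∈ w₁' ↔ x ∈ w₁ := by
            intro x
            rw [← mem_toFinset, g2, mem_toFinset]
          have h1w : 1 ∈ wdA i j := (wdA_mem (by omega) hj1).2 (Or.inl rfl)
          have h2w : 2 ∈ wdA i j := (wdA_mem (by omega) hj1).2 (Or.inr (Or.inr rfl))
          rw [e', mem_append] at h1w h2w
          have h1m : 1 ∈ w₁' := (tr 1).2 (h1w.resolve_right h6)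
          have h2m : 2 ∈ w₂ := h2w.resolve_left h5
          have hL : w₁' ++ w₂ ∈ LA := by
            apply hG.mem (hRα.trans (g1.append h4))
            · intro x hx
              apply ht.sigT
              apply hSig
              rw [e']
              rw [mem_append] at hx ⊢
              rwa [tr] at hx
            · intro h
              have : (1 : ℕ) ∈ w₁' ++ w₂ := by simp [h1m]
              rw [h] at this
              simp at this
          obtain ⟨i', j', _, _, e2⟩ := mem_LA_of hL (x := 1) (y := 2) (by simp [h1m])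
            (by simp [h2m]) (by omega)
          have c1 := congrArg (List.count 1) e2
          have c2 := congrArg (List.count 2) e2
          have c3 := congrArg (List.count 2) e'
          rw [wdA_count1, count_append, count_eq_zero.2 h6] at c1
          rw [wdA_count2, count_append, count_eq_zero.2 (fun h => h5 ((tr 2).1 h))] at c2
          rw [wdA_count2, count_append, count_eq_zero.2 h5] at c3
          have hcnt : w₁'.count 1 = i := by omega
          have hul : C7 * u.length ≤ C7 * D := by
            apply Nat.mul_le_mul_left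
            have := hb _ _ h1
            rw [length_append] at this
            omega
          rw [hcnt] at g3
          rcases g3 with g3 | g3
          · omega
          · omega
  obtain ⟨_, _, n, hn⟩ := hG.exists hmem
  exact main n G.S G.S_notMem Rc.start hn

end Pool.Agent.Helper79.EOL
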