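import Pool.Agent.Helper79.EOL.CornerLang

/-!
# The second corner theorem
-/

namespace Pool.Agent.Helper79.EOL

open List Pool.Agent.Helper76.EOL

variable {G : Grammar} {L : Set (List ℕ)} {Sig : Finset ℕ} {n₀ P D : ℕ}

/-- Splitting a word in which the letter `lr` never precedes `ll`. -/
lemma exists_split {lr ll : ℕ} (hne : lr ≠ ll) {w : List ℕ}
    (h : ∀ w₁ w₂, w = w₁ ++ w₂ → lr ∈ w₁ → ll ∉ w₂) :
    ∃ p q, w = p ++ q ∧ lr ∉ p ∧ ll ∉ q := by
  induction w with
  | nil => exact ⟨[], [], rfl, by simp, by simp⟩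
  | cons x w ih =>
    by_cases hx : x = lr
    · refine ⟨[], x :: w, rfl, by simp, ?_⟩
      rw [mem_cons]
      rintro (h1 | h1)
      · exact hne (hx.symm.trans h1.symm)
      · exact h [x] w rfl (by simp [hx]) h1
    · obtain ⟨p, q, rfl, h1, h2⟩ := ih (fun w₁ w₂ e h3 => h (x :: w₁) w₂ (by rw [e]; rfl)
        (by simp [h3]))
      refine ⟨x :: p, q, rfl, ?_, h2⟩
      rw [mem_cons]
      rintro (h3 | h3)
      · exact hx h3.symm
      · exact h1 h3

lemma cut_or' {α : Type*} {N : α → List ℕ → Prop} {lr ll : ℕ} (hne : lr ≠ ll) {z : List α}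
    {w : List ℕ} (h : Par N z w) (hord : ∀ w₁ w₂, w = w₁ ++ w₂ → lr ∈ w₁ → ll ∉ w₂) :
    (∃ u X v w₁ w' w₂, z = u ++ ([X] ++ v) ∧ w = w₁ ++ (w' ++ w₂) ∧ Par N u w₁ ∧ N X w' ∧
        Par N v w₂ ∧ lr ∈ w' ∧ ll ∈ w') ∨
      (∃ u v w₁ w₂, z = u ++ v ∧ w = w₁ ++ w₂ ∧ Par N u w₁ ∧ Par N v w₂ ∧ lr ∉ w₁ ∧
        ll ∉ w₂) := by
  obtain ⟨p, q, rfl, h1, h2⟩ := exists_split hne hord
  exact cut_or h h1 h2

/-- Quick finalisation of a word around a symbol. -/
lemma Test.quick (ht : Test G L Sig n₀ P) {u v wu wJ wv : List ℕ} {J τ : ℕ}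
    (hR : Rc G (u ++ ([J] ++ v))) (hu : Par (It (pr G) τ) u wu) (hJ : It (pr G) τ J wJ)
    (hv : Par (It (pr G) τ) v wv) (hS : ∀ x ∈ wu ++ (wJ ++ wv), x ∈ Sig) (hτ : n₀ ≤ τ)
    (hne : wJ ≠ []) : ∃ ρ wu' wJ' wv', n₀ ≤ ρ ∧ ρ < n₀ + P ∧ Par (It (pr G) ρ) u wu' ∧
      It (pr G) ρ J wJ' ∧ Par (It (pr G) ρ) v wv' ∧ (∀ x, x ∈ wu' ↔ x ∈ wu) ∧
      (∀ x, x ∈ wJ' ↔ x ∈ wJ) ∧ (∀ x, x ∈ wv' ↔ x ∈ wv) ∧ wu' ++ (wJ' ++ wv') ∈ L := by
  obtain ⟨ρ, hρ1, hρ2, hρ3⟩ := exists_rep ht.hP n₀ τ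
  obtain ⟨w₁', e1, f1⟩ := ht.tab.par hτ hρ1 hρ3 (fun x hx => hR.mem_V x (by simp [hx])) hu
    (fun x hx => hS x (by simp [hx]))
  obtain ⟨w', e2, f2⟩ := ht.tab J (hR.mem_V J (by simp)) τ ρ hτ hρ1 hρ3 wJ hJ
    (fun x hx => hS x (by simp [hx]))
  obtain ⟨w₂', e3, f3⟩ := ht.tab.par hτ hρ1 hρ3 (fun x hx => hR.mem_V x (by simp [hx])) hv
    (fun x hx => hS x (by simp [hx]))
  have tr : ∀ {a b : List ℕ}, a.toFinset = b.toFinset → ∀ x, x ∈ a ↔ x ∈ b := by
    intro a b h x
    rw [← mem_toFinset, h, mem_toFinset]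
  refine ⟨ρ, w₁', w', w₂', hρ1, hρ2, e1, e2, e3, tr f1, tr f2, tr f3, ?_⟩
  apply ht.gen.mem (hR.trans (e1.append ((par_single.2 e2).append e3)))
  · intro x hx
    apply ht.sigT
    apply hS
    simp only [mem_append] at hx ⊢
    rw [tr f1, tr f2, tr f3] at hx
    exact hx
  · intro h
    obtain ⟨x, hx⟩ := exists_mem_of_ne_nil _ hne
    have h1 : x ∈ w₁' ++ (w' ++ w₂') := by simp [(tr f2 x).2 hx]
    rw [h] at h1
    simp at h1

lemma it_loop {X l : ℕ} (h : It (pr G) l X [X]) (m : ℕ) : It (pr G) (m * l) X [X] := by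
  induction m with
  | zero => rw [Nat.zero_mul]; rfl
  | succ m ih =>
    rw [Nat.succ_mul, it_add]
    exact ⟨[X], ih, par_single.2 h⟩

/-- The hypotheses on the grammar. -/
structure HC (G : Grammar) (D n₀ P : ℕ) : Prop where
  hD : 2 ≤ D
  hb : ∀ x w, pr G x w → w.length ≤ D
  test : Test G (LC D) {0, 1, 2, 3} n₀ P
  hne : ∀ x w, pr G x w → w ≠ []
  hper : ∀ X α, X ∈ G.T → pr G X α → ∃ y ∈ α, y ∈ G.T
  hS : ∀ X α, X ∉ G.T → pr G X α → (∀ y ∈ α, y ∉ G.T) → α.length = 1
  hC : ∀ X Z β, X ∈ G.T → Z ∈ G.T → pr G X (Z :: β) → (∀ y ∈ β, y ∉ G.T) → β = []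

lemma HC.stage1 (h : HC G D n₀ P) {u v wu wJ wv : List ℕ} {J τ i j : ℕ}
    (hR : Rc G (u ++ ([J] ++ v))) (hu : Par (It (pr G) τ) u wu) (hJ : It (pr G) τ J wJ)
    (hv : Par (It (pr G) τ) v wv) (hw : wu ++ (wJ ++ wv) = wdC D i j) (hi : 1 ≤ i) (hj : 1 ≤ j)
    (h0 : 0 ∈ wJ) (h1 : 1 ∈ wJ) (hτ : n₀ ≤ τ) :
    (u ++ ([J] ++ v)).length ≤ D ^ (n₀ + P) + (D ^ (n₀ + P) + (D ^ (n₀ + P) +
      D ^ (D ^ (n₀ + P) + D ^ (n₀ + P)))) := by
  have hD := h.hD
  have hL : wdC D i j ∈ LC D := Or.inl ⟨i, j, hi, hj, rfl⟩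
  obtain ⟨ρ, wu', wJ', wv', _, hρ, e1, e2, e3, t1, t2, t3, h5⟩ := h.test.quick hR hu hJ hv
    (by rw [hw]; exact h.test.sig _ hL) hτ (ne_nil_of_mem h0)
  have h0' := (t2 0).2 h0
  have h1' := (t2 1).2 h1
  obtain ⟨i', j', _, _, e⟩ := mem_LC_of h5 (x := 0) (y := 1) (by simp [h0']) (by simp [h1'])
    (by omega)
  have e' : wdC D i' j' = (wu' ++ wJ') ++ wv' := by rw [← e]; simp
  have a2 : wu'.count 2 = 0 := by
    rw [count_eq_zero]
    intro hx
    have := wdC_ord e.symm hx (y := 1) (by simp [h1'])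
    simp [rkC] at this
  have a3 : wu'.count 3 = 0 := by
    rw [count_eq_zero]
    intro hx
    have := wdC_ord e.symm hx (y := 1) (by simp [h1'])
    simp [rkC] at this
  have b2 : wv'.count 2 = 0 := by
    rw [count_eq_zero]
    intro hx
    have := wdC_ord e' (x := 0) (by simp [h0']) hx
    simp [rkC] at this
  have b3 : wv'.count 3 = 0 := by
    rw [count_eq_zero]
    intro hx
    have := wdC_ord e' (x := 0) (by simp [h0']) hx
    simp [rkC] at this
  have c2 := congrArg (List.count 2) e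
  have c3 := congrArg (List.count 3) e
  rw [wdC_count2, count_append, count_append, a2, b2] at c2
  rw [wdC_count3, count_append, count_append, a3, b3] at c3
  have hlen : wJ'.length ≤ D ^ ρ := e2.length_le h.hb
  have hDρ : D ^ ρ ≤ D ^ (n₀ + P) := Nat.pow_le_pow_right (by omega) (by omega)
  have hc2 := count_le_length (a := 2) (l := wJ')
  have hc3 := count_le_length (a := 3) (l := wJ')
  have hpw : D ^ (i' + j') ≤ D ^ (D ^ (n₀ + P) + D ^ (n₀ + P)) :=
    Nat.pow_le_pow_right (by omega) (by omega)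
  have hle := (e1.append ((par_single.2 e2).append e3)).le_length
    (fun x v hx => It.ne_nil h.hne hx)
  rw [e, wdC_length] at hle
  omega

lemma HC.left_bound (h : HC G D n₀ P) {u v wu wJ wv : List ℕ} {J τ i j : ℕ}
    (hR : Rc G (u ++ ([J] ++ v))) (hu : Par (It (pr G) τ) u wu) (hJ : It (pr G) τ J wJ)
    (hv : Par (It (pr G) τ) v wv) (hw : wu ++ (wJ ++ wv) = wdC D i j) (hi : 1 ≤ i) (hj : 1 ≤ j)
    (h1 : 1 ∈ wJ) (h3 : 3 ∈ wJ) (hτ : n₀ ≤ τ) : u.length ≤ D ^ (n₀ + P) := by
  have hD := h.hD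
  have hL : wdC D i j ∈ LC D := Or.inl ⟨i, j, hi, hj, rfl⟩
  obtain ⟨ρ, wu', wJ', wv', _, hρ, e1, e2, e3, t1, t2, t3, h5⟩ := h.test.quick hR hu hJ hv
    (by rw [hw]; exact h.test.sig _ hL) hτ (ne_nil_of_mem h1)
  have h3' := (t2 3).2 h3
  have h1' := (t2 1).2 h1
  obtain ⟨i', j', hi', hj', e⟩ := mem_LC_of h5 (x := 3) (y := 1) (by simp [h3']) (by simp [h1'])
    (by omega)
  have e' : wdC D i' j' = (wu' ++ wJ') ++ wv' := by rw [← e]; simp
  have a2 : wu'.count 2 = 0 := by
    rw [count_eq_zero]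
    intro hx
    have := wdC_ord e.symm hx (y := 1) (by simp [h1'])
    simp [rkC] at this
  have b2 : wv'.count 2 = 0 := by
    rw [count_eq_zero]
    intro hx
    have := wdC_ord e' (x := 3) (by simp [h3']) hx
    simp [rkC] at this
  have hall : ∀ x ∈ wu', x = 1 := by
    intro x hx
    have h6 := wdC_ord e.symm hx (y := 1) (by simp [h1'])
    have h7 : x ∈ wdC D i' j' := by rw [← e]; simp [hx]
    rw [wdC_mem (by omega) hi' hj'] at h7
    rcases h7 with rfl | rfl | rfl | rfl <;> simp [rkC] at h6 ⊢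
  have hcu : wu'.count 1 = wu'.length := count_eq_length.2 (fun x hx => (hall x hx).symm)
  have c2 := congrArg (List.count 2) e
  have c1 := congrArg (List.count 1) e
  rw [wdC_count2, count_append, count_append, a2, b2] at c2
  rw [wdC_count1, count_append, count_append] at c1
  have hlen : wJ'.length ≤ D ^ ρ := e2.length_le h.hb
  have hDρ : D ^ ρ ≤ D ^ (n₀ + P) := Nat.pow_le_pow_right (by omega) (by omega)
  have hc2 := count_le_length (a := 2) (l := wJ')
  have hle := e1.le_length (fun x v hx => It.ne_nil h.hne hx)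
  omega

lemma HC.stage3 (h : HC G D n₀ P) {C7 C8 : ℕ}
    (hdich : ∀ z, (∀ X ∈ z, X ∈ G.V) → ∀ τ, n₀ ≤ τ → ∀ w, Par (It (pr G) τ) z w →
      (∀ y ∈ w, y ∈ ({0, 1, 2, 3} : Finset ℕ)) → ∃ w', Par (It (pr G) τ) z w' ∧
        w'.toFinset = w.toFinset ∧ (w'.count 1 ≤ C7 * z.length ∨ τ ≤ C8 * (w'.count 1 + 1)))
    {u v wL wR : List ℕ} {τ i j : ℕ} (hR : Rc G (u ++ v)) (hu : Par (It (pr G) τ) u wL)
    (hv : Par (It (pr G) τ) v wR) (hw : wL ++ wR = wdC D i j) (hi : 1 ≤ i) (hj : 1 ≤ j)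
    (h3 : 3 ∉ wL) (h1 : 1 ∉ wR) (hτ : n₀ ≤ τ) : j ≤ C7 * u.length ∨ τ ≤ C8 * (j + 1) := by
  have hD := h.hD
  have hL : wdC D i j ∈ LC D := Or.inl ⟨i, j, hi, hj, rfl⟩
  have hSig := h.test.sig _ hL
  obtain ⟨wL', g1, g2, g3⟩ := hdich u (fun X hX => hR.mem_V X (by simp [hX])) τ hτ wL hu
    (fun x hx => hSig x (by rw [← hw]; simp [hx]))
  have tr : ∀ x, x ∈ wL' ↔ x ∈ wL := by
    intro x
    rw [← mem_toFinset, g2, mem_toFinset]
  have m1 : 1 ∈ wdC D i j := (wdC_mem (by omega) hi hj).2 (Or.inl rfl)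
  have m3 : 3 ∈ wdC D i j := (wdC_mem (by omega) hi hj).2 (Or.inr (Or.inr (Or.inl rfl)))
  rw [← hw, mem_append] at m1 m3
  have m1' : 1 ∈ wL' := (tr 1).2 (m1.resolve_right h1)
  have m3' : 3 ∈ wR := m3.resolve_left h3
  have h0 : 0 ∉ wL := by
    intro hx
    have := wdC_ord hw.symm hx m3'
    simp [rkC] at this
  have hL' : wL' ++ wR ∈ LC D := by
    apply h.test.gen.mem (hR.trans (g1.append hv))
    · intro x hx
      apply h.test.sigT
      apply hSig
      rw [← hw]
      rw [mem_append] at hx ⊢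
      rwa [tr] at hx
    · intro hcon
      have : (1 : ℕ) ∈ wL' ++ wR := by simp [m1']
      rw [hcon] at this
      simp at this
  obtain ⟨i', j', _, _, e2⟩ := mem_LC_of hL' (x := 1) (y := 3) (by simp [m1'])
    (by simp [m3']) (by omega)
  have c0 := congrArg (List.count 0) e2
  have d0 := congrArg (List.count 0) hw
  have c3 := congrArg (List.count 3) e2
  have d3 := congrArg (List.count 3) hw
  have c1 := congrArg (List.count 1) e2
  rw [wdC_count0, count_append, count_eq_zero.2 (fun hx => h0 ((tr 0).1 hx))] at c0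
  rw [wdC_count0, count_append, count_eq_zero.2 h0] at d0
  rw [wdC_count3, count_append, count_eq_zero.2 (fun hx => h3 ((tr 3).1 hx))] at c3
  rw [wdC_count3, count_append, count_eq_zero.2 h3] at d3
  rw [wdC_count1, count_append, count_eq_zero.2 h1] at c1
  have hpow : D ^ (i' + j') = D ^ (i + j) := by omega
  have := Nat.pow_right_injective hD hpow
  have hcnt : wL'.count 1 = j := by omega
  rwa [hcnt] at g3

/-- The numbers of terminals in a word and the length of its outcome. -/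
lemma Test.linear_hcount (h : Test G L Sig n₀ P) (hne : ∀ x w, pr G x w → w ≠ [])
    (hper : ∀ X α, X ∈ G.T → pr G X α → ∃ y ∈ α, y ∈ G.T) {m τ : ℕ}
    (hτ : m * (n₀ + P * (Sig.card + 2)) ≤ τ) {z : List ℕ} : ∀ {u v wu w wv : List ℕ},
      Rc G (u ++ (z ++ v)) → Par (It (pr G) τ) u wu → Par (It (pr G) τ) z w →
      Par (It (pr G) τ) v wv → (∀ x ∈ wu ++ (w ++ wv), x ∈ Sig) →
      hcount (fun x => x ∈ G.T) z * (m + 1) ≤ w.length := by
  induction z with
  | nil =>
    intro u v wu w wv _ _ _ _ _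
    simp
  | cons Y z ih =>
    intro u v wu w wv hR hu hw hv hS
    obtain ⟨wY, w', h1, h2, rfl⟩ := par_cons.1 hw
    have e1 := ih (u := u ++ [Y]) (v := v) (wu := wu ++ wY) (by simpa [append_assoc] using hR)
      (hu.append (par_single.2 h1)) h2 hv (by simpa [append_assoc] using hS)
    rw [← singleton_append, hcount_append, length_append, Nat.add_mul]
    by_cases hY : Y ∈ G.T
    · have e2 := h.linear hne hper m (u := u) (v := z ++ v) (Y := Y)
        (by simpa [append_assoc] using hR) hu h1 (h2.append hv)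
        (fun x hx => hS x (by simp [hx])) (fun x hx => hS x (by simp [hx]))
        (fun x hx => hS x (by
          simp only [mem_append] at hx ⊢
          tauto)) hY hτ
      rw [hcount_single hY]
      omega
    · rw [hcount_single' hY]
      omega

/-- A state of the second stage. -/
structure St2 (G : Grammar) (D i j τ : ℕ) (u : List ℕ) (J : ℕ) (v₁ v₂ wu wJ w1 w2 : List ℕ) :
    Prop where
  rc : Rc G (u ++ ([J] ++ (v₁ ++ v₂)))
  hu : Par (It (pr G) τ) u wu
  hJ : It (pr G) τ J wJ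
  h1 : Par (It (pr G) τ) v₁ w1
  h2 : Par (It (pr G) τ) v₂ w2
  hw : wu ++ (wJ ++ (w1 ++ w2)) = wdC D i j
  m1 : 1 ∈ wJ
  m3 : 3 ∈ wJ
  n0 : 0 ∉ wJ
  n01 : 0 ∉ w1

/-- A long unary chain from the symbol `J` is impossible. -/
lemma HC.loop (h : HC G D n₀ P) {i j τ J : ℕ} {u v₁ v₂ wu wJ w1 w2 : List ℕ} (hi : 1 ≤ i)
    (hj : 1 ≤ j) (hs : St2 G D i j τ u J v₁ v₂ wu wJ w1 w2) {c : ℕ → ℕ} (hc0 : c 0 = J)
    (hc : ∀ r < G.V.card * P, pr G (c r) [c (r + 1)]) (hτ : G.V.card * P + n₀ ≤ τ)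
    (hlast : It (pr G) (τ - G.V.card * P) (c (G.V.card * P)) wJ) :
    j ≤ D ^ (n₀ + G.V.card * P) := by
  have hD := h.hD
  have hP := h.test.hP
  set N := G.V.card * P with hN
  have hcV : ∀ r ≤ N, c r ∈ G.V := by
    intro r hr
    cases r with
    | zero => rw [hc0]; exact hs.rc.mem_V J (by simp)
    | succ r => exact (G.prod_wf _ (hc r (by omega))).2 _ (by simp)
  obtain ⟨k, hk, k', hk', hne, heq⟩ := Finset.exists_ne_map_eq_of_card_lt_of_maps_to
    (s := Finset.range (G.V.card + 1)) (t := G.V) (f := fun k => c (k * P))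
    (by rw [Finset.card_range]; omega) (by
      intro k hk
      simp only [Finset.coe_range, Set.mem_Iio] at hk
      exact hcV _ (by rw [hN]; exact Nat.mul_le_mul_right _ (by omega)))
  rw [Finset.mem_range] at hk hk'
  have fin : ∀ k k', k < k' → k' ≤ G.V.card → c (k * P) = c (k' * P) →
      j ≤ D ^ (n₀ + N) := by
    intro k k' h1 h2 h3
    have hkN : k * P ≤ N := Nat.mul_le_mul_right _ (by omega)
    have hkN' : k' * P ≤ N := Nat.mul_le_mul_right _ h2
    obtain ⟨l, hl, hl1⟩ : ∃ l, k' * P = k * P + l ∧ 1 ≤ l := by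
      refine ⟨(k' - k) * P, ?_, Nat.mul_pos (by omega) hP⟩
      rw [← Nat.add_mul]; congr 1; omega
    have hPl : P ∣ l := by
      have h4 : P ∣ k' * P := Dvd.intro_left _ rfl
      rw [hl] at h4
      exact (Nat.dvd_add_right (Dvd.intro_left _ rfl)).1 h4
    set J' := c (k * P) with hJ'
    have hloop : It (pr G) l J' [J'] := by
      have := chain_it (K := N) hc (k * P) l (by omega)
      rwa [← hl, ← h3] at this
    have hto : It (pr G) (k * P) J [J'] := by
      have := chain_it (K := N) hc 0 (k * P) (by omega)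
      rwa [hc0, Nat.zero_add] at this
    obtain ⟨t, ht⟩ : ∃ t, τ = k * P + t := ⟨τ - k * P, by omega⟩
    have hout : It (pr G) t J' wJ := by
      have h4 := chain_it (K := N) hc (k * P) (N - k * P) (by omega)
      rw [show k * P + (N - k * P) = N by omega] at h4
      rw [show t = (N - k * P) + (τ - N) by omega, it_add]
      exact ⟨_, h4, par_single.2 hlast⟩
    obtain ⟨ρ, hρ1, hρ2, hρ3⟩ := exists_rep hl1 n₀ t
    have hL : wdC D i j ∈ LC D := Or.inl ⟨i, j, hi, hj, rfl⟩
    have hSig := h.test.sig _ hL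
    have hJ'V : J' ∈ G.V := hcV _ hkN
    obtain ⟨w', e1, e2⟩ := h.test.tab J' hJ'V t ρ (by omega) hρ1 (hρ3.of_dvd hPl) wJ hout
      (fun x hx => hSig x (by rw [← hs.hw]; simp [hx]))
    have tr : ∀ x, x ∈ w' ↔ x ∈ wJ := by
      intro x
      rw [← mem_toFinset, e2, mem_toFinset]
    obtain ⟨m, hm⟩ : ∃ m, t = m * l + ρ := by
      have h4 : l ∣ t - ρ := (Nat.modEq_iff_dvd' (by omega)).1 hρ3.symm
      obtain ⟨m, hm⟩ := h4
      exact ⟨m, by rw [Nat.mul_comm]; omega⟩
    have e3 : It (pr G) τ J w' := by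
      rw [ht, it_add]
      refine ⟨[J'], hto, par_single.2 ?_⟩
      rw [hm, it_add]
      exact ⟨[J'], it_loop hloop m, par_single.2 e1⟩
    have m1' := (tr 1).2 hs.m1
    have m3' := (tr 3).2 hs.m3
    have hL' : wu ++ (w' ++ (w1 ++ w2)) ∈ LC D := by
      apply h.test.gen.mem (hs.rc.trans (hs.hu.append ((par_single.2 e3).append
        (hs.h1.append hs.h2))))
      · intro x hx
        apply h.test.sigT
        apply hSig
        rw [← hs.hw]
        simp only [mem_append] at hx ⊢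
        rwa [tr] at hx
      · intro hcon
        have : (1 : ℕ) ∈ wu ++ (w' ++ (w1 ++ w2)) := by simp [m1']
        rw [hcon] at this
        simp at this
    obtain ⟨i', j', _, _, e4⟩ := mem_LC_of hL' (x := 1) (y := 3) (by simp [m1'])
      (by simp [m3']) (by omega)
    have e5 : wdC D i' j' = (wu ++ w') ++ (w1 ++ w2) := by rw [← e4]; simp
    have a2 : wu.count 2 = 0 := by
      rw [count_eq_zero]
      intro hx
      have := wdC_ord e4.symm hx (y := 1) (by simp [m1'])
      simp [rkC] at this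
    have b2 : (w1 ++ w2).count 2 = 0 := by
      rw [count_eq_zero]
      intro hx
      have := wdC_ord e5 (x := 3) (by simp [m3']) hx
      simp [rkC] at this
    have n0' : 0 ∉ w' := fun hx => hs.n0 ((tr 0).1 hx)
    have c0 := congrArg (List.count 0) e4
    have d0 := congrArg (List.count 0) hs.hw
    have c3 := congrArg (List.count 3) e4
    have d3 := congrArg (List.count 3) hs.hw
    have c2 := congrArg (List.count 2) e4
    have d2 := congrArg (List.count 2) hs.hw
    rw [wdC_count0, count_append, count_append, count_eq_zero.2 n0'] at c0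
    rw [wdC_count0, count_append, count_append, count_eq_zero.2 hs.n0] at d0
    rw [wdC_count3, count_append, count_append] at c3 d3
    rw [wdC_count2, count_append, count_append, a2, b2] at c2 d2
    have hpow : D ^ (i' + j') = D ^ (i + j) := by omega
    have hij := Nat.pow_right_injective hD hpow
    have hlen : w'.length ≤ D ^ ρ := e1.length_le h.hb
    have hDρ : D ^ ρ ≤ D ^ (n₀ + N) := Nat.pow_le_pow_right (by omega) (by omega)
    have h23 : w'.count 2 + w'.count 3 ≤ w'.length := by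
      clear e1 e2 tr e3 m1' m3' hL' e4 e5 n0' c0 c3 c2 hlen
      induction w' with
      | nil => simp
      | cons x w ih =>
        rw [count_cons, count_cons, length_cons]
        by_cases hx2 : x = 2
        · subst hx2; simp; omega
        · by_cases hx3 : x = 3
          · subst hx3; simp; omega
          · simp [hx2, hx3]; omega
    omega
  rcases lt_or_gt_of_ne hne with hlt | hlt
  · exact fin k k' hlt (by omega) heq
  · exact fin k' k hlt (by omega) heq.symm

/-- One step of the second stage. -/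
lemma HC.step (h : HC G D n₀ P) {i j τ J : ℕ} {u v₁ v₂ wu wJ w1 w2 : List ℕ}
    (hs : St2 G D i j (τ + 1) u J v₁ v₂ wu wJ w1 w2) :
    (∃ uL uR wL wR, Rc G (uL ++ uR) ∧ Par (It (pr G) τ) uL wL ∧ Par (It (pr G) τ) uR wR ∧
      wL ++ wR = wdC D i j ∧ 3 ∉ wL ∧ 1 ∉ wR ∧ uL.length ≤ D * (u.length + 1)) ∨
    (∃ u' β J' γ v₁' v₂' wβ wJ' wγ, pr G J (β ++ ([J'] ++ γ)) ∧ u.length ≤ u'.length ∧
      hcount (fun x => x ∈ G.T) v₁ ≤ hcount (fun x => x ∈ G.T) v₁' ∧
      Par (It (pr G) τ) β wβ ∧ Par (It (pr G) τ) γ wγ ∧ wJ = wβ ++ (wJ' ++ wγ) ∧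
      St2 G D i j τ (u' ++ β) J' (γ ++ v₁') v₂' (wu ++ wβ) wJ' (wγ ++ w1) w2) := by
  obtain ⟨u', hu1, hu2⟩ := par_it_succ.1 hs.hu
  obtain ⟨α, hα, hJ⟩ := it_succ.1 hs.hJ
  obtain ⟨v₁', hv1, hv2⟩ := par_it_succ.1 hs.h1
  obtain ⟨v₂', hv3, hv4⟩ := par_it_succ.1 hs.h2
  have hRc : Rc G (u' ++ (α ++ (v₁' ++ v₂'))) :=
    hs.rc.step (hu1.append ((par_single.2 hα).append (hv1.append hv3)))
  have hulen : u.length ≤ u'.length := hu1.le_length h.hne
  have hulen2 : u'.length ≤ D * u.length := hu1.length_le h.hb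
  have hhc : hcount (fun x => x ∈ G.T) v₁ ≤ hcount (fun x => x ∈ G.T) v₁' :=
    hcount_step h.hper hv1
  have hcut := cut_or' (lr := 3) (ll := 1) (by omega) hJ (by
    intro a b e ha hb
    have e2 : wdC D i j = (wu ++ a) ++ (b ++ (w1 ++ w2)) := by
      rw [← hs.hw, e]; simp
    have := wdC_ord e2 (x := 3) (y := 1) (by simp [ha]) (by simp [hb])
    simp [rkC] at this)
  rcases hcut with ⟨β, J', γ, wβ, wJ', wγ, rfl, e, g1, g2, g3, g4, g5⟩ |
    ⟨α₁, α₂, wα, wα', rfl, e, g1, g2, g3, g4⟩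
  · right
    refine ⟨u', β, J', γ, v₁', v₂', wβ, wJ', wγ, hα, hulen, hhc, g1, g3, e, ?_⟩
    refine ⟨by simpa [append_assoc] using hRc, hu2.append g1, g2, g3.append hv2, hv4, ?_, g5, g4,
      ?_, ?_⟩
    · rw [← hs.hw, e]; simp
    · intro hx
      exact hs.n0 (by rw [e]; simp [hx])
    · rw [mem_append]
      rintro (hx | hx)
      · exact hs.n0 (by rw [e]; simp [hx])
      · exact hs.n01 hx
  · left
    refine ⟨u' ++ α₁, α₂ ++ (v₁' ++ v₂'), wu ++ wα, wα' ++ (w1 ++ w2),
      by simpa [append_assoc] using hRc, hu2.append g1, g2.append (hv2.append hv4), ?_, ?_, ?_, ?_⟩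
    · rw [← hs.hw, e]; simp
    · rw [mem_append]
      rintro (hx | hx)
      · have := wdC_ord hs.hw.symm hx (y := 1) (by simp [hs.m1])
        simp [rkC] at this
      · exact g3 hx
    · rw [mem_append]
      rintro (hx | hx)
      · exact g4 hx
      · have e2 : wdC D i j = (wu ++ wJ) ++ (w1 ++ w2) := by rw [← hs.hw]; simp
        have := wdC_ord e2 (x := 3) (by simp [hs.m3]) hx
        simp [rkC] at this
    · have h5 := h.hb _ _ hα
      rw [length_append] at h5 ⊢
      rw [Nat.mul_succ]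
      omega

open Classical in
/-- The potential of a state. -/
noncomputable def pot (G : Grammar) (u : List ℕ) (J : ℕ) (v₁ : List ℕ) : ℕ :=
  2 * (u.length + hcount (fun x => x ∈ G.T) v₁) + (if J ∈ G.T then 1 else 0)

lemma HC.pot_step (h : HC G D n₀ P) {J J' : ℕ} {u u' β γ v₁ v₁' : List ℕ}
    (hα : pr G J (β ++ ([J'] ++ γ))) (hu : u.length ≤ u'.length)
    (hv : hcount (fun x => x ∈ G.T) v₁ ≤ hcount (fun x => x ∈ G.T) v₁') :
    (β = [] ∧ γ = [] ∧ pot G u J v₁ ≤ pot G (u' ++ β) J' (γ ++ v₁')) ∨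
      pot G u J v₁ + 1 ≤ pot G (u' ++ β) J' (γ ++ v₁') := by
  unfold pot
  rw [length_append, hcount_append]
  by_cases hβ : β = []
  · subst hβ
    by_cases hγ : ∀ y ∈ γ, y ∉ G.T
    · by_cases hJ : J ∈ G.T
      · have hJ' : J' ∈ G.T := by
          obtain ⟨y, hy, hyT⟩ := h.hper J _ hJ hα
          simp only [nil_append, singleton_append, mem_cons] at hy
          rcases hy with rfl | hy
          · exact hyT
          · exact absurd hyT (hγ y hy)
        have := h.hC J J' γ hJ hJ' (by simpa using hα) hγ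
        subst this
        left
        refine ⟨rfl, rfl, ?_⟩
        simp [hJ, hJ']
        omega
      · by_cases hJ' : J' ∈ G.T
        · right
          simp [hJ, hJ']
          omega
        · have := h.hS J _ hJ hα (by
            intro y hy
            simp only [nil_append, singleton_append, mem_cons] at hy
            rcases hy with rfl | hy
            · exact hJ'
            · exact hγ y hy)
          have hγ0 : γ = [] := by
            rw [← length_eq_zero_iff]
            simp at this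
            simp [this]
          subst hγ0
          left
          refine ⟨rfl, rfl, ?_⟩
          simp [hJ, hJ']
          omega
    · push Not at hγ
      have h1 : 1 ≤ hcount (fun x => x ∈ G.T) γ := hcount_pos.2 hγ
      right
      split_ifs <;> omega
  · have h1 : 1 ≤ β.length := length_pos_iff.2 hβ
    right
    split_ifs <;> omega

/-- **The second corner theorem.** -/
theorem cornerC (hD2 : 2 ≤ D) (hb : ∀ x w, pr G x w → w.length ≤ D) (hG : Gen G (LC D))
    (hne : ∀ x w, pr G x w → w ≠ [])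
    (hper : ∀ X α, X ∈ G.T → pr G X α → ∃ y ∈ α, y ∈ G.T)
    (hS : ∀ X α, X ∉ G.T → pr G X α → (∀ y ∈ α, y ∉ G.T) → α.length = 1)
    (hC : ∀ X Z β, X ∈ G.T → Z ∈ G.T → pr G X (Z :: β) → (∀ y ∈ β, y ∉ G.T) → β = []) :
    False := by
  obtain ⟨n₀, P, ht⟩ := exists_test hG (fun w hw => LC_sig (by omega) hw)
    (fun l hl => LC_pow (by omega) hl)
  have h : HC G D n₀ P := ⟨hD2, hb, ht, hne, hper, hS, hC⟩
  obtain ⟨C7, C8, hdich⟩ := dichotomy_par ht.hP ht.tab hb 1
  have hP := ht.hP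
  set C := D ^ (n₀ + P) with hCdef
  set C1 := C + (C + (C + D ^ (C + C))) with hC1
  set C2 := D * C1 + 1 with hC2
  set C3 := C2 + D * (C + 1) with hC3
  set N := G.V.card * P with hN
  set C' := D ^ (n₀ + N) with hC'
  set j := C7 * C3 + C' + 1 with hj
  set W := n₀ + P * (({0, 1, 2, 3} : Finset ℕ).card + 2) with hW
  set B := 2 * (C + 2 * W) with hB
  set R := C8 * (j + 1) + n₀ + N + 1 with hR
  set i := 2 * (C2 + R + B * N + 1) + j with hi
  set t₀ := C2 + R + B * N + 1 + j with ht₀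
  have hWpos : 0 < W := by
    have : 0 < P * (({0, 1, 2, 3} : Finset ℕ).card + 2) := Nat.mul_pos hP (by omega)
    omega
  have hij : i + j = 2 * t₀ := by omega
  have hi1 : 1 ≤ i := by omega
  have hj1 : 1 ≤ j := by omega
  have hmem : wdC D i j ∈ LC D := Or.inl ⟨i, j, hi1, hj1, rfl⟩
  have hSig := ht.sig _ hmem
  have hlt : ∀ k, k < D ^ k := fun k => Nat.lt_pow_self (by omega)
  -- the sizes
  have size : ∀ τ (z : List ℕ), z.length ≤ C2 → Par (It (pr G) τ) z (wdC D i j) →
      2 * t₀ < C2 + τ := by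
    intro τ z hz hd
    have h1 := Par.it_length_le hb hd
    rw [wdC_length, hij] at h1
    have h2 : D ^ τ * z.length ≤ D ^ τ * C2 := Nat.mul_le_mul_left _ hz
    have h3 : D ^ τ * C2 < D ^ τ * D ^ C2 :=
      Nat.mul_lt_mul_of_pos_left (hlt C2) (Nat.pow_pos (by omega))
    rw [← pow_add] at h3
    have h4 : D ^ (2 * t₀) < D ^ (τ + C2) := by omega
    have := (Nat.pow_lt_pow_iff_right (by omega)).1 h4
    omega
  -- third stage
  have st3 : ∀ {uL uR wL wR : List ℕ} {τ : ℕ}, Rc G (uL ++ uR) → Par (It (pr G) τ) uL wL →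
      Par (It (pr G) τ) uR wR → wL ++ wR = wdC D i j → 3 ∉ wL → 1 ∉ wR → uL.length ≤ C3 →
      R ≤ τ → False := by
    intro uL uR wL wR τ g1 g2 g3 g4 g5 g6 g7 g8
    have h5 := h.stage3 hdich g1 g2 g3 g4 hi1 hj1 g5 g6 (by omega)
    have h6 : C7 * uL.length ≤ C7 * C3 := Nat.mul_le_mul_left _ g7
    rcases h5 with h5 | h5
    · omega
    · omega
  -- bounds in the second stage
  have lb : ∀ {τ J : ℕ} {u v₁ v₂ wu wJ w1 w2 : List ℕ},
      St2 G D i j τ u J v₁ v₂ wu wJ w1 w2 → n₀ ≤ τ → u.length ≤ C := by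
    intro τ J u v₁ v₂ wu wJ w1 w2 hs hτ
    exact h.left_bound hs.rc hs.hu hs.hJ (hs.h1.append hs.h2) hs.hw hi1 hj1 hs.m1 hs.m3 hτ
  have rb : ∀ {τ J : ℕ} {u v₁ v₂ wu wJ w1 w2 : List ℕ},
      St2 G D i j τ u J v₁ v₂ wu wJ w1 w2 → t₀ ≤ τ →
      hcount (fun x => x ∈ G.T) v₁ < 2 * W := by
    intro τ J u v₁ v₂ wu wJ w1 w2 hs hτ
    have h1 := ht.linear_hcount hne hper (m := t₀ / W) (τ := τ) (z := v₁)
      (u := u ++ [J]) (v := v₂) (wu := wu ++ wJ) (w := w1) (wv := w2)
      ((Nat.div_mul_le_self t₀ W).trans hτ)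
      (by have := hs.rc; simpa [append_assoc] using this) (hs.hu.append (par_single.2 hs.hJ))
      hs.h1 hs.h2 (by
        intro x hx
        apply hSig
        rw [← hs.hw]
        simp only [mem_append] at hx ⊢
        tauto)
    have e' : wdC D i j = (wu ++ wJ) ++ (w1 ++ w2) := by rw [← hs.hw]; simp
    have hall : ∀ x ∈ w1, x = 3 := by
      intro x hx
      have h6 := wdC_ord e' (x := 3) (y := x) (by simp [hs.m3]) (by simp [hx])
      have h7 : x ∈ wdC D i j := by rw [e']; simp [hx]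
      rw [wdC_mem (by omega) hi1 hj1] at h7
      rcases h7 with rfl | rfl | rfl | rfl
      · simp [rkC] at h6
      · simp [rkC] at h6
      · rfl
      · exact absurd hx hs.n01
    have hc3 : w1.count 3 = w1.length := count_eq_length.2 (fun x hx => (hall x hx).symm)
    have d3 := congrArg (List.count 3) e'
    rw [wdC_count3] at d3
    simp only [count_append] at d3
    have h2 : w1.length ≤ 2 * t₀ := by omega
    have h3 : t₀ < W * (t₀ / W + 1) := Nat.lt_mul_div_succ t₀ hWpos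
    by_contra hcon
    have h4 : 2 * W * (t₀ / W + 1) ≤ hcount (fun x => x ∈ G.T) v₁ * (t₀ / W + 1) :=
      Nat.mul_le_mul_right _ (by omega)
    have h5 : 2 * W * (t₀ / W + 1) = 2 * (W * (t₀ / W + 1)) := by ring
    omega
  have hpotB : ∀ {τ J : ℕ} {u v₁ v₂ wu wJ w1 w2 : List ℕ},
      St2 G D i j τ u J v₁ v₂ wu wJ w1 w2 → t₀ ≤ τ → pot G u J v₁ < B := by
    intro τ J u v₁ v₂ wu wJ w1 w2 hs hτ
    have h1 := lb hs (by omega)
    have h2 := rb hs hτ
    unfold pot
    split_ifs <;> omega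
  -- second stage
  have st2 : ∀ q {τ J : ℕ} {u v₁ v₂ wu wJ w1 w2 : List ℕ},
      St2 G D i j τ u J v₁ v₂ wu wJ w1 w2 → B ≤ pot G u J v₁ + q → t₀ + q * N ≤ τ → False := by
    intro q
    induction q with
    | zero =>
      intro τ J u v₁ v₂ wu wJ w1 w2 hs hB' hτ
      have := hpotB hs (by omega)
      omega
    | succ q ih =>
      intro τ₀ J u v₁ v₂ wu wJ w1 w2 hs hB' hτ
      rw [Nat.succ_mul] at hτ
      have inner : ∀ k r {Jr : ℕ} {ur v₁r v₂r wur w1r w2r : List ℕ} {c : ℕ → ℕ}, r + k = N →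
          St2 G D i j (τ₀ - r) ur Jr v₁r v₂r wur wJ w1r w2r →
          pot G u J v₁ ≤ pot G ur Jr v₁r → c 0 = J → c r = Jr →
          (∀ s < r, pr G (c s) [c (s + 1)]) → False := by
        intro k
        induction k with
        | zero =>
          intro r Jr ur v₁r v₂r wur w1r w2r c hr hsr _ hc0 hcr hc
          rw [Nat.add_zero] at hr
          subst hr
          have h5 : j ≤ D ^ (n₀ + N) := h.loop hi1 hj1 hs hc0 hc (by omega) (by
            have := hsr.hJ
            rw [← hcr] at this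
            exact this)
          omega
        | succ k ihk =>
          intro r Jr ur v₁r v₂r wur w1r w2r c hr hsr hpot hc0 hcr hc
          have hur := lb hsr (by omega)
          have e1 : τ₀ - r = (τ₀ - (r + 1)) + 1 := by omega
          rw [e1] at hsr
          rcases h.step hsr with ⟨uL, uR, wL, wR, g1, g2, g3, g4, g5, g6, g7⟩ |
            ⟨u', β, J', γ, v₁', v₂', wβ, wJ', wγ, g1, g2, g3, g4, g5, g6, g7⟩
          · refine st3 g1 g2 g3 g4 g5 g6 ?_ (by omega)
            have : D * (ur.length + 1) ≤ D * (C + 1) := Nat.mul_le_mul_left _ (by omega)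
            omega
          · rcases h.pot_step g1 g2 g3 with ⟨rfl, rfl, h6⟩ | h6
            · rw [par_nil] at g4 g5
              subst g4; subst g5
              have hw' : wJ = wJ' := by simpa using g6
              subst hw'
              refine ihk (r + 1) (c := fun s => if s ≤ r then c s else J') (by omega) g7
                (by omega) (by simp [hc0]) (by simp) ?_
              intro s hsr'
              by_cases hsr2 : s < r
              · have h7 : s + 1 ≤ r := hsr2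
                simp only [show s ≤ r by omega, if_true, h7]
                exact hc s hsr2
              · have h7 : s = r := by omega
                subst h7
                simp only [le_refl, if_true, show ¬ s + 1 ≤ s by omega, if_false]
                rw [hcr]
                simpa using g1
            · exact ih g7 (by omega) (by omega)
      exact inner N 0 (c := fun _ => J) (by omega) hs le_rfl rfl rfl (by intro s hs; omega)
  -- first stage
  have sep : ∀ τ (z : List ℕ), Rc G z → z.length ≤ C2 →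
      Par (It (pr G) τ) z (wdC D i j) → ∃ τ u v w₁ w₂, Rc G (u ++ v) ∧
        (u ++ v).length ≤ C2 ∧ Par (It (pr G) τ) u w₁ ∧ Par (It (pr G) τ) v w₂ ∧
        wdC D i j = w₁ ++ w₂ ∧ 0 ∉ w₁ ∧ 1 ∉ w₂ := by
    intro τ
    induction τ with
    | zero =>
      intro z _ hz hd
      have := size _ z hz hd
      omega
    | succ τ ih =>
      intro z hRz hz hd
      have hsz := size _ z hz hd
      have hcut := cut_or' (lr := 0) (ll := 1) (by omega) hd (by
        intro a b e ha hb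
        have := wdC_ord e (x := 0) (y := 1) ha hb
        simp [rkC] at this)
      rcases hcut with ⟨u, X, v, w₁, w, w₂, rfl, e, h1, h2, h3, h4, h5⟩ |
        ⟨u, v, w₁, w₂, rfl, e, h1, h2, h3, h4⟩
      · have hbd := h.stage1 hRz h1 h2 h3 e.symm hi1 hj1 h4 h5 (by omega)
        obtain ⟨z', h6, h7⟩ := par_it_succ.1 hd
        refine ih z' (hRz.step h6) ?_ h7
        have h8 := h6.length_le hb
        have h9 : D * (u ++ ([X] ++ v)).length ≤ D * C1 := Nat.mul_le_mul_left _ hbd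
        omega
      · exact ⟨τ + 1, u, v, w₁, w₂, hRz, hz, h1, h2, e, h3, h4⟩
  obtain ⟨_, _, n, hn⟩ := hG.exists hmem
  obtain ⟨τ, u, v, w₁, w₂, hRc, hlen, h1, h2, h3, h4, h5⟩ :=
    sep n [G.S] Rc.start (by simp only [length_singleton]; omega) (par_single.2 hn)
  have hsz := size τ (u ++ v) hlen (by rw [h3]; exact h1.append h2)
  have hcut := cut_or' (lr := 3) (ll := 1) (by omega) h1 (by
    intro a b e ha hb
    have e2 : wdC D i j = a ++ (b ++ w₂) := by rw [h3, e]; simp
    have := wdC_ord e2 (x := 3) (y := 1) ha (by simp [hb])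
    simp [rkC] at this)
  rcases hcut with ⟨a, J, b, wa, wJ, wb, rfl, e, g1, g2, g3, g4, g5⟩ |
    ⟨a, b, wa, wb, rfl, e, g1, g2, g3, g4⟩
  · refine st2 B (τ := τ) (u := a) (J := J) (v₁ := []) (v₂ := b ++ v) (wu := wa) (wJ := wJ)
      (w1 := []) (w2 := wb ++ w₂) ⟨by simpa [append_assoc] using hRc, g1, g2, Par.nil,
        g3.append h2, ?_, g5, g4, ?_, by simp⟩ (by omega) (by omega)
    · rw [h3, e]; simp
    · intro hx
      exact h4 (by rw [e]; simp [hx])
  · refine st3 (uL := a) (uR := b ++ v) (wL := wa) (wR := wb ++ w₂)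
      (by simpa [append_assoc] using hRc) g1 (g2.append h2) ?_ g3 ?_ ?_ (τ := τ) (by omega)
    · rw [h3, e]; simp
    · rw [mem_append]
      rintro (hx | hx)
      · exact g4 hx
      · exact h5 hx
    · simp only [length_append] at hlen
      omega

end Pool.Agent.Helper79.EOL
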