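import Pool.Agent.Helper79.EOL.CornerA

/-!
# The second corner language
-/

namespace Pool.Agent.Helper79.EOL

open List Pool.Agent.Helper76.EOL

/-- The words `y^j x^j z^i b^(M^(i+j))` with `y = 1`, `x = 2`, `z = 3`, `b = 0`. -/
def wdC (M i j : ℕ) : List ℕ :=
  replicate j 1 ++ (replicate j 2 ++ (replicate i 3 ++ replicate (M ^ (i + j)) 0))

/-- The second corner language. -/
def LC (M : ℕ) : Set (List ℕ) :=
  {w | (∃ i j, 1 ≤ i ∧ 1 ≤ j ∧ w = wdC M i j) ∨ ∃ l, l < 4 ∧ ∃ n, w = replicate (2 ^ n) l}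

/-- Symbols of the system. -/
inductive VC
  | st | c1 | c2 | x' | y' | z' | b | p (l : Fin 4)
  deriving DecidableEq

instance : Finite VC := by
  apply Finite.of_surjective (fun x : Fin 7 ⊕ Fin 4 => match x with
    | Sum.inl 0 => VC.st | Sum.inl 1 => VC.c1 | Sum.inl 2 => VC.c2 | Sum.inl 3 => VC.x'
    | Sum.inl 4 => VC.y' | Sum.inl 5 => VC.z' | Sum.inl 6 => VC.b | Sum.inr l => VC.p l)
  intro y
  cases y with
  | st => exact ⟨Sum.inl 0, rfl⟩
  | c1 => exact ⟨Sum.inl 1, rfl⟩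
  | c2 => exact ⟨Sum.inl 2, rfl⟩
  | x' => exact ⟨Sum.inl 3, rfl⟩
  | y' => exact ⟨Sum.inl 4, rfl⟩
  | z' => exact ⟨Sum.inl 5, rfl⟩
  | b => exact ⟨Sum.inl 6, rfl⟩
  | p l => exact ⟨Sum.inr l, rfl⟩

/-- Nonfinal rules. -/
def NC (M : ℕ) : VC → List (List VC)
  | .st => [[.c1, .z'] ++ replicate M .b, [.p 0], [.p 1], [.p 2], [.p 3]]
  | .c1 => [[.c1, .z'], [.c2]]
  | .c2 => [[.y', .c2, .x']]
  | .x' => [[.x']]
  | .y' => [[.y']]
  | .z' => [[.z']]
  | .b => [replicate M .b]
  | .p l => [replicate 2 (.p l)]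

/-- Final rules. -/
def FC : VC → List (List ℕ)
  | .st => []
  | .c1 => []
  | .c2 => [[1, 2]]
  | .x' => [[2]]
  | .y' => [[1]]
  | .z' => [[3]]
  | .b => [[0]]
  | .p l => [[l.1]]

/-- The system. -/
def sysLC (M : ℕ) (hM : 1 ≤ M) : Sys VC := Sys.ofLists (NC M) FC
  (by
    intro x w hw
    have hne : ∀ (n : ℕ) (y : VC), 1 ≤ n → replicate n y ≠ [] := by
      intro n y hn h
      have := congrArg length h
      simp at this; omega
    cases x <;> simp only [NC, mem_cons, not_mem_nil, or_false] at hw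
    · rcases hw with rfl | rfl | rfl | rfl | rfl <;> simp
    · rcases hw with rfl | rfl <;> simp
    · subst hw; simp
    · subst hw; simp
    · subst hw; simp
    · subst hw; simp
    · subst hw; exact hne _ _ hM
    · subst hw; simp)
  (by
    intro x w hw
    cases x <;> simp only [FC, mem_cons, not_mem_nil, or_false] at hw <;> subst hw <;> simp)

lemma sysLC_L (M : ℕ) (hM : 1 ≤ M) : (sysLC M hM).L [VC.st] = LC M := by
  have hN : ∀ x u, (sysLC M hM).N x u ↔ u ∈ NC M x := fun _ _ => Iff.rfl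
  have hF : ∀ x u, (sysLC M hM).F x u ↔ u ∈ FC x := fun _ _ => Iff.rfl
  have hx := Sys.on_wait (H := sysLC M hM) (x := VC.x') (l := 2)
    (by intro u; rw [hN]; simp [NC]) (by intro u; rw [hF]; simp [FC])
  have hy := Sys.on_wait (H := sysLC M hM) (x := VC.y') (l := 1)
    (by intro u; rw [hN]; simp [NC]) (by intro u; rw [hF]; simp [FC])
  have hz := Sys.on_wait (H := sysLC M hM) (x := VC.z') (l := 3)
    (by intro u; rw [hN]; simp [NC]) (by intro u; rw [hF]; simp [FC])
  have hb := Sys.on_mul (H := sysLC M hM) (x := VC.b) (M := M) (l := 0)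
    (by intro u; rw [hN]; simp [NC]) (by intro u; rw [hF]; simp [FC])
  have hp : ∀ l : Fin 4, ∀ n w, (sysLC M hM).On n [VC.p l] w ↔ w = replicate (2 ^ n) l.1 := by
    intro l
    exact Sys.on_mul (H := sysLC M hM) (x := VC.p l) (M := 2) (l := l.1)
      (by intro u; rw [hN]; simp only [NC, mem_singleton]) (by intro u; rw [hF]; simp [FC])
  have hc2 : ∀ n w, (sysLC M hM).On n [VC.c2] w ↔ w = replicate (n + 1) 1 ++ replicate (n + 1) 2 := by
    intro n
    induction n with
    | zero =>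
      intro w
      rw [Sys.on_zero, hF]
      simp [FC]
    | succ n ih =>
      intro w
      rw [Sys.on_succ]
      constructor
      · rintro ⟨u, h1, h2⟩
        rw [hN] at h1
        simp only [NC, mem_cons, not_mem_nil, or_false] at h1
        subst h1
        obtain ⟨w₁, w₂, rfl, h3, h4⟩ := Sys.on_cons.1 h2
        obtain ⟨w₃, w₄, rfl, h5, h6⟩ := Sys.on_cons.1 h4
        rw [hy] at h3
        rw [ih] at h5
        rw [hx] at h6
        subst h3; subst h5; subst h6
        rw [replicate_succ' (n := n + 1) (a := 2), replicate_succ (n := n + 1) (a := 1)]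
        simp
      · rintro rfl
        refine ⟨_, by rw [hN]; simp [NC], Sys.on_cons.2 ⟨[1], _, ?_, (hy n _).2 rfl, Sys.on_cons.2
          ⟨_, _, rfl, (ih _).2 rfl, (hx n _).2 rfl⟩⟩⟩
        rw [replicate_succ' (n := n + 1) (a := 2), replicate_succ (n := n + 1) (a := 1)]
        simp
  have hc1 : ∀ n w, (sysLC M hM).On n [VC.c1] w ↔ ∃ k l, k + 1 + l = n ∧
      w = replicate (l + 1) 1 ++ (replicate (l + 1) 2 ++ replicate k 3) := by
    intro n
    induction n with
    | zero =>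
      intro w
      rw [Sys.on_zero, hF]
      simp only [FC, not_mem_nil, false_iff]
      rintro ⟨k, l, h1, _⟩
      omega
    | succ n ih =>
      intro w
      rw [Sys.on_succ]
      constructor
      · rintro ⟨u, h1, h2⟩
        rw [hN] at h1
        simp only [NC, mem_cons, not_mem_nil, or_false] at h1
        rcases h1 with rfl | rfl
        · obtain ⟨w₁, w₂, rfl, h3, h4⟩ := Sys.on_cons.1 h2
          obtain ⟨k, l, h5, rfl⟩ := (ih _).1 h3
          rw [hz] at h4
          subst h4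
          refine ⟨k + 1, l, by omega, ?_⟩
          rw [replicate_succ' (n := k) (a := 3)]
          simp
        · rw [hc2] at h2
          subst h2
          exact ⟨0, n, by omega, by simp⟩
      · rintro ⟨k, l, h1, rfl⟩
        cases k with
        | zero =>
          refine ⟨[VC.c2], by rw [hN]; simp [NC], (hc2 _ _).2 ?_⟩
          have : l = n := by omega
          subst this
          simp
        | succ k =>
          refine ⟨[VC.c1, VC.z'], by rw [hN]; simp [NC], Sys.on_cons.2 ⟨_, [3], ?_,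
            (ih _).2 ⟨k, l, by omega, rfl⟩, (hz n _).2 rfl⟩⟩
          rw [replicate_succ' (n := k) (a := 3)]
          simp
  have hmain : ∀ n w, (sysLC M hM).On n ([VC.c1, VC.z'] ++ replicate M VC.b) w ↔
      ∃ k l, k + 1 + l = n ∧ w = wdC M (k + 1) (l + 1) := by
    intro n w
    have e : [VC.c1, VC.z'] ++ replicate M VC.b = VC.c1 :: (VC.z' :: replicate M VC.b) := rfl
    rw [e, Sys.on_cons]
    have e2 : (replicate M (replicate (M ^ n) 0)).flatten = replicate (M ^ (n + 1)) 0 := by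
      rw [replicate_flatten, pow_succ, Nat.mul_comm]
    constructor
    · rintro ⟨w₁, w₂, rfl, h1, h2⟩
      obtain ⟨w₃, w₄, rfl, h3, h4⟩ := Sys.on_cons.1 h2
      obtain ⟨k, l, h5, rfl⟩ := (hc1 _ _).1 h1
      rw [hz] at h3
      rw [Sys.on_replicate (hb n), e2] at h4
      subst h3; subst h4
      refine ⟨k, l, h5, ?_⟩
      unfold wdC
      rw [replicate_succ' (n := k) (a := 3), show k + 1 + (l + 1) = n + 1 by omega]
      simp
    · rintro ⟨k, l, h5, rfl⟩
      refine ⟨_, _, ?_, (hc1 _ _).2 ⟨k, l, h5, rfl⟩, Sys.on_cons.2 ⟨[3], replicate (M ^ (n + 1)) 0,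
        rfl, (hz n _).2 rfl, ?_⟩⟩
      · unfold wdC
        rw [replicate_succ' (n := k) (a := 3), show k + 1 + (l + 1) = n + 1 by omega]
        simp
      · rw [Sys.on_replicate (hb n), e2]
  ext w
  rw [Sys.mem_L_iff]
  constructor
  · rintro ⟨n, hn⟩
    cases n with
    | zero =>
      rw [Sys.on_zero, hF] at hn
      simp [FC] at hn
    | succ n =>
      obtain ⟨u, h1, h2⟩ := Sys.on_succ.1 hn
      rw [hN] at h1
      simp only [NC, mem_cons, not_mem_nil, or_false] at h1
      rcases h1 with h1 | rfl | rfl | rfl | rfl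
      · left
        rw [h1] at h2
        obtain ⟨k, l, _, rfl⟩ := (hmain n w).1 h2
        exact ⟨k + 1, l + 1, by omega, by omega, rfl⟩
      · right; exact ⟨0, by omega, n, (hp 0 n w).1 h2⟩
      · right; exact ⟨1, by omega, n, (hp 1 n w).1 h2⟩
      · right; exact ⟨2, by omega, n, (hp 2 n w).1 h2⟩
      · right; exact ⟨3, by omega, n, (hp 3 n w).1 h2⟩
  · rintro (⟨i, j, hi, hj, rfl⟩ | ⟨l, hl, n, rfl⟩)
    · obtain ⟨i, rfl⟩ : ∃ i', i = i' + 1 := ⟨i - 1, by omega⟩
      obtain ⟨j, rfl⟩ : ∃ j', j = j' + 1 := ⟨j - 1, by omega⟩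
      refine ⟨i + 1 + j + 1, Sys.on_succ.2 ⟨_, ?_, (hmain _ _).2 ⟨i, j, rfl, rfl⟩⟩⟩
      rw [hN]; simp [NC]
    · refine ⟨n + 1, Sys.on_succ.2 ⟨[VC.p ⟨l, hl⟩], ?_, (hp ⟨l, hl⟩ n _).2 rfl⟩⟩
      rw [hN]
      have : l = 0 ∨ l = 1 ∨ l = 2 ∨ l = 3 := by omega
      rcases this with rfl | rfl | rfl | rfl
      · simp [NC]
      · simp [NC]
      · simp [NC]
      · simp [NC]

/-- The rank of a letter. -/
def rkC (x : ℕ) : ℕ := if x = 0 then 4 else x

lemma wdC_ord {M i j : ℕ} {w₁ w₂ : List ℕ} (h : wdC M i j = w₁ ++ w₂) {x y : ℕ} (hx : x ∈ w₁)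
    (hy : y ∈ w₂) : rkC x ≤ rkC y := by
  have hp : (wdC M i j).Pairwise (fun x y => rkC x ≤ rkC y) := by
    unfold wdC
    rw [pairwise_append, pairwise_append, pairwise_append]
    refine ⟨?_, ⟨?_, ⟨?_, ?_, ?_⟩, ?_⟩, ?_⟩
    · rw [pairwise_replicate]; right; simp
    · rw [pairwise_replicate]; right; simp
    · rw [pairwise_replicate]; right; simp
    · rw [pairwise_replicate]; right; simp
    · intro a ha b hb
      rw [eq_of_mem_replicate ha, eq_of_mem_replicate hb]
      simp [rkC]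
    · intro a ha b hb
      rw [eq_of_mem_replicate ha]
      rw [mem_append] at hb
      rcases hb with hb | hb
      · rw [eq_of_mem_replicate hb]; simp [rkC]
      · rw [eq_of_mem_replicate hb]; simp [rkC]
    · intro a ha b hb
      rw [eq_of_mem_replicate ha]
      simp only [mem_append] at hb
      rcases hb with hb | hb | hb
      · rw [eq_of_mem_replicate hb]; simp [rkC]
      · rw [eq_of_mem_replicate hb]; simp [rkC]
      · rw [eq_of_mem_replicate hb]; simp [rkC]
  rw [h, pairwise_append] at hp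
  exact hp.2.2 x hx y hy

lemma wdC_count0 (M i j : ℕ) : (wdC M i j).count 0 = M ^ (i + j) := by
  unfold wdC
  simp [count_replicate]

lemma wdC_count1 (M i j : ℕ) : (wdC M i j).count 1 = j := by
  unfold wdC
  simp [count_replicate]

lemma wdC_count2 (M i j : ℕ) : (wdC M i j).count 2 = j := by
  unfold wdC
  simp [count_replicate]

lemma wdC_count3 (M i j : ℕ) : (wdC M i j).count 3 = i := by
  unfold wdC
  simp [count_replicate]

lemma wdC_length (M i j : ℕ) : (wdC M i j).length = j + (j + (i + M ^ (i + j))) := by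
  unfold wdC
  simp

lemma mem_LC_of {M : ℕ} {w : List ℕ} (h : w ∈ LC M) {x y : ℕ} (hx : x ∈ w) (hy : y ∈ w)
    (hxy : x ≠ y) : ∃ i j, 1 ≤ i ∧ 1 ≤ j ∧ w = wdC M i j := by
  rcases h with h | ⟨l, _, n, rfl⟩
  · exact h
  · have e1 := eq_of_mem_replicate hx
    have e2 := eq_of_mem_replicate hy
    omega

lemma wdC_mem {M i j : ℕ} (hM : 1 ≤ M) (hi : 1 ≤ i) (hj : 1 ≤ j) {x : ℕ} :
    x ∈ wdC M i j ↔ x = 1 ∨ x = 2 ∨ x = 3 ∨ x = 0 := by
  have hpos : M ^ (i + j) ≠ 0 := by
    have := Nat.one_le_pow (i + j) M hM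
    omega
  unfold wdC
  simp only [mem_append, mem_replicate]
  constructor
  · rintro (⟨_, h⟩ | ⟨_, h⟩ | ⟨_, h⟩ | ⟨_, h⟩)
    · exact Or.inl h
    · exact Or.inr (Or.inl h)
    · exact Or.inr (Or.inr (Or.inl h))
    · exact Or.inr (Or.inr (Or.inr h))
  · rintro (h | h | h | h)
    · exact Or.inl ⟨by omega, h⟩
    · exact Or.inr (Or.inl ⟨by omega, h⟩)
    · exact Or.inr (Or.inr (Or.inl ⟨by omega, h⟩))
    · exact Or.inr (Or.inr (Or.inr ⟨hpos, h⟩))

lemma LC_pow {M l : ℕ} (hM : 1 ≤ M) (hl : l ∈ ({0, 1, 2, 3} : Finset ℕ)) (k : ℕ) (_hk : 1 ≤ k) :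
    replicate k l ∈ LC M ↔ ∃ n, k = 2 ^ n := by
  constructor
  · rintro (⟨i, j, hi, hj, h⟩ | ⟨l', _, n, h⟩)
    · exfalso
      have h1 : 1 ∈ replicate k l := by rw [h, wdC_mem hM hi hj]; simp
      have h2 : 2 ∈ replicate k l := by rw [h, wdC_mem hM hi hj]; simp
      have e1 := eq_of_mem_replicate h1
      have e2 := eq_of_mem_replicate h2
      omega
    · refine ⟨n, ?_⟩
      have := congrArg length h
      simpa using this
  · rintro ⟨n, rfl⟩
    right
    refine ⟨l, ?_, n, rfl⟩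
    simp only [Finset.mem_insert, Finset.mem_singleton] at hl
    omega

lemma LC_sig {M : ℕ} (hM : 1 ≤ M) {w : List ℕ} (hw : w ∈ LC M) :
    ∀ x ∈ w, x ∈ ({0, 1, 2, 3} : Finset ℕ) := by
  intro x hx
  rcases hw with ⟨i, j, hi, hj, rfl⟩ | ⟨l, hl, n, rfl⟩
  · rw [wdC_mem hM hi hj] at hx
    simp only [Finset.mem_insert, Finset.mem_singleton]
    tauto
  · rw [eq_of_mem_replicate hx]
    simp only [Finset.mem_insert, Finset.mem_singleton]
    omega

end Pool.Agent.Helper79.EOL
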