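import Pool.Agent.Helper79.EOL.Regimes

/-!
# Rewriting up to permutation
-/

namespace Pool.Agent.Helper79.EOL

open List Pool.Agent.Helper76.EOL

variable {Sp : Bool → List Bool → Prop}

lemma par_dec {z w : List Bool} (h : Par Sp z w) : ∃ L M : List (List Bool),
    L.length = z.count true ∧ M.length = z.count false ∧ (∀ v ∈ L, Sp true v) ∧
      (∀ v ∈ M, Sp false v) ∧ (L.flatten ++ M.flatten).Perm w := by
  induction h with
  | nil => exact ⟨[], [], rfl, rfl, by simp, by simp, Perm.refl _⟩
  | @cons x u xs v h1 _ ih =>
    obtain ⟨L, M, h2, h3, h4, h5, h6⟩ := ih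
    cases x
    · refine ⟨L, u :: M, ?_, ?_, h4, ?_, ?_⟩
      · rw [h2, count_cons_of_ne (by simp)]
      · rw [length_cons, h3, count_cons_self]
      · intro y hy
        rw [mem_cons] at hy
        rcases hy with rfl | hy
        · exact h1
        · exact h5 _ hy
      · rw [flatten_cons]
        refine Perm.trans ?_ (Perm.append_left u h6)
        rw [← append_assoc, ← append_assoc]
        exact Perm.append_right _ perm_append_comm
    · refine ⟨u :: L, M, ?_, ?_, ?_, h5, ?_⟩
      · rw [length_cons, h2, count_cons_self]
      · rw [h3, count_cons_of_ne (by simp)]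
      · intro y hy
        rw [mem_cons] at hy
        rcases hy with rfl | hy
        · exact h1
        · exact h4 _ hy
      · rw [flatten_cons, append_assoc]
        exact Perm.append_left u h6

lemma par_of_dec : ∀ {z : List Bool} {L M : List (List Bool)}, L.length = z.count true →
    M.length = z.count false → (∀ v ∈ L, Sp true v) → (∀ v ∈ M, Sp false v) →
      ∃ w, (L.flatten ++ M.flatten).Perm w ∧ Par Sp z w := by
  intro z
  induction z with
  | nil =>
    intro L M h1 h2 _ _
    rw [count_nil] at h1 h2
    rw [length_eq_zero_iff] at h1 h2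
    subst h1; subst h2
    exact ⟨[], Perm.refl _, Par.nil⟩
  | cons x z ih =>
    intro L M h1 h2 h3 h4
    cases x
    · rw [count_cons_of_ne (by simp)] at h1
      rw [count_cons_self] at h2
      obtain ⟨u, M, rfl⟩ : ∃ u M', M = u :: M' := by
        cases M with
        | nil => simp at h2
        | cons u M => exact ⟨u, M, rfl⟩
      rw [length_cons] at h2
      obtain ⟨w, h5, h6⟩ := ih (L := L) (M := M) h1 (by omega) h3
        (fun v hv => h4 v (by simp [hv]))
      refine ⟨u ++ w, ?_, Par.cons (h4 u (by simp)) h6⟩
      rw [flatten_cons]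
      refine Perm.trans ?_ (Perm.append_left u h5)
      rw [← append_assoc, ← append_assoc]
      exact Perm.append_right _ perm_append_comm
    · rw [count_cons_self] at h1
      rw [count_cons_of_ne (by simp)] at h2
      obtain ⟨u, L, rfl⟩ : ∃ u L', L = u :: L' := by
        cases L with
        | nil => simp at h1
        | cons u L => exact ⟨u, L, rfl⟩
      rw [length_cons] at h1
      obtain ⟨w, h5, h6⟩ := ih (L := L) (M := M) (by omega) h2
        (fun v hv => h3 v (by simp [hv])) h4
      refine ⟨u ++ w, ?_, Par.cons (h3 u (by simp)) h6⟩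
      rw [flatten_cons, append_assoc]
      exact Perm.append_left u h5

lemma count_flatten' (b : Bool) (L : List (List Bool)) :
    L.flatten.count b = (L.map (fun v => v.count b)).sum := by
  induction L with
  | nil => rfl
  | cons u L ih => rw [flatten_cons, count_append, ih, map_cons, sum_cons]

/-- One step with prescribed images. -/
lemma step_dec {z : List Bool} {L M : List (List Bool)} (h1 : L.length = z.count true)
    (h2 : M.length = z.count false) (h3 : ∀ v ∈ L, Sp true v) (h4 : ∀ v ∈ M, Sp false v) :
    ∃ w, Par Sp z w ∧ w.count true = (L.map (fun v => v.count true)).sum +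
        (M.map (fun v => v.count true)).sum ∧
      w.count false = (L.map (fun v => v.count false)).sum +
        (M.map (fun v => v.count false)).sum := by
  obtain ⟨w, h5, h6⟩ := par_of_dec h1 h2 h3 h4
  refine ⟨w, h6, ?_, ?_⟩
  · rw [← h5.count_eq, count_append, count_flatten', count_flatten']
  · rw [← h5.count_eq, count_append, count_flatten', count_flatten']

lemma eq_replicate_false {w : List Bool} {k : ℕ} (h1 : w.count true = 0)
    (h2 : w.count false = k) : w = replicate k false := by
  have h3 : w = replicate w.length false := by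
    apply eq_replicate_of_mem
    intro b hb
    cases b
    · rfl
    · exact absurd hb (count_eq_zero.1 h1)
  rw [h3, count_replicate_self] at h2
  rw [h3, h2]

lemma sum_map_replicate (f : List Bool → ℕ) (n : ℕ) (v : List Bool) :
    ((replicate n v).map f).sum = n * f v := by
  rw [map_replicate, sum_replicate, smul_eq_mul]

/-- A word containing `S` of length at least two on the right-hand side. -/
lemma exists_grow {d : ℕ} (hd : ∀ x w, Sp x w → w.length ≤ d) (hK : GK Sp (d + 1)) :
    ∃ w, Sp true w ∧ true ∈ w ∧ 2 ≤ w.length := by
  by_contra hcon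
  push Not at hcon
  have h1 : ∀ w, Sp true w → true ∈ w → w = [true] := by
    intro w hw ht
    have := hcon w hw ht
    match w, ht, this with
    | [x], ht, _ => rw [mem_singleton.1 ht]
  have h2 : ∀ n z, GCh Sp n [true] z → true ∈ z → z = [true] := by
    intro n
    induction n with
    | zero =>
      intro z h _
      exact h.symm
    | succ n ih =>
      intro z h ht
      obtain ⟨z', h3, h4, h5⟩ := GCh.succ'.1 h
      have := ih z' h3 h4
      subst this
      exact h1 z (par_single.1 h5) ht
  obtain ⟨t, ht⟩ := hK
  obtain ⟨z', h3, h4, h5⟩ := GCh.succ'.1 ht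
  have := h2 _ _ h3 h4
  subst this
  have := hd _ _ (par_single.1 h5)
  simp at this

/-- Growth. -/
lemma growth {w₁ w₀ : List Bool} (h1 : Sp true w₁) (h2 : true ∈ w₁) (h3 : 2 ≤ w₁.length)
    (h4 : Sp false w₀) (h5 : true ∈ w₀) (m : ℕ) :
    ∃ z, GCh Sp (2 * m) [true] z ∧ m + 1 ≤ z.count true := by
  have hσ : 1 ≤ w₁.count true := count_pos_iff.2 h2
  have hσ₀ : 1 ≤ w₀.count true := count_pos_iff.2 h5
  have hstep : ∀ z : List Bool, ∃ w, Par Sp z w ∧
      w.count true = z.count true * w₁.count true + z.count false * w₀.count true ∧
      w.count false = z.count true * w₁.count false + z.count false * w₀.count false := by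
    intro z
    obtain ⟨w, h6, h7, h8⟩ := step_dec (Sp := Sp) (z := z) (L := replicate (z.count true) w₁)
      (M := replicate (z.count false) w₀) (by simp) (by simp)
      (fun v hv => by rw [eq_of_mem_replicate hv]; exact h1)
      (fun v hv => by rw [eq_of_mem_replicate hv]; exact h4)
    rw [sum_map_replicate, sum_map_replicate] at h7 h8
    exact ⟨w, h6, h7, h8⟩
  have hlen : ∀ w : List Bool, w.length = w.count true + w.count false := by
    intro w
    induction w with
    | nil => rfl
    | cons x w ih =>
      cases x
      · rw [length_cons, ih, count_cons_self, count_cons_of_ne (by simp)]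
        omega
      · rw [length_cons, ih, count_cons_self, count_cons_of_ne (by simp)]
        omega
  induction m with
  | zero => exact ⟨[true], rfl, by simp⟩
  | succ m ih =>
    obtain ⟨z, h6, h7⟩ := ih
    obtain ⟨y, h8, h9, h10⟩ := hstep z
    obtain ⟨x, h11, h12, h13⟩ := hstep y
    have hz : true ∈ z := count_pos_iff.1 (by omega)
    have hy1 : z.count true ≤ y.count true := by
      rw [h9]
      have := Nat.le_mul_of_pos_right (z.count true) hσ
      omega
    have hy : true ∈ y := count_pos_iff.1 (by omega)
    refine ⟨x, ?_, ?_⟩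
    · rw [show 2 * (m + 1) = 2 * m + 1 + 1 by ring]
      exact GCh.succ'.2 ⟨y, GCh.succ'.2 ⟨z, h6, hz, h8⟩, hy, h11⟩
    · by_cases hσ2 : 2 ≤ w₁.count true
      · have h14 : z.count true * 2 ≤ z.count true * w₁.count true := Nat.mul_le_mul_left _ hσ2
        have h15 : y.count true ≤ y.count true * w₁.count true :=
          Nat.le_mul_of_pos_right _ hσ
        omega
      · have hw := hlen w₁
        have hα : 1 ≤ w₁.count false := by omega
        have h14 : z.count true ≤ z.count true * w₁.count false := Nat.le_mul_of_pos_right _ hα
        have h15 : y.count true ≤ y.count true * w₁.count true :=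
          Nat.le_mul_of_pos_right _ hσ
        have h16 : y.count false ≤ y.count false * w₀.count true :=
          Nat.le_mul_of_pos_right _ hσ₀
        omega

/-- A guarded derivation of bounded length. -/
def GS (Sp : Bool → List Bool → Prop) (T k : ℕ) : Prop :=
  ∃ t, t ≤ T ∧ GCh Sp t [true] (replicate k false)

lemma GK.of_gch {t k : ℕ} (h : GCh Sp t [true] (replicate k false)) : GK Sp k := by
  cases t with
  | zero =>
    exfalso
    have h1 : [true] = replicate k false := h
    have : true ∈ replicate k false := by rw [← h1]; simp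
    have := eq_of_mem_replicate this
    simp at this
  | succ t => exact ⟨t, h⟩

lemma GS.gk {T k : ℕ} (h : GS Sp T k) : GK Sp k := by
  obtain ⟨t, _, h⟩ := h
  exact GK.of_gch h

lemma GS.mono {T T' k : ℕ} (h : GS Sp T k) (hT : T ≤ T') : GS Sp T' k := by
  obtain ⟨t, h1, h2⟩ := h
  exact ⟨t, h1.trans hT, h2⟩

/-- The last step of a derivation. -/
lemma gs_final {n T k : ℕ} {z : List Bool} (h : GCh Sp n [true] z) (hz : true ∈ z)
    (hT : n + 1 ≤ T) {L M : List (List Bool)} (h1 : L.length = z.count true)
    (h2 : M.length = z.count false) (h3 : ∀ v ∈ L, Sp true v) (h4 : ∀ v ∈ M, Sp false v)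
    (h5 : (L.map (fun v => v.count true)).sum + (M.map (fun v => v.count true)).sum = 0)
    (h6 : (L.map (fun v => v.count false)).sum + (M.map (fun v => v.count false)).sum = k) :
    GS Sp T k := by
  obtain ⟨w, h7, h8, h9⟩ := step_dec h1 h2 h3 h4
  have := eq_replicate_false (h8.trans h5) (h9.trans h6)
  subst this
  exact ⟨n + 1, hT, GCh.succ'.2 ⟨z, h, hz, h7⟩⟩

end Pool.Agent.Helper79.EOL
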