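import Pool.Agent.Helper79.EOL.RC

/-!
# The growth dichotomy for numbers of occurrences of a letter
-/

namespace Pool.Agent.Helper79.EOL

open List Pool.Agent.Helper76.EOL

section graph

variable {σ : Type*} (ch : σ → List σ)

/-- The number of paths of length `n` from `s`. -/
def paths : ℕ → σ → ℕ
  | 0, _ => 1
  | n + 1, s => ((ch s).map (paths n)).sum

variable {ch}

/-- Reachability. -/
def Reach (ch : σ → List σ) : σ → σ → Prop := Relation.ReflTransGen (fun s t => t ∈ ch s)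

lemma paths_child {n : ℕ} {s t : σ} (h : t ∈ ch s) : paths ch n t ≤ paths ch (n + 1) s := by
  exact List.single_le_sum (by simp) _ (mem_map_of_mem h)

lemma paths_reach {s t : σ} (h : Reach ch s t) : ∃ m, ∀ n, paths ch n t ≤ paths ch (n + m) s := by
  induction h using Relation.ReflTransGen.head_induction_on with
  | refl => exact ⟨0, fun n => le_rfl⟩
  | head h1 _ ih =>
    obtain ⟨m, hm⟩ := ih
    exact ⟨m + 1, fun n => (hm n).trans (paths_child h1)⟩

lemma paths_pos (hne : ∀ s, ch s ≠ []) (n : ℕ) (s : σ) : 1 ≤ paths ch n s := by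
  induction n generalizing s with
  | zero => exact le_rfl
  | succ n ih =>
    obtain ⟨t, ht⟩ := exists_mem_of_ne_nil _ (hne s)
    exact (ih t).trans (paths_child ht)

lemma paths_mono (hne : ∀ s, ch s ≠ []) {n m : ℕ} (h : n ≤ m) (s : σ) :
    paths ch n s ≤ paths ch m s := by
  have key : ∀ n s, paths ch n s ≤ paths ch (n + 1) s := by
    intro n
    induction n with
    | zero => intro s; exact paths_pos hne 1 s
    | succ n ih =>
      intro s
      exact List.sum_le_sum (fun t _ => ih t)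
  induction h with
  | refl => exact le_rfl
  | step _ ih => exact ih.trans (key _ s)

open Classical in
lemma paths_bounded [Fintype σ] {D : ℕ} (hD : 1 ≤ D) (hne : ∀ s, ch s ≠ [])
    (hlen : ∀ s, (ch s).length ≤ D) (n : ℕ) : ∀ s,
    (∀ b, Reach ch s b → 2 ≤ (ch b).length → ∀ c ∈ ch b, ¬ Reach ch c b) →
      paths ch n s ≤ D ^ (Finset.univ.filter (Reach ch s)).card := by
  induction n with
  | zero => intro s _; exact Nat.one_le_pow _ _ hD
  | succ n ih =>
    intro s hs
    have hsub : ∀ c ∈ ch s, Finset.univ.filter (Reach ch c) ⊆ Finset.univ.filter (Reach ch s) := by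
      intro c hc b hb
      simp only [Finset.mem_filter, Finset.mem_univ, true_and] at hb ⊢
      exact Relation.ReflTransGen.head hc hb
    have hchild : ∀ c ∈ ch s,
        (∀ b, Reach ch c b → 2 ≤ (ch b).length → ∀ d ∈ ch b, ¬ Reach ch d b) := by
      intro c hc b hb
      exact hs b (Relation.ReflTransGen.head hc hb)
    by_cases h2 : 2 ≤ (ch s).length
    · set K := (Finset.univ.filter (Reach ch s)).card with hK
      have hKpos : 1 ≤ K := by
        apply Finset.card_pos.2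
        exact ⟨s, by simp [Reach, Relation.ReflTransGen.refl]⟩
      have hbd : ∀ c ∈ ch s, paths ch n c ≤ D ^ (K - 1) := by
        intro c hc
        refine (ih c (hchild c hc)).trans (Nat.pow_le_pow_right hD ?_)
        have hlt : (Finset.univ.filter (Reach ch c)).card < K := by
          apply Finset.card_lt_card
          refine ⟨hsub c hc, ?_⟩
          intro h
          have h3 : s ∈ Finset.univ.filter (Reach ch s) := by
            simp [Reach, Relation.ReflTransGen.refl]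
          have h4 := h h3
          simp only [Finset.mem_filter, Finset.mem_univ, true_and] at h4
          exact hs s Relation.ReflTransGen.refl h2 c hc h4
        omega
      have h5 : ((ch s).map (paths ch n)).sum ≤ (ch s).length * D ^ (K - 1) := by
        have := List.sum_le_card_nsmul ((ch s).map (paths ch n)) (D ^ (K - 1)) (by
          intro x hx
          rw [mem_map] at hx
          obtain ⟨c, hc, rfl⟩ := hx
          exact hbd c hc)
        simpa using this
      calc paths ch (n + 1) s ≤ (ch s).length * D ^ (K - 1) := h5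
        _ ≤ D * D ^ (K - 1) := Nat.mul_le_mul_right _ (hlen s)
        _ = D ^ K := by
          rw [← pow_succ']
          congr 1; omega
    · have h1 : (ch s).length = 1 := by
        have := length_pos_iff.2 (hne s)
        omega
      obtain ⟨c, hc⟩ := length_eq_one_iff.1 h1
      have hcm : c ∈ ch s := by rw [hc]; simp
      have e : paths ch (n + 1) s = paths ch n c := by
        change ((ch s).map (paths ch n)).sum = _
        rw [hc]; simp
      rw [e]
      exact (ih c (hchild c hcm)).trans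
        (Nat.pow_le_pow_right hD (Finset.card_le_card (hsub c hcm)))

lemma paths_linear (hne : ∀ s, ch s ≠ []) {s b c : σ} (h1 : Reach ch s b)
    (h2 : 2 ≤ (ch b).length) (hc : c ∈ ch b) (h3 : Reach ch c b) :
    ∃ C, ∀ n, n ≤ C * paths ch n s := by
  obtain ⟨m, hm⟩ := paths_reach h1
  obtain ⟨l, hl⟩ := paths_reach h3
  have key : ∀ n, paths ch n b + 1 ≤ paths ch (n + (l + 1)) b := by
    intro n
    have h4 : paths ch (n + l) c + 1 ≤ paths ch (n + l + 1) b := by
      change _ ≤ ((ch b).map (paths ch (n + l))).sum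
      obtain ⟨u, v, e⟩ := append_of_mem hc
      rw [e]
      simp only [map_append, map_cons, sum_append, sum_cons]
      rw [e] at h2
      simp only [length_append, length_cons] at h2
      have h5 : u ≠ [] ∨ v ≠ [] := by
        by_contra hcon
        push Not at hcon
        rw [hcon.1, hcon.2] at h2
        simp at h2
      rcases h5 with h5 | h5
      · obtain ⟨t, ht⟩ := exists_mem_of_ne_nil _ h5
        have h6 : paths ch (n + l) t ≤ (u.map (paths ch (n + l))).sum :=
          List.single_le_sum (by simp) _ (mem_map_of_mem ht)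
        have h7 := paths_pos hne (n + l) t
        omega
      · obtain ⟨t, ht⟩ := exists_mem_of_ne_nil _ h5
        have h6 : paths ch (n + l) t ≤ (v.map (paths ch (n + l))).sum :=
          List.single_le_sum (by simp) _ (mem_map_of_mem ht)
        have h7 := paths_pos hne (n + l) t
        omega
    have h5 := hl n
    rw [show n + (l + 1) = n + l + 1 by omega]
    omega
  have key2 : ∀ k, k + 1 ≤ paths ch (k * (l + 1)) b := by
    intro k
    induction k with
    | zero => simp [paths]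
    | succ k ih =>
      have := key (k * (l + 1))
      rw [show (k + 1) * (l + 1) = k * (l + 1) + (l + 1) by ring]
      omega
  have key3 : ∀ n, n ≤ (l + 1) * paths ch n b := by
    intro n
    have h4 := key2 (n / (l + 1))
    have h5 := paths_mono (ch := ch) hne (Nat.div_mul_le_self n (l + 1)) b
    have h6 : n < (l + 1) * (n / (l + 1) + 1) := Nat.lt_mul_div_succ n (by omega)
    have h7 : (l + 1) * (n / (l + 1) + 1) ≤ (l + 1) * paths ch n b :=
      Nat.mul_le_mul_left _ (h4.trans h5)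
    omega
  refine ⟨m + (l + 1), ?_⟩
  intro n
  have hp := paths_pos hne n s
  by_cases hnm : n ≤ m
  · have : (m + (l + 1)) * 1 ≤ (m + (l + 1)) * paths ch n s := Nat.mul_le_mul_left _ hp
    omega
  · obtain ⟨k, rfl⟩ : ∃ k, n = k + m := ⟨n - m, by omega⟩
    have h4 := key3 k
    have h5 : (l + 1) * paths ch k b ≤ (l + 1) * paths ch (k + m) s :=
      Nat.mul_le_mul_left _ (hm k)
    have h6 : m * 1 ≤ m * paths ch (k + m) s := Nat.mul_le_mul_left _ hp
    rw [Nat.add_mul]
    omega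

/-- The number of paths in a finite graph without dead ends is bounded or grows linearly. -/
theorem paths_dichotomy [Finite σ] {D : ℕ} (hne : ∀ s, ch s ≠ [])
    (hlen : ∀ s, (ch s).length ≤ D) : ∃ C, ∀ s,
      (∀ n, paths ch n s ≤ C) ∨ (∀ n, n ≤ C * paths ch n s) := by
  have := Fintype.ofFinite σ
  have key : ∀ s, ∃ C, (∀ n, paths ch n s ≤ C) ∨ (∀ n, n ≤ C * paths ch n s) := by
    intro s
    by_cases h : ∃ b, Reach ch s b ∧ 2 ≤ (ch b).length ∧ ∃ c ∈ ch b, Reach ch c b
    · obtain ⟨b, h1, h2, c, hc, h3⟩ := h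
      obtain ⟨C, hC⟩ := paths_linear hne h1 h2 hc h3
      exact ⟨C, Or.inr hC⟩
    · push Not at h
      have hD : 1 ≤ D := (length_pos_iff.2 (hne s)).trans_le (hlen s)
      exact ⟨_, Or.inl (fun n => paths_bounded hD hne hlen n s h)⟩
  choose C hC using key
  refine ⟨∑ s, C s, ?_⟩
  intro s
  have hle : C s ≤ ∑ s, C s := Finset.single_le_sum (fun _ _ => Nat.zero_le _) (Finset.mem_univ s)
  rcases hC s with h | h
  · exact Or.inl (fun n => (h n).trans hle)
  · exact Or.inr (fun n => (h n).trans (Nat.mul_le_mul_right _ hle))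

end graph

variable {G : Grammar} {Sig : Finset ℕ} {n₀ P : ℕ}

/-- States: a symbol, a residue class of the remaining time, and a support containing `x`. -/
def Stt (G : Grammar) (Sig : Finset ℕ) (n₀ P x : ℕ) : Type :=
  {s : ℕ × ℕ × Finset ℕ // s.1 ∈ G.V ∧ s.2.1 < P ∧ s.2.2 ⊆ Sig ∧ x ∈ s.2.2 ∧
    ∃ τ w, n₀ ≤ τ ∧ τ % P = s.2.1 ∧ It (pr G) τ s.1 w ∧ w.toFinset = s.2.2}

lemma stt_finite (G : Grammar) (Sig : Finset ℕ) (n₀ P x : ℕ) : Finite (Stt G Sig n₀ P x) := by
  have : {s : ℕ × ℕ × Finset ℕ | s.1 ∈ G.V ∧ s.2.1 < P ∧ s.2.2 ⊆ Sig ∧ x ∈ s.2.2 ∧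
    ∃ τ w, n₀ ≤ τ ∧ τ % P = s.2.1 ∧ It (pr G) τ s.1 w ∧ w.toFinset = s.2.2}.Finite := by
    apply (Finset.finite_toSet (G.V ×ˢ (Finset.range P ×ˢ Sig.powerset))).subset
    rintro ⟨X, r, A⟩ ⟨h1, h2, h3, _⟩
    simp only [Finset.coe_product, Set.mem_prod, Finset.mem_coe, Finset.mem_range,
      Finset.mem_powerset]
    exact ⟨h1, h2, h3⟩
  exact this.to_subtype

lemma stt_word (ht : Tab G Sig n₀ P) {x : ℕ} (s : Stt G Sig n₀ P x) {τ : ℕ} (hτ : n₀ ≤ τ)
    (hr : τ % P = s.1.2.1) : ∃ w, It (pr G) τ s.1.1 w ∧ w.toFinset = s.1.2.2 := by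
  obtain ⟨h1, _, h3, _, τ', w, h4, h5, h6, h7⟩ := s.2
  obtain ⟨w', h8, h9⟩ := ht s.1.1 h1 τ' τ h4 hτ (by rw [Nat.ModEq, h5, hr]) w h6 (by
    intro y hy
    apply h3
    rw [← h7]
    exact mem_toFinset.2 hy)
  exact ⟨w', h8, by rw [h9, h7]⟩

/-- The relevant symbols of a word. -/
lemma exists_relevant (hP : 1 ≤ P) (ht : Tab G Sig n₀ P) {x τ₁ : ℕ} (hτ₁ : n₀ ≤ τ₁)
    {α : List ℕ} : ∀ {w : List ℕ}, (∀ y ∈ α, y ∈ G.V) → Par (It (pr G) τ₁) α w →
      (∀ y ∈ w, y ∈ Sig) → ∃ c : List (Stt G Sig n₀ P x), (x ∈ w → c ≠ []) ∧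
        c.length ≤ α.length ∧ (∀ t ∈ c, t.1.2.1 = τ₁ % P) ∧
        ∀ τ, n₀ ≤ τ → τ ≡ τ₁ [MOD P] → ∀ f : Stt G Sig n₀ P x → List ℕ,
          (∀ t ∈ c, It (pr G) τ t.1.1 (f t) ∧ (f t).toFinset = t.1.2.2) →
          ∃ w', Par (It (pr G) τ) α w' ∧ w'.toFinset = w.toFinset ∧
            w'.count x = (c.map (fun t => (f t).count x)).sum := by
  induction α with
  | nil =>
    intro w _ h _
    rw [par_nil] at h
    subst h
    refine ⟨[], by simp, by simp, by simp, ?_⟩
    intro τ _ _ f _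
    exact ⟨[], Par.nil, rfl, by simp⟩
  | cons Y α ih =>
    intro w hα h hw
    obtain ⟨u, v, h1, h2, rfl⟩ := par_cons.1 h
    obtain ⟨c, h3, h4, h5, h6⟩ := ih (fun y hy => hα y (by simp [hy])) h2
      (fun y hy => hw y (by simp [hy]))
    have huS : ∀ y ∈ u, y ∈ Sig := fun y hy => hw y (by simp [hy])
    by_cases hx : x ∈ u
    · refine ⟨⟨(Y, τ₁ % P, u.toFinset), hα Y (by simp), Nat.mod_lt _ (by omega), ?_,
        mem_toFinset.2 hx, τ₁, u, hτ₁, rfl, h1, rfl⟩ :: c, by simp, by simp; omega, ?_, ?_⟩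
      · intro y hy
        exact huS y (mem_toFinset.1 hy)
      · intro t htc
        rw [mem_cons] at htc
        rcases htc with rfl | htc
        · rfl
        · exact h5 t htc
      · intro τ hτ hmod f hf
        obtain ⟨v', h7, h8, h9⟩ := h6 τ hτ hmod f (fun t htc => hf t (by simp [htc]))
        obtain ⟨h10, h11⟩ := hf _ (mem_cons_self ..)
        refine ⟨_, Par.cons h10 h7, ?_, ?_⟩
        · rw [toFinset_append, h11, h8, toFinset_append]
        · rw [count_append, map_cons, sum_cons, h9]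
    · refine ⟨c, ?_, by simp; omega, h5, ?_⟩
      · intro hm
        rw [mem_append] at hm
        exact h3 (hm.resolve_left hx)
      · intro τ hτ hmod f hf
        obtain ⟨v', h7, h8, h9⟩ := h6 τ hτ hmod f hf
        obtain ⟨u', h10, h11⟩ := ht Y (hα Y (by simp)) τ₁ τ hτ₁ hτ hmod.symm u h1 huS
        refine ⟨_, Par.cons h10 h7, ?_, ?_⟩
        · rw [toFinset_append, h11, h8, toFinset_append]
        · rw [count_append, h9, count_eq_zero.2, Nat.zero_add]
          intro hm
          apply hx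
          rw [← mem_toFinset, ← h11, mem_toFinset]
          exact hm

/-- The relevant children of a state. -/
lemma exists_children (hP : 1 ≤ P) (ht : Tab G Sig n₀ P) {D : ℕ}
    (hb : ∀ x w, pr G x w → w.length ≤ D) {x : ℕ} (s : Stt G Sig n₀ P x) :
    ∃ c : List (Stt G Sig n₀ P x), c ≠ [] ∧ c.length ≤ D ∧
      ∀ τ, n₀ ≤ τ → (τ + 1) % P = s.1.2.1 → (∀ t ∈ c, t.1.2.1 = τ % P) ∧
        ∀ f : Stt G Sig n₀ P x → List ℕ,
          (∀ t ∈ c, It (pr G) τ t.1.1 (f t) ∧ (f t).toFinset = t.1.2.2) →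
          ∃ w', It (pr G) (τ + 1) s.1.1 w' ∧ w'.toFinset = s.1.2.2 ∧
            w'.count x = (c.map (fun t => (f t).count x)).sum := by
  obtain ⟨ρ, hρ1, hρ2, hρ3⟩ := exists_rep hP (n₀ + 1) s.1.2.1
  obtain ⟨τ₁, rfl⟩ : ∃ τ₁, ρ = τ₁ + 1 := ⟨ρ - 1, by omega⟩
  have hr : (τ₁ + 1) % P = s.1.2.1 := by
    have h1 : s.1.2.1 % P = (τ₁ + 1) % P := hρ3
    rw [← h1]
    exact Nat.mod_eq_of_lt s.2.2.1
  obtain ⟨w, h1, h2⟩ := stt_word ht s (by omega) hr
  obtain ⟨α, h3, h4⟩ := it_succ.1 h1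
  have hwS : ∀ y ∈ w, y ∈ Sig := by
    intro y hy
    apply s.2.2.2.1
    rw [← h2]
    exact mem_toFinset.2 hy
  obtain ⟨c, h5, h6, h7, h8⟩ := exists_relevant (x := x) hP ht (by omega : n₀ ≤ τ₁)
    (G.prod_wf _ h3).2 h4 hwS
  refine ⟨c, h5 ?_, h6.trans (hb _ _ h3), ?_⟩
  · rw [← mem_toFinset, h2]
    exact s.2.2.2.2.1
  · intro τ hτ hτr
    have hmod : τ ≡ τ₁ [MOD P] := by
      have : τ + 1 ≡ τ₁ + 1 [MOD P] := by rw [Nat.ModEq, hτr, hr]
      exact Nat.ModEq.add_right_cancel' 1 this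
    refine ⟨fun t htc => (h7 t htc).trans hmod.symm, ?_⟩
    intro f hf
    obtain ⟨w', h9, h10, h11⟩ := h8 τ hτ hmod f hf
    exact ⟨w', it_succ.2 ⟨α, h3, h9⟩, by rw [h10, h2], h11⟩

/-- **The dichotomy for symbols.** -/
theorem dichotomy (hP : 1 ≤ P) (ht : Tab G Sig n₀ P) {D : ℕ}
    (hb : ∀ x w, pr G x w → w.length ≤ D) (x : ℕ) : ∃ C7 C8, ∀ X ∈ G.V, ∀ τ, n₀ ≤ τ → ∀ w,
      It (pr G) τ X w → (∀ y ∈ w, y ∈ Sig) → ∃ w', It (pr G) τ X w' ∧
        w'.toFinset = w.toFinset ∧ (w'.count x ≤ C7 ∨ τ ≤ C8 * (w'.count x + 1)) := by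
  have := stt_finite G Sig n₀ P x
  choose ch h1 h2 h3 using exists_children (x := x) hP ht hb
  obtain ⟨C, hC⟩ := paths_dichotomy (ch := ch) h1 h2
  have key : ∀ m s, (n₀ + m) % P = s.1.2.1 → ∃ w, It (pr G) (n₀ + m) s.1.1 w ∧
      w.toFinset = s.1.2.2 ∧ paths ch m s ≤ w.count x ∧
      w.count x ≤ D ^ n₀ * paths ch m s := by
    intro m
    induction m with
    | zero =>
      intro s hs
      obtain ⟨w, h4, h5⟩ := stt_word ht s (by omega) hs
      refine ⟨w, h4, h5, ?_, ?_⟩
      · change 1 ≤ _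
        apply count_pos_iff.2
        rw [← mem_toFinset, h5]
        exact s.2.2.2.2.1
      · change _ ≤ D ^ n₀ * 1
        rw [Nat.mul_one]
        exact (count_le_length).trans (h4.length_le hb)
    | succ m ih =>
      intro s hs
      obtain ⟨h4, h5⟩ := h3 s (n₀ + m) (by omega) hs
      have hex : ∀ t : Stt G Sig n₀ P x, ∃ w, (n₀ + m) % P = t.1.2.1 →
          It (pr G) (n₀ + m) t.1.1 w ∧ w.toFinset = t.1.2.2 ∧ paths ch m t ≤ w.count x ∧
          w.count x ≤ D ^ n₀ * paths ch m t := by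
        intro t
        by_cases h : (n₀ + m) % P = t.1.2.1
        · obtain ⟨w, hw⟩ := ih t h
          exact ⟨w, fun _ => hw⟩
        · exact ⟨[], fun h' => absurd h' h⟩
      choose f hf using hex
      obtain ⟨w', h6, h7, h8⟩ := h5 f (fun t htc =>
        ⟨(hf t (h4 t htc).symm).1, (hf t (h4 t htc).symm).2.1⟩)
      refine ⟨w', h6, h7, ?_, ?_⟩
      · rw [h8]
        change ((ch s).map (paths ch m)).sum ≤ _
        exact List.sum_le_sum (fun t htc => (hf t (h4 t htc).symm).2.2.1)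
      · rw [h8]
        change _ ≤ D ^ n₀ * ((ch s).map (paths ch m)).sum
        rw [← List.sum_map_mul_left]
        exact List.sum_le_sum (fun t htc => (hf t (h4 t htc).symm).2.2.2)
  refine ⟨D ^ n₀ * C, n₀ + C, ?_⟩
  intro X hX τ hτ w hw hS
  by_cases hx : x ∈ w
  · obtain ⟨m, rfl⟩ : ∃ m, τ = n₀ + m := ⟨τ - n₀, by omega⟩
    let s : Stt G Sig n₀ P x := ⟨(X, (n₀ + m) % P, w.toFinset), hX, Nat.mod_lt _ (by omega),
      fun y hy => hS y (mem_toFinset.1 hy), mem_toFinset.2 hx, n₀ + m, w, hτ, rfl, hw, rfl⟩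
    obtain ⟨w', h4, h5, h6, h7⟩ := key m s rfl
    refine ⟨w', h4, h5, ?_⟩
    rcases hC s with h | h
    · left
      exact h7.trans (Nat.mul_le_mul_left _ (h m))
    · right
      have h8 : m ≤ C * w'.count x := (h m).trans (Nat.mul_le_mul_left _ h6)
      calc n₀ + m ≤ n₀ * (w'.count x + 1) + C * (w'.count x + 1) := by nlinarith
        _ = (n₀ + C) * (w'.count x + 1) := by ring
  · exact ⟨w, hw, rfl, Or.inl (by rw [count_eq_zero.2 hx]; omega)⟩

/-- **The dichotomy for words.** -/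
theorem dichotomy_par (hP : 1 ≤ P) (ht : Tab G Sig n₀ P) {D : ℕ}
    (hb : ∀ x w, pr G x w → w.length ≤ D) (x : ℕ) : ∃ C7 C8, ∀ z, (∀ X ∈ z, X ∈ G.V) → ∀ τ,
      n₀ ≤ τ → ∀ w, Par (It (pr G) τ) z w → (∀ y ∈ w, y ∈ Sig) → ∃ w',
        Par (It (pr G) τ) z w' ∧ w'.toFinset = w.toFinset ∧
        (w'.count x ≤ C7 * z.length ∨ τ ≤ C8 * (w'.count x + 1)) := by
  obtain ⟨C7, C8, h⟩ := dichotomy hP ht hb x
  refine ⟨C7, C8, ?_⟩
  intro z
  induction z with
  | nil =>
    intro _ τ _ w hw _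
    rw [par_nil] at hw
    subst hw
    exact ⟨[], Par.nil, rfl, Or.inl (by simp)⟩
  | cons X z ih =>
    intro hz τ hτ w hw hS
    obtain ⟨u, v, h1, h2, rfl⟩ := par_cons.1 hw
    obtain ⟨u', h3, h4, h5⟩ := h X (hz X (by simp)) τ hτ u h1 (fun y hy => hS y (by simp [hy]))
    obtain ⟨v', h6, h7, h8⟩ := ih (fun Y hY => hz Y (by simp [hY])) τ hτ v h2
      (fun y hy => hS y (by simp [hy]))
    refine ⟨u' ++ v', Par.cons h3 h6, by rw [toFinset_append, toFinset_append, h4, h7], ?_⟩
    rw [count_append, length_cons, Nat.mul_succ]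
    rcases h5 with h5 | h5
    · rcases h8 with h8 | h8
      · left; omega
      · right
        refine h8.trans (Nat.mul_le_mul_left _ (by omega))
    · right
      refine h5.trans (Nat.mul_le_mul_left _ (by omega))

end Pool.Agent.Helper79.EOL
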