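import Pool.Agent.Helper79.EOL.Clo

/-!
# The explicit form of the classification
-/

namespace Pool.Agent.Helper79.EOL

open List Pool.Agent.Helper76.EOL

/-- The words derivable from the start letter in at most `n` steps by a derivation in which every
word except possibly the last one contains the start letter. -/
inductive GuardedIn (F : Grammar) : ℕ → List ℕ → Prop
  | start (n : ℕ) : GuardedIn F n [F.S]
  | step {n : ℕ} {u v : List ℕ} : GuardedIn F n u → F.S ∈ u → Step F u v → GuardedIn F (n + 1) v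

variable {F : Grammar} {a : ℕ}

lemma guardedIn_iff_GCh (hF : IsSaForm F a) {T : ℕ} {v : List ℕ} :
    GuardedIn F T v ↔ ∃ n w, n ≤ T ∧ GCh (Sh F a) n [true] w ∧ v = w.map (sl F a) := by
  constructor
  · intro h
    induction h with
    | start n => exact ⟨0, [true], by omega, rfl, rfl⟩
    | step _ h2 h3 ih =>
      obtain ⟨n, w, hn, h4, rfl⟩ := ih
      rw [step_iff, par_form hF] at h3
      obtain ⟨w', h5, rfl⟩ := h3
      rw [mem_map_sl hF] at h2
      exact ⟨n + 1, w', by omega, GCh.succ'.2 ⟨w, h4, h2, h5⟩, rfl⟩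
  · rintro ⟨n, w, hn, h, rfl⟩
    induction n generalizing w T with
    | zero =>
      have : [true] = w := h
      subst this
      exact GuardedIn.start _
    | succ n ih =>
      obtain ⟨z, h1, h2, h3⟩ := GCh.succ'.1 h
      obtain ⟨T, rfl⟩ : ∃ T', T = T' + 1 := ⟨T - 1, by omega⟩
      exact GuardedIn.step (ih z (by omega) h1) ((mem_map_sl hF).2 h2)
        (step_iff.2 ((par_form hF).2 ⟨w, h3, rfl⟩))

lemma guardedIn_iff (hF : IsSaForm F a) {T k : ℕ} :
    GuardedIn F T (replicate k a) ↔ GS (Sh F a) T k := by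
  rw [guardedIn_iff_GCh hF]
  constructor
  · rintro ⟨n, w, hn, h1, h2⟩
    have e : w = replicate k false := by
      apply (map_injective_iff.2 (sl_inj hF))
      rw [← h2, map_replicate]
      rfl
    subst e
    exact ⟨n, hn, h1⟩
  · rintro ⟨t, ht, h⟩
    exact ⟨t, _, ht, h, by rw [map_replicate]; rfl⟩

/-- The conditions on single productions. -/
def CondR (F : Grammar) (a : ℕ) : Prop :=
  ((∃ X, (X, []) ∈ F.P) ∧ ((∃ α, (a, α) ∈ F.P ∧ α.count a ≤ 1 ∧ α ≠ [a]) ∨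
      ∃ s, 2 ≤ s ∧ (F.S, replicate s F.S) ∈ F.P)) ∨
    ((¬ ∃ X, (X, []) ∈ F.P) ∧
      ((a, [F.S]) ∈ F.P ∨
        ((F.S, [F.S]) ∈ F.P ∧
          ∃ j, 2 ≤ j ∧ ((F.S, replicate j F.S) ∈ F.P ∨ (a, replicate j F.S) ∈ F.P)) ∨
        ((F.S, [F.S]) ∈ F.P ∧ (a, [a]) ∈ F.P ∧
          (∃ α, (F.S, α) ∈ F.P ∧ F.S ∈ α ∧ α.count a = 1) ∧
          (∃ i, 1 ≤ i ∧ (a, replicate i F.S ++ [a]) ∈ F.P) ∧
          ∃ j, 1 ≤ j ∧ (a, a :: replicate j F.S) ∈ F.P)))

lemma map_sl_ne (hF : IsSaForm F a) (w : List Bool) : w.map (sl F a) ≠ [a] ↔ w ≠ [false] := by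
  rw [not_iff_not]
  constructor
  · intro h
    apply (map_injective_iff.2 (sl_inj hF))
    rw [h]; rfl
  · rintro rfl; rfl

lemma condR_iff (hF : IsSaForm F a) : CondR F a ↔
    ((∃ x, Sh F a x []) ∧ CondE (Sh F a)) ∨
      ((∀ x w, Sh F a x w → w ≠ []) ∧ CondP (Sh F a)) := by
  have he : (∃ X, (X, []) ∈ F.P) ↔ ∃ x, Sh F a x [] := by
    constructor
    · rintro ⟨X, hX⟩
      have hXV := (F.prod_wf _ hX).1
      rw [hF.1, Finset.mem_insert, Finset.mem_singleton] at hXV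
      rcases hXV with rfl | rfl
      · exact ⟨true, hX⟩
      · exact ⟨false, hX⟩
    · rintro ⟨x, hx⟩
      exact ⟨sl F a x, hx⟩
  have hne : (¬ ∃ X, (X, []) ∈ F.P) ↔ ∀ x w, Sh F a x w → w ≠ [] := by
    rw [he]
    constructor
    · rintro h x w hw rfl
      exact h ⟨x, hw⟩
    · rintro h ⟨x, hx⟩
      exact h _ _ hx rfl
  have h2 := exists_true_iff hF false (fun α => α.count a ≤ 1 ∧ α ≠ [a])
  rw [sl_false] at h2
  have h3 := exists_true_iff hF true (fun α => F.S ∈ α ∧ α.count a = 1)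
  rw [sl_true] at h3
  have e1 : ∀ j b, (sl F a b, replicate j F.S) ∈ F.P ↔ Sh F a b (replicate j true) := by
    intro j b
    rw [sh_replicate, sl_true]
  have e2 : (F.S, [F.S]) ∈ F.P ↔ Sh F a true [true] := e1 1 true
  have e3 : (a, [F.S]) ∈ F.P ↔ Sh F a false [true] := e1 1 false
  have e4 : (a, [a]) ∈ F.P ↔ Sh F a false [false] := Iff.rfl
  have e5 : ∀ i, (a, replicate i F.S ++ [a]) ∈ F.P ↔ Sh F a false (replicate i true ++ [false]) := by
    intro i
    unfold Sh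
    rw [map_append, map_replicate]
    rfl
  have e6 : ∀ j, (a, a :: replicate j F.S) ∈ F.P ↔ Sh F a false (false :: replicate j true) := by
    intro j
    unfold Sh
    rw [map_cons, map_replicate]
    rfl
  have e7 : ∀ j, (F.S, replicate j F.S) ∈ F.P ↔ Sh F a true (replicate j true) := fun j => e1 j true
  have e8 : ∀ j, (a, replicate j F.S) ∈ F.P ↔ Sh F a false (replicate j true) :=
    fun j => e1 j false
  unfold CondR CondE CondP
  rw [hne, he, h2, h3]
  simp only [mem_map_sl hF, count_map_sl hF, map_sl_ne hF, e2, e3, e4, e5, e6, e7, e8]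
  constructor
  · rintro (h | ⟨g, h⟩)
    · exact Or.inl h
    · refine Or.inr ⟨g, ?_⟩
      rcases h with h | ⟨h, j, hj, h' | h'⟩ | h
      · exact Or.inl h
      · exact Or.inr (Or.inl ⟨h, Or.inl ⟨j, hj, h'⟩⟩)
      · exact Or.inr (Or.inl ⟨h, Or.inr ⟨j, hj, h'⟩⟩)
      · exact Or.inr (Or.inr h)
  · rintro (h | ⟨g, h⟩)
    · exact Or.inl h
    · refine Or.inr ⟨g, ?_⟩
      rcases h with h | ⟨h, ⟨j, hj, h'⟩ | ⟨j, hj, h'⟩⟩ | h
      · exact Or.inl h
      · exact Or.inr (Or.inl ⟨h, j, hj, Or.inl h'⟩)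
      · exact Or.inr (Or.inl ⟨h, j, hj, Or.inr h'⟩)
      · exact Or.inr (Or.inr h)

/-- The classification with the condition on all powers. -/
theorem complete_iff (hF : IsSaForm F a) :
    Complete F ↔ (∃ α, (a, α) ∈ F.P ∧ F.S ∈ α) ∧ (∀ k, 1 ≤ k → Guarded F (replicate k a)) ∧
      CondR F a := by
  unfold CondR
  by_cases he : ∃ X, (X, []) ∈ F.P
  · rw [complete_iff_erasing hF he]
    constructor
    · rintro ⟨h1, h2, h3⟩
      exact ⟨h1, h2, Or.inl ⟨he, h3⟩⟩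
    · rintro ⟨h1, h2, ⟨_, h3⟩ | ⟨h3, _⟩⟩
      · exact ⟨h1, h2, h3⟩
      · exact absurd he h3
  · rw [complete_iff_propagating hF he]
    constructor
    · rintro ⟨h1, h2, h3⟩
      exact ⟨h1, h2, Or.inr ⟨he, h3⟩⟩
    · rintro ⟨h1, h2, ⟨h3, _⟩ | ⟨_, h3⟩⟩
      · exact absurd h3 he
      · exact ⟨h1, h2, h3⟩

/-- The explicit classification. -/
theorem complete_iff_explicit (hF : IsSaForm F a) {d : ℕ}
    (hd : ∀ p ∈ F.P, p.2.length ≤ d) :
    Complete F ↔ (∃ α, (a, α) ∈ F.P ∧ F.S ∈ α) ∧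
      (∀ k, 1 ≤ k → k ≤ d * (d + 1) → GuardedIn F ((d + 1) ^ 4) (replicate k a)) ∧
      CondR F a := by
  have hd' : ∀ x w, Sh F a x w → w.length ≤ d := by
    intro x w h
    have := hd _ h
    simpa using this
  have hA : (∃ α, (a, α) ∈ F.P ∧ F.S ∈ α) ↔ ∃ w, Sh F a false w ∧ true ∈ w := by
    have h1 := exists_true_iff hF false (fun α => F.S ∈ α)
    rw [sl_false] at h1
    rw [h1]
    simp only [mem_map_sl hF]
  rw [complete_iff hF, hA]
  constructor
  · rintro ⟨h1, h2, h3⟩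
    refine ⟨h1, ?_, h3⟩
    have h4 : ∀ k, 1 ≤ k → GK (Sh F a) k := fun k hk => (guarded_iff hF).1 (h2 k hk)
    obtain ⟨w₁, hw1, _, hw3⟩ := exists_grow hd' (h4 (d + 1) (by omega))
    have hd2 : 2 ≤ d := hw3.trans (hd' _ _ hw1)
    intro k hk1 hk2
    rw [guardedIn_iff hF]
    refine (K_finite hd' h1 ((condR_iff hF).1 h3) (fun k hk _ => h4 k hk) k hk1).mono ?_
    obtain ⟨e, rfl⟩ : ∃ e, d = e + 2 := ⟨d - 2, by omega⟩
    have h5 : (k + 2) ^ 2 ≤ ((e + 2) * (e + 2 + 1) + 2) ^ 2 := Nat.pow_le_pow_left (by omega) 2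
    have h6 : (e + 2 + 1) ^ 4 = ((e + 2) * (e + 2 + 1) + 2) ^ 2 + 1 +
        (2 * e ^ 3 + 13 * e ^ 2 + 28 * e + 16) := by ring
    omega
  · rintro ⟨h1, h2, h3⟩
    refine ⟨h1, ?_, h3⟩
    intro k hk
    rw [guarded_iff hF]
    refine (K_finite hd' h1 ((condR_iff hF).1 h3) ?_ k hk).gk
    intro k hk1 hk2
    have := h2 k hk1 (by rw [Nat.mul_add, Nat.mul_one]; exact hk2)
    rw [guardedIn_iff hF] at this
    exact this.gk

end Pool.Agent.Helper79.EOL
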