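import Pool.Agent.Helper79.EOL.Pos2

/-!
# Flexibility in the second regime
-/

namespace Pool.Agent.Helper79.EOL

open List Pool.Agent.Helper76.EOL

variable {Sp : Bool → List Bool → Prop}

/-- `S` derives `S^l` in all late numbers of steps of the parity of `e`. -/
def Qe (Sp : Bool → List Bool → Prop) (e l : ℕ) : Prop :=
  ∃ n₀, ∀ n, n₀ ≤ n → n % 2 = e % 2 → It Sp n true (replicate l true)

lemma Qe.congr {e e' l : ℕ} (h : Qe Sp e l) (he : e % 2 = e' % 2) : Qe Sp e' l := by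
  obtain ⟨n₀, h⟩ := h
  exact ⟨n₀, fun n hn hm => h n hn (by omega)⟩

lemma Qe.of (hu : ∀ x, Sp x [!x]) {n l : ℕ} (h : It Sp n true (replicate l true)) :
    Qe Sp n l := by
  refine ⟨n, ?_⟩
  intro m hm hmn
  obtain ⟨k, rfl⟩ : ∃ k, m = k + n := ⟨m - n, by omega⟩
  rw [it_add]
  refine ⟨[fl k true], it_fl hu k true, ?_⟩
  rw [fl_even (by omega), par_single]
  exact h

lemma Qe.comp {e e' : ℕ} {L : List ℕ} (h : Qe Sp e L.length) (h' : ∀ m ∈ L, Qe Sp e' m) :
    Qe Sp (e + e') L.sum := by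
  obtain ⟨n₁, hn₁⟩ : ∃ n₁, ∀ n, n₁ ≤ n → n % 2 = e' % 2 →
      Par (It Sp n) (replicate L.length true) (replicate L.sum true) := by
    clear h
    induction L with
    | nil => exact ⟨0, fun _ _ _ => Par.nil⟩
    | cons m L ih =>
      obtain ⟨a, ha⟩ := ih (fun x hx => h' x (by simp [hx]))
      obtain ⟨b, hb⟩ := h' m (by simp)
      refine ⟨a + b, ?_⟩
      intro n hn he
      rw [length_cons, replicate_succ, sum_cons, replicate_add]
      exact Par.cons (hb n (by omega) he) (ha n (by omega) he)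
  obtain ⟨n₀, hn₀⟩ := h
  refine ⟨n₀ + n₁ + 1, ?_⟩
  intro n hn he
  obtain ⟨k, hk⟩ : ∃ k, k = n₀ + (n₀ + e) % 2 := ⟨_, rfl⟩
  obtain ⟨m, rfl⟩ : ∃ m, n = k + m := ⟨n - k, by omega⟩
  rw [it_add]
  exact ⟨_, hn₀ k (by omega) (by omega), hn₁ m (by omega) (by omega)⟩

lemma par_rep_flip (hu : ∀ x, Sp x [!x]) (l : ℕ) (x : Bool) :
    Par Sp (replicate l x) (replicate l (!x)) := by
  have := par_replicate (hu x) l
  rw [show [!x] = replicate 1 (!x) from rfl, replicate_flatten, Nat.mul_one] at this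
  exact this

lemma hQ_of (hu : ∀ x, Sp x [!x]) (hK : ∀ k, 1 ≤ k → GK Sp k) {l : ℕ} (hl : 1 ≤ l) :
    Qe Sp 0 l ∨ Qe Sp 1 l := by
  obtain ⟨t, ht⟩ := hK l hl
  have h1 := par_single.1 ht.par
  have h2 : It Sp (t + 1 + 1) true (replicate l true) := by
    rw [it_add]
    refine ⟨_, h1, ?_⟩
    have := par_rep_flip hu l false
    exact this.mono (fun x w h => it_one.2 h)
  have h3 := Qe.of hu h2
  rcases Nat.mod_two_eq_zero_or_one t with h | h
  · exact Or.inl (h3.congr (by omega))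
  · exact Or.inr (h3.congr (by omega))

lemma q_one (hu : ∀ x, Sp x [!x]) : Qe Sp 0 1 := Qe.of hu (n := 0) rfl

lemma two_consecutive (hu : ∀ x, Sp x [!x]) (hK : ∀ k, 1 ≤ k → GK Sp k) :
    ∃ c, Qe Sp 0 (c + 1) ∧ Qe Sp 0 (c + 1 + 1) := by
  rcases hQ_of hu hK (l := 2) (by omega) with h2 | h2
  · exact ⟨0, q_one hu, h2⟩
  · rcases hQ_of hu hK (l := 3) (by omega) with h3 | h3
    · refine ⟨2, h3, ?_⟩
      have := Qe.comp (L := [2, 2]) (e' := 1) h2 (by
        intro m hm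
        simp only [mem_cons, not_mem_nil, or_false, or_self] at hm
        subst hm
        exact h2)
      exact Qe.congr this rfl
    · refine ⟨3, ?_, ?_⟩
      · have := Qe.comp (L := [2, 2]) (e' := 1) h2 (by
          intro m hm
          simp only [mem_cons, not_mem_nil, or_false, or_self] at hm
          subst hm
          exact h2)
        exact Qe.congr this rfl
      · have := Qe.comp (L := [2, 3]) (e' := 1) h2 (by
          intro m hm
          simp only [mem_cons, not_mem_nil, or_false] at hm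
          rcases hm with rfl | rfl
          · exact h2
          · exact h3)
        exact Qe.congr this rfl

lemma q_add (hu : ∀ x, Sp x [!x]) {e a b : ℕ} (ha : Qe Sp e (a + 1)) (hb : Qe Sp 0 (b + 1)) :
    Qe Sp e (a + b + 1) := by
  have := Qe.comp (e := e) (e' := 0) (L := (b + 1) :: replicate a 1) (by simpa using ha) (by
    intro m hm
    rw [mem_cons] at hm
    rcases hm with rfl | hm
    · exact hb
    · rw [eq_of_mem_replicate hm]
      exact q_one hu)
  rw [sum_cons, sum_replicate, smul_eq_mul, Nat.mul_one,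
    show b + 1 + a = a + b + 1 by ring] at this
  exact this

lemma q_large (hu : ∀ x, Sp x [!x]) (hK : ∀ k, 1 ≤ k → GK Sp k) :
    ∃ m₀, ∀ m, m₀ ≤ m → Qe Sp 0 (m + 1) := by
  obtain ⟨c, h1, h2⟩ := two_consecutive hu hK
  have h3 : ∀ x, Qe Sp 0 (c * x + 1) := by
    intro x
    induction x with
    | zero => exact q_one hu
    | succ x ih =>
      have := q_add hu ih h1
      rw [show c * x + c + 1 = c * (x + 1) + 1 by ring] at this
      exact this
  have h4 : ∀ x y, Qe Sp 0 (c * x + (c + 1) * y + 1) := by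
    intro x y
    induction y with
    | zero => exact h3 x
    | succ y ih =>
      have := q_add hu ih h2
      rw [show c * x + (c + 1) * y + (c + 1) + 1 = c * x + (c + 1) * (y + 1) + 1 by ring] at this
      exact this
  refine ⟨(c + 1) * (c + 1), ?_⟩
  intro n hn
  obtain ⟨q, hq⟩ : ∃ q, q = n / (c + 1) := ⟨_, rfl⟩
  obtain ⟨ρ, hρ⟩ : ∃ ρ, ρ = n % (c + 1) := ⟨_, rfl⟩
  have hdiv : n = (c + 1) * q + ρ := by rw [hq, hρ]; exact (Nat.div_add_mod n (c + 1)).symm
  have hρ1 : ρ < c + 1 := by rw [hρ]; exact Nat.mod_lt _ (by omega)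
  have hqc : c + 1 ≤ q := by
    rw [hq]
    exact (Nat.le_div_iff_mul_le (by omega)).2 hn
  obtain ⟨q', rfl⟩ : ∃ q', q = c + q' := ⟨q - c, by omega⟩
  obtain ⟨x, hx⟩ : ∃ x, c + 1 = ρ + x := ⟨c + 1 - ρ, by omega⟩
  have h5 := h4 x (q' + ρ)
  have h6 : c * x + (c + 1) * (q' + ρ) = n := by
    have : c * (ρ + x) = c * (c + 1) := by rw [hx]
    rw [hdiv]
    linarith
  rw [h6] at h5
  exact h5

/-- A rule with a change of parity. -/
lemma exists_flip {d : ℕ} (hd : ∀ x w, Sp x w → w.length ≤ d)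
    (hp : ∀ x w, Sp x w → w ≠ []) (hns : ¬ Sp true [true]) (hK : GK Sp (d + 1)) :
    (∃ j, 2 ≤ j ∧ Sp true (replicate j true)) ∨ ∃ g, 1 ≤ g ∧ Sp false (replicate g false) := by
  obtain ⟨t, ht⟩ := hK
  obtain ⟨z₂, h1, h2, h3⟩ := GCh.succ'.1 ht
  cases t with
  | zero =>
    exfalso
    have : [true] = z₂ := h1
    subst this
    rw [par_single] at h3
    have := hd _ _ h3
    simp at this
  | succ t =>
    obtain ⟨z₁, _, h5, h6⟩ := GCh.succ'.1 h1
    by_cases hf : false ∈ z₂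
    · obtain ⟨v, h7, h8⟩ := h3.sub hf
      right
      refine ⟨v.length, length_pos_iff.2 (hp _ _ h7), ?_⟩
      rw [← eq_replicate_of_mem (a := false) (fun y hy => eq_of_mem_replicate (h8 y hy))]
      exact h7
    · obtain ⟨v, h7, h8⟩ := h6.sub h5
      left
      have e : v = replicate v.length true := by
        apply eq_replicate_of_mem
        intro y hy
        cases y
        · exact absurd (h8 _ hy) hf
        · rfl
      refine ⟨v.length, ?_, by rw [← e]; exact h7⟩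
      by_contra hlt
      have : v.length = 0 ∨ v.length = 1 := by omega
      rcases this with h | h
      · exact hp _ _ h7 (length_eq_zero_iff.1 h)
      · rw [h] at e
        rw [e] at h7
        exact hns h7

lemma q_all (hu : ∀ x, Sp x [!x]) {d : ℕ} (hd : ∀ x w, Sp x w → w.length ≤ d)
    (hp : ∀ x w, Sp x w → w ≠ []) (hns : ¬ Sp true [true]) (hK : ∀ k, 1 ≤ k → GK Sp k) :
    ∃ l₁, 1 ≤ l₁ ∧ ∀ l, l₁ ≤ l → Qe Sp 0 l ∧ Qe Sp 1 l := by
  obtain ⟨m₀, hm₀⟩ := q_large hu hK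
  obtain ⟨j, hj⟩ : ∃ j, Qe Sp 1 (j + 1) := by
    rcases exists_flip hd hp hns (hK _ (by omega)) with ⟨j, h1, h2⟩ | ⟨g, h1, h2⟩
    · obtain ⟨j, rfl⟩ : ∃ j', j = j' + 1 := ⟨j - 1, by omega⟩
      exact ⟨j, Qe.of hu (it_one.2 h2)⟩
    · obtain ⟨g, rfl⟩ : ∃ g', g = g' + 1 := ⟨g - 1, by omega⟩
      refine ⟨g, Qe.congr (e := 3) (Qe.of hu ?_) rfl⟩
      refine ⟨[false], hu true, par_single.2 ⟨_, h2, ?_⟩⟩
      exact (par_rep_flip hu (g + 1) false).mono (fun x w h => it_one.2 h)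
  refine ⟨m₀ + j + 1, by omega, ?_⟩
  intro l hl
  constructor
  · obtain ⟨m, rfl⟩ : ∃ m, l = m + 1 := ⟨l - 1, by omega⟩
    exact hm₀ m (by omega)
  · obtain ⟨m, rfl⟩ : ∃ m, l = j + m + 1 := ⟨l - 1 - j, by omega⟩
    exact q_add hu hj (hm₀ m (by omega))

lemma flex_one (hu : ∀ x, Sp x [!x]) {l : ℕ} (h0 : Qe Sp 0 l) (h1 : Qe Sp 1 l) :
    ∃ n1, ∀ n, n1 ≤ n → ∀ x y, It Sp n x (replicate l y) := by
  obtain ⟨a, ha⟩ := h0
  obtain ⟨b, hb⟩ := h1
  have h : ∀ n, a + b ≤ n → It Sp n true (replicate l true) := by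
    intro n hn
    rcases Nat.mod_two_eq_zero_or_one n with h | h
    · exact ha n (by omega) h
    · exact hb n (by omega) h
  have h2 : ∀ n, a + b + 1 ≤ n → ∀ x, It Sp n x (replicate l true) := by
    intro n hn x
    cases x
    · obtain ⟨m, rfl⟩ : ∃ m, n = m + 1 := ⟨n - 1, by omega⟩
      exact ⟨[true], hu false, par_single.2 (h m (by omega))⟩
    · exact h n (by omega)
  refine ⟨a + b + 2, ?_⟩
  intro n hn x y
  cases y
  · obtain ⟨m, rfl⟩ : ∃ m, n = m + 1 := ⟨n - 1, by omega⟩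
    rw [← par_single (N := It Sp (m + 1)), Par.it_succ']
    exact ⟨replicate l true, par_single.2 (h2 m (by omega) x), par_rep_flip hu l true⟩
  · exact h2 n (by omega) x

lemma flex_unif (hu : ∀ x, Sp x [!x]) {d : ℕ} (hd : ∀ x w, Sp x w → w.length ≤ d)
    (hp : ∀ x w, Sp x w → w ≠ []) (hns : ¬ Sp true [true]) (hK : ∀ k, 1 ≤ k → GK Sp k) :
    ∃ l₁, 1 ≤ l₁ ∧ ∀ N, ∃ n1, ∀ n, n1 ≤ n → ∀ l, l₁ ≤ l → l ≤ N →
      ∀ x y, It Sp n x (replicate l y) := by
  obtain ⟨l₁, h1, h2⟩ := q_all hu hd hp hns hK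
  refine ⟨l₁, h1, ?_⟩
  intro N
  have h3 : ∀ l, ∃ n1, l₁ ≤ l → ∀ n, n1 ≤ n → ∀ x y, It Sp n x (replicate l y) := by
    intro l
    by_cases hl : l₁ ≤ l
    · obtain ⟨n1, h⟩ := flex_one hu (h2 l hl).1 (h2 l hl).2
      exact ⟨n1, fun _ => h⟩
    · exact ⟨0, fun h => absurd h hl⟩
  choose f hf using h3
  refine ⟨(Finset.range (N + 1)).sup f, ?_⟩
  intro n hn l hl hlN
  have : f l ≤ (Finset.range (N + 1)).sup f := Finset.le_sup (Finset.mem_range.2 (by omega))
  exact hf l hl n (by omega)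

lemma gch_pair (hu : ∀ x, Sp x [!x]) (n : ℕ) : ∀ {x : Bool} {A B C A' B' C' : List Bool},
    Par (It Sp n) A A' → Par (It Sp n) B B' → Par (It Sp n) C C' →
    GCh Sp n (A ++ ([x] ++ (B ++ ([!x] ++ C))))
      (A' ++ ([fl n x] ++ (B' ++ ([fl n (!x)] ++ C')))) := by
  induction n with
  | zero =>
    intro x A B C A' B' C' hA hB hC
    rw [par_it_zero] at hA hB hC
    subst hA; subst hB; subst hC
    rfl
  | succ n ih =>
    intro x A B C A' B' C' hA hB hC
    obtain ⟨A1, hA1, hA2⟩ := par_it_succ.1 hA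
    obtain ⟨B1, hB1, hB2⟩ := par_it_succ.1 hB
    obtain ⟨C1, hC1, hC2⟩ := par_it_succ.1 hC
    refine ⟨by cases x <;> simp, A1 ++ ([!x] ++ (B1 ++ ([!(!x)] ++ C1))), ?_, ih hA2 hB2 hC2⟩
    exact hA1.append ((par_single.2 (hu x)).append (hB1.append
      ((par_single.2 (hu (!x))).append hC1)))

lemma gch_pair' (hu : ∀ x, Sp x [!x]) {n : ℕ} {x : Bool} {A B C A' B' C' X Y : List Bool}
    (hA : Par (It Sp (n + 1)) A A') (hB : Par (It Sp (n + 1)) B B')
    (hC : Par (It Sp (n + 1)) C C') (hX : Sp (fl n x) X) (hY : Sp (fl n (!x)) Y) :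
    GCh Sp (n + 1) (A ++ ([x] ++ (B ++ ([!x] ++ C)))) (A' ++ (X ++ (B' ++ (Y ++ C')))) := by
  obtain ⟨A1, hA1, hA2⟩ := Par.it_succ'.1 hA
  obtain ⟨B1, hB1, hB2⟩ := Par.it_succ'.1 hB
  obtain ⟨C1, hC1, hC2⟩ := Par.it_succ'.1 hC
  rw [GCh.succ']
  refine ⟨_, gch_pair hu n hA1 hB1 hC1, ?_, ?_⟩
  · rw [fl_not]
    cases fl n x <;> simp
  · exact hA2.append ((par_single.2 hX).append (hB2.append ((par_single.2 hY).append hC2)))

lemma ctx_flex {l₁ N n : ℕ}
    (h : ∀ l, l₁ ≤ l → l ≤ N → ∀ x y, It Sp n x (replicate l y)) (y : Bool) :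
    ∀ (c : List Bool) (P : ℕ), (c = [] → P = 0) → c.length * l₁ ≤ P → P ≤ N →
      Par (It Sp n) c (replicate P y) := by
  intro c
  induction c with
  | nil =>
    intro P hP _ _
    rw [hP rfl]
    exact Par.nil
  | cons x c ih =>
    intro P _ h1 h2
    rw [length_cons, Nat.add_mul, Nat.one_mul] at h1
    by_cases hc : c = []
    · subst hc
      rw [par_single]
      exact h P (by omega) h2 x y
    · have := ih (P - l₁) (fun h => absurd h hc) (by omega) (by omega)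
      have h3 := Par.cons (h l₁ le_rfl (by omega) x y) this
      rw [← replicate_add, show l₁ + (P - l₁) = P by omega] at h3
      exact h3

/-- Words of late leaders. -/
lemma lead_word (hu : ∀ x, Sp x [!x]) {t n N l₁ : ℕ} {u v c : List Bool} {x y : Bool}
    {X Y : List Bool} (b : Bool) (hxy : y = !x)
    (hπ : GCh Sp t [true] ((u ++ ([x] ++ (v ++ ([y] ++ c)))).map (fl t)))
    (hf : ∀ l, l₁ ≤ l → l ≤ N → ∀ x y, It Sp (n + 1) x (replicate l y))
    (hX : Sp (fl (t + n) x) X) (hY : Sp (fl (t + n) y) Y) {P Q R : ℕ}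
    (hP : u = [] → P = 0) (hP1 : u.length * l₁ ≤ P) (hP2 : P ≤ N)
    (hQ : v = [] → Q = 0) (hQ1 : v.length * l₁ ≤ Q) (hQ2 : Q ≤ N)
    (hR : c = [] → R = 0) (hR1 : c.length * l₁ ≤ R) (hR2 : R ≤ N) :
    GCh Sp (t + (n + 1)) [true]
      (replicate P b ++ (X ++ (replicate Q b ++ (Y ++ replicate R b)))) := by
  subst hxy
  refine hπ.trans ?_
  have e : (u ++ ([x] ++ (v ++ ([!x] ++ c)))).map (fl t) =
      u.map (fl t) ++ ([fl t x] ++ (v.map (fl t) ++ ([!(fl t x)] ++ c.map (fl t)))) := by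
    simp [fl_not]
  rw [e]
  apply gch_pair' hu
  · exact ctx_flex hf b _ P (by simpa using hP) (by simpa using hP1) hP2
  · exact ctx_flex hf b _ Q (by simpa using hQ) (by simpa using hQ1) hQ2
  · exact ctx_flex hf b _ R (by simpa using hR) (by simpa using hR1) hR2
  · rw [← fl_add]; exact hX
  · rw [← fl_not, ← fl_add]; exact hY

lemma split_num (l₁ : ℕ) (u v : List Bool) (huv : 1 ≤ u.length + v.length) {m : ℕ}
    (hm : (u.length + v.length) * l₁ ≤ m) : ∃ Q R, Q + R = m ∧ (u = [] → Q = 0) ∧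
      u.length * l₁ ≤ Q ∧ (v = [] → R = 0) ∧ v.length * l₁ ≤ R := by
  rw [Nat.add_mul] at hm
  by_cases hv : v = []
  · subst hv
    refine ⟨m, 0, by omega, ?_, by omega, fun _ => rfl, by simp⟩
    rintro rfl
    simp at huv
  · refine ⟨u.length * l₁, m - u.length * l₁, by omega, ?_, le_rfl, fun h => absurd h hv,
      by omega⟩
    rintro rfl
    simp

end Pool.Agent.Helper79.EOL
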