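import Mathlib

/-!
# Parallel rewriting

`Par N u w`: the word `w` arises from the word `u` by rewriting every symbol `x` of `u` by some
word `v` with `N x v`.  `It N n x w`: the word `w` arises from the symbol `x` in `n` parallel steps.
-/

namespace Pool.Agent.Helper79.EOL

open List

variable {α β γ : Type*}

/-- Parallel rewriting of a word. -/
inductive Par (N : α → List β → Prop) : List α → List β → Prop
  | nil : Par N [] []
  | cons {x : α} {u : List β} {xs : List α} {v : List β} :
      N x u → Par N xs v → Par N (x :: xs) (u ++ v)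

variable {N : α → List β → Prop}

lemma par_nil {v : List β} : Par N [] v ↔ v = [] := by
  constructor
  · intro h; cases h; rfl
  · rintro rfl; exact Par.nil

lemma par_cons {x : α} {xs : List α} {w : List β} :
    Par N (x :: xs) w ↔ ∃ u v, N x u ∧ Par N xs v ∧ w = u ++ v := by
  constructor
  · intro h
    cases h with
    | cons h1 h2 => exact ⟨_, _, h1, h2, rfl⟩
  · rintro ⟨u, v, h1, h2, rfl⟩; exact Par.cons h1 h2

lemma par_single {x : α} {w : List β} : Par N [x] w ↔ N x w := by
  rw [par_cons]
  constructor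
  · rintro ⟨u, v, h1, h2, rfl⟩
    rw [par_nil] at h2; subst h2; simpa using h1
  · intro h; exact ⟨w, [], h, Par.nil, by simp⟩

lemma par_append {xs ys : List α} {w : List β} :
    Par N (xs ++ ys) w ↔ ∃ u v, Par N xs u ∧ Par N ys v ∧ w = u ++ v := by
  induction xs generalizing w with
  | nil =>
    constructor
    · intro h; exact ⟨[], w, Par.nil, h, rfl⟩
    · rintro ⟨u, v, h1, h2, rfl⟩
      rw [par_nil] at h1; subst h1; simpa using h2
  | cons x xs ih =>
    rw [cons_append, par_cons]
    constructor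
    · rintro ⟨u, v, h1, h2, rfl⟩
      obtain ⟨u', v', h3, h4, rfl⟩ := ih.1 h2
      exact ⟨u ++ u', v', Par.cons h1 h3, h4, by simp⟩
    · rintro ⟨u, v, h1, h2, rfl⟩
      obtain ⟨u', v', h3, h4, rfl⟩ := par_cons.1 h1
      exact ⟨u', v' ++ v, h3, ih.2 ⟨v', v, h4, h2, rfl⟩, by simp⟩

lemma Par.append {xs ys : List α} {u v : List β} (h1 : Par N xs u) (h2 : Par N ys v) :
    Par N (xs ++ ys) (u ++ v) := par_append.2 ⟨u, v, h1, h2, rfl⟩

lemma Par.mono {M : α → List β → Prop} (h : ∀ x w, N x w → M x w) {u : List α} {w : List β}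
    (hu : Par N u w) : Par M u w := by
  induction hu with
  | nil => exact Par.nil
  | cons h1 _ ih => exact Par.cons (h _ _ h1) ih

lemma Par.mono' {M : α → List β → Prop} {u : List α} {w : List β}
    (h : ∀ x ∈ u, ∀ w, N x w → M x w) (hu : Par N u w) : Par M u w := by
  induction hu with
  | nil => exact Par.nil
  | cons h1 _ ih =>
    exact Par.cons (h _ (by simp) _ h1) (ih (fun x hx => h x (by simp [hx])))

lemma Par.mem {u : List α} {w : List β} (h : Par N u w) {y : β} (hy : y ∈ w) :
    ∃ x ∈ u, ∃ v, N x v ∧ y ∈ v := by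
  induction h with
  | nil => simp at hy
  | @cons x u xs v h1 _ ih =>
    rw [mem_append] at hy
    rcases hy with hy | hy
    · exact ⟨x, by simp, u, h1, hy⟩
    · obtain ⟨x', hx', v', h2, h3⟩ := ih hy
      exact ⟨x', by simp [hx'], v', h2, h3⟩

lemma Par.sub {u : List α} {w : List β} (h : Par N u w) {x : α} (hx : x ∈ u) :
    ∃ v, N x v ∧ ∀ y ∈ v, y ∈ w := by
  induction h with
  | nil => simp at hx
  | @cons x' u xs v h1 _ ih =>
    rw [mem_cons] at hx
    rcases hx with rfl | hx
    · exact ⟨u, h1, fun y hy => by simp [hy]⟩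
    · obtain ⟨v', h2, h3⟩ := ih hx
      exact ⟨v', h2, fun y hy => by simp [h3 y hy]⟩

/-- If every symbol can be rewritten, so can every word. -/
lemma par_exists {u : List α} (h : ∀ x ∈ u, ∃ v, N x v) : ∃ w, Par N u w := by
  induction u with
  | nil => exact ⟨[], Par.nil⟩
  | cons x xs ih =>
    obtain ⟨v, hv⟩ := h x (by simp)
    obtain ⟨w, hw⟩ := ih (fun y hy => h y (by simp [hy]))
    exact ⟨v ++ w, Par.cons hv hw⟩

lemma Par.length_le {u : List α} {w : List β} (h : Par N u w) {k : ℕ}
    (hk : ∀ x v, N x v → v.length ≤ k) : w.length ≤ k * u.length := by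
  induction h with
  | nil => simp
  | @cons x u xs v h1 _ ih =>
    have := hk _ _ h1
    simp only [length_append, length_cons]
    rw [Nat.mul_succ]; omega

lemma Par.le_length {u : List α} {w : List β} (h : Par N u w)
    (hk : ∀ x v, N x v → v ≠ []) : u.length ≤ w.length := by
  induction h with
  | nil => simp
  | @cons x u xs v h1 _ ih =>
    have : 0 < u.length := length_pos_iff.2 (hk _ _ h1)
    simp only [length_append, length_cons]; omega

/-- Rewriting after a letter-to-letter map on the source. -/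
lemma par_map {f : γ → α} {u : List γ} {w : List β} :
    Par N (u.map f) w ↔ Par (fun x v => N (f x) v) u w := by
  induction u generalizing w with
  | nil => simp [par_nil]
  | cons x xs ih =>
    rw [map_cons, par_cons, par_cons]
    constructor
    · rintro ⟨u, v, h1, h2, rfl⟩; exact ⟨u, v, h1, ih.1 h2, rfl⟩
    · rintro ⟨u, v, h1, h2, rfl⟩; exact ⟨u, v, h1, ih.2 h2, rfl⟩

/-- Rewriting followed by a letter-to-letter map of the target. -/
lemma Par.map {f : β → γ} {u : List α} {w : List β} (h : Par N u w) :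
    Par (fun x v => ∃ v', N x v' ∧ v = v'.map f) u (w.map f) := by
  induction h with
  | nil => exact Par.nil
  | @cons x u xs v h1 _ ih =>
    rw [map_append]; exact Par.cons ⟨u, h1, rfl⟩ ih

lemma par_map_right {f : β → γ} {u : List α} {w : List γ} :
    Par (fun x v => ∃ v', N x v' ∧ v = v'.map f) u w ↔ ∃ w', Par N u w' ∧ w = w'.map f := by
  constructor
  · intro h
    induction h with
    | nil => exact ⟨[], Par.nil, rfl⟩
    | cons h1 _ ih =>
      obtain ⟨v', h3, rfl⟩ := h1
      obtain ⟨w', h4, rfl⟩ := ih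
      exact ⟨v' ++ w', Par.cons h3 h4, by simp⟩
  · rintro ⟨w', h, rfl⟩; exact h.map

/-- Composition of rewriting relations. -/
def Then (N : α → List β → Prop) (M : β → List γ → Prop) (x : α) (w : List γ) : Prop :=
  ∃ u, N x u ∧ Par M u w

lemma par_then {M : β → List γ → Prop} {u : List α} {w : List γ} :
    Par (Then N M) u w ↔ ∃ v, Par N u v ∧ Par M v w := by
  induction u generalizing w with
  | nil =>
    rw [par_nil]
    constructor
    · rintro rfl; exact ⟨[], Par.nil, Par.nil⟩
    · rintro ⟨v, h1, h2⟩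
      rw [par_nil] at h1; subst h1; exact par_nil.1 h2
  | cons x xs ih =>
    rw [par_cons]
    constructor
    · rintro ⟨u, v, ⟨u', h1, h2⟩, h3, rfl⟩
      obtain ⟨v', h4, h5⟩ := ih.1 h3
      exact ⟨u' ++ v', Par.cons h1 h4, h2.append h5⟩
    · rintro ⟨v, h1, h2⟩
      obtain ⟨u', v', h3, h4, rfl⟩ := par_cons.1 h1
      obtain ⟨a, b, h5, h6, rfl⟩ := par_append.1 h2
      exact ⟨a, b, ⟨u', h3, h5⟩, ih.2 ⟨v', h4, h6⟩, rfl⟩

/-- `n`-fold iteration. -/
def It (N : α → List α → Prop) : ℕ → α → List α → Prop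
  | 0, x, w => w = [x]
  | n + 1, x, w => Then N (It N n) x w

section It

variable {N : α → List α → Prop}

lemma it_zero {x : α} {w : List α} : It N 0 x w ↔ w = [x] := Iff.rfl

lemma it_succ {n : ℕ} {x : α} {w : List α} :
    It N (n + 1) x w ↔ ∃ u, N x u ∧ Par (It N n) u w := Iff.rfl

lemma par_it_zero {u w : List α} : Par (It N 0) u w ↔ u = w := by
  induction u generalizing w with
  | nil => rw [par_nil]; exact eq_comm
  | cons x xs ih =>
    rw [par_cons]
    constructor
    · rintro ⟨u, v, h1, h2, rfl⟩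
      rw [it_zero] at h1; subst h1
      rw [ih.1 h2]; rfl
    · rintro rfl
      exact ⟨[x], xs, rfl, ih.2 rfl, rfl⟩

lemma par_it_succ {n : ℕ} {u w : List α} :
    Par (It N (n + 1)) u w ↔ ∃ v, Par N u v ∧ Par (It N n) v w := par_then

lemma it_one {x : α} {w : List α} : It N 1 x w ↔ N x w := by
  rw [it_succ]
  constructor
  · rintro ⟨u, h1, h2⟩
    rw [par_it_zero] at h2; subst h2; exact h1
  · intro h; exact ⟨w, h, par_it_zero.2 rfl⟩

lemma par_it_add {m n : ℕ} {u w : List α} :
    Par (It N (m + n)) u w ↔ ∃ v, Par (It N m) u v ∧ Par (It N n) v w := by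
  induction m generalizing u with
  | zero =>
    rw [Nat.zero_add]
    constructor
    · intro h; exact ⟨u, par_it_zero.2 rfl, h⟩
    · rintro ⟨v, h1, h2⟩
      rw [par_it_zero] at h1; subst h1; exact h2
  | succ m ih =>
    rw [show m + 1 + n = (m + n) + 1 by omega, par_it_succ]
    constructor
    · rintro ⟨v, h1, h2⟩
      obtain ⟨v', h3, h4⟩ := ih.1 h2
      exact ⟨v', par_it_succ.2 ⟨v, h1, h3⟩, h4⟩
    · rintro ⟨v, h1, h2⟩
      obtain ⟨v', h3, h4⟩ := par_it_succ.1 h1
      exact ⟨v', h3, ih.2 ⟨v, h4, h2⟩⟩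

lemma it_add {m n : ℕ} {x : α} {w : List α} :
    It N (m + n) x w ↔ ∃ v, It N m x v ∧ Par (It N n) v w := by
  rw [← par_single (N := It N (m + n)), par_it_add]
  simp only [par_single]

lemma Par.it_succ' {n : ℕ} {u w : List α} :
    Par (It N (n + 1)) u w ↔ ∃ v, Par (It N n) u v ∧ Par N v w := by
  rw [par_it_add]
  have : Par (It N 1) = Par N := by
    funext a b
    apply propext
    constructor
    · intro h; exact h.mono (fun x w h => it_one.1 h)
    · intro h; exact h.mono (fun x w h => it_one.2 h)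
  rw [this]

lemma It.mono {M : α → List α → Prop} (h : ∀ x w, N x w → M x w) {n : ℕ} {x : α} {w : List α}
    (hx : It N n x w) : It M n x w := by
  induction n generalizing x w with
  | zero => exact hx
  | succ n ih =>
    obtain ⟨u, h1, h2⟩ := hx
    exact ⟨u, h _ _ h1, h2.mono (fun _ _ h => ih h)⟩

lemma It.ne_nil (hN : ∀ x w, N x w → w ≠ []) {n : ℕ} {x : α} {w : List α} (h : It N n x w) :
    w ≠ [] := by
  induction n generalizing x w with
  | zero => rw [it_zero] at h; simp [h]
  | succ n ih =>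
    obtain ⟨u, h1, h2⟩ := h
    have h3 := h2.le_length (fun x v h => ih h)
    have h4 : 0 < u.length := length_pos_iff.2 (hN _ _ h1)
    exact length_pos_iff.1 (by omega)

lemma It.length_le {k : ℕ} (hk : ∀ x v, N x v → v.length ≤ k) {n : ℕ} {x : α} {w : List α}
    (h : It N n x w) : w.length ≤ k ^ n := by
  induction n generalizing x w with
  | zero => rw [it_zero] at h; simp [h]
  | succ n ih =>
    obtain ⟨u, h1, h2⟩ := h
    calc w.length ≤ k ^ n * u.length := h2.length_le (fun x v h => ih h)
      _ ≤ k ^ n * k := Nat.mul_le_mul_left _ (hk _ _ h1)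
      _ = k ^ (n + 1) := by rw [pow_succ]

/-- Membership of the symbols of an iterate. -/
lemma It.mem_of_closed {S : Set α} (hS : ∀ x ∈ S, ∀ w, N x w → ∀ y ∈ w, y ∈ S) {n : ℕ} {x : α}
    {w : List α} (h : It N n x w) (hx : x ∈ S) : ∀ y ∈ w, y ∈ S := by
  induction n generalizing x w with
  | zero => rw [it_zero] at h; subst h; simpa using hx
  | succ n ih =>
    obtain ⟨u, h1, h2⟩ := h
    intro y hy
    obtain ⟨z, hz, v, h3, h4⟩ := h2.mem hy
    exact ih h3 (hS x hx u h1 z hz) y h4

end It

end Pool.Agent.Helper79.EOL
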