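import Pool.Agent.Helper76.EOLForm
import Pool.Agent.Helper79.EOL.Par

/-!
# `{S, a}`-forms: shapes, typed abstract grammars and their transport to interpretations
-/

namespace Pool.Agent.Helper79.EOL

open List Pool.Agent.Helper76.EOL

/-- The letters of an `{S, a}`-form: `true` is `S`, `false` is `a`. -/
def sl (F : Grammar) (a : ℕ) (b : Bool) : ℕ := if b then F.S else a

@[simp] lemma sl_true (F : Grammar) (a : ℕ) : sl F a true = F.S := rfl
@[simp] lemma sl_false (F : Grammar) (a : ℕ) : sl F a false = a := rfl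

lemma sl_inj {F : Grammar} {a : ℕ} (hF : IsSaForm F a) : Function.Injective (sl F a) := by
  intro x y h
  cases x <;> cases y <;> simp_all [sa_ne hF, (sa_ne hF).symm]

/-- The productions of an `{S, a}`-form as a relation between letters and words over `Bool`. -/
def Sh (F : Grammar) (a : ℕ) (b : Bool) (w : List Bool) : Prop :=
  (sl F a b, w.map (sl F a)) ∈ F.P

/-- The productions of a grammar as a relation. -/
def pr (G : Grammar) (X : ℕ) (α : List ℕ) : Prop := (X, α) ∈ G.P

lemma step_iff {G : Grammar} {u v : List ℕ} : Step G u v ↔ Par (pr G) u v := by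
  constructor
  · intro h
    induction h with
    | nil => exact Par.nil
    | cons h1 _ ih => exact Par.cons h1 ih
  · intro h
    induction h with
    | nil => exact Step.nil
    | cons h1 _ ih => exact Step.cons h1 ih

lemma der_iff {G : Grammar} {n : ℕ} {u v : List ℕ} : Der G n u v ↔ Par (It (pr G) n) u v := by
  induction n generalizing u with
  | zero => rw [der_zero, par_it_zero]
  | succ n ih =>
    rw [der_succ, par_it_succ]
    simp only [step_iff, ih]

lemma mem_lang_iff {G : Grammar} {w : List ℕ} :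
    w ∈ lang G ↔ (∀ x ∈ w, x ∈ G.T) ∧ ∃ n, It (pr G) n G.S w := by
  rw [mem_lang]
  simp only [der_iff, par_single]

/-- The type of a symbol of an interpretation: `true` for nonterminals, `false` for terminals. -/
def tyB (G' : Grammar) (x : ℕ) : Bool := decide (x ∉ G'.T)

lemma tyB_false {G' : Grammar} {x : ℕ} : tyB G' x = false ↔ x ∈ G'.T := by
  simp [tyB]

lemma tyB_true {G' : Grammar} {x : ℕ} : tyB G' x = true ↔ x ∉ G'.T := by
  simp [tyB]

lemma sl_tyB {G' F : Grammar} {a x : ℕ} : sl F a (tyB G' x) = typ G' F a x := by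
  by_cases h : x ∈ G'.T
  · simp [tyB, typ, h]
  · simp [tyB, typ, h]

lemma typedB {G' F : Grammar} {a : ℕ} (hF : IsSaForm F a) (h : Interprets G' F) {X : ℕ}
    {α : List ℕ} (hX : pr G' X α) : Sh F a (tyB G' X) (α.map (tyB G')) := by
  have h1 := typed hF h hX
  unfold Sh
  rw [map_map]
  have e : (sl F a ∘ tyB G') = typ G' F a := by
    funext x; exact sl_tyB
  rw [e, sl_tyB]
  exact h1

lemma it_map_of_injOn {σ : Type*} {N : σ → List σ → Prop} {V : Set σ}
    (hcl : ∀ s ∈ V, ∀ w, N s w → ∀ t ∈ w, t ∈ V) {M : ℕ → List ℕ → Prop} {e : σ → ℕ}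
    (hM : ∀ s ∈ V, ∀ v, M (e s) v ↔ ∃ w, N s w ∧ v = w.map e) {n : ℕ} :
    ∀ s ∈ V, ∀ v, It M n (e s) v ↔ ∃ w, It N n s w ∧ v = w.map e := by
  induction n with
  | zero =>
    intro s _ v
    constructor
    · intro h
      rw [it_zero] at h
      exact ⟨[s], rfl, by simpa using h⟩
    · rintro ⟨w, h1, rfl⟩
      rw [it_zero] at h1; subst h1
      simp [it_zero]
  | succ n ih =>
    intro s hs v
    have key : ∀ w : List σ, (∀ t ∈ w, t ∈ V) → ∀ v, Par (It M n) (w.map e) v ↔
        ∃ w', Par (It N n) w w' ∧ v = w'.map e := by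
      intro w hw v
      rw [par_map, ← par_map_right]
      constructor
      · intro h
        exact h.mono' (fun x hx u hu => (ih x (hw x hx) u).1 hu)
      · intro h
        exact h.mono' (fun x hx u hu => (ih x (hw x hx) u).2 hu)
    constructor
    · rintro ⟨u, h1, h2⟩
      obtain ⟨w, h3, rfl⟩ := (hM s hs u).1 h1
      obtain ⟨w', h4, rfl⟩ := (key w (hcl s hs w h3) v).1 h2
      exact ⟨w', ⟨w, h3, h4⟩, rfl⟩
    · rintro ⟨w', ⟨w, h3, h4⟩, rfl⟩
      exact ⟨w.map e, (hM s hs _).2 ⟨w, h3, rfl⟩, (key w (hcl s hs w h3) _).2 ⟨w', h4, rfl⟩⟩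

/-- Transport of a typed abstract grammar to an interpretation of the form. -/
theorem exists_interp {F : Grammar} {a : ℕ} (hF : IsSaForm F a) {σ : Type*} (ty : σ → Bool)
    (N : σ → List σ → Prop) (V : Set σ) (hV : V.Finite) (hN : ∀ s ∈ V, {w | N s w}.Finite)
    (hcl : ∀ s ∈ V, ∀ w, N s w → ∀ t ∈ w, t ∈ V) (htot : ∀ s ∈ V, ∃ w, N s w)
    (s₀ : σ) (h₀ : s₀ ∈ V) (hty : ty s₀ = true)
    (hsh : ∀ s ∈ V, ∀ w, N s w → Sh F a (ty s) (w.map ty)) (e : σ → ℕ)
    (he : ∀ s ∈ V, ∀ t ∈ V, e s = e t → s = t) :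
    ∃ G', Interprets G' F ∧
      lang G' = {w | ∃ n u, It N n s₀ u ∧ (∀ x ∈ u, ty x = false) ∧ w = u.map e} := by
  classical
  set PS : Set (ℕ × List ℕ) := {p | ∃ s ∈ V, ∃ w, N s w ∧ p = (e s, w.map e)} with hPS
  have hPfin : PS.Finite := by
    have : PS = ⋃ s ∈ V, (fun w : List σ => (e s, w.map e)) '' {w | N s w} := by
      ext p
      simp only [hPS, Set.mem_ofPred_eq, Set.mem_iUnion, Set.mem_image, exists_prop]
      constructor
      · rintro ⟨s, hs, w, hw, rfl⟩; exact ⟨s, hs, w, hw, rfl⟩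
      · rintro ⟨s, hs, w, hw, rfl⟩; exact ⟨s, hs, w, hw, rfl⟩
    rw [this]
    exact hV.biUnion (fun s hs => (hN s hs).image _)
  have mV : ∀ x, x ∈ hV.toFinset.image e ↔ ∃ s ∈ V, e s = x := by
    intro x; simp
  have mT : ∀ x, x ∈ (hV.toFinset.filter (fun s => ty s = false)).image e ↔
      ∃ s ∈ V, ty s = false ∧ e s = x := by
    intro x; simp [and_assoc]
  have mP : ∀ p, p ∈ hPfin.toFinset ↔ ∃ s ∈ V, ∃ w, N s w ∧ p = (e s, w.map e) := by
    intro p; rw [Set.Finite.mem_toFinset, hPS]; rfl
  let G' : Grammar :=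
    { V := hV.toFinset.image e
      T := (hV.toFinset.filter (fun s => ty s = false)).image e
      P := hPfin.toFinset
      S := e s₀
      T_sub := Finset.image_subset_image (Finset.filter_subset _ _)
      S_mem := (mV _).2 ⟨s₀, h₀, rfl⟩
      S_notMem := by
        rw [mT]
        rintro ⟨s, hs, h1, h2⟩
        have := he s hs s₀ h₀ h2
        subst this
        rw [hty] at h1
        exact absurd h1 (by simp)
      prod_wf := by
        intro p hp
        obtain ⟨s, hs, w, hw, rfl⟩ := (mP p).1 hp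
        refine ⟨(mV _).2 ⟨s, hs, rfl⟩, ?_⟩
        intro x hx
        simp only [mem_map] at hx
        obtain ⟨t, ht, rfl⟩ := hx
        exact (mV _).2 ⟨t, hcl s hs w hw t ht, rfl⟩
      total := by
        intro X hX
        obtain ⟨s, hs, rfl⟩ := (mV _).1 hX
        obtain ⟨w, hw⟩ := htot s hs
        exact ⟨w.map e, (mP _).2 ⟨s, hs, w, hw, rfl⟩⟩ }
  have hGV : ∀ x, x ∈ G'.V ↔ ∃ s ∈ V, e s = x := mV
  have hGT : ∀ x, x ∈ G'.T ↔ ∃ s ∈ V, ty s = false ∧ e s = x := mT
  have hGP : ∀ p, p ∈ G'.P ↔ ∃ s ∈ V, ∃ w, N s w ∧ p = (e s, w.map e) := mP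
  have hM : ∀ s ∈ V, ∀ v, pr G' (e s) v ↔ ∃ w, N s w ∧ v = w.map e := by
    intro s hs v
    unfold pr
    rw [hGP]
    constructor
    · rintro ⟨t, ht, w, hw, h⟩
      simp only [Prod.mk.injEq] at h
      have := he s hs t ht h.1
      subst this
      exact ⟨w, hw, h.2⟩
    · rintro ⟨w, hw, rfl⟩
      exact ⟨s, hs, w, hw, rfl⟩
  refine ⟨G', ?_, ?_⟩
  · refine ⟨fun y => if y = F.S then (hV.toFinset.filter (fun s => ty s = true)).image e else
      if y = a then (hV.toFinset.filter (fun s => ty s = false)).image e else ∅, ?_, ?_, ?_, ?_, ?_⟩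
    · intro b hb
      rw [hF.2, Finset.mem_singleton] at hb
      subst hb
      simp only [(sa_ne hF).symm, if_false, if_true]
      exact subset_rfl
    · intro A hA
      rw [hF.1, hF.2] at hA
      simp only [Finset.mem_sdiff, Finset.mem_insert, Finset.mem_singleton] at hA
      obtain ⟨h1 | h1, h2⟩ := hA
      · subst h1
        simp only [if_true]
        intro x hx
        rw [Finset.mem_sdiff, hGV, hGT]
        simp only [Finset.mem_image, Finset.mem_filter, Set.Finite.mem_toFinset] at hx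
        obtain ⟨s, ⟨hs, hs2⟩, rfl⟩ := hx
        refine ⟨⟨s, hs, rfl⟩, ?_⟩
        rintro ⟨t, ht, ht2, h⟩
        have := he t ht s hs h
        subst this
        rw [hs2] at ht2; exact absurd ht2 (by simp)
      · exact absurd h1 h2
    · intro X hX Y hY hXY
      rw [hF.1] at hX hY
      simp only [Finset.mem_insert, Finset.mem_singleton] at hX hY
      have hdisj : Disjoint ((hV.toFinset.filter (fun s => ty s = true)).image e)
          ((hV.toFinset.filter (fun s => ty s = false)).image e) := by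
        rw [Finset.disjoint_left]
        intro x hx hy
        simp only [Finset.mem_image, Finset.mem_filter, Set.Finite.mem_toFinset] at hx hy
        obtain ⟨s, ⟨hs, hs2⟩, rfl⟩ := hx
        obtain ⟨t, ⟨ht, ht2⟩, h⟩ := hy
        have := he t ht s hs h
        subst this
        rw [hs2] at ht2; exact absurd ht2 (by simp)
      rcases hX with rfl | rfl <;> rcases hY with rfl | rfl
      · exact absurd rfl hXY
      · simpa [(sa_ne hF).symm] using hdisj
      · simpa [(sa_ne hF).symm] using hdisj.symm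
      · exact absurd rfl hXY
    · intro p hp
      obtain ⟨s, hs, w, hw, rfl⟩ := (hGP p).1 hp
      have hsmem : ∀ t ∈ V, e t ∈ (if sl F a (ty t) = F.S then
          (hV.toFinset.filter (fun s => ty s = true)).image e else
          if sl F a (ty t) = a then (hV.toFinset.filter (fun s => ty s = false)).image e else ∅) := by
        intro t ht
        cases h : ty t
        · simp only [sl_false, (sa_ne hF).symm, if_false, if_true, Finset.mem_image,
            Finset.mem_filter, Set.Finite.mem_toFinset]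
          exact ⟨t, ⟨ht, h⟩, rfl⟩
        · simp only [sl_true, if_true, Finset.mem_image,
            Finset.mem_filter, Set.Finite.mem_toFinset]
          exact ⟨t, ⟨ht, h⟩, rfl⟩
      refine ⟨(sl F a (ty s), (w.map ty).map (sl F a)), hsh s hs w hw, hsmem s hs, ?_⟩
      rw [map_map]
      have hwV := hcl s hs w hw
      clear hw hp
      simp only
      induction w with
      | nil => exact Forall₂.nil
      | cons t w ih =>
        rw [map_cons, map_cons]
        exact Forall₂.cons (hsmem t (hwV t (by simp))) (ih (fun x hx => hwV x (by simp [hx])))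
    · simp only [if_true, Finset.mem_image, Finset.mem_filter, Set.Finite.mem_toFinset]
      exact ⟨s₀, ⟨h₀, hty⟩, rfl⟩
  · ext w
    rw [mem_lang_iff]
    simp only [Set.mem_ofPred_eq]
    constructor
    · rintro ⟨h1, n, h2⟩
      obtain ⟨u, h3, rfl⟩ := (it_map_of_injOn hcl hM s₀ h₀ w).1 h2
      refine ⟨n, u, h3, ?_, rfl⟩
      intro x hx
      obtain ⟨t, ht, ht2, h⟩ := (hGT _).1 (h1 (e x) (mem_map_of_mem hx))
      have hxV : x ∈ V := It.mem_of_closed hcl h3 h₀ x hx
      have := he t ht x hxV h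
      subst this
      exact ht2
    · rintro ⟨n, u, h3, h4, rfl⟩
      refine ⟨?_, n, (it_map_of_injOn hcl hM s₀ h₀ _).2 ⟨u, h3, rfl⟩⟩
      intro x hx
      simp only [mem_map] at hx
      obtain ⟨t, ht, rfl⟩ := hx
      exact (hGT _).2 ⟨t, It.mem_of_closed hcl h3 h₀ t ht, h4 t ht, rfl⟩

end Pool.Agent.Helper79.EOL
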