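import Pool.Agent.Helper79.EOL.Tables

/-!
# Growth of heavy symbols
-/

namespace Pool.Agent.Helper79.EOL

open List Pool.Agent.Helper76.EOL

open Classical in
/-- The number of heavy symbols. -/
noncomputable def hcount (Hv : ℕ → Prop) (w : List ℕ) : ℕ := w.countP (fun x => decide (Hv x))

variable {Hv : ℕ → Prop}

@[simp] lemma hcount_nil : hcount Hv [] = 0 := rfl

lemma hcount_append (u v : List ℕ) : hcount Hv (u ++ v) = hcount Hv u + hcount Hv v := by
  simp [hcount]

lemma hcount_single {x : ℕ} (h : Hv x) : hcount Hv [x] = 1 := by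
  simp [hcount, h]

lemma hcount_single' {x : ℕ} (h : ¬ Hv x) : hcount Hv [x] = 0 := by
  simp [hcount, h]

lemma hcount_pos {w : List ℕ} : 1 ≤ hcount Hv w ↔ ∃ x ∈ w, Hv x := by
  unfold hcount
  rw [Nat.one_le_iff_ne_zero, ← Nat.pos_iff_ne_zero, countP_pos_iff]
  simp

lemma hcount_le_length (w : List ℕ) : hcount Hv w ≤ w.length := countP_le_length

lemma exists_heavy {w : List ℕ} (h : 1 ≤ hcount Hv w) :
    ∃ u x v, w = u ++ ([x] ++ v) ∧ Hv x ∧ hcount Hv w = hcount Hv u + (1 + hcount Hv v) := by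
  obtain ⟨x, hx, h2⟩ := hcount_pos.1 h
  obtain ⟨u, v, rfl⟩ := append_of_mem hx
  refine ⟨u, x, v, rfl, h2, ?_⟩
  rw [hcount_append, ← singleton_append, hcount_append, hcount_single h2]

lemma exists_two_heavy {w : List ℕ} (h : 2 ≤ hcount Hv w) :
    ∃ u x v y t, w = u ++ ([x] ++ (v ++ ([y] ++ t))) ∧ Hv x ∧ Hv y := by
  obtain ⟨u, x, v, rfl, hx, h1⟩ := exists_heavy (show 1 ≤ hcount Hv w by omega)
  by_cases hv : 1 ≤ hcount Hv v
  · obtain ⟨v1, y, v2, rfl, hy, _⟩ := exists_heavy hv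
    exact ⟨u, x, v1, y, v2, rfl, hx, hy⟩
  · obtain ⟨u1, y, u2, rfl, hy, _⟩ := exists_heavy (show 1 ≤ hcount Hv u by omega)
    exact ⟨u1, y, u2, x, v, by simp, hy, hx⟩

variable {G : Grammar}

lemma hcount_step (h2 : ∀ X α, Hv X → pr G X α → ∃ y ∈ α, Hv y) {z y : List ℕ}
    (h : Par (pr G) z y) : hcount Hv z ≤ hcount Hv y := by
  induction h with
  | nil => simp
  | @cons x u xs v h1 _ ih =>
    rw [← singleton_append, hcount_append, hcount_append]
    have : hcount Hv [x] ≤ hcount Hv u := by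
      by_cases hx : Hv x
      · rw [hcount_single hx]
        exact hcount_pos.2 (h2 x u hx h1)
      · rw [hcount_single' hx]; omega
    omega

lemma hcount_par (h2 : ∀ X α, Hv X → pr G X α → ∃ y ∈ α, Hv y) {k : ℕ} {z y : List ℕ}
    (h : Par (It (pr G) k) z y) : hcount Hv z ≤ hcount Hv y := by
  induction k generalizing z with
  | zero => rw [par_it_zero] at h; rw [h]
  | succ k ih =>
    obtain ⟨z', h3, h4⟩ := par_it_succ.1 h
    exact (hcount_step h2 h3).trans (ih h4)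

lemma hcount_it (h2 : ∀ X α, Hv X → pr G X α → ∃ y ∈ α, Hv y) {k X : ℕ} {y : List ℕ}
    (hX : Hv X) (h : It (pr G) k X y) : 1 ≤ hcount Hv y := by
  have := hcount_par h2 (par_single.2 h)
  rwa [hcount_single hX] at this

/-- A heavy symbol with at most one heavy descendant evolves along a chain of terminals. -/
lemma exists_chain (h2 : ∀ X α, Hv X → pr G X α → ∃ y ∈ α, Hv y)
    (hD : ∀ X α, Hv X → pr G X α → hcount Hv α ≤ 1 → ∃ Z, α = [Z] ∧ Z ∈ G.T) {k : ℕ} :
    ∀ {Y : ℕ} {y : List ℕ}, Hv Y → It (pr G) k Y y → hcount Hv y ≤ 1 →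
      ∃ c : ℕ → ℕ, c 0 = Y ∧ (∀ i < k, pr G (c i) [c (i + 1)] ∧ c (i + 1) ∈ G.T) ∧ y = [c k] := by
  induction k with
  | zero =>
    intro Y y _ h _
    rw [it_zero] at h
    exact ⟨fun _ => Y, rfl, by simp, h⟩
  | succ k ih =>
    intro Y y hY h hy
    obtain ⟨α, h3, h4⟩ := it_succ.1 h
    have h5 := hcount_par h2 h4
    obtain ⟨Z, rfl, hZ⟩ := hD Y α hY h3 (by omega)
    obtain ⟨x, hx, hx2⟩ := h2 Y _ hY h3
    rw [mem_singleton] at hx
    subst hx
    rw [par_single] at h4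
    obtain ⟨c, hc1, hc2, hc3⟩ := ih hx2 h4 hy
    refine ⟨fun i => if i = 0 then Y else c (i - 1), by simp, ?_, ?_⟩
    · intro i hi
      cases i with
      | zero =>
        simp only [if_true, Nat.zero_add, one_ne_zero, if_false, Nat.sub_self, hc1]
        exact ⟨h3, hZ⟩
      | succ i =>
        simp only [Nat.succ_ne_zero, if_false, Nat.add_sub_cancel]
        exact hc2 i (by omega)
    · simp only [Nat.succ_ne_zero, if_false, Nat.add_sub_cancel]
      exact hc3

variable {L : Set (List ℕ)} {Sig : Finset ℕ} {n₀ P : ℕ}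

/-- Doubling of the heavy symbols. -/
lemma Test.doubling (h : Test G L Sig n₀ P) (h2 : ∀ X α, Hv X → pr G X α → ∃ y ∈ α, Hv y)
    (hD : ∀ X α, Hv X → pr G X α → hcount Hv α ≤ 1 → ∃ Z, α = [Z] ∧ Z ∈ G.T) (m : ℕ) :
    ∀ {u v w₁ w w₂ : List ℕ} {Y τ : ℕ}, Rc G (u ++ ([Y] ++ v)) → Par (It (pr G) τ) u w₁ →
      It (pr G) τ Y w → Par (It (pr G) τ) v w₂ → (∀ x ∈ w₁, x ∈ Sig) → (∀ x ∈ w, x ∈ Sig) →
      (∀ x ∈ w₂, x ∈ Sig) → Hv Y → m * (n₀ + P * (Sig.card + 2)) ≤ τ → 2 ^ m ≤ hcount Hv w := by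
  induction m with
  | zero =>
    intro u v w₁ w w₂ Y τ _ _ hw _ _ _ _ hY _
    rw [pow_zero]
    exact hcount_it h2 hY hw
  | succ m ih =>
    intro u v w₁ w w₂ Y τ hR hu hw hv hs1 hs hs2 hY hτ
    set W := n₀ + P * (Sig.card + 2) with hW
    obtain ⟨τ₁, rfl⟩ : ∃ τ₁, τ = W + τ₁ := ⟨τ - W, by rw [Nat.succ_mul] at hτ; omega⟩
    obtain ⟨y, hy1, hy2⟩ := it_add.1 hw
    by_cases hle : hcount Hv y ≤ 1
    · exfalso
      obtain ⟨c, hc1, hc2, _⟩ := exists_chain h2 hD hY hy1 hle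
      subst hc1
      exact h.no_chain hR hu hv hs1 hs2 (by omega) hc2
    · obtain ⟨a, Y1, b, Y2, e, rfl, hY1, hY2⟩ := exists_two_heavy (show 2 ≤ hcount Hv y by omega)
      obtain ⟨u', hu1, hu2⟩ := par_it_add.1 hu
      obtain ⟨v', hv1, hv2⟩ := par_it_add.1 hv
      obtain ⟨wa, w', ha, hb, rfl⟩ := par_append.1 hy2
      obtain ⟨wY1, w'', hY1', hc, rfl⟩ := par_append.1 hb
      obtain ⟨wb, w''', hb', hd, rfl⟩ := par_append.1 hc
      obtain ⟨wY2, we, hY2', he, rfl⟩ := par_append.1 hd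
      rw [par_single] at hY1' hY2'
      have hτ1 : m * W ≤ τ₁ := by rw [Nat.succ_mul] at hτ; omega
      have hR' : Rc G (u' ++ ((a ++ ([Y1] ++ (b ++ ([Y2] ++ e)))) ++ v')) :=
        hR.trans (hu1.append ((par_single.2 hy1).append hv1))
      have e1 := ih (u := u' ++ a) (v := (b ++ ([Y2] ++ e)) ++ v') (Y := Y1)
        (by simpa [append_assoc] using hR') (hu2.append ha) hY1'
        ((hb'.append ((par_single.2 hY2').append he)).append hv2)
        (by
          intro x hx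
          rw [mem_append] at hx
          rcases hx with hx | hx
          · exact hs1 x hx
          · exact hs x (by simp [hx]))
        (fun x hx => hs x (by simp [hx]))
        (by
          intro x hx
          rw [mem_append] at hx
          rcases hx with hx | hx
          · apply hs x
            simp only [mem_append] at hx ⊢
            tauto
          · exact hs2 x hx) hY1 hτ1
      have e2 := ih (u := u' ++ (a ++ ([Y1] ++ b))) (v := e ++ v') (Y := Y2)
        (by simpa [append_assoc] using hR')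
        (hu2.append (ha.append ((par_single.2 hY1').append hb'))) hY2' (he.append hv2)
        (by
          intro x hx
          rw [mem_append] at hx
          rcases hx with hx | hx
          · exact hs1 x hx
          · apply hs x
            simp only [mem_append] at hx ⊢
            tauto)
        (fun x hx => hs x (by simp [hx]))
        (by
          intro x hx
          rw [mem_append] at hx
          rcases hx with hx | hx
          · exact hs x (by simp [hx])
          · exact hs2 x hx) hY2 hτ1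
      rw [hcount_append, hcount_append, hcount_append, hcount_append, pow_succ]
      omega

lemma sq_le_pow (m : ℕ) : (m + 1) ^ 2 ≤ 4 * 2 ^ m := by
  induction m with
  | zero => norm_num
  | succ m ih =>
    rcases m with _ | _ | m
    · norm_num
    · norm_num
    · have e : 2 ^ (m + 1 + 1 + 1) = 2 * 2 ^ (m + 1 + 1) := by rw [pow_succ]; ring
      have e2 : (m + 1 + 1 + 1 + 1) ^ 2 ≤ 2 * (m + 1 + 1 + 1) ^ 2 := by nlinarith [Nat.zero_le m]
      omega

lemma mul_le_pow (W m : ℕ) : W * (m + 1) ≤ 2 ^ m + W ^ 2 := by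
  have h1 := sq_le_pow m
  have h2 : 4 * (W * (m + 1)) ≤ (m + 1) ^ 2 + 4 * W ^ 2 := by
    have h3 : (0 : ℤ) ≤ ((m : ℤ) + 1 - 2 * W) ^ 2 := sq_nonneg _
    zify
    nlinarith
  omega

/-- The heavy symbols of a derivation have long outcomes. -/
lemma Test.rate (h : Test G L Sig n₀ P) (h2 : ∀ X α, Hv X → pr G X α → ∃ y ∈ α, Hv y)
    (hD : ∀ X α, Hv X → pr G X α → hcount Hv α ≤ 1 → ∃ Z, α = [Z] ∧ Z ∈ G.T)
    {u v w₁ w w₂ : List ℕ} {Y τ : ℕ} (hR : Rc G (u ++ ([Y] ++ v)))
    (hu : Par (It (pr G) τ) u w₁) (hw : It (pr G) τ Y w) (hv : Par (It (pr G) τ) v w₂)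
    (hs1 : ∀ x ∈ w₁, x ∈ Sig) (hs : ∀ x ∈ w, x ∈ Sig) (hs2 : ∀ x ∈ w₂, x ∈ Sig) (hY : Hv Y) :
    τ ≤ w.length + (n₀ + P * (Sig.card + 2)) ^ 2 := by
  set W := n₀ + P * (Sig.card + 2) with hW
  have hWpos : 0 < W := by
    have : 0 < P * (Sig.card + 2) := Nat.mul_pos h.hP (by omega)
    omega
  have h3 := h.doubling h2 hD (τ / W) hR hu hw hv hs1 hs hs2 hY (Nat.div_mul_le_self τ W)
  have h4 := mul_le_pow W (τ / W)
  have h5 : τ < W * (τ / W + 1) := Nat.lt_mul_div_succ τ hWpos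
  have h6 := hcount_le_length (Hv := Hv) w
  omega

end Pool.Agent.Helper79.EOL
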