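import Pool.Agent.Helper79.EOL.Sys

/-!
# Tools for computing the languages of explicit systems
-/

namespace Pool.Agent.Helper79.EOL

open List

namespace Sys

/-- A system given by finite lists of rules. -/
def ofLists {V : Type} (Nl : V → List (List V)) (Fl : V → List (List ℕ))
    (h1 : ∀ x, ∀ w ∈ Nl x, w ≠ []) (h2 : ∀ x, ∀ w ∈ Fl x, w ≠ []) : Sys V where
  N x w := w ∈ Nl x
  F x w := w ∈ Fl x
  N_ne := h1
  F_ne := h2
  N_fin := fun x => List.finite_toSet _
  F_fin := fun x => List.finite_toSet _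

variable {V : Type} (H : Sys V)

/-- The outcomes of a word after `n` nonfinal steps and one final step. -/
def On (n : ℕ) (u : List V) (w : List ℕ) : Prop := ∃ v, Par (It H.N n) u v ∧ Par H.F v w

variable {H}

lemma mem_L_iff {u : List V} {w : List ℕ} : w ∈ H.L u ↔ ∃ n, H.On n u w := Iff.rfl

lemma on_nil {n : ℕ} {w : List ℕ} : H.On n [] w ↔ w = [] := by
  constructor
  · rintro ⟨v, h1, h2⟩
    rw [par_nil] at h1; subst h1
    exact par_nil.1 h2
  · rintro rfl
    exact ⟨[], Par.nil, Par.nil⟩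

lemma on_append {n : ℕ} {u v : List V} {w : List ℕ} :
    H.On n (u ++ v) w ↔ ∃ w₁ w₂, w = w₁ ++ w₂ ∧ H.On n u w₁ ∧ H.On n v w₂ := by
  constructor
  · rintro ⟨z, h1, h2⟩
    obtain ⟨a, b, h3, h4, rfl⟩ := par_append.1 h1
    obtain ⟨c, d, h5, h6, rfl⟩ := par_append.1 h2
    exact ⟨c, d, rfl, ⟨a, h3, h5⟩, ⟨b, h4, h6⟩⟩
  · rintro ⟨w₁, w₂, rfl, ⟨a, h3, h5⟩, ⟨b, h4, h6⟩⟩
    exact ⟨a ++ b, h3.append h4, h5.append h6⟩

lemma on_cons {n : ℕ} {x : V} {v : List V} {w : List ℕ} :
    H.On n (x :: v) w ↔ ∃ w₁ w₂, w = w₁ ++ w₂ ∧ H.On n [x] w₁ ∧ H.On n v w₂ := by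
  rw [← singleton_append, on_append]

lemma on_zero {x : V} {w : List ℕ} : H.On 0 [x] w ↔ H.F x w := by
  constructor
  · rintro ⟨v, h1, h2⟩
    rw [par_it_zero] at h1; subst h1
    exact par_single.1 h2
  · intro h
    exact ⟨[x], par_it_zero.2 rfl, par_single.2 h⟩

lemma on_succ {n : ℕ} {x : V} {w : List ℕ} :
    H.On (n + 1) [x] w ↔ ∃ u, H.N x u ∧ H.On n u w := by
  constructor
  · rintro ⟨v, h1, h2⟩
    rw [par_single, it_succ] at h1
    obtain ⟨u, h3, h4⟩ := h1
    exact ⟨u, h3, v, h4, h2⟩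
  · rintro ⟨u, h1, v, h2, h3⟩
    exact ⟨v, par_single.2 (it_succ.2 ⟨u, h1, h2⟩), h3⟩

lemma on_replicate {n : ℕ} {x : V} {f : List ℕ} (h : ∀ w, H.On n [x] w ↔ w = f) (k : ℕ)
    {w : List ℕ} : H.On n (replicate k x) w ↔ w = (replicate k f).flatten := by
  induction k generalizing w with
  | zero => exact on_nil
  | succ k ih =>
    rw [replicate_succ, on_cons, replicate_succ, flatten_cons]
    constructor
    · rintro ⟨w₁, w₂, rfl, h1, h2⟩
      rw [h] at h1
      rw [ih] at h2
      rw [h1, h2]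
    · rintro rfl
      exact ⟨f, _, rfl, (h _).2 rfl, ih.2 rfl⟩

/-- A symbol that multiplies by `M` in every step. -/
lemma on_mul {x : V} {M l : ℕ} (hN : ∀ u, H.N x u ↔ u = replicate M x)
    (hF : ∀ w, H.F x w ↔ w = [l]) (n : ℕ) : ∀ w, H.On n [x] w ↔ w = replicate (M ^ n) l := by
  induction n with
  | zero =>
    intro w
    rw [on_zero, hF]
    rfl
  | succ n ih =>
    intro w
    rw [on_succ]
    simp only [hN]
    constructor
    · rintro ⟨u, rfl, h⟩
      rw [on_replicate ih] at h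
      rw [h]
      have : ∀ k m : ℕ, (replicate k (replicate m l)).flatten = replicate (k * m) l := by
        intro k m
        induction k with
        | zero => simp
        | succ k ih =>
          rw [replicate_succ, flatten_cons, ih, ← replicate_add]
          congr 1; ring
      rw [this, pow_succ, Nat.mul_comm]
    · rintro rfl
      refine ⟨_, rfl, ?_⟩
      rw [on_replicate ih]
      have : ∀ k m : ℕ, (replicate k (replicate m l)).flatten = replicate (k * m) l := by
        intro k m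
        induction k with
        | zero => simp
        | succ k ih =>
          rw [replicate_succ, flatten_cons, ih, ← replicate_add]
          congr 1; ring
      rw [this, pow_succ, Nat.mul_comm]

/-- A waiting symbol. -/
lemma on_wait {x : V} {l : ℕ} (hN : ∀ u, H.N x u ↔ u = [x])
    (hF : ∀ w, H.F x w ↔ w = [l]) (n : ℕ) : ∀ w, H.On n [x] w ↔ w = [l] := by
  have := on_mul (M := 1) hN hF n
  simpa using this

/-- A linear counter. -/
lemma on_count {x y : V} {l : ℕ} (hN : ∀ u, H.N x u ↔ u = [x, y])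
    (hF : ∀ w, H.F x w ↔ w = [l]) (hN' : ∀ u, H.N y u ↔ u = [y])
    (hF' : ∀ w, H.F y w ↔ w = [l]) (n : ℕ) :
    ∀ w, H.On n [x] w ↔ w = replicate (n + 1) l := by
  induction n with
  | zero =>
    intro w
    rw [on_zero, hF]; rfl
  | succ n ih =>
    intro w
    rw [on_succ]
    simp only [hN]
    constructor
    · rintro ⟨u, rfl, h⟩
      obtain ⟨w₁, w₂, rfl, h1, h2⟩ := on_cons.1 h
      rw [ih] at h1
      rw [on_wait hN' hF'] at h2
      rw [h1, h2]
      exact replicate_succ'.symm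
    · rintro rfl
      refine ⟨_, rfl, on_cons.2 ⟨replicate (n + 1) l, [l], ?_, (ih _).2 rfl,
        (on_wait hN' hF' n _).2 rfl⟩⟩
      exact replicate_succ'

end Sys

end Pool.Agent.Helper79.EOL
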