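import Pool.Agent.Helper79.EOL.Plan

/-!
# The macro simulation theorem
-/

namespace Pool.Agent.Helper79.EOL

open List Pool.Agent.Helper76.EOL

/-- Data of a macro simulation: macro symbols `M`, their rules (plans of height `r + 1` whose leaves
are macro symbols or real letters) and the initial plans. -/
structure MacroData where
  M : Type
  finM : Finite M
  tyM : M → Bool
  guard : M → Prop
  r : ℕ
  rules : M → Set (Plan (M ⊕ ℕ) (r + 1))
  rules_fin : ∀ m, (rules m).Finite
  init : Set (Σ n, Plan (M ⊕ ℕ) (n + 1))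
  init_fin : init.Finite

namespace MacroData

variable (D : MacroData)

/-- Leaf labels. -/
abbrev Lb : Type := D.M ⊕ ℕ

/-- Types of the leaf labels. -/
def tyL : D.Lb → Bool := Sum.elim D.tyM (fun _ => false)

/-- Nonfinal macro rules. -/
def NM (m : D.M) (u : List D.M) : Prop := ∃ p ∈ D.rules m, flat _ p = u.map Sum.inl

/-- Final macro rules. -/
def FM (m : D.M) (w : List ℕ) : Prop := ∃ p ∈ D.rules m, flat _ p = w.map Sum.inr

/-- Words reachable on the macro level. -/
def Reach (v : List D.M) : Prop :=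
  ∃ i ∈ D.init, ∃ u, flat _ i.2 = u.map Sum.inl ∧ ∃ k, Par (It D.NM k) u v

/-- The language on the macro level. -/
def MLang : Set (List ℕ) :=
  {w | w ≠ [] ∧ ((∃ i ∈ D.init, flat _ i.2 = w.map Sum.inr) ∨ ∃ v, D.Reach v ∧ Par D.FM v w)}

/-- The conditions on a macro simulation. -/
structure Good (Sp : Bool → List Bool → Prop) : Prop where
  rules_ty : ∀ m, ∀ p ∈ D.rules m, p.1 = D.tyM m
  rules_ok : ∀ m, ∀ p ∈ D.rules m, Ok D.tyL Sp _ p
  rules_leaf : ∀ m, ∀ p ∈ D.rules m,
    (∃ u : List D.M, flat _ p = u.map Sum.inl ∧ (u ≠ [] → ∃ x ∈ u, D.tyM x = true)) ∨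
    ∃ w : List ℕ, flat _ p = w.map Sum.inr
  guard_gd : ∀ m, D.guard m → ∀ p ∈ D.rules m, Gd D.tyL D.r (kids p)
  guard_leaf : ∀ m, D.guard m → ∀ p ∈ D.rules m,
    (∃ u : List D.M, flat _ p = u.map Sum.inl ∧ ∃ x ∈ u, D.guard x) ∨
    ∃ w : List ℕ, w ≠ [] ∧ flat _ p = w.map Sum.inr
  init_ty : ∀ i ∈ D.init, i.2.1 = true
  init_ok : ∀ i ∈ D.init, Ok D.tyL Sp _ i.2
  init_gd : ∀ i ∈ D.init, Gd D.tyL i.1 (kids i.2)
  init_leaf : ∀ i ∈ D.init, (∃ w : List ℕ, w ≠ [] ∧ flat _ i.2 = w.map Sum.inr) ∨
    ∃ u : List D.M, flat _ i.2 = u.map Sum.inl ∧ (∃ x ∈ u, D.guard x) ∧ ∃ x ∈ u, D.tyM x = true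

/-- Types of the symbols. -/
def tyS : Sym D.Lb → Bool
  | .start => true
  | .pl n p => rt D.tyL n p
  | .blk b => b

variable (wb : Bool → List Bool)

/-- Productions of the simulating grammar. -/
inductive NS : Sym D.Lb → List (Sym D.Lb) → Prop
  | start {i : Σ n, Plan D.Lb (n + 1)} : i ∈ D.init → NS .start ((kids i.2).map (Sym.pl i.1))
  | sblk : NS .start ((wb true).map Sym.blk)
  | node {n : ℕ} (p : Plan D.Lb (n + 1)) : NS (.pl (n + 1) p) ((kids p).map (Sym.pl n))
  | rule {m : D.M} {p : Plan D.Lb (D.r + 1)} : p ∈ D.rules m →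
      NS (.pl 0 (Sum.inl m : D.Lb)) ((kids p).map (Sym.pl D.r))
  | mblk (m : D.M) : NS (.pl 0 (Sum.inl m : D.Lb)) ((wb (D.tyM m)).map Sym.blk)
  | rblk (x : ℕ) : NS (.pl 0 (Sum.inr x : D.Lb)) ((wb false).map Sym.blk)
  | bblk (b : Bool) : NS (.blk b) ((wb b).map Sym.blk)

variable {D wb}

/-- Good words of leaves. -/
def Q (D : MacroData) (l : List D.Lb) : Prop :=
  (∃ w : List ℕ, l = w.map Sum.inr ∧ w ∈ D.MLang) ∨
  (∃ v : List D.M, l = v.map Sum.inl ∧ D.Reach v ∧ (∃ x ∈ v, D.guard x) ∧ ∃ x ∈ v, D.tyM x = true) ∨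
  ((∃ x, Sum.inr x ∈ l) ∧ ∃ m, Sum.inl m ∈ l ∧ D.tyM m = true)

/-- The invariant of the reachable words. -/
def Inv (D : MacroData) (u : List (Sym D.Lb)) : Prop :=
  u = [Sym.start] ∨
  (∃ (n : ℕ) (ps : List (Plan D.Lb n)), u = ps.map (Sym.pl n) ∧ Gd D.tyL n ps ∧ Q D (flats ps)) ∨
  Sym.blk true ∈ u

lemma ns_node {n : ℕ} {p : Plan D.Lb (n + 1)} {w : List (Sym D.Lb)}
    (h : NS D wb (.pl (n + 1) p) w) : w = (kids p).map (Sym.pl n) := by
  cases h; rfl

lemma par_ns_nodes {n : ℕ} {ps : List (Plan D.Lb (n + 1))} {u' : List (Sym D.Lb)}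
    (h : Par (NS D wb) (ps.map (Sym.pl (n + 1))) u') : u' = (nxt ps).map (Sym.pl n) := by
  induction ps generalizing u' with
  | nil => rw [map_nil, par_nil] at h; subst h; rfl
  | cons p ps ih =>
    rw [map_cons, par_cons] at h
    obtain ⟨u, v, h1, h2, rfl⟩ := h
    rw [ns_node h1, ih h2]
    simp [nxt]

lemma par_blk_mem {u u' : List (Sym D.Lb)} (h : Par (NS D wb) u u')
    {s : Sym D.Lb} (hs : s ∈ u) (hb : ∀ w, NS D wb s w → Sym.blk true ∈ w) :
    Sym.blk true ∈ u' := by
  obtain ⟨v, h1, h2⟩ := h.sub hs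
  exact h2 _ (hb v h1)

lemma ns_blk {b : Bool} {w : List (Sym D.Lb)} (hwb : ∀ b, true ∈ wb b)
    (h : NS D wb (.blk b) w) : Sym.blk true ∈ w := by
  cases h
  exact mem_map_of_mem (hwb b)

lemma ns_real {x : ℕ} {w : List (Sym D.Lb)} (hwb : ∀ b, true ∈ wb b)
    (h : NS D wb (.pl 0 (Sum.inr x : D.Lb)) w) : Sym.blk true ∈ w := by
  cases h
  exact mem_map_of_mem (hwb false)

lemma ns_macro {m : D.M} {w : List (Sym D.Lb)} (hwb : ∀ b, true ∈ wb b)
    (h : NS D wb (.pl 0 (Sum.inl m : D.Lb)) w) : Sym.blk true ∈ w ∨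
      ∃ p ∈ D.rules m, w = (kids p).map (Sym.pl D.r) := by
  cases h with
  | rule h => exact Or.inr ⟨_, h, rfl⟩
  | mblk => exact Or.inl (mem_map_of_mem (hwb _))

lemma ns_start (hwb : ∀ b, true ∈ wb b) {w : List (Sym D.Lb)} (h : NS D wb .start w) :
    Sym.blk true ∈ w ∨ ∃ i ∈ D.init, w = (kids i.2).map (Sym.pl i.1) := by
  cases h with
  | start h => exact Or.inr ⟨_, h, rfl⟩
  | sblk => exact Or.inl (mem_map_of_mem (hwb _))

lemma par_ns_macros (hwb : ∀ b, true ∈ wb b) {v : List D.M} {u' : List (Sym D.Lb)}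
    (h : Par (NS D wb) (v.map (fun m => Sym.pl 0 (Sum.inl m : D.Lb))) u') :
    Sym.blk true ∈ u' ∨ ∃ ps : List (Plan D.Lb (D.r + 1)),
      Forall₂ (fun m p => p ∈ D.rules m) v ps ∧ u' = (nxt ps).map (Sym.pl D.r) := by
  induction v generalizing u' with
  | nil =>
    rw [map_nil, par_nil] at h; subst h
    exact Or.inr ⟨[], Forall₂.nil, rfl⟩
  | cons m v ih =>
    rw [map_cons, par_cons] at h
    obtain ⟨u, w, h1, h2, rfl⟩ := h
    rcases ns_macro hwb h1 with h3 | ⟨p, hp, rfl⟩
    · left; simp [h3]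
    · rcases ih h2 with h3 | ⟨ps, h3, rfl⟩
      · left; simp [h3]
      · right
        exact ⟨p :: ps, Forall₂.cons hp h3, by simp [nxt]⟩

/-- The words of leaves after one macro step from a clean word. -/
lemma Q_step {Sp : Bool → List Bool → Prop} (hD : D.Good Sp) {v : List D.M} (hv : D.Reach v)
    (hg : ∃ x ∈ v, D.guard x) {ps : List (Plan D.Lb (D.r + 1))}
    (h : Forall₂ (fun m p => p ∈ D.rules m) v ps) : Q D (flats ps) := by
  -- three alternatives for the leaves
  have key : ∀ (v : List D.M) (ps : List (Plan D.Lb (D.r + 1))),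
      Forall₂ (fun m p => p ∈ D.rules m) v ps →
      (∃ u : List D.M, flats ps = u.map Sum.inl ∧ Par D.NM v u ∧
        (u ≠ [] → ∃ x ∈ u, D.tyM x = true)) ∨
      (∃ w : List ℕ, flats ps = w.map Sum.inr ∧ Par D.FM v w) ∨
      ((∃ x, Sum.inr x ∈ flats ps) ∧ ∃ m, Sum.inl m ∈ flats ps ∧ D.tyM m = true) := by
    intro v ps h
    induction h with
    | nil => exact Or.inl ⟨[], rfl, Par.nil, by simp⟩
    | @cons m p v ps hp h ih =>
      have e : flats (p :: ps) = flat _ p ++ flats ps := by simp [flats]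
      rcases ih with ⟨u, h1, h2, h3⟩ | ⟨w, h1, h2⟩ | ⟨⟨x, h1⟩, y, h2, h3⟩
      · rcases hD.rules_leaf m p hp with ⟨u', h4, h5⟩ | ⟨w', h4⟩
        · left
          refine ⟨u' ++ u, by rw [e, h4, h1, map_append], Par.cons ⟨p, hp, h4⟩ h2, ?_⟩
          intro hne
          by_cases hu' : u' = []
          · subst hu'
            obtain ⟨x, hx, hx2⟩ := h3 (by simpa using hne)
            exact ⟨x, by simp [hx], hx2⟩
          · obtain ⟨x, hx, hx2⟩ := h5 hu'
            exact ⟨x, by simp [hx], hx2⟩
        · by_cases hw' : w' = []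
          · subst hw'
            left
            refine ⟨u, by rw [e, h4, h1]; rfl, ?_, h3⟩
            have := Par.cons (N := D.NM) (x := m) (u := []) ⟨p, hp, by rw [h4]; rfl⟩ h2
            simpa using this
          · by_cases hu : u = []
            · subst hu
              right; left
              refine ⟨w', by rw [e, h4, h1]; simp, ?_⟩
              -- `Par FM v []` from `Par NM v []`
              have h6 : ∀ (v : List D.M) (z : List D.M), Par D.NM v z → z = [] →
                  Par D.FM v [] := by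
                intro v z hz
                induction hz with
                | nil => intro _; exact Par.nil
                | @cons x u xs v h1 _ ih =>
                  intro h0
                  rw [append_eq_nil_iff] at h0
                  obtain ⟨rfl, rfl⟩ := h0
                  obtain ⟨p, hp, hp2⟩ := h1
                  exact Par.cons (u := []) (v := []) ⟨p, hp, by rw [hp2]; rfl⟩ (ih rfl)
              have := Par.cons (N := D.FM) (x := m) (u := w') ⟨p, hp, h4⟩ (h6 _ _ h2 rfl)
              simpa using this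
            · right; right
              obtain ⟨x, hx, hx2⟩ := h3 hu
              refine ⟨?_, x, ?_, hx2⟩
              · obtain ⟨y, hy⟩ := exists_mem_of_ne_nil w' hw'
                refine ⟨y, ?_⟩
                rw [e, h4, mem_append]
                exact Or.inl (mem_map_of_mem hy)
              · rw [e, h1, mem_append]
                exact Or.inr (mem_map_of_mem hx)
      · rcases hD.rules_leaf m p hp with ⟨u', h4, h5⟩ | ⟨w', h4⟩
        · by_cases hu' : u' = []
          · subst hu'
            right; left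
            refine ⟨w, by rw [e, h4, h1]; rfl, ?_⟩
            have := Par.cons (N := D.FM) (x := m) (u := []) ⟨p, hp, by rw [h4]; rfl⟩ h2
            simpa using this
          · by_cases hw : w = []
            · subst hw
              left
              refine ⟨u', by rw [e, h4, h1]; simp, ?_, fun _ => h5 hu'⟩
              have h6 : ∀ (v : List D.M) (z : List ℕ), Par D.FM v z → z = [] →
                  Par D.NM v [] := by
                intro v z hz
                induction hz with
                | nil => intro _; exact Par.nil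
                | @cons x u xs v h1 _ ih =>
                  intro h0
                  rw [append_eq_nil_iff] at h0
                  obtain ⟨rfl, rfl⟩ := h0
                  obtain ⟨p, hp, hp2⟩ := h1
                  exact Par.cons (u := []) (v := []) ⟨p, hp, by rw [hp2]; rfl⟩ (ih rfl)
              have := Par.cons (N := D.NM) (x := m) (u := u') ⟨p, hp, h4⟩ (h6 _ _ h2 rfl)
              simpa using this
            · right; right
              obtain ⟨x, hx, hx2⟩ := h5 hu'
              refine ⟨?_, x, ?_, hx2⟩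
              · obtain ⟨y, hy⟩ := exists_mem_of_ne_nil w hw
                refine ⟨y, ?_⟩
                rw [e, h1, mem_append]
                exact Or.inr (mem_map_of_mem hy)
              · rw [e, h4, mem_append]
                exact Or.inl (mem_map_of_mem hx)
        · right; left
          exact ⟨w' ++ w, by rw [e, h4, h1, map_append], Par.cons ⟨p, hp, h4⟩ h2⟩
      · right; right
        exact ⟨⟨x, by rw [e, mem_append]; exact Or.inr h1⟩, y,
          by rw [e, mem_append]; exact Or.inr h2, h3⟩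
  obtain ⟨g, hg1, hg2⟩ := hg
  obtain ⟨pg, hpg1, hpg2⟩ : ∃ p ∈ ps, p ∈ D.rules g := by
    clear key hv
    induction h with
    | nil => simp at hg1
    | @cons m p v ps hp h ih =>
      rw [mem_cons] at hg1
      rcases hg1 with rfl | hg1
      · exact ⟨p, by simp, hp⟩
      · obtain ⟨p', h1, h2⟩ := ih hg1
        exact ⟨p', by simp [h1], h2⟩
  have hsub : ∀ x ∈ flat _ pg, x ∈ flats ps := by
    intro x hx
    exact mem_flatMap.2 ⟨pg, hpg1, hx⟩
  rcases key v ps h with ⟨u, h1, h2, h3⟩ | ⟨w, h1, h2⟩ | h1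
  · rcases hD.guard_leaf g hg2 pg hpg2 with ⟨u', h4, x, hx, hx2⟩ | ⟨w, hw, h4⟩
    · right; left
      have hxu : x ∈ u := by
        have : (Sum.inl x : D.Lb) ∈ flats ps := hsub _ (by rw [h4]; exact mem_map_of_mem hx)
        rw [h1] at this
        simpa using this
      refine ⟨u, h1, ?_, ⟨x, hxu, hx2⟩, h3 (ne_nil_of_mem hxu)⟩
      obtain ⟨i, hi, u0, h5, k, h6⟩ := hv
      exact ⟨i, hi, u0, h5, k + 1, Par.it_succ'.2 ⟨v, h6, h2⟩⟩
    · exfalso
      obtain ⟨y, hy⟩ := exists_mem_of_ne_nil w hw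
      have : (Sum.inr y : D.Lb) ∈ flats ps := hsub _ (by rw [h4]; exact mem_map_of_mem hy)
      rw [h1] at this
      simp at this
  · rcases hD.guard_leaf g hg2 pg hpg2 with ⟨u', h4, x, hx, hx2⟩ | ⟨w', hw, h4⟩
    · exfalso
      have : (Sum.inl x : D.Lb) ∈ flats ps := hsub _ (by rw [h4]; exact mem_map_of_mem hx)
      rw [h1] at this
      simp at this
    · left
      refine ⟨w, h1, ?_, Or.inr ⟨v, hv, h2⟩⟩
      rintro rfl
      obtain ⟨y, hy⟩ := exists_mem_of_ne_nil w' hw
      have : (Sum.inr y : D.Lb) ∈ flats ps := hsub _ (by rw [h4]; exact mem_map_of_mem hy)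
      rw [h1] at this
      simp at this
  · exact Or.inr (Or.inr h1)

lemma inv_step {Sp : Bool → List Bool → Prop} (hD : D.Good Sp) (hwb : ∀ b, true ∈ wb b)
    {u u' : List (Sym D.Lb)} (hu : Inv D u) (h : Par (NS D wb) u u') : Inv D u' := by
  rcases hu with rfl | ⟨n, ps, rfl, h1, h2⟩ | hb
  · rw [par_single] at h
    rcases ns_start hwb h with h | ⟨i, hi, rfl⟩
    · exact Or.inr (Or.inr h)
    right; left
    refine ⟨i.1, kids i.2, rfl, hD.init_gd i hi, ?_⟩
    rw [← flat_succ]
    rcases hD.init_leaf i hi with ⟨w, hw, h1⟩ | ⟨v, h1, h2, h3⟩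
    · exact Or.inl ⟨w, h1, hw, Or.inl ⟨i, hi, h1⟩⟩
    · exact Or.inr (Or.inl ⟨v, h1, ⟨i, hi, v, h1, 0, par_it_zero.2 rfl⟩, h2, h3⟩)
  · cases n with
    | succ n =>
      right; left
      refine ⟨n, nxt ps, par_ns_nodes h, h1.2, ?_⟩
      rw [← flats_succ]; exact h2
    | zero =>
      rw [flats_zero] at h2
      rcases h2 with ⟨w, hw, h2⟩ | ⟨v, hv, h2, h3, h4⟩ | ⟨⟨x, hx⟩, _⟩
      · obtain ⟨x, hx⟩ := exists_mem_of_ne_nil w h2.1
        have hx2 : (Sum.inr x : D.Lb) ∈ (ps : List D.Lb) := by
          rw [hw]; exact mem_map_of_mem hx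
        right; right
        exact par_blk_mem h (mem_map_of_mem (f := Sym.pl 0) hx2) (fun w hw => ns_real hwb hw)
      · have e : ps.map (Sym.pl 0) = v.map (fun m => Sym.pl 0 (Sum.inl m : D.Lb)) := by
          have : ps = (v.map Sum.inl : List D.Lb) := hv
          rw [this]
          exact map_map
        rw [e] at h
        rcases par_ns_macros hwb h with h5 | ⟨ps', h5, rfl⟩
        · exact Or.inr (Or.inr h5)
        · right; left
          refine ⟨D.r, nxt ps', rfl, ?_, ?_⟩
          · obtain ⟨g, hg1, hg2⟩ := h3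
            obtain ⟨a, b, c, d, rfl, rfl, hp, -⟩ : ∃ (a b : List D.M) (c d : List _),
                v = a ++ g :: b ∧ ps' = c ++ d ∧ (∃ p d', d = p :: d' ∧ p ∈ D.rules g) ∧ True := by
              clear e h hv h2 h4
              induction h5 with
              | nil => simp at hg1
              | @cons m p v ps hp h ih =>
                rw [mem_cons] at hg1
                rcases hg1 with rfl | hg1
                · exact ⟨[], v, [], p :: ps, rfl, rfl, ⟨p, ps, rfl, hp⟩, trivial⟩
                · obtain ⟨a, b, c, d, h1, h2, h3, -⟩ := ih hg1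
                  exact ⟨m :: a, b, p :: c, d, by rw [h1]; rfl, by rw [h2]; rfl, h3, trivial⟩
            obtain ⟨p, d', rfl, hp⟩ := hp
            apply (hD.guard_gd g hg2 p hp).mono
            refine ⟨nxt c, nxt d', ?_⟩
            simp [nxt]
          · rw [← flats_succ]
            exact Q_step hD h2 h3 h5
      · right; right
        have hx2 : (Sum.inr x : D.Lb) ∈ (ps : List D.Lb) := hx
        exact par_blk_mem h (mem_map_of_mem (f := Sym.pl 0) hx2) (fun w hw => ns_real hwb hw)
  · right; right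
    exact par_blk_mem h hb (fun w hw => ns_blk hwb hw)

lemma inv_reach {Sp : Bool → List Bool → Prop} (hD : D.Good Sp) (hwb : ∀ b, true ∈ wb b)
    {n : ℕ} : ∀ {u : List (Sym D.Lb)}, Par (It (NS D wb) n) [Sym.start] u → Inv D u := by
  induction n with
  | zero =>
    intro u h
    rw [par_it_zero] at h
    exact Or.inl h.symm
  | succ n ih =>
    intro u h
    obtain ⟨v, h1, h2⟩ := Par.it_succ'.1 h
    exact inv_step hD hwb (ih h1) h2

/-- The leaf symbol of a real letter. -/
def rl (D : MacroData) (x : ℕ) : Sym D.Lb := Sym.pl 0 (Sum.inr x : D.Lb)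

lemma terminal_mem {Sp : Bool → List Bool → Prop} (hD : D.Good Sp) (hwb : ∀ b, true ∈ wb b)
    {n : ℕ} {u : List (Sym D.Lb)} (h : It (NS D wb) n Sym.start u)
    (hu : ∀ x ∈ u, D.tyS x = false) (hne : u ≠ []) : ∃ w ∈ D.MLang, u = w.map (rl D) := by
  have h0 := inv_reach hD hwb (par_single.2 h)
  rcases h0 with rfl | ⟨n, ps, rfl, h1, h2⟩ | hb
  · have := hu Sym.start (by simp)
    simp [tyS] at this
  · cases n with
    | succ n =>
      exfalso
      have h3 := h1.1
      rw [mem_map] at h3
      obtain ⟨p, hp, hp2⟩ := h3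
      have := hu (Sym.pl (n + 1) p) (mem_map_of_mem hp)
      rw [tyS, hp2] at this
      simp at this
    | zero =>
      rw [flats_zero] at h2
      have key : ∀ m : D.M, (Sum.inl m : D.Lb) ∈ (ps : List D.Lb) → D.tyM m = false := by
        intro m hm
        have := hu (Sym.pl 0 (Sum.inl m : D.Lb)) (mem_map_of_mem (f := Sym.pl 0) hm)
        exact this
      rcases h2 with ⟨w, hw, h2⟩ | ⟨v, hv, h2, h3, m, h4, h5⟩ | ⟨_, m, hm, h3⟩
      · refine ⟨w, h2, ?_⟩
        have : ps = (w.map Sum.inr : List D.Lb) := hw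
        rw [this]
        exact map_map
      · exfalso
        have := key m (by rw [hv]; exact mem_map_of_mem h4)
        rw [h5] at this; simp at this
      · exfalso
        have := key m hm
        rw [h3] at this; simp at this
  · have := hu _ hb
    simp [tyS] at this

/-! ### Completeness of the simulation -/

lemma plan_run {n : ℕ} (ps : List (Plan D.Lb n)) :
    Par (It (NS D wb) n) (ps.map (Sym.pl n)) ((flats ps).map (fun l => Sym.pl 0 (l : Plan D.Lb 0))) := by
  induction n with
  | zero =>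
    rw [par_it_zero, flats_zero]
  | succ n ih =>
    rw [par_it_succ]
    refine ⟨(nxt ps).map (Sym.pl n), ?_, ?_⟩
    · clear ih
      induction ps with
      | nil => exact Par.nil
      | cons p ps ih =>
        have : (nxt (p :: ps)).map (Sym.pl n) = (kids p).map (Sym.pl n) ++
            (nxt ps).map (Sym.pl n) := by simp [nxt]
        rw [map_cons, this]
        exact Par.cons (NS.node p) ih
    · rw [flats_succ]
      exact ih (nxt ps)

/-- The leaf symbol of a label. -/
def lf (D : MacroData) (l : D.Lb) : Sym D.Lb := Sym.pl 0 (l : Plan D.Lb 0)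

lemma rule_run {m : D.M} {p : Plan D.Lb (D.r + 1)} (hp : p ∈ D.rules m) :
    It (NS D wb) (D.r + 1) (lf D (Sum.inl m)) ((flat _ p).map (lf D)) := by
  rw [it_succ]
  exact ⟨_, NS.rule hp, plan_run (kids p)⟩

lemma init_run {i : Σ n, Plan D.Lb (n + 1)} (hi : i ∈ D.init) :
    It (NS D wb) (i.1 + 1) Sym.start ((flat _ i.2).map (lf D)) := by
  rw [it_succ]
  exact ⟨_, NS.start hi, plan_run (kids i.2)⟩

lemma nm_run {u v : List D.M} (h : Par D.NM u v) :
    Par (It (NS D wb) (D.r + 1)) (u.map (fun m => lf D (Sum.inl m)))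
      (v.map (fun m => lf D (Sum.inl m))) := by
  induction h with
  | nil => exact Par.nil
  | @cons x u xs v h1 _ ih =>
    rw [map_cons, map_append]
    refine Par.cons ?_ ih
    obtain ⟨p, hp, hp2⟩ := h1
    have := rule_run (wb := wb) hp
    rw [hp2, map_map] at this
    exact this

lemma fm_run {u : List D.M} {w : List ℕ} (h : Par D.FM u w) :
    Par (It (NS D wb) (D.r + 1)) (u.map (fun m => lf D (Sum.inl m))) (w.map (rl D)) := by
  induction h with
  | nil => exact Par.nil
  | @cons x u xs v h1 _ ih =>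
    rw [map_cons, map_append]
    refine Par.cons ?_ ih
    obtain ⟨p, hp, hp2⟩ := h1
    have := rule_run (wb := wb) hp
    rw [hp2, map_map] at this
    exact this

lemma nm_runs {k : ℕ} {u v : List D.M} (h : Par (It D.NM k) u v) :
    ∃ n, Par (It (NS D wb) n) (u.map (fun m => lf D (Sum.inl m)))
      (v.map (fun m => lf D (Sum.inl m))) := by
  induction k generalizing u with
  | zero =>
    rw [par_it_zero] at h; subst h
    exact ⟨0, par_it_zero.2 rfl⟩
  | succ k ih =>
    obtain ⟨u', h1, h2⟩ := par_it_succ.1 h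
    obtain ⟨n, hn⟩ := ih h2
    exact ⟨(D.r + 1) + n, par_it_add.2 ⟨_, nm_run h1, hn⟩⟩

lemma mlang_run {w : List ℕ} (hw : w ∈ D.MLang) :
    ∃ n, It (NS D wb) n Sym.start (w.map (rl D)) := by
  obtain ⟨_, ⟨i, hi, h1⟩ | ⟨v, ⟨i, hi, u, h1, k, h2⟩, h3⟩⟩ := hw
  · refine ⟨i.1 + 1, ?_⟩
    have := init_run (wb := wb) hi
    rw [h1, map_map] at this
    exact this
  · obtain ⟨n, hn⟩ := nm_runs (wb := wb) h2
    refine ⟨(i.1 + 1) + (n + (D.r + 1)), ?_⟩
    rw [it_add]
    refine ⟨_, init_run hi, ?_⟩
    rw [h1, map_map, par_it_add]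
    exact ⟨_, hn, fm_run h3⟩

/-! ### The finite alphabet -/

/-- The alphabet of the simulating grammar. -/
def VS (D : MacroData) : Set (Sym D.Lb) :=
  {s | s = Sym.start ∨ (∃ b, s = Sym.blk b) ∨ (∃ m, s = lf D (Sum.inl m)) ∨
    (∃ m, ∃ p ∈ D.rules m, ∃ q ∈ kids p, s ∈ subs _ q) ∨
    ∃ i ∈ D.init, ∃ q ∈ kids i.2, s ∈ subs _ q}

lemma VS_fin (D : MacroData) : D.VS.Finite := by
  have := D.finM
  have e : D.VS = {Sym.start} ∪ Set.range Sym.blk ∪ Set.range (fun m => lf D (Sum.inl m)) ∪
      (⋃ m, ⋃ p ∈ D.rules m, ⋃ q ∈ {q | q ∈ kids p}, {s | s ∈ subs _ q}) ∪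
      (⋃ i ∈ D.init, ⋃ q ∈ {q | q ∈ kids i.2}, {s | s ∈ subs _ q}) := by
    ext s
    simp only [VS, Set.mem_ofPred_eq, Set.mem_union, Set.mem_singleton_iff, Set.mem_range,
      Set.mem_iUnion, exists_prop, or_assoc, eq_comm (a := s)]
  rw [e]
  refine Set.Finite.union (Set.Finite.union (Set.Finite.union (Set.Finite.union
    (Set.finite_singleton _) (Set.finite_range _)) (Set.finite_range _)) ?_) ?_
  · apply Set.finite_iUnion
    intro m
    apply (D.rules_fin m).biUnion
    intro p _
    apply (List.finite_toSet _).biUnion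
    intro q _
    exact List.finite_toSet _
  · apply D.init_fin.biUnion
    intro i _
    apply (List.finite_toSet _).biUnion
    intro q _
    exact List.finite_toSet _

lemma VS_closed (D : MacroData) : ∀ s ∈ D.VS, ∀ w, NS D wb s w → ∀ t ∈ w, t ∈ D.VS := by
  intro s hs w hw t ht
  cases hw with
  | @start i hi =>
    simp only [mem_map] at ht
    obtain ⟨q, hq, rfl⟩ := ht
    exact Or.inr (Or.inr (Or.inr (Or.inr ⟨i, hi, q, hq, mem_subs_self q⟩)))
  | sblk =>
    simp only [mem_map] at ht
    obtain ⟨b, _, rfl⟩ := ht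
    exact Or.inr (Or.inl ⟨b, rfl⟩)
  | @node n p =>
    simp only [mem_map] at ht
    obtain ⟨q, hq, rfl⟩ := ht
    rcases hs with h | ⟨b, h⟩ | ⟨m, h⟩ | ⟨m, p', hp', q', hq', h⟩ | ⟨i, hi, q', hq', h⟩
    · cases h
    · cases h
    · cases h
    · exact Or.inr (Or.inr (Or.inr (Or.inl ⟨m, p', hp', q', hq', subs_closed h q hq⟩)))
    · exact Or.inr (Or.inr (Or.inr (Or.inr ⟨i, hi, q', hq', subs_closed h q hq⟩)))
  | @rule m p hp =>
    simp only [mem_map] at ht
    obtain ⟨q, hq, rfl⟩ := ht
    exact Or.inr (Or.inr (Or.inr (Or.inl ⟨m, p, hp, q, hq, mem_subs_self q⟩)))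
  | mblk m =>
    simp only [mem_map] at ht
    obtain ⟨b, _, rfl⟩ := ht
    exact Or.inr (Or.inl ⟨b, rfl⟩)
  | rblk x =>
    simp only [mem_map] at ht
    obtain ⟨b, _, rfl⟩ := ht
    exact Or.inr (Or.inl ⟨b, rfl⟩)
  | bblk b =>
    simp only [mem_map] at ht
    obtain ⟨b, _, rfl⟩ := ht
    exact Or.inr (Or.inl ⟨b, rfl⟩)

lemma NS_fin (D : MacroData) (s : Sym D.Lb) : {w | NS D wb s w}.Finite := by
  cases s with
  | start =>
    apply ((D.init_fin.image (fun i => (kids i.2).map (Sym.pl i.1))).union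
      (Set.finite_singleton ((wb true).map Sym.blk))).subset
    intro w hw
    have hw' : NS D wb Sym.start w := hw
    cases hw' with
    | start h => exact Or.inl ⟨_, h, rfl⟩
    | sblk => exact Or.inr rfl
  | pl n p =>
    cases n with
    | succ n =>
      apply (Set.finite_singleton ((kids p).map (Sym.pl n))).subset
      intro w hw
      exact ns_node hw
    | zero =>
      have hp : ∀ l : D.Lb, {w | NS D wb (Sym.pl 0 (l : Plan D.Lb 0)) w}.Finite := by
        intro l
        cases l with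
        | inl m =>
          apply (((D.rules_fin m).image (fun p => (kids p).map (Sym.pl D.r))).union
            (Set.finite_singleton ((wb (D.tyM m)).map Sym.blk))).subset
          intro w hw
          have hw' : NS D wb (Sym.pl 0 (Sum.inl m : D.Lb)) w := hw
          cases hw' with
          | rule h => exact Or.inl ⟨_, h, rfl⟩
          | mblk => exact Or.inr rfl
        | inr x =>
          apply (Set.finite_singleton ((wb false).map Sym.blk)).subset
          intro w hw
          have hw' : NS D wb (Sym.pl 0 (Sum.inr x : D.Lb)) w := hw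
          cases hw'
          exact rfl
      exact hp p
  | blk b =>
    apply (Set.finite_singleton ((wb b).map Sym.blk)).subset
    intro w hw
    have hw' : NS D wb (Sym.blk b) w := hw
    cases hw'
    exact rfl

lemma NS_shape {Sp : Bool → List Bool → Prop} (hD : D.Good Sp) (hwb : ∀ b, Sp b (wb b)) :
    ∀ s ∈ D.VS, ∀ w, NS D wb s w → Sp (D.tyS s) (w.map D.tyS) := by
  intro s hs w hw
  have hblk : ∀ l : List Bool, (l.map (Sym.blk : Bool → Sym D.Lb)).map D.tyS = l := by
    intro l
    rw [map_map]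
    exact map_id'' (fun _ => rfl) l
  have hpl : ∀ (n : ℕ) (l : List (Plan D.Lb n)), (l.map (Sym.pl n)).map D.tyS =
      l.map (rt D.tyL n) := by
    intro n l
    rw [map_map]; rfl
  cases hw with
  | @start i hi =>
    rw [hpl]
    have h1 := (hD.init_ok i hi).1
    rw [hD.init_ty i hi] at h1
    exact h1
  | sblk => rw [hblk]; exact hwb _
  | @node n p =>
    rw [hpl]
    have hok : Ok D.tyL Sp (n + 1) p := by
      rcases hs with h | ⟨b, h⟩ | ⟨m, h⟩ | ⟨m, p', hp', q', hq', h⟩ | ⟨i, hi, q', hq', h⟩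
      · cases h
      · cases h
      · cases h
      · exact subs_ok ((hD.rules_ok m p' hp').2 q' hq') h
      · exact subs_ok ((hD.init_ok i hi).2 q' hq') h
    exact hok.1
  | @rule m p hp =>
    rw [hpl]
    have h1 := (hD.rules_ok m p hp).1
    rw [hD.rules_ty m p hp] at h1
    exact h1
  | mblk m => rw [hblk]; exact hwb _
  | rblk x => rw [hblk]; exact hwb _
  | bblk b => rw [hblk]; exact hwb _

/-- **The macro simulation theorem.** -/
theorem exists_interp_macro {F : Grammar} {a : ℕ} (hF : IsSaForm F a) (D : MacroData)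
    (hD : D.Good (Sh F a)) (hA : ∃ w, Sh F a false w ∧ true ∈ w)
    (hB : ∃ w, Sh F a true w ∧ true ∈ w) :
    ∃ G', Interprets G' F ∧ lang G' \ {[]} = D.MLang := by
  classical
  obtain ⟨wa, hwa1, hwa2⟩ := hA
  obtain ⟨wS, hwS1, hwS2⟩ := hB
  let wb : Bool → List Bool := fun b => if b then wS else wa
  have hwb1 : ∀ b, Sh F a b (wb b) := by intro b; cases b <;> simp [wb, hwa1, hwS1]
  have hwb2 : ∀ b, true ∈ wb b := by intro b; cases b <;> simp [wb, hwa2, hwS2]
  have := D.finM
  have : Countable D.M := Finite.to_countable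
  have : Countable D.Lb := inferInstanceAs (Countable (D.M ⊕ ℕ))
  obtain ⟨enc, henc⟩ := exists_injective_nat (Sym D.Lb)
  -- a bound for the real letters
  have hRfin : {x : ℕ | rl D x ∈ D.VS}.Finite := by
    apply Set.Finite.preimage _ D.VS_fin
    intro x _ y _ h
    have h' : (Sym.pl 0 (Sum.inr x : D.Lb) : Sym D.Lb) = Sym.pl 0 (Sum.inr y : D.Lb) := h
    injection h' with h1 h2
    injection h2
  obtain ⟨K, hK⟩ := hRfin.bddAbove
  let e : Sym D.Lb → ℕ := fun s => if h : ∃ x, s = rl D x then Classical.choose h else K + 1 + enc s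
  have rl_inj : ∀ x y, rl D x = rl D y → x = y := by
    intro x y h
    have h' : (Sym.pl 0 (Sum.inr x : D.Lb) : Sym D.Lb) = Sym.pl 0 (Sum.inr y : D.Lb) := h
    injection h' with h1 h2
    injection h2
  have e_rl : ∀ x, e (rl D x) = x := by
    intro x
    have h : ∃ y, rl D x = rl D y := ⟨x, rfl⟩
    simp only [e, dif_pos h]
    exact (rl_inj _ _ (Classical.choose_spec h)).symm
  have he : ∀ s ∈ D.VS, ∀ t ∈ D.VS, e s = e t → s = t := by
    intro s hs t ht h
    by_cases h1 : ∃ x, s = rl D x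
    · obtain ⟨x, rfl⟩ := h1
      have hx : x ≤ K := hK hs
      rw [e_rl] at h
      by_cases h2 : ∃ y, t = rl D y
      · obtain ⟨y, rfl⟩ := h2
        rw [e_rl] at h
        rw [h]
      · exfalso
        simp only [e, dif_neg h2] at h
        omega
    · by_cases h2 : ∃ y, t = rl D y
      · obtain ⟨y, rfl⟩ := h2
        have hy : y ≤ K := hK ht
        exfalso
        rw [e_rl] at h
        simp only [e, dif_neg h1] at h
        omega
      · simp only [e, dif_neg h1, dif_neg h2] at h
        apply henc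
        omega
  have htot : ∀ s ∈ D.VS, ∃ w, NS D wb s w := by
    intro s hs
    cases s with
    | start => exact ⟨_, NS.sblk⟩
    | pl n p =>
      cases n with
      | succ n => exact ⟨_, NS.node p⟩
      | zero =>
        have hp : ∀ l : D.Lb, ∃ w, NS D wb (Sym.pl 0 (l : Plan D.Lb 0)) w := by
          intro l
          cases l with
          | inl m => exact ⟨_, NS.mblk m⟩
          | inr x => exact ⟨_, NS.rblk x⟩
        exact hp p
    | blk b => exact ⟨_, NS.bblk b⟩
  obtain ⟨G', hG1, hG2⟩ := exists_interp hF D.tyS (NS D wb) D.VS D.VS_fin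
    (fun s _ => NS_fin D s) D.VS_closed htot Sym.start (Or.inl rfl) rfl
    (NS_shape hD hwb1) e he
  refine ⟨G', hG1, ?_⟩
  have hmap : ∀ w : List ℕ, (w.map (rl D)).map e = w := by
    intro w
    rw [map_map]
    exact map_id'' (fun x => e_rl x) w
  rw [hG2]
  ext w
  simp only [Set.mem_sdiff, Set.mem_ofPred_eq, Set.mem_singleton_iff]
  constructor
  · rintro ⟨⟨n, u, h1, h2, rfl⟩, h3⟩
    have hne : u ≠ [] := by
      rintro rfl
      exact h3 rfl
    obtain ⟨w, hw, rfl⟩ := terminal_mem hD hwb2 h1 h2 hne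
    rw [hmap]
    exact hw
  · intro hw
    obtain ⟨n, hn⟩ := mlang_run (wb := wb) hw
    refine ⟨⟨n, w.map (rl D), hn, ?_, (hmap w).symm⟩, hw.1⟩
    intro x hx
    simp only [mem_map] at hx
    obtain ⟨y, _, rfl⟩ := hx
    rfl

end MacroData

end Pool.Agent.Helper79.EOL
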