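import Pool.Agent.Helper79.EOL.Tables

/-!
# The critical path normal form of synchronised propagating systems
-/

namespace Pool.Agent.Helper79.EOL

open List Pool.Agent.Helper76.EOL

lemma it_it {α : Type*} {N : α → List α → Prop} {m k : ℕ} {x : α} {w : List α} :
    It (It N m) k x w ↔ It N (k * m) x w := by
  induction k generalizing x w with
  | zero => rw [Nat.zero_mul]; rfl
  | succ k ih =>
    have e : It (It N m) k = It N (k * m) := by
      funext a b; exact propext ih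
    rw [it_succ, e, show (k + 1) * m = m + k * m by ring, it_add]

namespace Sys

variable {V : Type}

/-- Derivations of terminal words with `n` nonfinal steps. -/
def Dv (H : Sys V) (n : ℕ) (x : V) (w : List ℕ) : Prop := Then (It H.N n) H.F x w

lemma dv_zero {H : Sys V} {x : V} {w : List ℕ} : H.Dv 0 x w ↔ H.F x w := by
  constructor
  · rintro ⟨v, h1, h2⟩
    rw [it_zero] at h1; subst h1
    exact par_single.1 h2
  · intro h
    exact ⟨[x], rfl, par_single.2 h⟩

lemma dv_succ {H : Sys V} {n : ℕ} {x : V} {w : List ℕ} :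
    H.Dv (n + 1) x w ↔ ∃ u, H.N x u ∧ Par (H.Dv n) u w := by
  constructor
  · rintro ⟨v, h1, h2⟩
    obtain ⟨u, h3, h4⟩ := it_succ.1 h1
    exact ⟨u, h3, par_then.2 ⟨v, h4, h2⟩⟩
  · rintro ⟨u, h1, h2⟩
    obtain ⟨v, h3, h4⟩ := par_then.1 h2
    exact ⟨v, it_succ.2 ⟨u, h1, h3⟩, h4⟩

lemma mem_L_dv {H : Sys V} {u : List V} {w : List ℕ} : w ∈ H.L u ↔ ∃ n, Par (H.Dv n) u w := by
  constructor
  · rintro ⟨n, v, h1, h2⟩
    exact ⟨n, par_then.2 ⟨v, h1, h2⟩⟩
  · rintro ⟨n, h⟩
    obtain ⟨v, h1, h2⟩ := par_then.1 h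
    exact ⟨n, v, h1, h2⟩

/-- Speed-up: `m` steps at once, and `r` further steps before the final step. -/
def speed (H : Sys V) (m r : ℕ) : Sys V where
  N := It H.N m
  F := Then (It H.N r) H.F
  N_ne := fun _ _ h => h.ne_nil H.N_ne
  F_ne := by
    rintro x w ⟨v, h1, h2⟩ rfl
    have h3 := h2.le_length H.F_ne
    have h4 := length_pos_iff.2 (h1.ne_nil H.N_ne)
    simp only [length_nil] at h3
    omega
  N_fin := fun x => it_finite H.N_fin m x
  F_fin := fun x => it_finite' (fun y => it_finite H.N_fin r y) H.F_fin x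

lemma L_speed (H : Sys V) {m : ℕ} (hm : 1 ≤ m) (u : List V) :
    H.L u = ⋃ r ∈ {r | r < m}, (H.speed m r).L u := by
  ext w
  simp only [Set.mem_iUnion, exists_prop]
  constructor
  · rintro ⟨n, v, h1, h2⟩
    refine ⟨n % m, Nat.mod_lt _ (by omega), n / m, ?_⟩
    have e : n = (n / m) * m + n % m := by
      rw [Nat.mul_comm]; exact (Nat.div_add_mod n m).symm
    rw [e] at h1
    obtain ⟨v₁, h3, h4⟩ := par_it_add.1 h1
    refine ⟨v₁, h3.mono (fun _ _ h => it_it.2 h), ?_⟩
    exact par_then.2 ⟨v, h4, h2⟩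
  · rintro ⟨r, _, k, v, h1, h2⟩
    obtain ⟨v', h3, h4⟩ := par_then.1 h2
    exact ⟨k * m + r, v', par_it_add.2 ⟨v, h1.mono (fun _ _ h => it_it.1 h), h3⟩, h4⟩

lemma it_unary {H : Sys V} {m n : ℕ} {x z : V} :
    It H.N (m + n) x [z] ↔ ∃ y, It H.N m x [y] ∧ It H.N n y [z] := by
  rw [it_add]
  constructor
  · rintro ⟨v, h1, h2⟩
    have h3 := Sys.le_length (H := H) h2
    have h4 := length_pos_iff.2 (h1.ne_nil H.N_ne)
    rw [length_singleton] at h3
    obtain ⟨y, rfl⟩ := length_eq_one_iff.1 (show v.length = 1 by omega)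
    exact ⟨y, h1, par_single.1 h2⟩
  · rintro ⟨y, h1, h2⟩
    exact ⟨[y], h1, par_single.2 h2⟩

/-- Some power of the unary relation is idempotent. -/
lemma exists_idem [Finite V] (H : Sys V) : ∃ m, 1 ≤ m ∧
    ∀ x z, (∃ y, It H.N m x [y] ∧ It H.N m y [z]) ↔ It H.N m x [z] := by
  set T : ℕ → Set (V × V) := fun n => {p | It H.N n p.1 [p.2]} with hT
  obtain ⟨n₀, P, hP, h⟩ := eventually_periodic (α := V × V) Set.univ Set.finite_univ T
    (fun _ => Set.subset_univ _)
    (by
      have key : ∀ i j, T i = T j → T (i + 1) ⊆ T (j + 1) := by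
        rintro i j hij ⟨x, z⟩ hxz
        have hxz' : It H.N (i + 1) x [z] := hxz
        rw [Nat.add_comm, it_unary] at hxz'
        obtain ⟨y, h1, h2⟩ := hxz'
        have h3 : (y, z) ∈ T i := h2
        rw [hij] at h3
        change It H.N (j + 1) x [z]
        rw [Nat.add_comm, it_unary]
        exact ⟨y, h1, h3⟩
      intro i j hij
      exact Set.Subset.antisymm (key i j hij) (key j i hij.symm))
  have hm : n₀ ≤ P * (n₀ + 1) := by nlinarith
  have hm1 : 1 ≤ P * (n₀ + 1) := Nat.mul_pos hP (by omega)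
  refine ⟨P * (n₀ + 1), hm1, ?_⟩
  intro x z
  rw [← it_unary]
  have e : T (P * (n₀ + 1) + P * (n₀ + 1)) = T (P * (n₀ + 1)) := by
    apply periodic_modEq h (by omega) hm
    have : P * (n₀ + 1) + P * (n₀ + 1) ≡ P * (n₀ + 1) + 0 [MOD P] :=
      Nat.ModEq.add_left _ ((Nat.modEq_zero_iff_dvd).2 ⟨_, rfl⟩)
    simpa using this
  exact Iff.of_eq (congrFun e (x, z))

end Sys

/-! ### The normal form system -/

/-- Symbols of the normal form: active symbols and waiting symbols. -/
inductive AW (V : Type) : Type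
  | A (x : V) (i f : Bool)
  | W (x : V) (f : Bool)

instance finite_AW {V : Type} [Finite V] : Finite (AW V) := by
  apply Finite.of_surjective (fun s : (V × Bool × Bool) ⊕ (V × Bool) => match s with
    | Sum.inl (x, i, f) => AW.A x i f
    | Sum.inr (x, f) => AW.W x f)
  intro y
  cases y with
  | A x i f => exact ⟨Sum.inl (x, i, f), rfl⟩
  | W x f => exact ⟨Sum.inr (x, f), rfl⟩

/-- Active symbols. -/
def AW.act {V : Type} : AW V → Prop
  | .A _ _ _ => True
  | .W _ _ => False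

section

variable {V : Type} (H : Sys V)

/-- Rules of the active symbols. -/
def RA (x : V) (i f : Bool) (w : List (AW V)) : Prop :=
  (i = false ∧ ∃ y, H.N x [y] ∧ w = [AW.A y true false]) ∨
  ∃ u y v, H.N x (u ++ ([y] ++ v)) ∧ 2 ≤ (u ++ ([y] ++ v)).length ∧
    w = u.map (fun z => AW.W z f) ++ ([AW.A y false f] ++ v.map (fun z => AW.W z f))

/-- Nonfinal rules of the normal form. -/
def NAW : AW V → List (AW V) → Prop
  | .A x i f, w => RA H x i f w
  | .W x f, w => w = [AW.W x true] ∨ RA H x false f w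

/-- Final rules of the normal form. -/
def FAW : AW V → List ℕ → Prop
  | .A x _ f, w => f = false ∧ H.F x w
  | .W x f, w => f = false ∧ H.F x w

variable {H}

lemma RA.bound {x : V} {i f : Bool} {w : List (AW V)} (h : RA H x i f w) {D : ℕ} (hD : 1 ≤ D)
    (hb : ∀ x w, H.N x w → w.length ≤ D) : w ≠ [] ∧ w.length ≤ D := by
  rcases h with ⟨_, y, _, rfl⟩ | ⟨u, y, v, h1, _, rfl⟩
  · exact ⟨by simp, by simpa using hD⟩
  · have := hb _ _ h1
    refine ⟨by simp, ?_⟩
    simpa using this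

variable (H)

/-- The normal form system. -/
def sysAW [Finite V] : Sys (AW V) where
  N := NAW H
  F := FAW H
  N_ne := by
    obtain ⟨D, hD, hb, _⟩ := H.exists_bound
    intro s w h
    cases s with
    | A x i f => exact (RA.bound h hD hb).1
    | W x f =>
      rcases h with h | h
      · rw [h]; simp
      · exact (RA.bound h hD hb).1
  F_ne := by
    intro s w h
    cases s with
    | A x i f => exact H.F_ne _ _ h.2
    | W x f => exact H.F_ne _ _ h.2
  N_fin := by
    obtain ⟨D, hD, hb, _⟩ := H.exists_bound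
    intro s
    apply (List.finite_length_le (AW V) D).subset
    intro w h
    cases s with
    | A x i f => exact (RA.bound h hD hb).2
    | W x f =>
      rcases h with h | h
      · rw [h]; exact hD
      · exact (RA.bound h hD hb).2
  F_fin := by
    intro s
    cases s with
    | A x i f => exact (H.F_fin x).subset (fun w h => h.2)
    | W x f => exact (H.F_fin x).subset (fun w h => h.2)

/-- Derivations in which every path has a unary step. -/
def U1 : ℕ → V → List ℕ → Prop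
  | 0, _, _ => False
  | n + 1, x, w => (∃ y, H.N x [y] ∧ H.Dv n y w) ∨ ∃ u, H.N x u ∧ 2 ≤ u.length ∧ Par (U1 n) u w

/-- Derivations in which every path has two consecutive unary steps (`i`: the step before the
root was unary). -/
def Win : ℕ → Bool → V → List ℕ → Prop
  | 0, _, _, _ => False
  | n + 1, true, x, w => (∃ y, H.N x [y] ∧ H.Dv n y w) ∨
      ∃ u, H.N x u ∧ 2 ≤ u.length ∧ Par (Win n false) u w
  | n + 1, false, x, w => (∃ y, H.N x [y] ∧ Win n true y w) ∨
      ∃ u, H.N x u ∧ 2 ≤ u.length ∧ Par (Win n false) u w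

/-- Derivations, with a promise. -/
def TT (H : Sys V) : Bool → ℕ → V → List ℕ → Prop
  | false => H.Dv
  | true => U1 H

variable {H}

lemma u1_dv {n : ℕ} {x : V} {w : List ℕ} (h : U1 H n x w) : H.Dv n x w := by
  induction n generalizing x w with
  | zero => exact h.elim
  | succ n ih =>
    rcases h with ⟨y, h1, h2⟩ | ⟨u, h1, _, h2⟩
    · exact Sys.dv_succ.2 ⟨[y], h1, par_single.2 h2⟩
    · exact Sys.dv_succ.2 ⟨u, h1, h2.mono (fun _ _ h => ih h)⟩

lemma tt_dv {f : Bool} {n : ℕ} {x : V} {w : List ℕ} (h : TT H f n x w) : H.Dv n x w := by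
  cases f
  · exact h
  · exact u1_dv h

lemma u1_expand (hE2 : ∀ x z, H.N x [z] → ∃ y, H.N x [y] ∧ H.N y [z]) {n : ℕ} {x : V}
    {w : List ℕ} (h : U1 H n x w) : U1 H (n + 1) x w := by
  induction n generalizing x w with
  | zero => exact h.elim
  | succ n ih =>
    rcases h with ⟨y, h1, h2⟩ | ⟨u, h1, h3, h2⟩
    · obtain ⟨z, h3, h4⟩ := hE2 _ _ h1
      exact Or.inl ⟨z, h3, Sys.dv_succ.2 ⟨[y], h4, par_single.2 h2⟩⟩
    · exact Or.inr ⟨u, h1, h3, h2.mono (fun _ _ h => ih h)⟩

lemma win_compress (hE1 : ∀ x y z, H.N x [y] → H.N y [z] → H.N x [z]) (n : ℕ) :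
    (∀ x w z, Win H n true x w → H.N z [x] → U1 H n z w) ∧
    (∀ x w, Win H n false x w → ∃ n', n = n' + 1 ∧ U1 H n' x w) := by
  induction n with
  | zero => exact ⟨fun _ _ _ h => h.elim, fun _ _ h => h.elim⟩
  | succ n ih =>
    obtain ⟨ih1, ih2⟩ := ih
    -- children of nonunary nodes
    have key : ∀ (u : List V) (w : List ℕ), 2 ≤ u.length → Par (Win H n false) u w →
        ∃ n', n = n' + 1 ∧ Par (U1 H n') u w := by
      intro u w hu h
      cases n with
      | zero =>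
        exfalso
        cases h with
        | nil => simp at hu
        | cons h1 _ => exact h1.elim
      | succ n =>
        refine ⟨n, rfl, h.mono ?_⟩
        intro x w hx
        obtain ⟨n', h1, h2⟩ := ih2 x w hx
        obtain rfl : n = n' := by omega
        exact h2
    refine ⟨?_, ?_⟩
    · intro x w z h hz
      rcases h with ⟨y, h1, h2⟩ | ⟨u, h1, h3, h2⟩
      · exact Or.inl ⟨y, hE1 _ _ _ hz h1, h2⟩
      · obtain ⟨n', rfl, h4⟩ := key u w h3 h2
        exact Or.inl ⟨x, hz, Sys.dv_succ.2 ⟨u, h1, h4.mono (fun _ _ h => u1_dv h)⟩⟩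
    · intro x w h
      refine ⟨n, rfl, ?_⟩
      rcases h with ⟨y, h1, h2⟩ | ⟨u, h1, h3, h2⟩
      · exact ih1 y w x h2 h1
      · obtain ⟨n', rfl, h4⟩ := key u w h3 h2
        exact Or.inr ⟨u, h1, h3, h4⟩

lemma par_dich {α : Type*} {R P Q : α → List ℕ → Prop} (h : ∀ x w, R x w → P x w ∨ Q x w)
    {u : List α} {w : List ℕ} (hu : Par R u w) : Par Q u w ∨
      ∃ u₁ y u₂ w₁ w' w₂, u = u₁ ++ ([y] ++ u₂) ∧ w = w₁ ++ (w' ++ w₂) ∧ Par R u₁ w₁ ∧ P y w' ∧
        Par R u₂ w₂ := by
  induction hu with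
  | nil => exact Or.inl Par.nil
  | @cons x u xs v h1 h2 ih =>
    rcases h x u h1 with h3 | h3
    · exact Or.inr ⟨[], x, xs, [], u, v, rfl, rfl, Par.nil, h3, h2⟩
    · rcases ih with h4 | ⟨u₁, y, u₂, w₁, w', w₂, rfl, rfl, h5, h6, h7⟩
      · exact Or.inl (Par.cons h3 h4)
      · exact Or.inr ⟨x :: u₁, y, u₂, u ++ w₁, w', w₂, rfl, by simp, Par.cons h1 h5, h6, h7⟩

variable [Finite V]

lemma aw_complete (hE1 : ∀ x y z, H.N x [y] → H.N y [z] → H.N x [z]) (n : ℕ) :
    (∀ f x w, TT H f n x w → (sysAW H).Dv n (AW.W x f) w) ∧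
    (∀ i f x w, TT H f n x w → (sysAW H).Dv n (AW.A x i f) w ∨ Win H n i x w) := by
  induction n with
  | zero =>
    constructor
    · intro f x w h
      cases f
      · exact Sys.dv_zero.2 ⟨rfl, Sys.dv_zero.1 h⟩
      · exact h.elim
    · intro i f x w h
      cases f
      · exact Or.inl (Sys.dv_zero.2 ⟨rfl, Sys.dv_zero.1 h⟩)
      · exact h.elim
  | succ n ih =>
    obtain ⟨ih1, ih2⟩ := ih
    -- unary steps
    have unary : ∀ i f x y w, H.N x [y] → H.Dv n y w →
        (sysAW H).Dv (n + 1) (AW.A x i f) w ∨ Win H (n + 1) i x w := by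
      intro i f x y w h1 h2
      cases i
      · rcases ih2 true false y w h2 with h3 | h3
        · left
          exact Sys.dv_succ.2 ⟨[AW.A y true false], Or.inl ⟨rfl, y, h1, rfl⟩, par_single.2 h3⟩
        · right
          exact Or.inl ⟨y, h1, h3⟩
      · right
        exact Or.inl ⟨y, h1, h2⟩
    -- nonunary steps
    have nonun : ∀ i f x u w, H.N x u → 2 ≤ u.length → Par (TT H f n) u w →
        (sysAW H).Dv (n + 1) (AW.A x i f) w ∨ Win H (n + 1) i x w := by
      intro i f x u w h1 h3 h2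
      rcases par_dich (ih2 false f) h2 with h4 | ⟨u₁, y, u₂, w₁, w', w₂, rfl, rfl, h5, h6, h7⟩
      · right
        cases i
        · exact Or.inr ⟨u, h1, h3, h4⟩
        · exact Or.inr ⟨u, h1, h3, h4⟩
      · left
        refine Sys.dv_succ.2 ⟨_, Or.inr ⟨u₁, y, u₂, h1, h3, rfl⟩, ?_⟩
        have e : ∀ (u : List V) (w : List ℕ), Par (TT H f n) u w →
            Par ((sysAW H).Dv n) (u.map (fun z => AW.W z f)) w := by
          intro u w hu
          rw [par_map]
          exact hu.mono (fun x w h => ih1 f x w h)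
        exact (e _ _ h5).append ((par_single.2 h6).append (e _ _ h7))
    have c2 : ∀ i f x w, TT H f (n + 1) x w →
        (sysAW H).Dv (n + 1) (AW.A x i f) w ∨ Win H (n + 1) i x w := by
      intro i f x w h
      cases f
      · obtain ⟨u, h1, h2⟩ := Sys.dv_succ.1 h
        by_cases h3 : 2 ≤ u.length
        · exact nonun i false x u w h1 h3 h2
        · have := length_pos_iff.2 (H.N_ne _ _ h1)
          obtain ⟨y, rfl⟩ := length_eq_one_iff.1 (show u.length = 1 by omega)
          exact unary i false x y w h1 (par_single.1 h2)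
      · rcases h with ⟨y, h1, h2⟩ | ⟨u, h1, h3, h2⟩
        · exact unary i true x y w h1 h2
        · exact nonun i true x u w h1 h3 h2
    refine ⟨?_, c2⟩
    intro f x w h
    rcases c2 false f x w h with h1 | h1
    · obtain ⟨u, h2, h3⟩ := Sys.dv_succ.1 h1
      exact Sys.dv_succ.2 ⟨u, Or.inr h2, h3⟩
    · obtain ⟨n', h2, h3⟩ := (win_compress hE1 (n + 1)).2 x w h1
      obtain rfl : n = n' := by omega
      exact Sys.dv_succ.2 ⟨[AW.W x true], Or.inl rfl, par_single.2 (ih1 true x w h3)⟩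

lemma aw_sound (hE2 : ∀ x z, H.N x [z] → ∃ y, H.N x [y] ∧ H.N y [z]) (n : ℕ) :
    (∀ f x w, (sysAW H).Dv n (AW.W x f) w → TT H f n x w) ∧
    (∀ i f x w, (sysAW H).Dv n (AW.A x i f) w → TT H f n x w) := by
  induction n with
  | zero =>
    constructor
    · intro f x w h
      obtain ⟨rfl, h2⟩ : f = false ∧ H.F x w := Sys.dv_zero.1 h
      exact Sys.dv_zero.2 h2
    · intro i f x w h
      obtain ⟨rfl, h2⟩ : f = false ∧ H.F x w := Sys.dv_zero.1 h
      exact Sys.dv_zero.2 h2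
  | succ n ih =>
    obtain ⟨ih1, ih2⟩ := ih
    have hA : ∀ i f x w u, RA H x i f u → Par ((sysAW H).Dv n) u w → TT H f (n + 1) x w := by
      intro i f x w u h h2
      rcases h with ⟨_, y, h3, rfl⟩ | ⟨u₁, y, u₂, h3, h4, rfl⟩
      · have h5 : H.Dv n y w := ih2 true false y w (par_single.1 h2)
        cases f
        · exact Sys.dv_succ.2 ⟨[y], h3, par_single.2 h5⟩
        · exact Or.inl ⟨y, h3, h5⟩
      · obtain ⟨w₁, w', h5, h6, rfl⟩ := par_append.1 h2
        obtain ⟨w₂, w₃, h7, h8, rfl⟩ := par_append.1 h6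
        rw [par_map] at h5 h8
        have h9 : Par (TT H f n) (u₁ ++ ([y] ++ u₂)) (w₁ ++ (w₂ ++ w₃)) :=
          (h5.mono (fun x w h => ih1 f x w h)).append
            ((par_single.2 (ih2 false f y w₂ (par_single.1 h7))).append
              (h8.mono (fun x w h => ih1 f x w h)))
        cases f
        · exact Sys.dv_succ.2 ⟨_, h3, h9⟩
        · exact Or.inr ⟨_, h3, h4, h9⟩
    constructor
    · intro f x w h
      obtain ⟨u, h1, h2⟩ := Sys.dv_succ.1 h
      rcases h1 with rfl | h1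
      · have h3 : U1 H n x w := ih1 true x w (par_single.1 h2)
        have h4 := u1_expand hE2 h3
        cases f
        · exact u1_dv h4
        · exact h4
      · exact hA false f x w u h1 h2
    · intro i f x w h
      obtain ⟨u, h1, h2⟩ := Sys.dv_succ.1 h
      exact hA i f x w u h1 h2

lemma aw_L (hE1 : ∀ x y z, H.N x [y] → H.N y [z] → H.N x [z])
    (hE2 : ∀ x z, H.N x [z] → ∃ y, H.N x [y] ∧ H.N y [z]) (x : V) :
    H.L [x] = (sysAW H).L [AW.A x false false] ∪ (sysAW H).L [AW.A x false true] := by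
  have key : ∀ n f w, TT H f n x w → ∃ n' f', (sysAW H).Dv n' (AW.A x false f') w := by
    intro n
    induction n with
    | zero =>
      intro f w h
      rcases (aw_complete hE1 0).2 false f x w h with h1 | h1
      · exact ⟨_, _, h1⟩
      · exact h1.elim
    | succ n ih =>
      intro f w h
      rcases (aw_complete hE1 (n + 1)).2 false f x w h with h1 | h1
      · exact ⟨_, _, h1⟩
      · obtain ⟨n', h2, h3⟩ := (win_compress hE1 (n + 1)).2 x w h1
        obtain rfl : n = n' := by omega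
        exact ih true w h3
  ext w
  rw [Set.mem_union, Sys.mem_L_dv, Sys.mem_L_dv, Sys.mem_L_dv]
  simp only [par_single]
  constructor
  · rintro ⟨n, h⟩
    obtain ⟨n', f', h1⟩ := key n false w h
    cases f'
    · exact Or.inl ⟨n', h1⟩
    · exact Or.inr ⟨n', h1⟩
  · rintro (⟨n, h⟩ | ⟨n, h⟩)
    · exact ⟨n, (aw_sound hE2 n).2 _ _ _ _ h⟩
    · exact ⟨n, u1_dv ((aw_sound hE2 n).2 _ _ _ _ h)⟩

/-- Active symbols stay active and grow. -/
lemma aw_act (n : ℕ) : ∀ x i f w, It (sysAW H).N n (AW.A x i f) w →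
    (∃ s ∈ w, AW.act s) ∧ n + (if i then 1 else 0) + 1 ≤ 2 * w.length := by
  induction n with
  | zero =>
    intro x i f w h
    rw [it_zero] at h; subst h
    refine ⟨⟨AW.A x i f, by simp, trivial⟩, ?_⟩
    cases i <;> simp
  | succ n ih =>
    intro x i f w h
    obtain ⟨u, h1, h2⟩ := it_succ.1 h
    rcases h1 with ⟨rfl, y, _, rfl⟩ | ⟨u₁, y, u₂, _, h4, rfl⟩
    · obtain ⟨h5, h6⟩ := ih y true false w (par_single.1 h2)
      refine ⟨h5, ?_⟩
      simp only [if_true] at h6
      simp only [Bool.false_eq_true, if_false]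
      omega
    · obtain ⟨w₁, w', h5, h6, rfl⟩ := par_append.1 h2
      obtain ⟨w₂, w₃, h7, h8, rfl⟩ := par_append.1 h6
      obtain ⟨⟨s, hs, hs2⟩, h9⟩ := ih y false f w₂ (par_single.1 h7)
      have e1 := Sys.le_length (H := sysAW H) h5
      have e2 := Sys.le_length (H := sysAW H) h8
      rw [length_map] at e1 e2
      refine ⟨⟨s, by simp [hs], hs2⟩, ?_⟩
      simp only [length_append, length_singleton] at h4 ⊢
      simp only [Bool.false_eq_true, if_false] at h9
      split_ifs <;> omega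

/-- Activity persists. -/
lemma aw_act_par {n : ℕ} {u w : List (AW V)} (h : Par (It (sysAW H).N n) u w)
    (hu : ∃ s ∈ u, AW.act s) : ∃ s ∈ w, AW.act s := by
  obtain ⟨s, hs, hs2⟩ := hu
  obtain ⟨v, h1, h2⟩ := h.sub hs
  cases s with
  | A x i f =>
    obtain ⟨⟨t, ht, ht2⟩, _⟩ := aw_act n x i f v h1
    exact ⟨t, h2 t ht, ht2⟩
  | W x f => exact hs2.elim

lemma aw_wait (n : ℕ) : ∀ x f w, It (sysAW H).N n (AW.W x f) w →
    (∃ s, w = [s]) ∨ ∃ s ∈ w, AW.act s := by
  induction n with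
  | zero =>
    intro x f w h
    rw [it_zero] at h
    exact Or.inl ⟨_, h⟩
  | succ n ih =>
    intro x f w h
    obtain ⟨u, h1, h2⟩ := it_succ.1 h
    rcases h1 with rfl | h1
    · exact ih x true w (par_single.1 h2)
    · right
      apply aw_act_par h2
      rcases h1 with ⟨_, y, _, rfl⟩ | ⟨u₁, y, u₂, _, _, rfl⟩
      · exact ⟨AW.A y true false, by simp, trivial⟩
      · exact ⟨AW.A y false f, by simp, trivial⟩

end

/-! ### Representations -/

/-- The normal form condition. -/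
structure NFC {V : Type} (H : Sys V) (act : V → Prop) (c : ℕ) : Prop where
  grow : ∀ x w, act x → H.N x w → c + 1 ≤ w.length ∧ ∃ y ∈ w, act y
  wait : ∀ x w, ¬ act x → H.N x w → (∃ y, w = [y]) ∨ ∃ y ∈ w, act y

/-- Languages represented by normal form systems whose start words have `m₁` symbols before and
`m₂` symbols after a word of length at least `N₀` with an active symbol. -/
def Repr (m₁ m₂ c N₀ : ℕ) (L : Set (List ℕ)) : Prop :=
  ∃ (V : Type) (_ : Finite V) (H : Sys V) (act : V → Prop) (Z : Set (List V))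
    (A : Set (List ℕ)), A.Finite ∧ Z.Finite ∧ NFC H act c ∧
    (∀ z ∈ Z, ∃ u₁ z₀ u₂, z = u₁ ++ (z₀ ++ u₂) ∧ u₁.length = m₁ ∧ u₂.length = m₂ ∧
      N₀ ≤ z₀.length ∧ ∃ x ∈ z₀, act x) ∧ L = A ∪ ⋃ z ∈ Z, H.L z

/-- The sum of two systems. -/
def Sys.sum {V V' : Type} (H : Sys V) (H' : Sys V') : Sys (V ⊕ V') where
  N := fun s w => match s with
    | Sum.inl x => ∃ u, H.N x u ∧ w = u.map Sum.inl
    | Sum.inr x => ∃ u, H'.N x u ∧ w = u.map Sum.inr
  F := fun s w => match s with
    | Sum.inl x => H.F x w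
    | Sum.inr x => H'.F x w
  N_ne := by
    rintro (x | x) w ⟨u, h, rfl⟩
    · simpa using H.N_ne _ _ h
    · simpa using H'.N_ne _ _ h
  F_ne := by
    rintro (x | x) w h
    · exact H.F_ne _ _ h
    · exact H'.F_ne _ _ h
  N_fin := by
    rintro (x | x)
    · apply ((H.N_fin x).image (fun u => u.map Sum.inl)).subset
      rintro w ⟨u, h, rfl⟩
      exact ⟨u, h, rfl⟩
    · apply ((H'.N_fin x).image (fun u => u.map Sum.inr)).subset
      rintro w ⟨u, h, rfl⟩
      exact ⟨u, h, rfl⟩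
  F_fin := by
    rintro (x | x)
    · exact H.F_fin x
    · exact H'.F_fin x

lemma Sys.sum_dv_inl {V V' : Type} {H : Sys V} {H' : Sys V'} {n : ℕ} {x : V} {w : List ℕ} :
    (H.sum H').Dv n (Sum.inl x) w ↔ H.Dv n x w := by
  induction n generalizing x w with
  | zero => rw [Sys.dv_zero, Sys.dv_zero]; rfl
  | succ n ih =>
    rw [Sys.dv_succ, Sys.dv_succ]
    constructor
    · rintro ⟨u, ⟨v, h1, rfl⟩, h2⟩
      rw [par_map] at h2
      exact ⟨v, h1, h2.mono (fun _ _ h => ih.1 h)⟩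
    · rintro ⟨u, h1, h2⟩
      refine ⟨u.map Sum.inl, ⟨u, h1, rfl⟩, ?_⟩
      rw [par_map]
      exact h2.mono (fun _ _ h => ih.2 h)

lemma Sys.sum_dv_inr {V V' : Type} {H : Sys V} {H' : Sys V'} {n : ℕ} {x : V'} {w : List ℕ} :
    (H.sum H').Dv n (Sum.inr x) w ↔ H'.Dv n x w := by
  induction n generalizing x w with
  | zero => rw [Sys.dv_zero, Sys.dv_zero]; rfl
  | succ n ih =>
    rw [Sys.dv_succ, Sys.dv_succ]
    constructor
    · rintro ⟨u, ⟨v, h1, rfl⟩, h2⟩
      rw [par_map] at h2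
      exact ⟨v, h1, h2.mono (fun _ _ h => ih.1 h)⟩
    · rintro ⟨u, h1, h2⟩
      refine ⟨u.map Sum.inr, ⟨u, h1, rfl⟩, ?_⟩
      rw [par_map]
      exact h2.mono (fun _ _ h => ih.2 h)

lemma Sys.sum_L_inl {V V' : Type} {H : Sys V} {H' : Sys V'} {u : List V} :
    (H.sum H').L (u.map Sum.inl) = H.L u := by
  ext w
  rw [Sys.mem_L_dv, Sys.mem_L_dv]
  refine exists_congr (fun n => ?_)
  rw [par_map]
  constructor
  · intro h; exact h.mono (fun _ _ h => Sys.sum_dv_inl.1 h)
  · intro h; exact h.mono (fun _ _ h => Sys.sum_dv_inl.2 h)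

lemma Sys.sum_L_inr {V V' : Type} {H : Sys V} {H' : Sys V'} {u : List V'} :
    (H.sum H').L (u.map Sum.inr) = H'.L u := by
  ext w
  rw [Sys.mem_L_dv, Sys.mem_L_dv]
  refine exists_congr (fun n => 
  ?_)
  rw [par_map]
  constructor
  · intro h; exact h.mono (fun _ _ h => Sys.sum_dv_inr.1 h)
  · intro h; exact h.mono (fun _ _ h => Sys.sum_dv_inr.2 h)

lemma NFC.sum {V V' : Type} {H : Sys V} {H' : Sys V'} {act : V → Prop} {act' : V' → Prop}
    {c : ℕ} (h : NFC H act c) (h' : NFC H' act' c) :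
    NFC (H.sum H') (Sum.elim act act') c := by
  constructor
  · rintro (x | x) w hx ⟨u, h1, rfl⟩
    · obtain ⟨h2, y, hy, hy2⟩ := h.grow x u hx h1
      exact ⟨by simpa using h2, Sum.inl y, mem_map_of_mem hy, hy2⟩
    · obtain ⟨h2, y, hy, hy2⟩ := h'.grow x u hx h1
      exact ⟨by simpa using h2, Sum.inr y, mem_map_of_mem hy, hy2⟩
  · rintro (x | x) w hx ⟨u, h1, rfl⟩
    · rcases h.wait x u hx h1 with ⟨y, rfl⟩ | ⟨y, hy, hy2⟩
      · exact Or.inl ⟨_, rfl⟩
      · exact Or.inr ⟨Sum.inl y, mem_map_of_mem hy, hy2⟩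
    · rcases h'.wait x u hx h1 with ⟨y, rfl⟩ | ⟨y, hy, hy2⟩
      · exact Or.inl ⟨_, rfl⟩
      · exact Or.inr ⟨Sum.inr y, mem_map_of_mem hy, hy2⟩

lemma Repr.union {m₁ m₂ c N₀ : ℕ} {L L' : Set (List ℕ)} (h : Repr m₁ m₂ c N₀ L)
    (h' : Repr m₁ m₂ c N₀ L') : Repr m₁ m₂ c N₀ (L ∪ L') := by
  obtain ⟨V, hV, H, act, Z, A, hA, hZ, hN, h1, rfl⟩ := h
  obtain ⟨V', hV', H', act', Z', A', hA', hZ', hN', h1', rfl⟩ := h'
  refine ⟨V ⊕ V', inferInstance, H.sum H', Sum.elim act act',
    (fun z => z.map Sum.inl) '' Z ∪ (fun z => z.map Sum.inr) '' Z', A ∪ A', hA.union hA',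
    (hZ.image _).union (hZ'.image _), hN.sum hN', ?_, ?_⟩
  · rintro z (⟨z, hz, rfl⟩ | ⟨z, hz, rfl⟩)
    · obtain ⟨u₁, z₀, u₂, rfl, h2, h3, h4, x, hx, hx2⟩ := h1 z hz
      exact ⟨u₁.map Sum.inl, z₀.map Sum.inl, u₂.map Sum.inl, by simp, by simpa using h2,
        by simpa using h3, by simpa using h4, Sum.inl x, mem_map_of_mem hx, hx2⟩
    · obtain ⟨u₁, z₀, u₂, rfl, h2, h3, h4, x, hx, hx2⟩ := h1' z hz
      exact ⟨u₁.map Sum.inr, z₀.map Sum.inr, u₂.map Sum.inr, by simp, by simpa using h2,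
        by simpa using h3, by simpa using h4, Sum.inr x, mem_map_of_mem hx, hx2⟩
  · ext w
    simp only [Set.mem_union, Set.mem_iUnion, exists_prop, Set.mem_image]
    constructor
    · rintro ((h2 | ⟨z, hz, h2⟩) | (h2 | ⟨z, hz, h2⟩))
      · exact Or.inl (Or.inl h2)
      · exact Or.inr ⟨_, Or.inl ⟨z, hz, rfl⟩, by rw [Sys.sum_L_inl]; exact h2⟩
      · exact Or.inl (Or.inr h2)
      · exact Or.inr ⟨_, Or.inr ⟨z, hz, rfl⟩, by rw [Sys.sum_L_inr]; exact h2⟩
    · rintro ((h2 | h2) | ⟨_, ⟨z, hz, rfl⟩ | ⟨z, hz, rfl⟩, h2⟩)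
      · exact Or.inl (Or.inl h2)
      · exact Or.inr (Or.inl h2)
      · rw [Sys.sum_L_inl] at h2
        exact Or.inl (Or.inr ⟨z, hz, h2⟩)
      · rw [Sys.sum_L_inr] at h2
        exact Or.inr (Or.inr ⟨z, hz, h2⟩)

/-- The system without symbols. -/
def sysEmpty : Sys Empty where
  N := fun _ _ => False
  F := fun _ _ => False
  N_ne := fun _ _ h => h.elim
  F_ne := fun _ _ h => h.elim
  N_fin := fun x => x.elim
  F_fin := fun x => x.elim

lemma Repr.finite {m₁ m₂ c N₀ : ℕ} {A : Set (List ℕ)} (hA : A.Finite) :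
    Repr m₁ m₂ c N₀ A :=
  ⟨Empty, inferInstance, sysEmpty, fun _ => True, ∅, A, hA, Set.finite_empty,
    ⟨fun x => x.elim, fun x => x.elim⟩, by simp, by simp⟩

lemma Repr.biUnion {m₁ m₂ c N₀ : ℕ} {ι : Type*} {I : Set ι} (hI : I.Finite)
    {L : ι → Set (List ℕ)} (h : ∀ i ∈ I, Repr m₁ m₂ c N₀ (L i)) :
    Repr m₁ m₂ c N₀ (⋃ i ∈ I, L i) := by
  induction I, hI using Set.Finite.induction_on with
  | empty => simpa using Repr.finite Set.finite_empty
  | @insert i I _ _ ih =>
    rw [Set.biUnion_insert]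
    exact (h i (by simp)).union (ih (fun j hj => h j (by simp [hj])))

/-- **The normal form theorem.** -/
theorem repr_L {V : Type} [Finite V] (H : Sys V) (x : V) (c N₀ : ℕ) (hN₀ : 2 ≤ N₀) :
    Repr 0 0 c N₀ (H.L [x]) := by
  obtain ⟨m, hm, hid⟩ := H.exists_idem
  rw [H.L_speed hm]
  apply Repr.biUnion (Set.finite_lt_nat m)
  intro r _
  have hE1 : ∀ x y z, (H.speed m r).N x [y] → (H.speed m r).N y [z] → (H.speed m r).N x [z] :=
    fun x y z h1 h2 => (hid x z).1 ⟨y, h1, h2⟩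
  have hE2 : ∀ x z, (H.speed m r).N x [z] →
      ∃ y, (H.speed m r).N x [y] ∧ (H.speed m r).N y [z] :=
    fun x z h => (hid x z).2 h
  rw [aw_L hE1 hE2]
  have key : ∀ f, Repr 0 0 c N₀ ((sysAW (H.speed m r)).L [AW.A x false f]) := by
    intro f
    rw [(sysAW (H.speed m r)).L_speed (m := 2 * c + 1) (by omega)]
    apply Repr.biUnion (Set.finite_lt_nat _)
    intro r' _
    obtain ⟨A, Z, hA, hZ, h1, h2⟩ := ((sysAW (H.speed m r)).speed (2 * c + 1) r').restart
      [AW.A x false f] N₀ (by simp only [length_singleton]; omega)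
    refine ⟨AW V, inferInstance, _, AW.act, Z, A, hA, hZ, ⟨?_, ?_⟩, ?_, h2⟩
    · intro s w hs h
      cases s with
      | A y i g =>
        obtain ⟨h3, h4⟩ := aw_act (2 * c + 1) y i g w h
        refine ⟨?_, h3⟩
        split_ifs at h4 <;> omega
      | W y g => exact hs.elim
    · intro s w hs h
      cases s with
      | A y i g => exact absurd trivial hs
      | W y g => exact aw_wait (2 * c + 1) y g w h
    · intro z hz
      obtain ⟨h3, n, h4⟩ := h1 z hz
      refine ⟨[], z, [], by simp, by simp, by simp, h3, ?_⟩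
      have h5 : Par (It (sysAW (H.speed m r)).N (n * (2 * c + 1))) [AW.A x false f] z :=
        h4.mono (fun _ _ h => it_it.1 h)
      exact aw_act_par h5 ⟨AW.A x false f, by simp, trivial⟩
  exact (key false).union (key true)

end Pool.Agent.Helper79.EOL
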