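import Pool.Agent.Helper79.EOL.OfSys

/-!
# Basic facts on grammars generating test languages
-/

namespace Pool.Agent.Helper79.EOL

open List Pool.Agent.Helper76.EOL

/-- Reachable words. -/
def Rc (G : Grammar) (z : List ℕ) : Prop := ∃ t, Par (It (pr G) t) [G.S] z

/-- `G` generates `L` up to the empty word. -/
def Gen (G : Grammar) (L : Set (List ℕ)) : Prop := lang G \ {[]} = L

variable {G : Grammar} {L : Set (List ℕ)}

lemma Rc.start : Rc G [G.S] := ⟨0, par_it_zero.2 rfl⟩

lemma Rc.trans {z w : List ℕ} {n : ℕ} (h : Rc G z) (hw : Par (It (pr G) n) z w) : Rc G w := by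
  obtain ⟨t, ht⟩ := h
  exact ⟨t + n, par_it_add.2 ⟨z, ht, hw⟩⟩

lemma Rc.step {z w : List ℕ} (h : Rc G z) (hw : Par (pr G) z w) : Rc G w := by
  obtain ⟨t, ht⟩ := h
  exact ⟨t + 1, Par.it_succ'.2 ⟨z, ht, hw⟩⟩

lemma mem_V_of_it {n X : ℕ} (hX : X ∈ G.V) {w : List ℕ} (h : It (pr G) n X w) :
    ∀ x ∈ w, x ∈ G.V :=
  h.mem_of_closed (S := {x | x ∈ G.V}) (fun _ _ _ hw => (G.prod_wf _ hw).2) hX

lemma Rc.mem_V {z : List ℕ} (h : Rc G z) : ∀ x ∈ z, x ∈ G.V := by
  obtain ⟨t, ht⟩ := h
  rw [par_single] at ht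
  exact mem_V_of_it G.S_mem ht

lemma Gen.mem (h : Gen G L) {w : List ℕ} (hw : Rc G w) (hT : ∀ x ∈ w, x ∈ G.T)
    (hne : w ≠ []) : w ∈ L := by
  rw [← h]
  refine ⟨mem_lang_iff.2 ⟨hT, ?_⟩, hne⟩
  obtain ⟨t, ht⟩ := hw
  exact ⟨t, par_single.1 ht⟩

lemma Gen.exists (h : Gen G L) {w : List ℕ} (hw : w ∈ L) :
    (∀ x ∈ w, x ∈ G.T) ∧ w ≠ [] ∧ ∃ n, It (pr G) n G.S w := by
  rw [← h] at hw
  obtain ⟨h1, h2⟩ := mem_lang_iff.1 hw.1
  exact ⟨h1, hw.2, h2⟩

lemma Gen.rc (h : Gen G L) {w : List ℕ} (hw : w ∈ L) : Rc G w := by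
  obtain ⟨_, _, n, hn⟩ := h.exists hw
  exact ⟨n, par_single.2 hn⟩

lemma exists_word (n : ℕ) {u : List ℕ} (hu : ∀ x ∈ u, x ∈ G.V) :
    ∃ w, Par (It (pr G) n) u w := by
  obtain ⟨v, hv⟩ := exists_der G n hu
  exact ⟨v, der_iff.1 hv⟩

lemma pr_bound (G : Grammar) : ∃ r, 1 ≤ r ∧ ∀ x w, pr G x w → w.length ≤ r := by
  obtain ⟨r, h1, h2⟩ := Pool.Agent.Helper76.EOL.exists_bound G
  exact ⟨r, h1, fun x w h => h2 _ h⟩

/-- Splitting an outcome that is a power. -/
lemma append_eq_rep {u v : List ℕ} {k x : ℕ} (h : u ++ v = replicate k x) :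
    u = replicate u.length x ∧ v = replicate v.length x ∧ u.length + v.length = k := by
  have h1 : ∀ y ∈ u ++ v, y = x := by
    rw [h]
    intro y hy
    exact eq_of_mem_replicate hy
  have h2 : (u ++ v).length = k := by rw [h, length_replicate]
  refine ⟨?_, ?_, ?_⟩
  · exact eq_replicate_of_mem (fun y hy => h1 y (by simp [hy]))
  · exact eq_replicate_of_mem (fun y hy => h1 y (by simp [hy]))
  · rw [length_append] at h2
    exact h2

lemma short_iter {b δ κ : ℕ} (hκ : κ ≤ 1) (h : It (pr G) δ b (replicate κ b)) (m : ℕ) :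
    ∀ x, ∃ x', x' ≤ x ∧ Par (It (pr G) (m * δ)) (replicate x b) (replicate x' b) := by
  induction m with
  | zero => intro x; exact ⟨x, le_rfl, by rw [Nat.zero_mul]; exact par_it_zero.2 rfl⟩
  | succ m ih =>
    intro x
    have h1 := par_replicate h x
    rw [replicate_flatten] at h1
    obtain ⟨x', h2, h3⟩ := ih (x * κ)
    refine ⟨x', h2.trans (by nlinarith), ?_⟩
    rw [show (m + 1) * δ = δ + m * δ by ring, par_it_add]
    exact ⟨_, h1, h3⟩

lemma short_outcomes {b δ κ : ℕ} (hδ : 1 ≤ δ) (hκ : κ ≤ 1)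
    (h : It (pr G) δ b (replicate κ b)) : ∃ C : ℕ, ∀ X ∈ G.V, ∀ j x,
      It (pr G) j X (replicate x b) → ∃ x' ≤ C, It (pr G) j X (replicate x' b) := by
  classical
  have key : ∀ X r : ℕ, ∃ c : ℕ, ∀ j x, j % δ = r → It (pr G) j X (replicate x b) →
      ∃ x' ≤ c, It (pr G) j X (replicate x' b) := by
    intro X r
    by_cases hX : ∃ j, j % δ = r ∧ ∃ x, It (pr G) j X (replicate x b)
    · obtain ⟨h1, x₀, hx₀⟩ := Nat.find_spec hX
      refine ⟨x₀, ?_⟩
      intro j x hj hjx
      have hle : Nat.find hX ≤ j := Nat.find_min' hX ⟨hj, x, hjx⟩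
      obtain ⟨m, hm⟩ : ∃ m, j = Nat.find hX + m * δ := by
        have h2 : δ ∣ j - Nat.find hX := by
          apply (Nat.modEq_iff_dvd' hle).1
          rw [Nat.ModEq, h1, hj]
        obtain ⟨m, hm⟩ := h2
        exact ⟨m, by rw [Nat.mul_comm m δ]; omega⟩
      obtain ⟨x', h2, h3⟩ := short_iter hκ h m x₀
      refine ⟨x', h2, ?_⟩
      rw [hm, it_add]
      exact ⟨_, hx₀, h3⟩
    · refine ⟨0, ?_⟩
      intro j x hj hjx
      exact absurd ⟨j, hj, x, hjx⟩ hX
  choose c hc using key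
  refine ⟨G.V.sup (fun X => (Finset.range δ).sup (c X)), ?_⟩
  intro X hX j x hjx
  obtain ⟨x', h1, h2⟩ := hc X (j % δ) j x rfl hjx
  refine ⟨x', h1.trans ?_, h2⟩
  have h3 : c X (j % δ) ≤ (Finset.range δ).sup (c X) :=
    Finset.le_sup (f := c X) (Finset.mem_range.2 (Nat.mod_lt _ (by omega)))
  exact h3.trans (Finset.le_sup (f := fun X => (Finset.range δ).sup (c X)) hX)

/-- If a short word derives a long power of `b`, then one of its symbols derives a large part. -/
lemma exists_large' {n C b : ℕ} {α : List ℕ} {x : ℕ} (h : Par (It (pr G) n) α (replicate x b))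
    (hlt : α.length * C < x) :
    ∃ α₁ X α₂ i x' l, α = α₁ ++ ([X] ++ α₂) ∧ Par (It (pr G) n) α₁ (replicate i b) ∧
      It (pr G) n X (replicate x' b) ∧ Par (It (pr G) n) α₂ (replicate l b) ∧
      i + (x' + l) = x ∧ C < x' := by
  induction α generalizing x with
  | nil =>
    rw [par_nil] at h
    have := congrArg length h
    simp at this
    omega
  | cons X α ih =>
    obtain ⟨u, v, h1, h2, h3⟩ := par_cons.1 h
    obtain ⟨e1, e2, e3⟩ := append_eq_rep h3.symm
    rw [e1] at h1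
    rw [e2] at h2
    by_cases hk : C < u.length
    · exact ⟨[], X, α, 0, _, _, by simp, Par.nil, h1, h2, by omega, hk⟩
    · have : α.length * C < v.length := by
        rw [length_cons, Nat.succ_mul] at hlt
        omega
      obtain ⟨α₁, X', α₂, i, x', l, e4, e5, e6, e7, e8, e9⟩ := ih h2 this
      refine ⟨X :: α₁, X', α₂, u.length + i, x', l, by rw [e4]; rfl, ?_, e6, e7, by omega, e9⟩
      rw [replicate_add]
      exact Par.cons h1 e5

/-- **No waiting**: if the powers of `b` in the language are the `b^(2^n)`, then `b` derives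
neither `b` nor the empty word. -/
theorem no_wait (hG : Gen G L) {b : ℕ} (hpow : ∀ k, 1 ≤ k → (replicate k b ∈ L ↔ ∃ n, k = 2 ^ n))
    {δ κ : ℕ} (hδ : 1 ≤ δ) (hκ : κ ≤ 1) : ¬ It (pr G) δ b (replicate κ b) := by
  intro h
  obtain ⟨C, hC⟩ := short_outcomes hδ hκ h
  obtain ⟨r, hr1, hr⟩ := pr_bound G
  have hb : b ∈ G.T := by
    have := (hG.exists ((hpow 1 le_rfl).2 ⟨0, rfl⟩)).1
    exact this b (by simp)
  set N := r * C + 1 with hN
  have hN2 : r * C + 1 < 2 ^ N := by rw [← hN]; exact Nat.lt_two_pow_self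
  have hpow2 : 2 ^ (N + 1) = 2 * 2 ^ N := by rw [pow_succ]; ring
  have hmem : replicate (2 ^ (N + 1)) b ∈ L := (hpow _ Nat.one_le_two_pow).2 ⟨N + 1, rfl⟩
  obtain ⟨_, _, T, hT⟩ := hG.exists hmem
  have claim : ∀ t, t ≤ T → ∃ u X v i x l, Par (It (pr G) t) [G.S] (u ++ ([X] ++ v)) ∧
      Par (It (pr G) (T - t)) u (replicate i b) ∧ It (pr G) (T - t) X (replicate x b) ∧
      Par (It (pr G) (T - t)) v (replicate l b) ∧ i + (x + l) = 2 ^ (N + 1) ∧ 2 ^ N ≤ x := by
    intro t
    induction t with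
    | zero =>
      intro _
      refine ⟨[], G.S, [], 0, 2 ^ (N + 1), 0, par_it_zero.2 rfl, Par.nil, hT, Par.nil, by omega,
        by omega⟩
    | succ t ih =>
      intro ht
      obtain ⟨u, X, v, i, x, l, h1, h2, h3, h4, h5, h6⟩ := ih (by omega)
      have e : T - t = (T - (t + 1)) + 1 := by omega
      rw [e] at h2 h3 h4
      obtain ⟨u', hu1, hu2⟩ := par_it_succ.1 h2
      obtain ⟨v', hv1, hv2⟩ := par_it_succ.1 h4
      obtain ⟨α, hα1, hα2⟩ := it_succ.1 h3
      have hlen : α.length * C < x := by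
        have h8 : α.length * C ≤ r * C := Nat.mul_le_mul_right _ (hr _ _ hα1)
        omega
      obtain ⟨α₁, X', α₂, i', x', l', e1, e2, e3, e4, e5, e6⟩ := exists_large' hα2 hlen
      have hreach : Par (It (pr G) (t + 1)) [G.S] ((u' ++ α₁) ++ ([X'] ++ (α₂ ++ v'))) := by
        rw [Par.it_succ']
        refine ⟨_, h1, ?_⟩
        have := hu1.append ((par_single.2 hα1).append hv1)
        rw [e1] at this
        simpa [append_assoc] using this
      have hX'V : X' ∈ G.V := by
        apply Rc.mem_V ⟨t + 1, hreach⟩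
        simp
      refine ⟨u' ++ α₁, X', α₂ ++ v', i + i', x', l' + l, hreach, ?_, e3, ?_, by omega, ?_⟩
      · rw [replicate_add]; exact hu2.append e2
      · rw [replicate_add]; exact e4.append hv2
      · obtain ⟨x'', g1, g2⟩ := hC X' hX'V _ _ e3
        have hnew : Par (It (pr G) (t + 1 + (T - (t + 1)))) [G.S]
            (replicate (i + i' + (x'' + (l' + l))) b) := by
          rw [par_it_add]
          refine ⟨_, hreach, ?_⟩
          rw [replicate_add, replicate_add, replicate_add, replicate_add]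
          exact (hu2.append e2).append ((par_single.2 g2).append (e4.append hv2))
        by_cases h0 : i + i' + (x'' + (l' + l)) = 0
        · omega
        · have hm : replicate (i + i' + (x'' + (l' + l))) b ∈ L := by
            apply hG.mem ⟨_, hnew⟩
            · intro y hy
              rw [eq_of_mem_replicate hy]; exact hb
            · intro h
              have := congrArg length h
              simp only [length_replicate, length_nil] at this
              exact h0 this
          obtain ⟨N', hN'⟩ := (hpow _ (by omega)).1 hm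
          by_cases hlt : 2 ^ N' < 2 ^ (N + 1)
          · have hlt' : N' < N + 1 := (Nat.pow_lt_pow_iff_right (by norm_num)).1 hlt
            have hle : 2 ^ N' ≤ 2 ^ N := Nat.pow_le_pow_right (by norm_num) (by omega)
            omega
          · have h8 : α.length * C ≤ r * C := Nat.mul_le_mul_right _ (hr _ _ hα1)
            -- then `x'' ≥ x'`, impossible as `x'' ≤ C < x'`
            omega
  obtain ⟨u, X, v, i, x, l, _, _, h3, _, _, h6⟩ := claim T le_rfl
  rw [Nat.sub_self, it_zero] at h3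
  have := congrArg length h3
  simp at this
  omega

end Pool.Agent.Helper79.EOL
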