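import Pool.Agent.Helper79.EOL.RC

/-!
# Incomplete forms by rate conflict, and the classification of the erasing forms
-/

namespace Pool.Agent.Helper79.EOL

open List Pool.Agent.Helper76.EOL

variable {F G' : Grammar} {a : ℕ}

/-- The number of terminals in terms of the types. -/
lemma hcount_T (w : List ℕ) : hcount (fun x => x ∈ G'.T) w = (w.map (tyB G')).count false := by
  induction w with
  | nil => rfl
  | cons x w ih =>
    rw [← singleton_append, hcount_append, map_append, count_append, ih]
    congr 1
    by_cases h : x ∈ G'.T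
    · rw [hcount_single h]
      simp [tyB, h]
    · rw [hcount_single' h]
      simp [tyB, h]

lemma mem_map_false {w : List ℕ} (h : false ∈ w.map (tyB G')) : ∃ y ∈ w, y ∈ G'.T := by
  rw [mem_map] at h
  obtain ⟨y, hy, h2⟩ := h
  exact ⟨y, hy, tyB_false.1 h2⟩

lemma eq_rep_true {w : List ℕ} (h : ∀ y ∈ w, y ∉ G'.T) :
    w.map (tyB G') = replicate w.length true := by
  rw [eq_replicate_iff]
  refine ⟨by simp, ?_⟩
  intro b hb
  rw [mem_map] at hb
  obtain ⟨x, hx, rfl⟩ := hb
  exact tyB_true.2 (h x hx)

lemma exists_pr_bound (hF : IsSaForm F a) (hG : Interprets G' F) (D : ℕ)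
    (hD : ∀ x w, Sh F a x w → w.length ≤ D) : ∀ x w, pr G' x w → w.length ≤ D := by
  intro x w h
  have := hD _ _ (typedB hF hG h)
  simpa using this

lemma exists_sh_bound (F : Grammar) (a : ℕ) :
    ∃ D, 2 ≤ D ∧ ∀ x w, Sh F a x w → w.length ≤ D := by
  obtain ⟨d, hd⟩ := sh_bound F a
  exact ⟨d + 2, by omega, fun x w h => (hd x w h).trans (by omega)⟩

/-- A complete form has an interpretation generating the rate conflict language. -/
lemma exists_gen_RC (hc : Complete F) {M : ℕ} (hM : 1 ≤ M) :
    ∃ G', Interprets G' F ∧ Gen G' (LRC M) := by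
  obtain ⟨G', h1, h2⟩ := exists_gen hc (sysRC M hM) VRC.st
  rw [sysRC_L] at h2
  exact ⟨G', h1, h2⟩

/-- Propagating forms without `S → S` and `a → S` are incomplete. -/
theorem neg_RC1 (hF : IsSaForm F a) (h0 : ∀ x w, Sh F a x w → w ≠ [])
    (h1 : ¬ Sh F a true [true]) (h2 : ¬ Sh F a false [true]) : ¬ Complete F := by
  intro hc
  obtain ⟨D, hD2, hD⟩ := exists_sh_bound F a
  obtain ⟨G', hI, hG⟩ := exists_gen_RC hc (M := D ^ 3) (Nat.one_le_pow _ _ (by omega))
  have hne : ∀ x w, pr G' x w → w ≠ [] := by
    intro x w h hw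
    subst hw
    exact h0 _ _ (typedB hF hI h) rfl
  apply rate_conflict (Hv := fun _ => True) hD2 (exists_pr_bound hF hI D hD) hG
  · intro X α h; exact absurd trivial h
  · refine ⟨1, ?_⟩
    intro n z w _ h _
    have := h.le_length (fun x v h => It.ne_nil hne h)
    omega
  · intro n₀ P ht
    refine ⟨(n₀ + P * (({0, 1, 2} : Finset ℕ).card + 2)) ^ 2, ?_⟩
    intro u v w₁ w w₂ Y τ hR hu hY hv hs1 hs hs2 hH
    apply ht.rate (Hv := fun _ => True) _ _ hR hu hY hv hs1 hs hs2 hH
    · intro X α _ hX
      obtain ⟨y, hy⟩ := exists_mem_of_ne_nil _ (hne _ _ hX)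
      exact ⟨y, hy, trivial⟩
    · intro X α _ hX hh
      have e : hcount (fun _ : ℕ => True) α = α.length := by
        unfold hcount
        simp
      rw [e] at hh
      have : 0 < α.length := length_pos_iff.2 (hne _ _ hX)
      obtain ⟨Z, rfl⟩ := length_eq_one_iff.1 (show α.length = 1 by omega)
      refine ⟨Z, rfl, ?_⟩
      by_contra hZ
      have h3 := typedB hF hI hX
      rw [map_cons, map_nil, tyB_true.2 hZ] at h3
      cases hb : tyB G' X
      · rw [hb] at h3; exact h2 h3
      · rw [hb] at h3; exact h1 h3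

/-- Propagating forms with persistent `a`, without `a → a` and without `S → S^s`, `s ≥ 2`. -/
theorem neg_RC2 (hF : IsSaForm F a) (h0 : ∀ x w, Sh F a x w → w ≠ [])
    (ha : ∀ w, Sh F a false w → false ∈ w) (h1 : ¬ Sh F a false [false])
    (hs : ∀ s, 2 ≤ s → ¬ Sh F a true (replicate s true)) : ¬ Complete F := by
  intro hc
  obtain ⟨D, hD2, hD⟩ := exists_sh_bound F a
  obtain ⟨G', hI, hG⟩ := exists_gen_RC hc (M := D ^ 3) (Nat.one_le_pow _ _ (by omega))
  have hne : ∀ x w, pr G' x w → w ≠ [] := by
    intro x w h hw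
    subst hw
    exact h0 _ _ (typedB hF hI h) rfl
  apply rate_conflict (Hv := fun x => x ∈ G'.T) hD2 (exists_pr_bound hF hI D hD) hG
  · intro X α hX h
    by_cases hh : ∃ Y ∈ α, Y ∈ G'.T
    · exact Or.inr (Or.inr hh)
    · push Not at hh
      have h3 := typedB hF hI h
      rw [tyB_true.2 hX, eq_rep_true hh] at h3
      have h4 : ¬ 2 ≤ α.length := fun h5 => hs _ h5 h3
      have : 0 < α.length := length_pos_iff.2 (hne _ _ h)
      obtain ⟨Z, rfl⟩ := length_eq_one_iff.1 (show α.length = 1 by omega)
      exact Or.inr (Or.inl ⟨Z, rfl, hh Z (by simp)⟩)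
  · refine ⟨1, ?_⟩
    intro n z w _ h _
    have := h.le_length (fun x v h => It.ne_nil hne h)
    omega
  · intro n₀ P _
    refine ⟨0, ?_⟩
    have key : ∀ τ Y w, Y ∈ G'.T → It (pr G') τ Y w → τ + 1 ≤ w.length := by
      intro τ
      induction τ with
      | zero =>
        intro Y w _ h
        rw [it_zero] at h
        simp [h]
      | succ τ ih =>
        intro Y w hY h
        obtain ⟨α, h3, h4⟩ := it_succ.1 h
        have h5 := typedB hF hI h3
        rw [tyB_false.2 hY] at h5
        obtain ⟨Z, hZ, hZT⟩ := mem_map_false (ha _ h5)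
        have hlen : 2 ≤ α.length := by
          by_contra hcon
          have : 0 < α.length := length_pos_iff.2 (hne _ _ h3)
          obtain ⟨Z', rfl⟩ := length_eq_one_iff.1 (show α.length = 1 by omega)
          rw [mem_singleton] at hZ
          subst hZ
          rw [map_cons, map_nil, tyB_false.2 hZT] at h5
          exact h1 h5
        obtain ⟨u, v, rfl⟩ := append_of_mem hZ
        rw [← singleton_append] at h4
        obtain ⟨wu, w', h6, h7, rfl⟩ := par_append.1 h4
        obtain ⟨wZ, wv, h8, h9, rfl⟩ := par_append.1 h7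
        have e1 := ih Z wZ hZT (par_single.1 h8)
        have e2 := h6.le_length (fun x v h => It.ne_nil hne h)
        have e3 := h9.le_length (fun x v h => It.ne_nil hne h)
        simp only [length_append, length_cons] at hlen ⊢
        omega
    intro u v w₁ w w₂ Y τ _ _ hY _ _ _ _ hH
    have := key τ Y w hH hY
    omega

/-- Forms with `S → λ` possible but no real help for `a`. -/
theorem neg_E (hF : IsSaForm F a) (ha : ∀ w, Sh F a false w → false ∈ w)
    (hmix : ∀ w, Sh F a false w → true ∈ w → 2 ≤ w.count false)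
    (hs : ∀ s, 2 ≤ s → ¬ Sh F a true (replicate s true)) : ¬ Complete F := by
  intro hc
  obtain ⟨D, hD2, hD⟩ := exists_sh_bound F a
  obtain ⟨G', hI, hG⟩ := exists_gen_RC hc (M := D ^ 3) (Nat.one_le_pow _ _ (by omega))
  have hb := exists_pr_bound hF hI D hD
  have r2 : ∀ X α, X ∈ G'.T → pr G' X α → ∃ y ∈ α, y ∈ G'.T := by
    intro X α hX h
    have h5 := typedB hF hI h
    rw [tyB_false.2 hX] at h5
    exact mem_map_false (ha _ h5)
  have hcS : ∀ X α, X ∉ G'.T → pr G' X α → (∀ Y ∈ α, Y ∉ G'.T) → α.length ≤ 1 := by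
    intro X α hX h hh
    have h3 := typedB hF hI h
    rw [tyB_true.2 hX, eq_rep_true hh] at h3
    have h4 : ¬ 2 ≤ α.length := fun h5 => hs _ h5 h3
    omega
  have hca : ∀ X α, X ∈ G'.T → pr G' X α → hcount (fun x => x ∈ G'.T) α ≤ 1 →
      ∃ Z, α = [Z] ∧ Z ∈ G'.T := by
    intro X α hX h hh
    have h5 := typedB hF hI h
    rw [tyB_false.2 hX] at h5
    rw [hcount_T] at hh
    have h6 : true ∉ α.map (tyB G') := by
      intro h7
      have := hmix _ h5 h7
      omega
    have h7 : α.map (tyB G') = replicate (α.map (tyB G')).length false := by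
      apply eq_replicate_of_mem
      intro b hb
      cases b
      · rfl
      · exact absurd hb h6
    have h8 := ha _ h5
    rw [h7, count_replicate_self, length_map] at hh
    have h9 : 0 < α.length := by
      rw [length_pos_iff]
      rintro rfl
      simp at h8
    obtain ⟨Z, rfl⟩ := length_eq_one_iff.1 (show α.length = 1 by omega)
    obtain ⟨y, hy, hyT⟩ := mem_map_false h8
    rw [mem_singleton] at hy
    subst hy
    exact ⟨y, rfl, hyT⟩
  apply rate_conflict (Hv := fun x => x ∈ G'.T) hD2 hb hG
  · intro X α hX h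
    by_cases hh : ∃ Y ∈ α, Y ∈ G'.T
    · exact Or.inr (Or.inr hh)
    · push Not at hh
      have h4 := hcS X α hX h hh
      rcases Nat.eq_zero_or_pos α.length with h5 | h5
      · exact Or.inl (length_eq_zero_iff.1 h5)
      · obtain ⟨Z, rfl⟩ := length_eq_one_iff.1 (show α.length = 1 by omega)
        exact Or.inr (Or.inl ⟨Z, rfl, hh Z (by simp)⟩)
  · refine ⟨D + 2, ?_⟩
    intro n z w hR h hT
    have pot : ∀ {z z' : List ℕ}, Par (pr G') z z' →
        z'.length + (D + 1) * hcount (fun x => x ∈ G'.T) z ≤
          z.length + (D + 1) * hcount (fun x => x ∈ G'.T) z' := by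
      intro z z' h
      induction h with
      | nil => simp
      | @cons X α xs v hX _ ih =>
        rw [← singleton_append, hcount_append, hcount_append, length_append, length_append]
        have hα := hb _ _ hX
        have : α.length + (D + 1) * hcount (fun x => x ∈ G'.T) [X] ≤
            [X].length + (D + 1) * hcount (fun x => x ∈ G'.T) α := by
          by_cases hXT : X ∈ G'.T
          · rw [hcount_single hXT]
            by_cases h2 : hcount (fun x => x ∈ G'.T) α ≤ 1
            · obtain ⟨Z, rfl, hZ⟩ := hca X α hXT hX h2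
              rw [hcount_single hZ]
              simp
            · have : (D + 1) * 2 ≤ (D + 1) * hcount (fun x => x ∈ G'.T) α :=
                Nat.mul_le_mul_left _ (by omega)
              simp only [length_singleton]
              omega
          · rw [hcount_single' hXT]
            by_cases h2 : 1 ≤ hcount (fun x => x ∈ G'.T) α
            · have : (D + 1) * 1 ≤ (D + 1) * hcount (fun x => x ∈ G'.T) α :=
                Nat.mul_le_mul_left _ h2
              simp only [length_singleton]
              omega
            · rw [hcount_pos] at h2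
              push Not at h2
              have := hcS X α hXT hX h2
              simp only [length_singleton]
              omega
        rw [Nat.mul_add, Nat.mul_add]
        omega
    have inv : ∀ t z, Par (It (pr G') t) [G'.S] z →
        z.length ≤ 1 + (D + 1) * hcount (fun x => x ∈ G'.T) z := by
      intro t
      induction t with
      | zero =>
        intro z h
        rw [par_it_zero] at h
        rw [← h]
        simp
      | succ t ih =>
        intro z h
        obtain ⟨z', h1, h2⟩ := Par.it_succ'.1 h
        have := ih z' h1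
        have := pot h2
        omega
    obtain ⟨t, ht⟩ := hR
    have h1 := inv t z ht
    have h2 := hcount_par (Hv := fun x => x ∈ G'.T) r2 h
    have h3 := hcount_le_length (Hv := fun x => x ∈ G'.T) w
    have h4 : (D + 1) * hcount (fun x => x ∈ G'.T) z ≤ (D + 1) * w.length :=
      Nat.mul_le_mul_left _ (h2.trans h3)
    have h5 : (D + 1) * w.length + 1 ≤ (D + 2) * (w.length + 1) := by nlinarith
    omega
  · intro n₀ P ht
    refine ⟨(n₀ + P * (({0, 1, 2} : Finset ℕ).card + 2)) ^ 2, ?_⟩
    intro u v w₁ w w₂ Y τ hR hu hY hv hs1 hs hs2 hH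
    exact ht.rate (Hv := fun x => x ∈ G'.T) r2 hca hR hu hY hv hs1 hs hs2 hH

/-- **Classification of the erasing forms.** -/
theorem complete_iff_of_erasing (hF : IsSaForm F a) (he : ∃ x, Sh F a x []) :
    Complete F ↔ (∃ w, Sh F a false w ∧ true ∈ w) ∧ (∀ k, 1 ≤ k → GK (Sh F a) k) ∧
      Reg1 (Sh F a) := by
  constructor
  · intro hc
    refine ⟨A0_of_complete hF hc, fun k hk => GK_of_complete hF hc hk, ?_⟩
    by_contra hcon
    have n1 : ¬ Sh F a false [] := fun h => hcon (Or.inl h)
    have e1 : Sh F a true [] := by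
      obtain ⟨x, hx⟩ := he
      cases x
      · exact absurd hx n1
      · exact hx
    have n2 : ∀ j, 1 ≤ j → ¬ Sh F a false (replicate j true) :=
      fun j hj h => hcon (Or.inr (Or.inl ⟨e1, j, hj, h⟩))
    have n3 : ∀ s, 2 ≤ s → ¬ Sh F a true (replicate s true) :=
      fun s hs h => hcon (Or.inr (Or.inr (Or.inr (Or.inl ⟨e1, s, hs, h⟩))))
    have ha : ∀ w, Sh F a false w → false ∈ w := by
      intro w hw
      by_contra h
      have hw' : w = replicate w.length true := by
        apply eq_replicate_of_mem
        intro b hb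
        cases b
        · exact absurd hb h
        · rfl
      rcases Nat.eq_zero_or_pos w.length with h6 | h6
      · rw [length_eq_zero_iff] at h6
        subst h6
        exact n1 hw
      · rw [hw'] at hw
        exact n2 _ h6 hw
    refine neg_E hF ha ?_ n3 hc
    intro w hw ht
    by_contra h
    have h1 : 1 ≤ w.count false := count_pos_iff.2 (ha w hw)
    exact hcon (Or.inr (Or.inr (Or.inr (Or.inr ⟨e1, w, hw, by omega, ht⟩))))
  · rintro ⟨h1, h2, h3⟩
    exact complete_of_reg1 hF h2 h1 h3

end Pool.Agent.Helper79.EOL
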