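import Pool.Agent.Helper79.EOL.CornerC
import Pool.Agent.Helper79.EOL.NegRC

/-!
# Incomplete forms by the corner languages, and the necessary condition
-/

namespace Pool.Agent.Helper79.EOL

open List Pool.Agent.Helper76.EOL

/-! ### Reversal -/

lemma Par.reverse {α β : Type*} {N : α → List β → Prop} {u : List α} {w : List β}
    (h : Par N u w) : Par (fun x v => N x v.reverse) u.reverse w.reverse := by
  induction h with
  | nil => exact Par.nil
  | @cons x u xs v h1 _ ih =>
    rw [reverse_cons, reverse_append]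
    exact ih.append (par_single.2 (by rw [reverse_reverse]; exact h1))

lemma par_reverse {α β : Type*} {N : α → List β → Prop} {u : List α} {w : List β} :
    Par (fun x v => N x v.reverse) u.reverse w.reverse ↔ Par N u w := by
  constructor
  · intro h
    have := h.reverse
    simpa using this
  · exact Par.reverse

lemma it_reverse {α : Type*} {N : α → List α → Prop} {n : ℕ} {x : α} {w : List α} :
    It (fun x v => N x v.reverse) n x w.reverse ↔ It N n x w := by
  induction n generalizing x w with
  | zero =>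
    rw [it_zero, it_zero]
    constructor
    · intro h
      have := congrArg List.reverse h
      simpa using this
    · rintro rfl; rfl
  | succ n ih =>
    rw [it_succ, it_succ]
    constructor
    · rintro ⟨u, h1, h2⟩
      refine ⟨u.reverse, h1, ?_⟩
      rw [← par_reverse, reverse_reverse]
      apply h2.mono
      intro x v hv
      rw [← ih, reverse_reverse]
      exact hv
    · rintro ⟨u, h1, h2⟩
      refine ⟨u.reverse, by simpa using h1, ?_⟩
      have h3 := h2.reverse
      apply h3.mono
      intro x v hv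
      rw [← ih, reverse_reverse] at hv
      exact hv

/-- The reversed system. -/
def Sys.rev {V : Type} (H : Sys V) : Sys V where
  N x w := H.N x w.reverse
  F x w := H.F x w.reverse
  N_ne := fun x w h hw => H.N_ne x _ h (by rw [hw]; rfl)
  F_ne := fun x w h hw => H.F_ne x _ h (by rw [hw]; rfl)
  N_fin := fun x => by
    have := (H.N_fin x).image List.reverse
    apply this.subset
    intro w hw
    exact ⟨w.reverse, hw, by simp⟩
  F_fin := fun x => by
    have := (H.F_fin x).image List.reverse
    apply this.subset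
    intro w hw
    exact ⟨w.reverse, hw, by simp⟩

lemma Sys.mem_rev_L {V : Type} {H : Sys V} {x : V} {w : List ℕ} :
    w ∈ H.rev.L [x] ↔ w.reverse ∈ H.L [x] := by
  constructor
  · rintro ⟨n, v, h1, h2⟩
    refine ⟨n, v.reverse, ?_, ?_⟩
    · rw [par_single] at h1 ⊢
      rw [← it_reverse, reverse_reverse]
      exact h1
    · have := h2.reverse
      apply this.mono
      intro x v hv
      have : H.F x v.reverse.reverse := hv
      rwa [reverse_reverse] at this
  · rintro ⟨n, v, h1, h2⟩
    refine ⟨n, v.reverse, ?_, ?_⟩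
    · rw [par_single] at h1 ⊢
      exact it_reverse.2 h1
    · have := h2.reverse
      rw [reverse_reverse] at this
      exact this

variable {F G' : Grammar} {a : ℕ}

lemma persist_of (hF : IsSaForm F a) (hI : Interprets G' F)
    (ha : ∀ w, Sh F a false w → false ∈ w) :
    ∀ X α, X ∈ G'.T → pr G' X α → ∃ y ∈ α, y ∈ G'.T := by
  intro X α hX h
  have h5 := typedB hF hI h
  rw [tyB_false.2 hX] at h5
  exact mem_map_false (ha _ h5)

lemma unary_of (hF : IsSaForm F a) (hI : Interprets G' F) (h0 : ∀ x w, Sh F a x w → w ≠ [])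
    (hs : ∀ s, 2 ≤ s → ¬ Sh F a true (replicate s true)) :
    ∀ X α, X ∉ G'.T → pr G' X α → (∀ y ∈ α, y ∉ G'.T) → α.length = 1 := by
  intro X α hX h hh
  have h3 := typedB hF hI h
  have hne : α ≠ [] := by
    rintro rfl
    exact h0 _ _ h3 rfl
  have h5 := length_pos_iff.2 hne
  rw [tyB_true.2 hX, eq_rep_true hh] at h3
  have h4 : ¬ 2 ≤ α.length := fun h5 => hs _ h5 h3
  omega

/-- Corner (a): no mixed `S`-production with exactly one `a`. -/
theorem neg_A (hF : IsSaForm F a) (h0 : ∀ x w, Sh F a x w → w ≠ [])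
    (ha : ∀ w, Sh F a false w → false ∈ w)
    (hs : ∀ s, 2 ≤ s → ¬ Sh F a true (replicate s true))
    (hA : ∀ w, Sh F a true w → true ∈ w → false ∈ w → 2 ≤ w.count false) : ¬ Complete F := by
  intro hc
  obtain ⟨D, hD2, hD⟩ := exists_sh_bound F a
  obtain ⟨G', hI, hG⟩ := exists_gen hc sysLA VA.st
  rw [sysLA_L] at hG
  have hne : ∀ x w, pr G' x w → w ≠ [] := by
    intro x w h hw
    subst hw
    exact h0 _ _ (typedB hF hI h) rfl
  apply cornerA hD2 (exists_pr_bound hF hI D hD) hG hne (persist_of hF hI ha)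
  intro X α hX h
  by_cases h1 : ∀ y ∈ α, y ∉ G'.T
  · left
    obtain ⟨Z, rfl⟩ := length_eq_one_iff.1 (unary_of hF hI h0 hs X α hX h h1)
    exact ⟨Z, h1 Z (by simp), rfl⟩
  · by_cases h2 : ∀ y ∈ α, y ∈ G'.T
    · exact Or.inr (Or.inl h2)
    · right; right
      push Not at h1 h2
      obtain ⟨y, hy, hyT⟩ := h1
      obtain ⟨z, hz, hzT⟩ := h2
      rw [hcount_T]
      have h3 := typedB hF hI h
      rw [tyB_true.2 hX] at h3
      exact hA _ h3 (mem_map.2 ⟨z, hz, tyB_true.2 hzT⟩) (mem_map.2 ⟨y, hy, tyB_false.2 hyT⟩)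

/-- Corner (c): no production `a → a S^j`, `j ≥ 1`. -/
theorem neg_C (hF : IsSaForm F a) (h0 : ∀ x w, Sh F a x w → w ≠ [])
    (ha : ∀ w, Sh F a false w → false ∈ w)
    (hs : ∀ s, 2 ≤ s → ¬ Sh F a true (replicate s true))
    (hC : ∀ j, 1 ≤ j → ¬ Sh F a false (false :: replicate j true)) : ¬ Complete F := by
  intro hc
  obtain ⟨D, hD2, hD⟩ := exists_sh_bound F a
  obtain ⟨G', hI, hG⟩ := exists_gen hc (sysLC D (by omega)) VC.st
  rw [sysLC_L] at hG
  have hne : ∀ x w, pr G' x w → w ≠ [] := by
    intro x w h hw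
    subst hw
    exact h0 _ _ (typedB hF hI h) rfl
  apply cornerC hD2 (exists_pr_bound hF hI D hD) hG hne (persist_of hF hI ha)
    (unary_of hF hI h0 hs)
  intro X Z β hX hZ h hβ
  have h3 := typedB hF hI h
  rw [map_cons, tyB_false.2 hX, tyB_false.2 hZ, eq_rep_true hβ] at h3
  by_contra hcon
  exact hC _ (length_pos_iff.2 hcon) h3

/-- Corner (b): no production `a → S^i a`, `i ≥ 1`. -/
theorem neg_B (hF : IsSaForm F a) (h0 : ∀ x w, Sh F a x w → w ≠ [])
    (ha : ∀ w, Sh F a false w → false ∈ w)
    (hs : ∀ s, 2 ≤ s → ¬ Sh F a true (replicate s true))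
    (hB : ∀ j, 1 ≤ j → ¬ Sh F a false (replicate j true ++ [false])) : ¬ Complete F := by
  intro hc
  obtain ⟨D, hD2, hD⟩ := exists_sh_bound F a
  obtain ⟨G', hI, hG⟩ := exists_gen hc (sysLC D (by omega)).rev VC.st
  have hG' : Gen (rev G') (LC D) := by
    ext w
    have h1 := Set.ext_iff.1 hG w.reverse
    rw [Sys.mem_rev_L, reverse_reverse, sysLC_L] at h1
    rw [← h1]
    simp only [Set.mem_diff, Set.mem_singleton_iff, mem_lang_rev, reverse_eq_nil_iff]
  have hpr : ∀ X α, pr (rev G') X α → pr G' X α.reverse := fun X α h => mem_rev.1 h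
  have hne : ∀ x w, pr G' x w → w ≠ [] := by
    intro x w h hw
    subst hw
    exact h0 _ _ (typedB hF hI h) rfl
  refine cornerC (G := rev G') hD2 ?_ hG' ?_ ?_ ?_ ?_
  · intro x w h
    have := exists_pr_bound hF hI D hD _ _ (hpr _ _ h)
    simpa using this
  · intro x w h hw
    exact hne _ _ (hpr _ _ h) (by rw [hw]; rfl)
  · intro X α hX h
    obtain ⟨y, hy, hyT⟩ := persist_of hF hI ha X _ hX (hpr _ _ h)
    exact ⟨y, mem_reverse.1 hy, hyT⟩
  · intro X α hX h hh
    have := unary_of hF hI h0 hs X _ hX (hpr _ _ h) (fun y hy => hh y (mem_reverse.1 hy))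
    simpa using this
  · intro X Z β hX hZ h hβ
    have h3 := typedB hF hI (hpr _ _ h)
    have hX' : X ∈ G'.T := hX
    have hZ' : Z ∈ G'.T := hZ
    have hβ' : ∀ y ∈ β, y ∉ G'.T := hβ
    rw [reverse_cons, map_append, map_cons, map_nil, tyB_false.2 hX', tyB_false.2 hZ',
      eq_rep_true (fun y hy => hβ' y (mem_reverse.1 hy))] at h3
    by_contra hcon
    refine hB _ ?_ h3
    rw [length_reverse]
    exact length_pos_iff.2 hcon

/-- **Necessary condition** for the completeness of the propagating forms. -/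
theorem cond_of_complete (hF : IsSaForm F a) (h0 : ∀ x w, Sh F a x w → w ≠ [])
    (hc : Complete F) : Sh F a false [true] ∨
      (Sh F a true [true] ∧ ((∃ j, 2 ≤ j ∧ Sh F a true (replicate j true)) ∨
        ∃ j, 2 ≤ j ∧ Sh F a false (replicate j true))) ∨
      (Sh F a true [true] ∧ Sh F a false [false] ∧
        (∃ w, Sh F a true w ∧ true ∈ w ∧ w.count false = 1) ∧
        (∃ i, 1 ≤ i ∧ Sh F a false (replicate i true ++ [false])) ∧
        ∃ j, 1 ≤ j ∧ Sh F a false (false :: replicate j true)) := by
  by_contra hcon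
  push Not at hcon
  obtain ⟨g1, g2, g3⟩ := hcon
  by_cases h1 : Sh F a true [true]
  · obtain ⟨g4, g5⟩ := g2 h1
    have ha : ∀ w, Sh F a false w → false ∈ w := by
      intro w hw
      by_contra hf
      have hw' : w = replicate w.length true := by
        apply eq_replicate_of_mem
        intro b hb
        cases b
        · exact absurd hb hf
        · rfl
      have hpos := length_pos_iff.2 (h0 _ _ hw)
      rw [hw'] at hw
      by_cases h2 : 2 ≤ w.length
      · exact g5 _ h2 hw
      · have h4 : w.length = 1 := by omega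
        rw [h4] at hw
        exact g1 hw
    by_cases h2 : Sh F a false [false]
    · by_cases h3 : ∃ w, Sh F a true w ∧ true ∈ w ∧ w.count false = 1
      · by_cases h4 : ∃ i, 1 ≤ i ∧ Sh F a false (replicate i true ++ [false])
        · exact neg_C hF h0 ha g4 (g3 h1 h2 h3 h4) hc
        · push Not at h4
          exact neg_B hF h0 ha g4 h4 hc
      · push Not at h3
        refine neg_A hF h0 ha g4 ?_ hc
        intro w hw ht hf
        have h5 := h3 w hw ht
        have h6 : 1 ≤ w.count false := count_pos_iff.2 hf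
        omega
    · exact neg_RC2 hF h0 ha h2 g4 hc
  · exact neg_RC1 hF h0 h1 g1 hc

end Pool.Agent.Helper79.EOL
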