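import Pool.Agent.Helper79.EOL.NegBasic

/-!
# Necessary conditions: guarded powers; `a` must be able to introduce `S`
-/

namespace Pool.Agent.Helper79.EOL

open List Pool.Agent.Helper76.EOL

lemma par_typed {G' F : Grammar} {a : ℕ} (hF : IsSaForm F a) (h : Interprets G' F)
    {u v : List ℕ} (huv : Par (pr G') u v) :
    Par (Sh F a) (u.map (tyB G')) (v.map (tyB G')) := by
  induction huv with
  | nil => exact Par.nil
  | cons h1 _ ih =>
    rw [map_cons, map_append]
    exact Par.cons (typedB hF h h1) ih

lemma map_ty_of_terminal {G' : Grammar} {w : List ℕ} (h : ∀ x ∈ w, x ∈ G'.T) :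
    w.map (tyB G') = replicate w.length false := by
  rw [eq_replicate_iff]
  refine ⟨by simp, ?_⟩
  intro b hb
  rw [mem_map] at hb
  obtain ⟨x, hx, rfl⟩ := hb
  exact tyB_false.2 (h x hx)

/-- The system generating one word. -/
def sysWord (w : List ℕ) (hw : w ≠ []) : Sys Unit where
  N _ _ := False
  F _ v := v = w
  N_ne := fun _ _ h => h.elim
  F_ne := fun _ _ h => by rw [h]; exact hw
  N_fin := fun _ => by simp
  F_fin := fun _ => by simp

lemma sysWord_L {w : List ℕ} (hw : w ≠ []) : (sysWord w hw).L [()] = {w} := by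
  ext v
  constructor
  · rintro ⟨n, u, h1, h2⟩
    rw [par_single] at h1
    cases n with
    | zero =>
      rw [it_zero] at h1; subst h1
      have h3 : (sysWord w hw).F () v := par_single.1 h2
      exact Set.mem_singleton_iff.2 h3
    | succ n =>
      obtain ⟨_, h3, _⟩ := h1
      exact h3.elim
  · intro hv
    rw [Set.mem_singleton_iff] at hv
    exact ⟨0, [()], par_it_zero.2 rfl, par_single.2 hv⟩

/-- Completeness requires all guarded powers. -/
theorem GK_of_complete {F : Grammar} {a : ℕ} (hF : IsSaForm F a) (hc : Complete F) {k : ℕ}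
    (hk : 1 ≤ k) : GK (Sh F a) k := by
  have hne : replicate k 0 ≠ ([] : List ℕ) := by
    intro h
    have := congrArg length h
    simp at this; omega
  obtain ⟨G', hG', hL⟩ := exists_gen hc (sysWord (replicate k 0) hne) ()
  rw [sysWord_L] at hL
  have hL' : Gen G' {replicate k 0} := hL
  obtain ⟨hT, _, n, hn⟩ := hL'.exists rfl
  have key : ∀ (n m : ℕ) (z : List ℕ), Rc G' z → GCh (Sh F a) m [true] (z.map (tyB G')) →
      true ∈ z.map (tyB G') → Par (It (pr G') n) z (replicate k 0) → GK (Sh F a) k := by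
    intro n
    induction n with
    | zero =>
      intro m z _ _ hz h
      rw [par_it_zero] at h
      subst h
      rw [map_ty_of_terminal hT] at hz
      have := eq_of_mem_replicate hz
      simp at this
    | succ n ih =>
      intro m z hR hg hz h
      obtain ⟨z₁, h1, h2⟩ := par_it_succ.1 h
      have hg' := GCh.succ'.2 ⟨_, hg, hz, par_typed hF hG' h1⟩
      by_cases ht : true ∈ z₁.map (tyB G')
      · exact ih (m + 1) z₁ (hR.step h1) hg' ht h2
      · have hT1 : ∀ x ∈ z₁, x ∈ G'.T := by
          intro x hx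
          rw [← tyB_false]
          cases hb : tyB G' x
          · rfl
          · exact absurd (mem_map.2 ⟨x, hx, hb⟩) ht
        have hne1 : z₁ ≠ [] := by
          rintro rfl
          rw [par_nil] at h2
          exact hne h2
        have := hL'.mem (hR.step h1) hT1 hne1
        rw [Set.mem_singleton_iff] at this
        subst this
        rw [map_ty_of_terminal hT, length_replicate] at hg'
        exact ⟨m, hg'⟩
  apply key n 0 [G'.S] Rc.start
  · have : tyB G' G'.S = true := tyB_true.2 G'.S_notMem
    rw [map_cons, map_nil, this]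
    rfl
  · have : tyB G' G'.S = true := tyB_true.2 G'.S_notMem
    simp [this]
  · exact par_single.2 hn

/-! ### The language `{b^(2^n)} ∪ {cccbbb}` -/

/-- A system for `{b^(2^n)} ∪ {cccbbb}` with `b = 0`, `c = 1`. -/
def sysA : Sys Bool where
  N x w := (x = true ∧ w = [false]) ∨ (x = false ∧ w = [false, false])
  F x w := (x = true ∧ w = [1, 1, 1, 0, 0, 0]) ∨ (x = false ∧ w = [0])
  N_ne := by rintro x w (⟨_, rfl⟩ | ⟨_, rfl⟩) <;> simp
  F_ne := by rintro x w (⟨_, rfl⟩ | ⟨_, rfl⟩) <;> simp
  N_fin := by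
    intro x
    apply (Set.Finite.insert [false] (Set.finite_singleton [false, false])).subset
    rintro w (⟨_, rfl⟩ | ⟨_, rfl⟩) <;> simp
  F_fin := by
    intro x
    apply (Set.Finite.insert [1, 1, 1, 0, 0, 0] (Set.finite_singleton [0])).subset
    rintro w (⟨_, rfl⟩ | ⟨_, rfl⟩) <;> simp

lemma sysA_pow {n : ℕ} {v : List Bool} : It sysA.N n false v ↔ v = replicate (2 ^ n) false := by
  induction n generalizing v with
  | zero => rw [it_zero]; rfl
  | succ n ih =>
    rw [it_succ]
    have hN : ∀ w, sysA.N false w ↔ w = [false, false] := by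
      intro w
      simp [sysA]
    constructor
    · rintro ⟨u, h1, h2⟩
      rw [hN] at h1; subst h1
      obtain ⟨x, y, h3, h4, rfl⟩ := par_cons.1 h2
      rw [par_single, ih] at h4
      rw [ih] at h3
      rw [h3, h4, ← replicate_add, pow_succ]
      congr 1
      ring
    · rintro rfl
      refine ⟨_, (hN _).2 rfl, ?_⟩
      rw [pow_succ, Nat.mul_two, replicate_add]
      exact Par.cons (ih.2 rfl) (par_single.2 (ih.2 rfl))

lemma par_F_rep {V : Type} {H : Sys V} {x : V} {l : ℕ} (hF : ∀ w, H.F x w ↔ w = [l]) {k : ℕ}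
    {w : List ℕ} : Par H.F (replicate k x) w ↔ w = replicate k l := by
  induction k generalizing w with
  | zero => exact par_nil
  | succ k ih =>
    rw [replicate_succ, replicate_succ, par_cons]
    constructor
    · rintro ⟨u, v, h1, h2, rfl⟩
      rw [hF] at h1; subst h1
      rw [ih] at h2; subst h2
      rfl
    · rintro rfl
      exact ⟨[l], replicate k l, (hF _).2 rfl, ih.2 rfl, rfl⟩

lemma sysA_L : sysA.L [true] = {w | w = [1, 1, 1, 0, 0, 0] ∨ ∃ n, w = replicate (2 ^ n) 0} := by
  have hF : ∀ w, sysA.F false w ↔ w = [0] := by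
    intro w
    simp [sysA]
  ext w
  constructor
  · rintro ⟨n, v, h1, h2⟩
    rw [par_single] at h1
    cases n with
    | zero =>
      rw [it_zero] at h1; subst h1
      rw [par_single] at h2
      rcases h2 with ⟨_, h⟩ | ⟨h, _⟩
      · exact Or.inl h
      · exact absurd h (by simp)
    | succ n =>
      obtain ⟨u, h3, h4⟩ := h1
      rcases h3 with ⟨_, rfl⟩ | ⟨h, _⟩
      · rw [par_single, sysA_pow] at h4
        subst h4
        rw [par_F_rep hF] at h2
        exact Or.inr ⟨n, h2⟩
      · exact absurd h (by simp)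
  · rintro (rfl | ⟨n, rfl⟩)
    · exact ⟨0, [true], par_it_zero.2 rfl, par_single.2 (Or.inl ⟨rfl, rfl⟩)⟩
    · refine ⟨n + 1, replicate (2 ^ n) false, ?_, (par_F_rep hF).2 rfl⟩
      rw [par_single, it_succ]
      exact ⟨[false], Or.inl ⟨rfl, rfl⟩, par_single.2 (sysA_pow.2 rfl)⟩

/-- Completeness requires an `a`-production containing `S`. -/
theorem A0_of_complete {F : Grammar} {a : ℕ} (hF : IsSaForm F a) (hc : Complete F) :
    ∃ w, Sh F a false w ∧ true ∈ w := by
  by_contra hcon
  push Not at hcon
  obtain ⟨G', hG', hL⟩ := exists_gen hc sysA true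
  rw [sysA_L] at hL
  have hL' : Gen G' {w | w = [1, 1, 1, 0, 0, 0] ∨ ∃ n, w = replicate (2 ^ n) 0} := hL
  have hpow : ∀ k, 1 ≤ k → (replicate k 0 ∈ {w : List ℕ | w = [1, 1, 1, 0, 0, 0] ∨
      ∃ n, w = replicate (2 ^ n) 0} ↔ ∃ n, k = 2 ^ n) := by
    intro k hk
    simp only [Set.mem_ofPred_eq]
    constructor
    · rintro (h | ⟨n, h⟩)
      · have : (1 : ℕ) ∈ replicate k 0 := by rw [h]; simp
        have := eq_of_mem_replicate this
        simp at this
      · refine ⟨n, ?_⟩
        have := congrArg length h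
        simpa using this
    · rintro ⟨n, rfl⟩
      exact Or.inr ⟨n, rfl⟩
  have m1 : ([1, 1, 1, 0, 0, 0] : List ℕ) ∈ {w : List ℕ | w = [1, 1, 1, 0, 0, 0] ∨
      ∃ n, w = replicate (2 ^ n) 0} := Or.inl rfl
  obtain ⟨hT, _, _⟩ := hL'.exists m1
  have h0T : 0 ∈ G'.T := hT 0 (by simp)
  have h1T : 1 ∈ G'.T := hT 1 (by simp)
  -- terminal letters produce terminal words
  have hter : ∀ x ∈ G'.T, ∀ β, pr G' x β → ∀ y ∈ β, y ∈ G'.T := by
    intro x hx β hβ y hy
    have h := typedB hF hG' hβ
    rw [tyB_false.2 hx] at h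
    rw [← tyB_false]
    cases hb : tyB G' y
    · rfl
    · exact absurd (mem_map.2 ⟨y, hy, hb⟩) (hcon _ h)
  obtain ⟨β, hβ⟩ := G'.total 0 (G'.T_sub h0T)
  obtain ⟨γ, hγ⟩ := G'.total 1 (G'.T_sub h1T)
  have hβT := hter 0 h0T β hβ
  have hγT := hter 1 h1T γ hγ
  have hβ' : pr G' 0 β := hβ
  have hγ' : pr G' 1 γ := hγ
  by_cases hβ0 : β = []
  · subst hβ0
    exact no_wait hL' hpow (δ := 1) (κ := 0) le_rfl (by omega) (it_one.2 hβ')
  · -- `β` is a power of `b`
    have r2 : Rc G' ([0, 0] : List ℕ) := hL'.rc (Or.inr ⟨1, rfl⟩)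
    have r2' : Rc G' (β ++ β) := r2.step (Par.cons hβ' (par_single.2 hβ'))
    have m2 := hL'.mem r2' (by
      intro y hy
      rw [mem_append] at hy
      rcases hy with hy | hy <;> exact hβT y hy) (by simp [hβ0])
    obtain ⟨κ, hκ1, hκ⟩ : ∃ κ, 1 ≤ κ ∧ β = replicate κ 0 := by
      refine ⟨β.length, length_pos_iff.2 hβ0, ?_⟩
      rcases m2 with h | ⟨n, h⟩
      · exfalso
        have hlen := congrArg length h
        simp only [length_append, length_cons, length_nil] at hlen
        have hb3 : β.length = 3 := by omega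
        have h5 := congrArg (List.take 3) h
        have h6 := congrArg (List.drop 3) h
        rw [take_append_of_le_length (by omega), take_of_length_le (by omega)] at h5
        rw [drop_append_of_le_length (by omega), drop_of_length_le (by omega)] at h6
        rw [h5] at h6
        simp at h6
      · exact (append_eq_rep h).1
    -- the word `γγγβββ`
    have r3 : Rc G' ([1, 1, 1, 0, 0, 0] : List ℕ) := hL'.rc m1
    have r4 : Rc G' (γ ++ (γ ++ (γ ++ (β ++ (β ++ β))))) :=
      r3.step (Par.cons hγ' (Par.cons hγ' (Par.cons hγ' (Par.cons hβ' (Par.cons hβ'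
        (par_single.2 hβ'))))))
    have m3 := hL'.mem r4 (by
      intro y hy
      simp only [mem_append] at hy
      rcases hy with hy | hy | hy | hy | hy | hy
      · exact hγT y hy
      · exact hγT y hy
      · exact hγT y hy
      · exact hβT y hy
      · exact hβT y hy
      · exact hβT y hy) (by simp [hβ0])
    rcases m3 with h | ⟨n, h⟩
    · have hc := congrArg (List.count 0) h
      rw [hκ] at hc
      simp only [count_append, count_replicate_self] at hc
      have e : List.count 0 ([1, 1, 1, 0, 0, 0] : List ℕ) = 3 := by decide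
      rw [e] at hc
      have : κ = 1 := by omega
      subst this
      rw [hκ] at hβ'
      exact no_wait hL' hpow (δ := 1) (κ := 1) le_rfl le_rfl (it_one.2 hβ')
    · have hlen := congrArg length h
      rw [hκ] at hlen
      simp only [length_append, length_replicate] at hlen
      have h3 : 3 ∣ 2 ^ n := ⟨γ.length + κ, by omega⟩
      have := (Nat.prime_three).dvd_of_dvd_pow h3
      omega

end Pool.Agent.Helper79.EOL
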