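import Pool.Agent.Helper79.EOL.Positive1

/-!
# The languages of synchronised propagating systems are EOL languages
-/

namespace Pool.Agent.Helper79.EOL

open List Pool.Agent.Helper76.EOL

/-- The form `S → S, S → a, S → SS, a → S` (with `S = 0`, `a = 1`). -/
def F₀ : Grammar where
  V := {0, 1}
  T := {1}
  P := {(0, [0]), (0, [1]), (0, [0, 0]), (1, [0])}
  S := 0
  T_sub := by decide
  S_mem := by decide
  S_notMem := by decide
  prod_wf := by decide
  total := by
    intro X hX
    simp only [Finset.mem_insert, Finset.mem_singleton] at hX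
    rcases hX with rfl | rfl
    · exact ⟨[0], by decide⟩
    · exact ⟨[0], by decide⟩

lemma simSys_F₀ : SimSys F₀ := by
  have h1 : Sh F₀ 1 true [true] := by unfold Sh; decide
  have h2 : Sh F₀ 1 true [false] := by unfold Sh; decide
  have h3 : Sh F₀ 1 true [true, true] := by unfold Sh; decide
  have h4 : Sh F₀ 1 false [true] := by unfold Sh; decide
  apply simSys_of_reg1 (a := 1) ⟨rfl, rfl⟩ _ ⟨[true], h4, by simp⟩
  · right; right; left
    exact ⟨h1, Or.inl ⟨2, le_rfl, h3⟩⟩
  · intro k hk
    obtain ⟨k, rfl⟩ : ∃ k', k = k' + 1 := ⟨k - 1, by omega⟩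
    refine ⟨k, ?_⟩
    rw [GCh.succ']
    have key : ∀ k, GCh (Sh F₀ 1) k [true] (replicate (k + 1) true) := by
      intro k
      induction k with
      | zero => exact rfl
      | succ k ih =>
        rw [GCh.succ']
        refine ⟨_, ih, by simp, ?_⟩
        have h5 : Par (Sh F₀ 1) (replicate k true) (replicate k true) := by
          have := par_replicate h1 k
          rw [show [true] = replicate 1 true from rfl, replicate_flatten, Nat.mul_one] at this
          exact this
        rw [replicate_succ, show replicate (k + 1 + 1) true = [true, true] ++ replicate k true from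
          rfl]
        exact Par.cons h3 h5
    refine ⟨_, key k, by simp, ?_⟩
    have := par_replicate h2 (k + 1)
    rw [show [false] = replicate 1 false from rfl, replicate_flatten, Nat.mul_one] at this
    exact this

/-- The language of a system is an EOL language. -/
theorem eol_of_sys {V : Type} [Finite V] (H : Sys V) (x : V) :
    ∃ G : Grammar, lang G \ {[]} = H.L [x] := by
  obtain ⟨G', _, h⟩ := simSys_F₀ V H x ∅ Set.finite_empty
  exact ⟨G', by simpa using h⟩

/-- A complete form generates the languages of all systems. -/
lemma exists_gen {F : Grammar} (hc : Complete F) {V : Type} [Finite V] (H : Sys V) (x : V) :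
    ∃ G', Interprets G' F ∧ lang G' \ {[]} = H.L [x] := by
  obtain ⟨G, hG⟩ := eol_of_sys H x
  obtain ⟨L', ⟨G', hG', rfl⟩, h2⟩ := hc.2 (lang G) ⟨G, rfl⟩
  exact ⟨G', hG', by rw [← hG]; exact h2.symm⟩

end Pool.Agent.Helper79.EOL
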