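import Pool.Agent.Helper79.EOL.Block

/-!
# The first positive theorem: one kind of live blocks and garbage
-/

namespace Pool.Agent.Helper79.EOL

open List Pool.Agent.Helper76.EOL

/-- Cutting a word into `l` pieces of lengths between `k` and `B`. -/
lemma exists_cut {V : Type} {k B : ℕ} (hkB : k ≤ B) : ∀ (l : ℕ) (w : List V), l * k ≤ w.length →
    w.length ≤ l * B → ∃ L : List (List V), L.length = l ∧ L.flatten = w ∧
      ∀ b ∈ L, k ≤ b.length ∧ b.length ≤ B := by
  intro l
  induction l with
  | zero =>
    intro w _ h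
    have : w = [] := length_eq_zero_iff.1 (by omega)
    subst this
    exact ⟨[], rfl, rfl, by simp⟩
  | succ l ih =>
    intro w h1 h2
    -- the length of the first piece
    obtain ⟨c, hc1, hc2, hc3, hc4, hc5⟩ : ∃ c, k ≤ c ∧ c ≤ B ∧ c ≤ w.length ∧
        l * k ≤ w.length - c ∧ w.length - c ≤ l * B := by
      rw [Nat.succ_mul] at h1 h2
      have h3 : l * k ≤ l * B := Nat.mul_le_mul_left _ hkB
      by_cases h : w.length ≤ l * B + k
      · refine ⟨k, le_rfl, hkB, by omega, by omega, by omega⟩
      · refine ⟨w.length - l * B, by omega, by omega, by omega, by omega, by omega⟩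
    obtain ⟨L, hL1, hL2, hL3⟩ := ih (w.drop c) (by rw [length_drop]; exact hc4)
      (by rw [length_drop]; exact hc5)
    refine ⟨w.take c :: L, by rw [length_cons, hL1], by rw [flatten_cons, hL2, take_append_drop], ?_⟩
    intro b hb
    rw [mem_cons] at hb
    rcases hb with rfl | hb
    · rw [length_take, min_eq_left hc3]
      exact ⟨hc1, hc2⟩
    · exact hL3 b hb

/-- Distributing pieces to the live positions of a pattern. -/
lemma exists_assign {V K : Type} [BEq K] [LawfulBEq K] (live : K) : ∀ (pat : List K) (L : List (List V)),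
    pat.count live = L.length → ∃ l : List (K × List V), l.map Prod.fst = pat ∧
      (l.map Prod.snd).flatten = L.flatten ∧
      ∀ p ∈ l, (p.1 = live ∧ p.2 ∈ L) ∨ (p.1 ≠ live ∧ p.1 ∈ pat ∧ p.2 = []) := by
  intro pat
  induction pat with
  | nil =>
    intro L h
    rw [count_nil] at h
    have : L = [] := length_eq_zero_iff.1 h.symm
    subst this
    exact ⟨[], rfl, rfl, by simp⟩
  | cons x pat ih =>
    intro L h
    by_cases hx : x = live
    · subst hx
      rw [count_cons_self] at h
      cases L with
      | nil => simp at h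
      | cons b L =>
        rw [length_cons, Nat.add_right_cancel_iff] at h
        obtain ⟨l, h1, h2, h3⟩ := ih L h
        refine ⟨(x, b) :: l, by rw [map_cons, h1], by rw [map_cons, flatten_cons, h2]; rfl, ?_⟩
        intro p hp
        rw [mem_cons] at hp
        rcases hp with rfl | hp
        · exact Or.inl ⟨rfl, by simp⟩
        · rcases h3 p hp with ⟨h4, h5⟩ | ⟨h4, h5, h6⟩
          · exact Or.inl ⟨h4, by simp [h5]⟩
          · exact Or.inr ⟨h4, by simp [h5], h6⟩
    · rw [count_cons_of_ne hx] at h
      obtain ⟨l, h1, h2, h3⟩ := ih L h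
      refine ⟨(x, []) :: l, by rw [map_cons, h1], by rw [map_cons, flatten_cons, h2]; rfl, ?_⟩
      intro p hp
      rw [mem_cons] at hp
      rcases hp with rfl | hp
      · exact Or.inr ⟨hx, by simp, rfl⟩
      · rcases h3 p hp with ⟨h4, h5⟩ | ⟨h4, h5, h6⟩
        · exact Or.inl ⟨h4, h5⟩
        · exact Or.inr ⟨h4, by simp [h5], h6⟩

/-- Types of the kinds: `none` is the live kind, `some b` garbage of type `b`. -/
def tyO (κ : Bool) : Option Bool → Bool
  | none => κ
  | some b => b

/-- A pattern with `l` live letters whose garbage can be erased in `r + 1` steps. -/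
def Pat (Sp : Bool → List Bool → Prop) (r t : ℕ) (κ x : Bool) (l : ℕ) : Prop :=
  ∃ pat : List (Option Bool), pat.count none = l ∧ Go Sp t True x (pat.map (tyO κ)) ∧
    true ∈ pat.map (tyO κ) ∧ ∀ b, some b ∈ pat → Go Sp r False b []

/-- `F` simulates every EOL grammar. -/
def Simulates (F : Grammar) : Prop :=
  ∀ G : Grammar, ∃ G', Interprets G' F ∧ lang G' \ {[]} = lang G \ {[]}

/-- `F` simulates every synchronised propagating system. -/
def SimSys (F : Grammar) : Prop :=
  ∀ (V : Type) [Finite V] (H : Sys V) (x : V) (A : Set (List ℕ)), A.Finite →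
    ∃ G', Interprets G' F ∧ lang G' \ {[]} = (A \ {[]}) ∪ H.L [x]

lemma SimSys.simulates {F : Grammar} (h : SimSys F) : Simulates F := by
  intro G
  obtain ⟨V, hV, H, x, A, hAf, hG⟩ := exists_sys G
  obtain ⟨G', h1, h2⟩ := h V H x A hAf
  exact ⟨G', h1, by rw [h2, hG]⟩

/-- The first positive theorem. -/
theorem simSys_of_pat {F : Grammar} {a : ℕ} (hF : IsSaForm F a)
    (hA : ∃ w, Sh F a false w ∧ true ∈ w) (hB : ∃ w, Sh F a true w ∧ true ∈ w)
    (hK : ∀ k, 1 ≤ k → ∃ t, Go (Sh F a) t True true (replicate k false))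
    (κ : Bool) (k₀ lam l₀ : ℕ) (hk₀ : 1 ≤ k₀) (hlam : 1 ≤ lam) (hl₀ : 1 ≤ l₀)
    (hR : ∀ N, ∃ r, (∀ k, k₀ ≤ k → k ≤ N → Go (Sh F a) r True κ (replicate k false)) ∧
      (∀ m, 1 + lam * m ≤ N → Pat (Sh F a) r r κ κ (1 + lam * m)) ∧
      ∃ t, Pat (Sh F a) r t κ true l₀) : SimSys F := by
  classical
  intro V hV H x A hAf
  obtain ⟨D, hD1, hD2, hD3⟩ := H.exists_bound
  -- restart from long words
  obtain ⟨A', Z, hA'f, hZf, hZ, hL⟩ := H.restart [x] (l₀ * k₀ + 1) (by
    have : 1 ≤ l₀ * k₀ := Nat.mul_pos hl₀ hk₀
    simp only [length_singleton]; omega)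
  obtain ⟨B₁, hB₁⟩ := (hZf.image List.length).bddAbove
  have hB₁' : ∀ z ∈ Z, z.length ≤ B₁ := fun z hz => hB₁ ⟨z, hz, rfl⟩
  set B := (1 + lam) * k₀ + B₁ with hBdef
  obtain ⟨r, hr1, hr2, t₀, hr3⟩ := hR (D * B + 1 + lam)
  -- the set of kinds and valid blocks
  let valid : Option Bool → List V → Prop := fun κ' β => match κ' with
    | none => k₀ ≤ β.length ∧ β.length ≤ B
    | some b => β = [] ∧ Go (Sh F a) r False b []
  have hk₀B : k₀ ≤ B := by
    have : k₀ ≤ (1 + lam) * k₀ := Nat.le_mul_of_pos_left _ (by omega)
    omega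
  have hAne : ∀ w ∈ (A \ {[]}) ∪ (A' \ {[]}), w ≠ [] ∧
      ∃ t, Go (Sh F a) t True true (replicate w.length false) := by
    rintro w (⟨_, hw⟩ | ⟨_, hw⟩)
    · exact ⟨hw, hK _ (length_pos_iff.2 hw)⟩
    · exact ⟨hw, hK _ (length_pos_iff.2 hw)⟩
  obtain ⟨G', hG1, hG2⟩ := block_interp hF H (tyO κ) (fun k => k = none) valid
    (by
      intro κ'
      cases κ' with
      | none =>
        apply (List.finite_length_le V B).subset
        intro β hβ
        exact hβ.2
      | some b =>
        apply (Set.finite_singleton ([] : List V)).subset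
        intro β hβ
        exact hβ.1) r hA hB
    (by
      intro κ' β hβ β' hβ'
      cases κ' with
      | some b =>
        obtain ⟨rfl, hgo⟩ := hβ
        rw [par_nil] at hβ'
        subst hβ'
        refine ⟨[], by simp, rfl, by simp, by simp, ?_⟩
        obtain ⟨z, h1, h2, h3⟩ := hgo
        exact ⟨z, h1, h2, fun h => by simp at h⟩
      | none =>
        have hlen1 : β.length ≤ β'.length := hβ'.le_length H.N_ne
        have hlen2 : β'.length ≤ D * B := (hβ'.length_le hD2).trans
          (Nat.mul_le_mul_left _ hβ.2)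
        -- the number of pieces
        obtain ⟨m, hm1, hm2, hm3⟩ : ∃ m, (1 + lam * m) * k₀ ≤ β'.length ∧
            β'.length ≤ (1 + lam * m) * B ∧ 1 + lam * m ≤ D * B + 1 + lam := by
          have hex : ∃ m, β'.length ≤ (1 + lam * m) * B := by
            refine ⟨β'.length, ?_⟩
            have h1 : 1 ≤ B := by omega
            calc β'.length ≤ 1 + lam * β'.length := by
                  have := Nat.le_mul_of_pos_left β'.length (show 0 < lam by omega)
                  omega
              _ ≤ (1 + lam * β'.length) * B := Nat.le_mul_of_pos_right _ h1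
          obtain ⟨hm, hmin⟩ : β'.length ≤ (1 + lam * Nat.find hex) * B ∧
              ∀ m < Nat.find hex, ¬ β'.length ≤ (1 + lam * m) * B :=
            ⟨Nat.find_spec hex, fun m hm => Nat.find_min hex hm⟩
          refine ⟨Nat.find hex, ?_, hm, ?_⟩
          · rcases Nat.eq_zero_or_pos (Nat.find hex) with h0 | hpos
            · rw [h0]
              simp only [Nat.mul_zero, Nat.add_zero, Nat.one_mul]
              exact hβ.1.trans hlen1
            · obtain ⟨m', hm'⟩ : ∃ m', Nat.find hex = m' + 1 := ⟨Nat.find hex - 1, by omega⟩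
              have h2 := hmin m' (by omega)
              rw [not_le] at h2
              rw [hm']
              have h3 : (1 + lam * (m' + 1)) * k₀ ≤ (1 + lam * m') * ((1 + lam) * k₀) := by
                rw [← Nat.mul_assoc]
                apply Nat.mul_le_mul_right
                nlinarith [Nat.zero_le (lam * m'), Nat.zero_le (lam * (lam * m'))]
              have h4 : (1 + lam * m') * ((1 + lam) * k₀) ≤ (1 + lam * m') * B :=
                Nat.mul_le_mul_left _ (by omega)
              omega
          · rcases Nat.eq_zero_or_pos (Nat.find hex) with h0 | hpos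
            · rw [h0]; omega
            · obtain ⟨m', hm'⟩ : ∃ m', Nat.find hex = m' + 1 := ⟨Nat.find hex - 1, by omega⟩
              have h2 := hmin m' (by omega)
              rw [not_le] at h2
              rw [hm', Nat.mul_succ]
              have h1 : 1 ≤ B := by omega
              have h3 : 1 + lam * m' ≤ (1 + lam * m') * B := Nat.le_mul_of_pos_right _ h1
              omega
        obtain ⟨L, hL1, hL2, hL3⟩ := exists_cut hk₀B (1 + lam * m) β' hm1 hm2
        obtain ⟨pat, hp1, hp2, hp3, hp4⟩ := hr2 m hm3
        obtain ⟨l, h1, h2, h3⟩ := exists_assign none pat L (by rw [hp1, hL1])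
        have hlmap : l.map (fun p => tyO κ p.1) = pat.map (tyO κ) := by
          rw [← h1, map_map]; rfl
        refine ⟨l, ?_, by rw [h2, hL2], ?_, ?_, ?_⟩
        · intro p hp
          rcases h3 p hp with ⟨h4, h5⟩ | ⟨h4, h5, h6⟩
          · have := hL3 _ h5
            obtain ⟨p1, p2⟩ := p
            simp only at h4
            subst h4
            exact this
          · obtain ⟨p1, p2⟩ := p
            simp only at h4 h5 h6
            subst h6
            cases p1 with
            | none => exact absurd rfl h4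
            | some b => exact ⟨rfl, hp4 b h5⟩
        · intro _
          rw [← hlmap, mem_map] at hp3
          obtain ⟨p, hp, hp'⟩ := hp3
          exact ⟨p, hp, hp'⟩
        · intro _
          have : none ∈ pat := by
            rw [← count_pos_iff, hp1]; omega
          rw [← h1, mem_map] at this
          obtain ⟨p, hp, hp'⟩ := this
          exact ⟨p, hp, hp'⟩
        · obtain ⟨z, h4, h5, h6⟩ := hp2
          rw [hlmap]
          exact ⟨z, h4, h5, fun _ => h6 trivial⟩)
    (by
      intro κ' β hβ w hw
      cases κ' with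
      | some b =>
        obtain ⟨rfl, hgo⟩ := hβ
        rw [par_nil] at hw
        subst hw
        refine ⟨by simp, ?_⟩
        obtain ⟨z, h1, h2, h3⟩ := hgo
        exact ⟨z, h1, h2, fun h => by simp at h⟩
      | none =>
        have hlen1 : β.length ≤ w.length := hw.le_length H.F_ne
        have hlen2 : w.length ≤ D * B := (hw.length_le hD3).trans
          (Nat.mul_le_mul_left _ hβ.2)
        have h0 := hβ.1
        refine ⟨?_, ?_⟩
        · rintro _ rfl
          simp only [length_nil] at hlen1
          omega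
        · obtain ⟨z, h4, h5, h6⟩ := hr1 w.length (by omega) (by omega)
          exact ⟨z, h4, h5, fun _ => h6 trivial⟩)
    ((A \ {[]}) ∪ (A' \ {[]})) ((hAf.sdiff).union (hA'f.sdiff)) hAne Z hZf
    (by
      intro z hz
      have hz1 := (hZ z hz).1
      have hz2 := hB₁' z hz
      obtain ⟨pat, hp1, hp2, hp3, hp4⟩ := hr3
      refine ⟨?_, t₀, ?_⟩
      · rintro rfl
        simp at hz1
      · obtain ⟨L, hL1, hL2, hL3⟩ := exists_cut hk₀B l₀ z (by omega) (by
          calc z.length ≤ B := by omega
            _ ≤ l₀ * B := Nat.le_mul_of_pos_left _ hl₀)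
        obtain ⟨l, h1, h2, h3⟩ := exists_assign none pat L (by rw [hp1, hL1])
        have hlmap : l.map (fun p => tyO κ p.1) = pat.map (tyO κ) := by
          rw [← h1, map_map]; rfl
        refine ⟨l, ?_, by rw [h2, hL2], ?_, ?_, ?_⟩
        · intro p hp
          rcases h3 p hp with ⟨h4, h5⟩ | ⟨h4, h5, h6⟩
          · have := hL3 _ h5
            obtain ⟨p1, p2⟩ := p
            simp only at h4
            subst h4
            exact this
          · obtain ⟨p1, p2⟩ := p
            simp only at h4 h5 h6
            subst h6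
            cases p1 with
            | none => exact absurd rfl h4
            | some b => exact ⟨rfl, hp4 b h5⟩
        · have : none ∈ pat := by
            rw [← count_pos_iff, hp1]; omega
          rw [← h1, mem_map] at this
          obtain ⟨p, hp, hp'⟩ := this
          exact ⟨p, hp, hp'⟩
        · rw [← hlmap, mem_map] at hp3
          obtain ⟨p, hp, hp'⟩ := hp3
          exact ⟨p, hp, hp'⟩
        · rw [hlmap]; exact hp2)
  refine ⟨G', hG1, ?_⟩
  rw [hG2, hL]
  ext w
  simp only [Set.mem_union, Set.mem_sdiff, Set.mem_singleton_iff, Set.mem_iUnion, exists_prop]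
  constructor
  · rintro ((h | h) | h)
    · exact Or.inl h
    · exact Or.inr (Or.inl h.1)
    · exact Or.inr (Or.inr h)
  · rintro (h | h | h)
    · exact Or.inl (Or.inl h)
    · refine Or.inl (Or.inr ⟨h, ?_⟩)
      have : w ∈ H.L [x] := by rw [hL]; exact Or.inl h
      exact Sys.L_ne_nil (by simp) this
    · exact Or.inr h

lemma Simulates.complete {F : Grammar} (h : Simulates F) : Complete F := by
  constructor
  · rintro L ⟨G', _, rfl⟩
    exact ⟨lang G', ⟨G', rfl⟩, rfl⟩
  · rintro L ⟨G, rfl⟩
    obtain ⟨G', h1, h2⟩ := h G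
    exact ⟨lang G', ⟨G', h1, rfl⟩, h2.symm⟩

end Pool.Agent.Helper79.EOL
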