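import Pool.Agent.Helper79.EOL.Form

/-!
# Plans: derivation trees of fixed height
-/

namespace Pool.Agent.Helper79.EOL

open List

/-- Derivation trees of height `n` with leaves in `L` and inner nodes labelled by `Bool`. -/
def Plan (L : Type) : ℕ → Type
  | 0 => L
  | n + 1 => Bool × List (Plan L n)

section

variable {L : Type} (ty : L → Bool) (Sp : Bool → List Bool → Prop)

/-- The type of the root. -/
def rt : (n : ℕ) → Plan L n → Bool
  | 0, l => ty l
  | _ + 1, p => p.1

/-- The subtrees of a tree of positive height. -/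
def kids {n : ℕ} (p : Plan L (n + 1)) : List (Plan L n) := p.2

/-- The word of the leaves. -/
def flat : (n : ℕ) → Plan L n → List L
  | 0, l => [l]
  | n + 1, p => p.2.flatMap (flat n)

/-- All nodes are shapes of the form. -/
def Ok : (n : ℕ) → Plan L n → Prop
  | 0, _ => True
  | n + 1, p => Sp p.1 (p.2.map (rt ty n)) ∧ ∀ q ∈ p.2, Ok n q

/-- The next level of a word of trees. -/
def nxt {n : ℕ} (ps : List (Plan L (n + 1))) : List (Plan L n) := ps.flatMap kids

/-- All levels but the last contain the letter `true`. -/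
def Gd : (n : ℕ) → List (Plan L n) → Prop
  | 0, _ => True
  | n + 1, ps => true ∈ ps.map (rt ty (n + 1)) ∧ Gd n (nxt ps)

/-- The word of the leaves of a word of trees. -/
def flats {n : ℕ} (ps : List (Plan L n)) : List L := ps.flatMap (flat n)

lemma flats_succ {n : ℕ} (ps : List (Plan L (n + 1))) : flats ps = flats (nxt ps) := by
  unfold flats nxt
  rw [flatMap_assoc]
  rfl

lemma flats_zero (ps : List (Plan L 0)) : flats ps = (ps : List L) := by
  unfold flats
  induction ps with
  | nil => rfl
  | cons p ps ih => rw [flatMap_cons, ih]; rfl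

lemma flats_append {n : ℕ} (ps qs : List (Plan L n)) : flats (ps ++ qs) = flats ps ++ flats qs := by
  simp [flats]

lemma flat_succ {n : ℕ} (p : Plan L (n + 1)) : flat (n + 1) p = flats (kids p) := rfl

lemma nxt_append {n : ℕ} (ps qs : List (Plan L (n + 1))) : nxt (ps ++ qs) = nxt ps ++ nxt qs := by
  simp [nxt]

variable {ty Sp}

lemma Gd.mono {n : ℕ} {ps qs : List (Plan L n)} (h : Gd ty n ps) (hs : ∃ u v, qs = u ++ (ps ++ v)) :
    Gd ty n qs := by
  induction n with
  | zero => trivial
  | succ n ih =>
    obtain ⟨u, v, rfl⟩ := hs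
    refine ⟨?_, ?_⟩
    · have := h.1
      simp only [map_append, mem_append]
      exact Or.inr (Or.inl this)
    · apply ih h.2
      exact ⟨nxt u, nxt v, by simp [nxt_append]⟩

/-- Guarded chains of words: all words but the last contain `true`. -/
def GCh (Sp : Bool → List Bool → Prop) : ℕ → List Bool → List Bool → Prop
  | 0, z, w => z = w
  | n + 1, z, w => true ∈ z ∧ ∃ z', Par Sp z z' ∧ GCh Sp n z' w

lemma group {n : ℕ} {z z' : List Bool} (h : Par Sp z z') :
    ∀ ps : List (Plan L n), ps.map (rt ty n) = z' →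
      ∃ qs : List (Plan L (n + 1)), qs.map (rt ty (n + 1)) = z ∧ nxt qs = ps ∧
        ∀ q ∈ qs, Sp q.1 (q.2.map (rt ty n)) := by
  induction h with
  | nil =>
    intro ps hps
    rw [map_eq_nil_iff] at hps
    subst hps
    exact ⟨[], rfl, rfl, by simp⟩
  | @cons x u xs v h1 _ ih =>
    intro ps hps
    rw [map_eq_append_iff] at hps
    obtain ⟨p1, p2, rfl, rfl, rfl⟩ := hps
    obtain ⟨qs, h3, h4, h5⟩ := ih p2 rfl
    refine ⟨(x, p1) :: qs, ?_, ?_, ?_⟩
    · rw [map_cons, h3]; rfl
    · unfold nxt at h4 ⊢
      rw [flatMap_cons, h4]; rfl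
    · intro q hq
      rw [mem_cons] at hq
      rcases hq with rfl | hq
      · exact h1
      · exact h5 q hq

/-- Every guarded chain of words can be labelled. -/
lemma GCh.plan {n : ℕ} : ∀ {z w : List Bool}, GCh Sp n z w → ∀ u : List L, u.map ty = w →
    ∃ ps : List (Plan L n), ps.map (rt ty n) = z ∧ (∀ p ∈ ps, Ok ty Sp n p) ∧ flats ps = u ∧
      Gd ty n ps := by
  induction n with
  | zero =>
    intro z w h u hu
    refine ⟨u, ?_, fun _ _ => trivial, flats_zero u, trivial⟩
    have : z = w := h
    rw [this, ← hu]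
    rfl
  | succ n ih =>
    rintro z w ⟨hz, z', h1, h2⟩ u hu
    obtain ⟨ps, h3, h4, h5, h6⟩ := ih h2 u hu
    obtain ⟨qs, h7, h8, h9⟩ := group h1 ps h3
    refine ⟨qs, h7, ?_, ?_, ?_, ?_⟩
    · intro q hq
      refine ⟨h9 q hq, ?_⟩
      intro q' hq'
      apply h4
      rw [← h8]
      exact mem_flatMap.2 ⟨q, hq, hq'⟩
    · rw [flats_succ, h8]; exact h5
    · rw [h7]; exact hz
    · rw [h8]; exact h6

/-- Every derivation of words can be labelled. -/
lemma par_plan {n : ℕ} : ∀ {z w : List Bool}, Par (It Sp n) z w → ∀ u : List L, u.map ty = w →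
    ∃ ps : List (Plan L n), ps.map (rt ty n) = z ∧ (∀ p ∈ ps, Ok ty Sp n p) ∧ flats ps = u := by
  induction n with
  | zero =>
    intro z w h u hu
    refine ⟨u, ?_, fun _ _ => trivial, flats_zero u⟩
    rw [par_it_zero] at h
    rw [h, ← hu]
    rfl
  | succ n ih =>
    intro z w h u hu
    obtain ⟨z', h1, h2⟩ := par_it_succ.1 h
    obtain ⟨ps, h3, h4, h5⟩ := ih h2 u hu
    obtain ⟨qs, h7, h8, h9⟩ := group h1 ps h3
    refine ⟨qs, h7, ?_, ?_⟩
    · intro q hq
      refine ⟨h9 q hq, ?_⟩
      intro q' hq'
      apply h4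
      rw [← h8]
      exact mem_flatMap.2 ⟨q, hq, hq'⟩
    · rw [flats_succ, h8]; exact h5

instance countable_plan [Countable L] : ∀ n, Countable (Plan L n)
  | 0 => inferInstanceAs (Countable L)
  | n + 1 => by
    have := countable_plan n
    exact inferInstanceAs (Countable (Bool × List (Plan L n)))

end

/-- Symbols of the simulating grammar. -/
inductive Sym (L : Type) : Type
  | start : Sym L
  | pl (n : ℕ) (p : Plan L n) : Sym L
  | blk (b : Bool) : Sym L

instance countable_sym {L : Type} [Countable L] : Countable (Sym L) := by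
  have f : Function.Injective (fun s : Sym L => match s with
    | .start => (Sum.inl none : Option Bool ⊕ (Σ n, Plan L n))
    | .pl n p => Sum.inr ⟨n, p⟩
    | .blk b => Sum.inl (some b)) := by
    intro s t h
    cases s <;> cases t <;> simp_all
  exact f.countable

/-- All subtrees, as symbols. -/
def subs {L : Type} : (n : ℕ) → Plan L n → List (Sym L)
  | 0, l => [Sym.pl 0 l]
  | n + 1, p => Sym.pl (n + 1) p :: p.2.flatMap (subs n)

lemma mem_subs_self {L : Type} {n : ℕ} (p : Plan L n) : Sym.pl n p ∈ subs n p := by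
  cases n with
  | zero => simp [subs]
  | succ n => simp [subs]

lemma subs_closed {L : Type} {n k : ℕ} {p : Plan L (n + 1)} {q : Plan L k}
    (h : Sym.pl (n + 1) p ∈ subs k q) : ∀ p' ∈ kids p, Sym.pl n p' ∈ subs k q := by
  induction k with
  | zero => simp [subs] at h
  | succ k ih =>
    simp only [subs, mem_cons, mem_flatMap] at h
    intro p' hp'
    rcases h with h | ⟨q', hq', h⟩
    · cases h
      simp only [subs, mem_cons, mem_flatMap]
      exact Or.inr ⟨p', hp', mem_subs_self p'⟩
    · simp only [subs, mem_cons, mem_flatMap]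
      exact Or.inr ⟨q', hq', ih h p' hp'⟩

lemma leaf_mem_subs {L : Type} {k : ℕ} {l : L} {q : Plan L k}
    (h : Sym.pl 0 (l : Plan L 0) ∈ subs k q) : l ∈ flat k q := by
  induction k with
  | zero =>
    simp only [subs, mem_singleton] at h
    cases h
    simp [flat]
  | succ k ih =>
    simp only [subs, mem_cons, mem_flatMap] at h
    rcases h with h | ⟨q', hq', h⟩
    · cases h
    · simp only [flat, mem_flatMap]
      exact ⟨q', hq', ih h⟩

lemma subs_pl {L : Type} {k : ℕ} {s : Sym L} {q : Plan L k} (h : s ∈ subs k q) :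
    ∃ n p, s = Sym.pl n p := by
  induction k with
  | zero =>
    simp only [subs, mem_singleton] at h
    exact ⟨0, q, h⟩
  | succ k ih =>
    simp only [subs, mem_cons, mem_flatMap] at h
    rcases h with h | ⟨q', hq', h⟩
    · exact ⟨_, _, h⟩
    · exact ih h

lemma subs_ok {L : Type} {ty : L → Bool} {Sp : Bool → List Bool → Prop} {k n : ℕ}
    {p : Plan L n} {q : Plan L k} (hq : Ok ty Sp k q) (h : Sym.pl n p ∈ subs k q) :
    Ok ty Sp n p := by
  induction k with
  | zero =>
    simp only [subs, mem_singleton] at h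
    cases h
    exact hq
  | succ k ih =>
    simp only [subs, mem_cons, mem_flatMap] at h
    rcases h with h | ⟨q', hq', h⟩
    · cases h
      exact hq
    · exact ih (hq.2 q' hq') h

end Pool.Agent.Helper79.EOL
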