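import Pool.Agent.Helper79.EOL.RegimeV

/-!
# Completeness of the forms of the regimes I, III, IV, V (and II with `S → S`)
-/

namespace Pool.Agent.Helper79.EOL

open List Pool.Agent.Helper76.EOL

variable {Sp : Bool → List Bool → Prop}

lemma exists_S_rule {d : ℕ} (hd : ∀ x w, Sp x w → w.length ≤ d) (hK : ∀ k, 1 ≤ k → GK Sp k) :
    ∃ w, Sp true w ∧ true ∈ w := by
  obtain ⟨t, ht⟩ := hK (d + 1) (by omega)
  obtain ⟨_, z, h1, h2⟩ := ht
  rw [par_single] at h1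
  cases t with
  | zero =>
    have : z = _ := h2
    subst this
    have := hd _ _ h1
    simp at this
  | succ t => exact ⟨z, h1, h2.1⟩

lemma it_nil_of_le {n m : ℕ} {x : Bool} (h : It Sp n x []) (hnm : n ≤ m) : It Sp m x [] := by
  obtain ⟨j, rfl⟩ := Nat.exists_eq_add_of_le hnm
  exact it_nil_mono h j

/-- The disjunction of the regimes I, II with `S → S`, III, IV and V. -/
def Reg1 (Sp : Bool → List Bool → Prop) : Prop :=
  Sp false [] ∨ (Sp true [] ∧ ∃ j, 1 ≤ j ∧ Sp false (replicate j true)) ∨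
  (Sp true [true] ∧ ((∃ j, 2 ≤ j ∧ Sp true (replicate j true)) ∨
    ∃ j, 1 ≤ j ∧ Sp false (replicate j true))) ∨
  (Sp true [] ∧ ∃ s, 2 ≤ s ∧ Sp true (replicate s true)) ∨
  (Sp true [] ∧ ∃ w, Sp false w ∧ w.count false = 1 ∧ true ∈ w)

lemma HR_of_reg1 {d : ℕ} (hd : ∀ x w, Sp x w → w.length ≤ d) (hK : ∀ k, 1 ≤ k → GK Sp k)
    (hA : ∃ w, Sp false w ∧ true ∈ w) (h : Reg1 Sp) :
    ∃ κ k₀ lam l₀, 1 ≤ k₀ ∧ 1 ≤ lam ∧ 1 ≤ l₀ ∧ HR Sp κ k₀ lam l₀ := by
  have hB := exists_S_rule hd hK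
  have regI : ∀ e, (∀ b, It Sp e b []) → ∃ κ k₀ lam l₀, 1 ≤ k₀ ∧ 1 ≤ lam ∧ 1 ≤ l₀ ∧
      HR Sp κ k₀ lam l₀ := by
    intro e he
    exact ⟨true, _, 1, 1, by omega, le_rfl, le_rfl,
      HR_regimeI hK hd hA hB (e := e) (fun b n hn => it_nil_of_le (he b) hn)⟩
  by_cases h1 : Sp false []
  · obtain ⟨t, ht⟩ := hK 1 le_rfl
    apply regI (t + 2)
    intro b
    cases b
    · exact it_nil_of_le (it_one.2 h1) (by omega)
    · have h2 := ht.par
      rw [par_single] at h2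
      rw [show t + 2 = (t + 1) + 1 by omega, it_add]
      refine ⟨_, h2, ?_⟩
      rw [replicate_one, par_single]
      exact it_one.2 h1
  by_cases h2 : Sp true [] ∧ ∃ j, 1 ≤ j ∧ Sp false (replicate j true)
  · obtain ⟨h2, j, _, hj⟩ := h2
    apply regI 2
    intro b
    cases b
    · rw [it_succ]
      exact ⟨_, hj, par_replicate_nil (it_one.2 h2) j⟩
    · exact it_nil_of_le (it_one.2 h2) (by omega)
  by_cases h4 : Sp true [] ∧ ∃ s, 2 ≤ s ∧ Sp true (replicate s true)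
  · obtain ⟨h4, s, hs, hs2⟩ := h4
    exact ⟨true, _, 1, 1, by omega, le_rfl, le_rfl, HR_regimeIV hK hd h4 hs hs2⟩
  rcases h with h | h | ⟨hu, h⟩ | h | ⟨h0, h⟩
  · exact absurd h h1
  · exact absurd h h2
  · obtain ⟨m, hm, h5⟩ := HR_regimeIII hK hd hu h
    exact ⟨true, 1, m, 1, le_rfl, hm, le_rfl, h5⟩
  · exact absurd h h4
  · have ha : ∀ w, Sp false w → false ∈ w := by
      intro w hw
      by_contra hcon
      have hw' : w = replicate w.length true := by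
        apply eq_replicate_of_mem
        intro b hb
        cases b
        · exact absurd hb hcon
        · rfl
      rcases Nat.eq_zero_or_pos w.length with h6 | h6
      · rw [length_eq_zero_iff] at h6
        subst h6
        exact h1 hw
      · apply h2
        refine ⟨h0, w.length, h6, ?_⟩
        rw [← hw']; exact hw
    obtain ⟨k₀, l₀, h5, h6, h7⟩ := HR_regimeV hK hd h0 ha
      (fun s hs h => h4 ⟨h0, s, hs, h⟩) h
    exact ⟨false, k₀, 1, l₀, h5, le_rfl, h6, h7⟩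

lemma simSys_of_reg1 {F : Grammar} {a : ℕ} (hF : IsSaForm F a)
    (hK : ∀ k, 1 ≤ k → GK (Sh F a) k) (hA : ∃ w, Sh F a false w ∧ true ∈ w)
    (h : Reg1 (Sh F a)) : SimSys F := by
  obtain ⟨d, hd⟩ := sh_bound F a
  obtain ⟨κ, k₀, lam, l₀, h1, h2, h3, h4⟩ := HR_of_reg1 hd hK hA h
  apply simSys_of_pat hF hA (exists_S_rule hd hK) _ κ k₀ lam l₀ h1 h2 h3 h4
  intro k hk
  obtain ⟨t, ht⟩ := hK k hk
  exact ⟨t, go_true.2 ht⟩

/-- Completeness in the regimes I, II with `S → S`, III, IV, V. -/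
theorem complete_of_reg1 {F : Grammar} {a : ℕ} (hF : IsSaForm F a)
    (hK : ∀ k, 1 ≤ k → GK (Sh F a) k) (hA : ∃ w, Sh F a false w ∧ true ∈ w)
    (h : Reg1 (Sh F a)) : Complete F :=
  (simSys_of_reg1 hF hK hA h).simulates.complete

end Pool.Agent.Helper79.EOL
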