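import Pool.Agent.Helper79.EOL.Act
import Pool.Agent.Helper79.EOL.Positive1

/-!
# Completeness in the second regime (without `S → S`)
-/

namespace Pool.Agent.Helper79.EOL

open List Pool.Agent.Helper76.EOL

variable {Sp : Bool → List Bool → Prop}

/-- The letter after `n` flips. -/
def fl : ℕ → Bool → Bool
  | 0, x => x
  | n + 1, x => fl n (!x)

lemma fl_eq (n : ℕ) : ∀ x : Bool, fl n x = if n % 2 = 0 then x else !x := by
  induction n with
  | zero => intro x; rfl
  | succ n ih =>
    intro x
    change fl n (!x) = _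
    rw [ih]
    rcases Nat.mod_two_eq_zero_or_one n with h | h
    · rw [if_pos h, if_neg (by omega)]
    · rw [if_neg (by omega), if_pos (by omega), Bool.not_not]

lemma fl_even {n : ℕ} (h : n % 2 = 0) (x : Bool) : fl n x = x := by
  rw [fl_eq, if_pos h]

lemma fl_odd {n : ℕ} (h : n % 2 = 1) (x : Bool) : fl n x = !x := by
  rw [fl_eq, if_neg (by omega)]

lemma fl_not (n : ℕ) (x : Bool) : fl n (!x) = !(fl n x) := by
  rw [fl_eq, fl_eq]
  split_ifs <;> rfl

lemma fl_add (m n : ℕ) (x : Bool) : fl (m + n) x = fl n (fl m x) := by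
  induction m generalizing x with
  | zero => rw [Nat.zero_add]; rfl
  | succ m ih =>
    rw [show m + 1 + n = (m + n) + 1 by omega]
    exact ih (!x)

lemma fl_fl (n : ℕ) (x : Bool) : fl n (fl n x) = x := by
  rw [← fl_add]
  exact fl_even (by omega) x

lemma it_fl (hu : ∀ x, Sp x [!x]) (n : ℕ) : ∀ x, It Sp n x [fl n x] := by
  induction n with
  | zero => intro x; rfl
  | succ n ih =>
    intro x
    exact ⟨[!x], hu x, par_single.2 (ih (!x))⟩

lemma par_fl (hu : ∀ x, Sp x [!x]) (n : ℕ) (w : List Bool) :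
    Par (It Sp n) w (w.map (fl n)) := by
  induction w with
  | nil => exact Par.nil
  | cons x w ih => exact Par.cons (it_fl hu n x) ih

lemma par_flip (hu : ∀ x, Sp x [!x]) (w : List Bool) : Par Sp w (w.map not) := by
  induction w with
  | nil => exact Par.nil
  | cons x w ih => exact Par.cons (hu x) ih

lemma gch_fl (hu : ∀ x, Sp x [!x]) (m : ℕ) : ∀ {w : List Bool}, true ∈ w → false ∈ w →
    GCh Sp m w (w.map (fl m)) := by
  induction m with
  | zero =>
    intro w _ _
    change w = w.map (fl 0)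
    exact (map_id' w).symm
  | succ m ih =>
    intro w ht hf
    refine ⟨ht, w.map not, par_flip hu w, ?_⟩
    have := ih (w := w.map not) (mem_map.2 ⟨false, hf, rfl⟩) (mem_map.2 ⟨true, ht, rfl⟩)
    rw [map_map] at this
    exact this

/-- The word is reached guardedly at all late times, up to flips. -/
def PW (Sp : Bool → List Bool → Prop) (π : List Bool) : Prop :=
  ∃ t₀, ∀ t, t₀ ≤ t → GCh Sp t [true] (π.map (fl t))

lemma pw_of_gch (hu : ∀ x, Sp x [!x]) {n : ℕ} {w : List Bool} (h : GCh Sp n [true] w)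
    (ht : true ∈ w) (hf : false ∈ w) : PW Sp (w.map (fl n)) := by
  refine ⟨n, ?_⟩
  intro t htn
  obtain ⟨m, rfl⟩ := Nat.exists_eq_add_of_le htn
  have h1 := h.trans (gch_fl hu m ht hf)
  have e : (w.map (fl n)).map (fl (n + m)) = w.map (fl m) := by
    rw [map_map]
    apply map_congr_left
    intro x _
    change fl (n + m) (fl n x) = _
    rw [fl_add, fl_fl]
  rw [e]
  exact h1

lemma PW.comp (hu : ∀ x, Sp x [!x]) {u v ρ : List Bool} {y : Bool}
    (h : PW Sp (u ++ ([y] ++ v))) (hρ : PW Sp ρ) :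
    PW Sp (u ++ (ρ.map (fun x => x ^^ !y) ++ v)) := by
  obtain ⟨t₀, ht₀⟩ := h
  obtain ⟨s₀, hs₀⟩ := hρ
  obtain ⟨t₁, h1, h2⟩ : ∃ t₁, t₀ ≤ t₁ ∧ fl t₁ y = true := by
    by_cases h : fl t₀ y = true
    · exact ⟨t₀, le_rfl, h⟩
    · refine ⟨t₀ + 1, by omega, ?_⟩
      rw [fl_add]
      rw [Bool.not_eq_true] at h
      rw [h]
      rfl
  refine ⟨t₁ + s₀, ?_⟩
  intro t ht
  obtain ⟨s, rfl⟩ : ∃ s, t = t₁ + s := ⟨t - t₁, by omega⟩
  have h3 := ht₀ t₁ h1
  have h4 := hs₀ s (by omega)
  rw [map_append, map_append, map_cons, map_nil, h2] at h3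
  have h5 := h3.trans (h4.ctx (par_fl hu s (u.map (fl t₁))) (par_fl hu s (v.map (fl t₁))))
  have e1 : ∀ w : List Bool, (w.map (fl t₁)).map (fl s) = w.map (fl (t₁ + s)) := by
    intro w
    rw [map_map]
    apply map_congr_left
    intro x _
    exact (fl_add _ _ _).symm
  have e2 : (ρ.map (fun x => x ^^ !y)).map (fl (t₁ + s)) = ρ.map (fl s) := by
    rw [map_map]
    apply map_congr_left
    intro x _
    change fl (t₁ + s) (x ^^ !y) = fl s x
    rw [fl_add]
    congr 1
    rw [fl_eq] at h2 ⊢
    revert h2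
    split_ifs <;> cases x <;> cases y <;> simp
  rw [e1, e1] at h5
  rw [map_append, map_append, e2]
  exact h5

/-- A mixed word. -/
lemma exists_mixed (hu : ∀ x, Sp x [!x]) {d : ℕ} (hd : ∀ x w, Sp x w → w.length ≤ d)
    (hp : ∀ x w, Sp x w → w ≠ []) (hns : ¬ Sp true [true]) (hK : GK Sp (d + 1)) :
    ∃ ω, PW Sp ω ∧ true ∈ ω ∧ false ∈ ω := by
  obtain ⟨t, h1, z, h2, h3⟩ := hK
  rw [par_single] at h2
  have hz1 : true ∈ z := by
    cases t with
    | zero =>
      have : z = _ := h3
      subst this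
      have := hd _ _ h2
      simp at this
    | succ t => exact h3.1
  obtain ⟨n, w, h4, h5, h6⟩ : ∃ n w, GCh Sp n [true] w ∧ true ∈ w ∧ false ∈ w := by
    by_cases hf : false ∈ z
    · exact ⟨1, z, ⟨by simp, z, par_single.2 h2, rfl⟩, hz1, hf⟩
    · have hall : ∀ x ∈ z, x = true := by
        intro x hx
        cases x
        · exact absurd hx hf
        · rfl
      obtain ⟨j, rfl⟩ : ∃ j, z = replicate j true := ⟨z.length, eq_replicate_of_mem hall⟩
      have hj : 2 ≤ j := by
        by_contra hj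
        have : j = 0 ∨ j = 1 := by omega
        rcases this with rfl | rfl
        · exact hp _ _ h2 rfl
        · exact hns h2
      obtain ⟨m, rfl⟩ : ∃ m, j = m + 2 := ⟨j - 2, by omega⟩
      refine ⟨2, replicate (m + 2) true ++ (replicate (m + 1) true).map not,
        ⟨by simp, _, par_single.2 h2, ⟨by simp, _, ?_, rfl⟩⟩, by simp, by simp⟩
      have := Par.cons h2 (par_flip hu (replicate (m + 1) true))
      exact this
  refine ⟨_, pw_of_gch hu h4 h5 h6, ?_, ?_⟩
  · rw [mem_map]
    rcases Nat.mod_two_eq_zero_or_one n with h | h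
    · exact ⟨true, h5, fl_even h _⟩
    · exact ⟨false, h6, fl_odd h _⟩
  · rw [mem_map]
    rcases Nat.mod_two_eq_zero_or_one n with h | h
    · exact ⟨false, h6, fl_even h _⟩
    · exact ⟨true, h5, fl_odd h _⟩

lemma mem_tw {ω : List Bool} (ht : true ∈ ω) (hf : false ∈ ω) (y b : Bool) :
    b ∈ ω.map (fun x => x ^^ !y) := by
  rw [mem_map]
  cases b <;> cases y
  · exact ⟨true, ht, rfl⟩
  · exact ⟨false, hf, rfl⟩
  · exact ⟨false, hf, rfl⟩
  · exact ⟨true, ht, rfl⟩

/-- A word starting with `true`. -/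
lemma exists_type1 (hu : ∀ x, Sp x [!x]) {ω : List Bool} (hω : PW Sp ω) (ht : true ∈ ω)
    (hf : false ∈ ω) : ∃ u v, PW Sp ([true] ++ (u ++ ([false] ++ v))) ∧ 1 ≤ u.length + v.length := by
  obtain ⟨y, ω', rfl⟩ : ∃ y ω', ω = y :: ω' := by
    cases ω with
    | nil => simp at ht
    | cons y ω' => exact ⟨y, ω', rfl⟩
  cases y
  · -- substitute the first letter
    have h1 := PW.comp hu (u := []) (v := ω') (y := false) (ρ := false :: ω') hω hω
    rw [nil_append, map_cons] at h1
    have ht' : true ∈ ω' := by simpa using ht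
    have h2 : false ∈ ω'.map (fun x => x ^^ !false) := by
      rw [mem_map]
      exact ⟨true, ht', rfl⟩
    obtain ⟨u, v, e⟩ := append_of_mem h2
    rw [e] at h1
    refine ⟨u, v ++ ω', ?_, ?_⟩
    · simpa using h1
    · have : 0 < ω'.length := length_pos_of_mem ht'
      rw [length_append]
      omega
  · have hf' : false ∈ ω' := by simpa using hf
    obtain ⟨u₁, v₁, rfl⟩ := append_of_mem hf'
    have h1 := PW.comp hu (u := true :: u₁) (v := v₁) (y := false) (ρ := true :: (u₁ ++ false :: v₁))
      (by simpa using hω) hω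
    have h2 := mem_tw ht hf false false
    obtain ⟨u, v, e⟩ := append_of_mem h2
    have h3 := mem_tw ht hf false true
    rw [e] at h1 h3
    refine ⟨u₁ ++ u, v ++ v₁, ?_, ?_⟩
    · simpa using h1
    · have h4 : true ∈ u ∨ true ∈ v := by simpa using h3
      rw [length_append, length_append]
      rcases h4 with h4 | h4
      · have : 0 < u.length := length_pos_of_mem h4
        omega
      · have : 0 < v.length := length_pos_of_mem h4
        omega

/-- A word ending with `true`. -/
lemma exists_type2 (hu : ∀ x, Sp x [!x]) {ω : List Bool} (hω : PW Sp ω) (ht : true ∈ ω)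
    (hf : false ∈ ω) : ∃ u v, PW Sp (u ++ ([false] ++ (v ++ [true]))) ∧
      1 ≤ u.length + v.length := by
  obtain ⟨y, ω', rfl⟩ : ∃ y ω', ω = ω' ++ [y] := by
    rcases eq_nil_or_concat ω with rfl | ⟨L, b, h⟩
    · simp at ht
    · exact ⟨b, L, by simpa using h⟩
  cases y
  · have h1 := PW.comp hu (u := ω') (v := []) (y := false) (ρ := ω' ++ [false])
      (by simpa using hω) hω
    rw [append_nil, map_append] at h1
    have ht' : true ∈ ω' := by simpa using ht
    have h2 : false ∈ ω'.map (fun x => x ^^ !false) := by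
      rw [mem_map]
      exact ⟨true, ht', rfl⟩
    obtain ⟨u, v, e⟩ := append_of_mem h2
    rw [e] at h1
    refine ⟨ω' ++ u, v, ?_, ?_⟩
    · simpa using h1
    · have : 0 < ω'.length := length_pos_of_mem ht'
      rw [length_append]
      omega
  · have hf' : false ∈ ω' := by simpa using hf
    obtain ⟨u₁, v₁, rfl⟩ := append_of_mem hf'
    have h1 := PW.comp hu (u := u₁) (v := v₁ ++ [true]) (y := false)
      (ρ := u₁ ++ false :: v₁ ++ [true]) (by simpa using hω) hω
    have h2 := mem_tw ht hf false false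
    obtain ⟨u, v, e⟩ := append_of_mem h2
    have h3 := mem_tw ht hf false true
    rw [e] at h1 h3
    refine ⟨u₁ ++ u, v ++ v₁, ?_, ?_⟩
    · simpa using h1
    · have h4 : true ∈ u ∨ true ∈ v := by simpa using h3
      rw [length_append, length_append]
      rcases h4 with h4 | h4
      · have : 0 < u.length := length_pos_of_mem h4
        omega
      · have : 0 < v.length := length_pos_of_mem h4
        omega

end Pool.Agent.Helper79.EOL
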