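import Pool.Agent.Helper79.EOL.NF
import Pool.Agent.Helper79.EOL.NegCorner

/-!
# Quotients of the languages of systems, and start words with static ends
-/

namespace Pool.Agent.Helper79.EOL

open List Pool.Agent.Helper76.EOL

lemma Sys.par_dv_succ {V : Type} {H : Sys V} {n : ℕ} {u : List V} {w : List ℕ} :
    Par (H.Dv (n + 1)) u w ↔ ∃ y, Par H.N u y ∧ Par (H.Dv n) y w := by
  have e : H.Dv (n + 1) = Then H.N (H.Dv n) := by
    funext x w
    exact propext Sys.dv_succ
  rw [e, par_then]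

lemma Sys.par_dv_zero {V : Type} {H : Sys V} {u : List V} {w : List ℕ} :
    Par (H.Dv 0) u w ↔ Par H.F u w := by
  have e : H.Dv 0 = H.F := by
    funext x w
    exact propext Sys.dv_zero
  rw [e]

lemma Sys.dv_ne {V : Type} {H : Sys V} {n : ℕ} {x : V} {w : List ℕ} (h : H.Dv n x w) :
    w ≠ [] := by
  apply Sys.L_ne_nil (H := H) (u := [x]) (by simp)
  rw [Sys.mem_L_dv]
  exact ⟨n, par_single.2 h⟩

/-- Words of length at most `m`. -/
abbrev SL (V : Type) (m : ℕ) : Type := {u : List V // u.length ≤ m}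

instance finite_SL {V : Type} [Finite V] (m : ℕ) : Finite (SL V m) :=
  (List.finite_length_le V m).to_subtype

/-- The left quotient of a system by the word `α`. -/
def quoSys {V : Type} [Finite V] (H : Sys V) (α : List ℕ) : Sys (V ⊕ SL V (α.length + 1)) where
  N := fun s w => match s with
    | Sum.inl x => ∃ u, H.N x u ∧ w = u.map Sum.inl
    | Sum.inr u => ∃ (u' : SL V (α.length + 1)) (v : List V), Par H.N u.1 (u'.1 ++ v) ∧
        w = Sum.inr u' :: v.map Sum.inl
  F := fun s w => match s with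
    | Sum.inl x => H.F x w
    | Sum.inr u => w ≠ [] ∧ Par H.F u.1 (α ++ w)
  N_ne := by
    rintro (x | x) w h
    · obtain ⟨u, h, rfl⟩ := h
      simpa using H.N_ne _ _ h
    · obtain ⟨u', v, _, rfl⟩ := h
      simp
  F_ne := by
    rintro (x | x) w h
    · exact H.F_ne _ _ h
    · exact h.1
  N_fin := by
    obtain ⟨D, hD, hb, _⟩ := H.exists_bound
    rintro (x | x)
    · apply ((H.N_fin x).image (fun u => u.map Sum.inl)).subset
      rintro w ⟨u, h, rfl⟩
      exact ⟨u, h, rfl⟩
    · apply (List.finite_length_le (V ⊕ SL V (α.length + 1)) (D * x.1.length + 1)).subset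
      rintro w ⟨u', v, h, rfl⟩
      have := h.length_le hb
      rw [length_append] at this
      simp only [Set.mem_ofPred_eq, length_cons, length_map]
      omega
  F_fin := by
    rintro (x | x)
    · exact H.F_fin x
    · apply ((par_finite H.F_fin x.1).image (fun w => w.drop α.length)).subset
      rintro w ⟨_, h⟩
      exact ⟨_, h, by simp⟩

lemma quo_inl {V : Type} [Finite V] {H : Sys V} {α : List ℕ} {n : ℕ} {x : V} {w : List ℕ} :
    (quoSys H α).Dv n (Sum.inl x) w ↔ H.Dv n x w := by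
  induction n generalizing x w with
  | zero => rw [Sys.dv_zero, Sys.dv_zero]; rfl
  | succ n ih =>
    rw [Sys.dv_succ, Sys.dv_succ]
    constructor
    · rintro ⟨u, ⟨v, h1, rfl⟩, h2⟩
      rw [par_map] at h2
      exact ⟨v, h1, h2.mono (fun _ _ h => ih.1 h)⟩
    · rintro ⟨u, h1, h2⟩
      refine ⟨u.map Sum.inl, ⟨u, h1, rfl⟩, ?_⟩
      rw [par_map]
      exact h2.mono (fun _ _ h => ih.2 h)

lemma quo_inr {V : Type} [Finite V] {H : Sys V} {α : List ℕ} {n : ℕ} :
    ∀ {u : SL V (α.length + 1)} {w : List ℕ}, (quoSys H α).Dv n (Sum.inr u) w ↔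
      w ≠ [] ∧ Par (H.Dv n) u.1 (α ++ w) := by
  induction n with
  | zero =>
    intro u w
    rw [Sys.dv_zero, Sys.par_dv_zero]; rfl
  | succ n ih =>
    intro u w
    rw [Sys.dv_succ, Sys.par_dv_succ]
    constructor
    · rintro ⟨z, ⟨u', v, h1, rfl⟩, h2⟩
      obtain ⟨w₁, w₂, h3, h4, rfl⟩ := par_cons.1 h2
      obtain ⟨h5, h6⟩ := ih.1 h3
      rw [par_map] at h4
      refine ⟨by simp [h5], u'.1 ++ v, h1, ?_⟩
      rw [← append_assoc]
      exact h6.append (h4.mono (fun _ _ h => quo_inl.1 h))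
    · rintro ⟨hw, y, h1, h2⟩
      have e := take_append_drop (α.length + 1) y
      rw [← e] at h2
      obtain ⟨z₁, z₂, h3, h4, h5⟩ := par_append.1 h2
      have hz₁ : ∃ w₁, w₁ ≠ [] ∧ z₁ = α ++ w₁ ∧ w = w₁ ++ z₂ := by
        have hlen := h3.le_length (fun _ _ h => Sys.dv_ne h)
        rw [length_take] at hlen
        rcases append_eq_append_iff.1 h5 with ⟨a, h6, h7⟩ | ⟨c, h6, h7⟩
        · -- `z₁ = α ++ a`, `w = a ++ z₂`
          by_cases ha : a = []
          · subst ha
            rw [append_nil] at h6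
            by_cases hy : α.length + 1 ≤ y.length
            · rw [min_eq_left hy, h6] at hlen
              omega
            · have : drop (α.length + 1) y = [] := drop_eq_nil_of_le (by omega)
              rw [this, par_nil] at h4
              subst h4
              simp only [nil_append] at h7
              exact absurd h7 hw
          · exact ⟨a, ha, h6, h7⟩
        · -- `α = z₁ ++ c`
          by_cases hy : α.length + 1 ≤ y.length
          · rw [min_eq_left hy] at hlen
            rw [h6, length_append] at hlen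
            omega
          · have : drop (α.length + 1) y = [] := drop_eq_nil_of_le (by omega)
            rw [this, par_nil] at h4
            subst h4
            exact absurd (append_eq_nil_iff.1 h7.symm).2 hw
      obtain ⟨w₁, h6, rfl, rfl⟩ := hz₁
      refine ⟨Sum.inr ⟨take (α.length + 1) y, by simp⟩ :: (drop (α.length + 1) y).map Sum.inl,
        ⟨_, _, ?_, rfl⟩, Par.cons (ih.2 ⟨h6, h3⟩) ?_⟩
      · simp only [take_append_drop]
        exact h1
      · rw [par_map]
        exact h4.mono (fun _ _ h => quo_inl.2 h)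

/-- Languages of systems. -/
def IsSysL (L : Set (List ℕ)) : Prop :=
  ∃ (V : Type) (_ : Finite V) (H : Sys V) (x : V), L = H.L [x]

lemma IsSysL.left {L : Set (List ℕ)} (h : IsSysL L) (α : List ℕ) :
    IsSysL {w | w ≠ [] ∧ α ++ w ∈ L} := by
  obtain ⟨V, hV, H, x, rfl⟩ := h
  refine ⟨_, inferInstance, quoSys H α, Sum.inr ⟨[x], by simp⟩, ?_⟩
  ext w
  rw [Sys.mem_L_dv]
  simp only [par_single, quo_inr, Set.mem_ofPred_eq, Sys.mem_L_dv]
  constructor
  · rintro ⟨h1, n, h2⟩
    exact ⟨n, h1, h2⟩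
  · rintro ⟨n, h1, h2⟩
    exact ⟨h1, n, h2⟩

lemma IsSysL.rev {L : Set (List ℕ)} (h : IsSysL L) : IsSysL {w | w.reverse ∈ L} := by
  obtain ⟨V, hV, H, x, rfl⟩ := h
  refine ⟨V, hV, H.rev, x, ?_⟩
  ext w
  rw [Sys.mem_rev_L]
  rfl

lemma IsSysL.right {L : Set (List ℕ)} (h : IsSysL L) (γ : List ℕ) :
    IsSysL {w | w ≠ [] ∧ w ++ γ ∈ L} := by
  have h1 := (h.rev.left γ.reverse).rev
  have e : {w | w.reverse ∈ {w | w ≠ [] ∧ γ.reverse ++ w ∈ {w | w.reverse ∈ L}}} =
      {w | w ≠ [] ∧ w ++ γ ∈ L} := by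
    ext w
    simp
  rw [← e]
  exact h1

lemma IsSysL.letters {L : Set (List ℕ)} (h : IsSysL L) :
    ∃ S : Set ℕ, S.Finite ∧ ∀ w ∈ L, ∀ y ∈ w, y ∈ S := by
  obtain ⟨V, hV, H, x, rfl⟩ := h
  refine ⟨⋃ x, ⋃ w ∈ {w | H.F x w}, {y | y ∈ w}, ?_, ?_⟩
  · apply Set.finite_iUnion
    intro x
    apply (H.F_fin x).biUnion
    intro w _
    exact List.finite_toSet _
  · rintro w ⟨n, v, _, h2⟩ y hy
    obtain ⟨z, _, u, h3, h4⟩ := h2.mem hy
    simp only [Set.mem_iUnion, exists_prop]
    exact ⟨z, u, h3, h4⟩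

lemma IsSysL.ne_nil {L : Set (List ℕ)} (h : IsSysL L) {w : List ℕ} (hw : w ∈ L) : w ≠ [] := by
  obtain ⟨V, hV, H, x, rfl⟩ := h
  exact Sys.L_ne_nil (by simp) hw

lemma finite_words {S : Set ℕ} (hS : S.Finite) (m : ℕ) :
    {w : List ℕ | w.length ≤ m ∧ ∀ y ∈ w, y ∈ S}.Finite := by
  have : Finite S := hS.to_subtype
  apply ((List.finite_length_le S m).image (fun l => l.map Subtype.val)).subset
  rintro w ⟨h1, h2⟩
  refine ⟨w.attach.map (fun y => ⟨y.1, h2 y.1 y.2⟩), ?_, ?_⟩
  · simpa using h1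
  · simp only [map_map]
    exact attach_map_subtype_val w

/-- The static system. -/
def sysStatic (S : Finset ℕ) : Sys {y // y ∈ S} where
  N := fun y w => w = [y]
  F := fun y w => w = [y.1]
  N_ne := fun _ _ h => by rw [h]; simp
  F_ne := fun _ _ h => by rw [h]; simp
  N_fin := fun _ => by simp
  F_fin := fun _ => by simp

lemma static_dv {S : Finset ℕ} {n : ℕ} {y : {y // y ∈ S}} {w : List ℕ} :
    (sysStatic S).Dv n y w ↔ w = [y.1] := by
  induction n generalizing y w with
  | zero => rw [Sys.dv_zero]; rfl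
  | succ n ih =>
    rw [Sys.dv_succ]
    constructor
    · rintro ⟨u, h1, h2⟩
      have h1' : u = [y] := h1
      subst h1'
      rw [par_single, ih] at h2
      exact h2
    · intro h
      exact ⟨[y], rfl, par_single.2 (ih.2 h)⟩

lemma static_par {S : Finset ℕ} {n : ℕ} {u : List {y // y ∈ S}} {w : List ℕ} :
    Par ((sysStatic S).Dv n) u w ↔ w = u.map Subtype.val := by
  induction u generalizing w with
  | nil => exact par_nil
  | cons y u ih =>
    rw [par_cons]
    constructor
    · rintro ⟨a, b, h1, h2, rfl⟩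
      rw [static_dv] at h1
      rw [ih] at h2
      rw [h1, h2]; rfl
    · rintro rfl
      exact ⟨[y.1], u.map Subtype.val, static_dv.2 rfl, ih.2 rfl, rfl⟩

lemma Repr.attach {c N₀ : ℕ} {L : Set (List ℕ)} (h : Repr 0 0 c N₀ L) (α γ : List ℕ) :
    Repr α.length γ.length c N₀ ((fun w => α ++ (w ++ γ)) '' L) := by
  obtain ⟨V, hV, H, act, Z, A, hA, hZ, hN, h1, rfl⟩ := h
  set S : Finset ℕ := (α ++ γ).toFinset with hS
  have hα : ∀ y ∈ α, y ∈ S := by intro y hy; simp [hS, hy]
  have hγ : ∀ y ∈ γ, y ∈ S := by intro y hy; simp [hS, hy]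
  obtain ⟨α', hα'⟩ : ∃ α' : List {y // y ∈ S}, α'.map Subtype.val = α :=
    ⟨α.attach.map (fun y => ⟨y.1, hα y.1 y.2⟩), by
      simp only [map_map]; exact attach_map_subtype_val α⟩
  obtain ⟨γ', hγ'⟩ : ∃ γ' : List {y // y ∈ S}, γ'.map Subtype.val = γ :=
    ⟨γ.attach.map (fun y => ⟨y.1, hγ y.1 y.2⟩), by
      simp only [map_map]; exact attach_map_subtype_val γ⟩
  have hNS : NFC (sysStatic S) (fun _ => False) c :=
    ⟨fun _ _ h => h.elim, fun y w _ h => Or.inl ⟨y, h⟩⟩
  refine ⟨V ⊕ {y // y ∈ S}, inferInstance, H.sum (sysStatic S), Sum.elim act (fun _ => False),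
    (fun z => α'.map Sum.inr ++ (z.map Sum.inl ++ γ'.map Sum.inr)) '' Z,
    (fun w => α ++ (w ++ γ)) '' A, hA.image _, hZ.image _, hN.sum hNS, ?_, ?_⟩
  · rintro _ ⟨z, hz, rfl⟩
    obtain ⟨u₁, z₀, u₂, rfl, h2, h3, h4, x, hx, hx2⟩ := h1 z hz
    refine ⟨α'.map Sum.inr ++ u₁.map Sum.inl, z₀.map Sum.inl, u₂.map Sum.inl ++ γ'.map Sum.inr,
      by simp, ?_, ?_, by simpa using h4, Sum.inl x, mem_map_of_mem hx, hx2⟩
    · have := congrArg length hα'
      simp only [length_map, length_append] at this ⊢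
      omega
    · have := congrArg length hγ'
      simp only [length_map, length_append] at this ⊢
      omega
  · have key : ∀ z, (H.sum (sysStatic S)).L
        (α'.map Sum.inr ++ (z.map Sum.inl ++ γ'.map Sum.inr)) = (fun w => α ++ (w ++ γ)) '' H.L z := by
      intro z
      ext w
      rw [Sys.mem_L_dv]
      simp only [Set.mem_image, Sys.mem_L_dv]
      constructor
      · rintro ⟨n, h⟩
        obtain ⟨a, b, h2, h3, rfl⟩ := par_append.1 h
        obtain ⟨b, c, h4, h5, rfl⟩ := par_append.1 h3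
        rw [par_map] at h2 h4 h5
        have h6 : Par ((sysStatic S).Dv n) α' a := h2.mono (fun _ _ h => Sys.sum_dv_inr.1 h)
        have h7 : Par ((sysStatic S).Dv n) γ' c := h5.mono (fun _ _ h => Sys.sum_dv_inr.1 h)
        rw [static_par, hα'] at h6
        rw [static_par, hγ'] at h7
        subst h6; subst h7
        exact ⟨b, ⟨n, h4.mono (fun _ _ h => Sys.sum_dv_inl.1 h)⟩, rfl⟩
      · rintro ⟨b, ⟨n, h⟩, rfl⟩
        refine ⟨n, ?_⟩
        have h6 : Par ((sysStatic S).Dv n) α' α := by rw [static_par, hα']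
        have h7 : Par ((sysStatic S).Dv n) γ' γ := by rw [static_par, hγ']
        refine Par.append ?_ (Par.append ?_ ?_)
        · rw [par_map]
          exact h6.mono (fun _ _ h => Sys.sum_dv_inr.2 h)
        · rw [par_map]
          exact h.mono (fun _ _ h => Sys.sum_dv_inl.2 h)
        · rw [par_map]
          exact h7.mono (fun _ _ h => Sys.sum_dv_inr.2 h)
    rw [Set.image_union, Set.image_iUnion₂, Set.biUnion_image]
    simp only [key]

/-- **Every language of a system is represented with start words having long static ends.** -/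
theorem repr_all {V : Type} [Finite V] (H : Sys V) (x : V) (m₁ m₂ c N₀ : ℕ) (hN₀ : 2 ≤ N₀) :
    Repr m₁ m₂ c N₀ (H.L [x]) := by
  have hL : IsSysL (H.L [x]) := ⟨V, inferInstance, H, x, rfl⟩
  obtain ⟨S, hS, hS2⟩ := hL.letters
  have e : H.L [x] = {w | w.length ≤ m₁ + m₂ ∧ w ∈ H.L [x]} ∪
      ⋃ α ∈ {α : List ℕ | α.length = m₁ ∧ ∀ y ∈ α, y ∈ S},
        ⋃ γ ∈ {γ : List ℕ | γ.length = m₂ ∧ ∀ y ∈ γ, y ∈ S},
          (fun w => α ++ (w ++ γ)) '' {w | w ≠ [] ∧ w ++ γ ∈ {w | w ≠ [] ∧ α ++ w ∈ H.L [x]}} := by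
    ext w
    simp only [Set.mem_union, Set.mem_ofPred_eq, Set.mem_iUnion, Set.mem_image, exists_prop]
    constructor
    · intro hw
      by_cases hlen : w.length ≤ m₁ + m₂
      · exact Or.inl ⟨hlen, hw⟩
      · right
        have e1 : w = take m₁ w ++ (take (w.length - m₁ - m₂) (drop m₁ w) ++
            drop (w.length - m₁ - m₂) (drop m₁ w)) := by
          rw [take_append_drop, take_append_drop]
        refine ⟨take m₁ w, ⟨by rw [length_take]; omega, fun y hy => hS2 w hw y
          (mem_of_mem_take hy)⟩, drop (w.length - m₁ - m₂) (drop m₁ w),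
          ⟨by rw [length_drop, length_drop]; omega, fun y hy => hS2 w hw y
          (mem_of_mem_drop (mem_of_mem_drop hy))⟩, take (w.length - m₁ - m₂) (drop m₁ w),
          ⟨?_, ?_, ?_⟩, e1.symm⟩
        · rw [← length_pos_iff, length_take, length_drop]
          omega
        · rw [take_append_drop, ← length_pos_iff, length_drop]
          omega
        · rw [take_append_drop, take_append_drop]
          exact hw
    · rintro (⟨_, h⟩ | ⟨α, _, γ, _, w', ⟨_, _, h⟩, rfl⟩)
      · exact h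
      · exact h
  rw [e]
  apply Repr.union
  · apply Repr.finite
    apply (finite_words hS (m₁ + m₂)).subset
    rintro w ⟨h1, h2⟩
    exact ⟨h1, hS2 w h2⟩
  · apply Repr.biUnion
    · apply (finite_words hS m₁).subset
      rintro w ⟨h1, h2⟩
      exact ⟨h1.le, h2⟩
    · rintro α ⟨hα, _⟩
      apply Repr.biUnion
      · apply (finite_words hS m₂).subset
        rintro w ⟨h1, h2⟩
        exact ⟨h1.le, h2⟩
      · rintro γ ⟨hγ, _⟩
        obtain ⟨V', hV', H', x', hL'⟩ := (hL.left α).right γ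
        rw [hL']
        have := (repr_L H' x' c N₀ hN₀).attach α γ
        rw [hα, hγ] at this
        exact this

end Pool.Agent.Helper79.EOL
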