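import Pool.Agent.Helper79.EOL.RCLang

/-!
# The rate conflict theorem
-/

namespace Pool.Agent.Helper79.EOL

open List Pool.Agent.Helper76.EOL

variable {G : Grammar} {L : Set (List ℕ)} {Sig : Finset ℕ}

/-- Test situations exist for languages with powers. -/
lemma exists_test (hG : Gen G L) (hsig : ∀ w ∈ L, ∀ x ∈ w, x ∈ Sig)
    (hpow : ∀ l ∈ Sig, ∀ k, 1 ≤ k → (replicate k l ∈ L ↔ ∃ n, k = 2 ^ n)) :
    ∃ n₀ P, Test G L Sig n₀ P := by
  obtain ⟨n₀, P, hP, ht⟩ := exists_tab G Sig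
  refine ⟨n₀, P, hG, hsig, ?_, ?_, hP, ht⟩
  · intro x hx
    have := (hG.exists ((hpow x hx 1 le_rfl).2 ⟨0, rfl⟩)).1
    exact this x (by simp)
  · intro x hx δ hδ h
    exact no_wait hG (hpow x hx) hδ (κ := 1) le_rfl h

/-- Either one symbol covers both letters, or the word can be cut. -/
lemma cut_or {α : Type*} {N : α → List ℕ → Prop} {lr ll : ℕ} {z : List α} :
    ∀ {p q : List ℕ}, Par N z (p ++ q) → lr ∉ p → ll ∉ q →
      (∃ u X v w₁ w w₂, z = u ++ ([X] ++ v) ∧ p ++ q = w₁ ++ (w ++ w₂) ∧ Par N u w₁ ∧ N X w ∧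
        Par N v w₂ ∧ lr ∈ w ∧ ll ∈ w) ∨
      (∃ u v w₁ w₂, z = u ++ v ∧ p ++ q = w₁ ++ w₂ ∧ Par N u w₁ ∧ Par N v w₂ ∧ lr ∉ w₁ ∧
        ll ∉ w₂) := by
  induction z with
  | nil =>
    intro p q h _ _
    rw [par_nil] at h
    exact Or.inr ⟨[], [], [], [], rfl, by rw [h]; rfl, Par.nil, Par.nil, by simp, by simp⟩
  | cons X z ih =>
    intro p q h hp hq
    obtain ⟨wX, w', h1, h2, e⟩ := par_cons.1 h
    rcases append_eq_append_iff.1 e with ⟨a, rfl, rfl⟩ | ⟨c, rfl, rfl⟩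
    · by_cases h3 : lr ∈ p ++ a
      · by_cases h4 : ll ∈ p ++ a
        · exact Or.inl ⟨[], X, z, [], p ++ a, w', rfl, by simp, Par.nil, h1, h2, h3, h4⟩
        · refine Or.inr ⟨[], X :: z, [], (p ++ a) ++ w', rfl, by simp, Par.nil, Par.cons h1 h2,
            by simp, ?_⟩
          rw [mem_append]
          rintro (h5 | h5)
          · exact h4 h5
          · exact hq (by simp [h5])
      · exact Or.inr ⟨[X], z, p ++ a, w', rfl, by simp, par_single.2 h1, h2, h3,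
          fun h5 => hq (by simp [h5])⟩
    · have hwX : lr ∉ wX := fun h5 => hp (by simp [h5])
      rcases ih h2 (fun h5 => hp (by simp [h5])) hq with
        ⟨u, X', v, w₁, w, w₂, rfl, e1, h3, h4, h5, h6, h7⟩ | ⟨u, v, w₁, w₂, rfl, e1, h3, h4, h5, h6⟩
      · exact Or.inl ⟨X :: u, X', v, wX ++ w₁, w, w₂, rfl, by rw [append_assoc, e1]; simp,
          Par.cons h1 h3, h4, h5, h6, h7⟩
      · refine Or.inr ⟨X :: u, v, wX ++ w₁, w₂, rfl, by rw [append_assoc, e1]; simp,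
          Par.cons h1 h3, h4, ?_, h6⟩
        rw [mem_append]
        rintro (h7 | h7)
        · exact hwX h7
        · exact h5 h7

/-- Letters in the wrong order do not occur. -/
def ordRC (x y : ℕ) : Prop := ¬ (x = 2 ∧ y = 1) ∧ ¬ (x = 0 ∧ y = 1) ∧ ¬ (x = 0 ∧ y = 2)

lemma wdRC_ord {M s : ℕ} {w₁ w₂ : List ℕ} (h : wdRC M s = w₁ ++ w₂) {x y : ℕ} (hx : x ∈ w₁)
    (hy : y ∈ w₂) : ordRC x y := by
  have hp : (wdRC M s).Pairwise ordRC := by
    unfold wdRC
    rw [pairwise_append, pairwise_append]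
    refine ⟨?_, ⟨?_, ?_, ?_⟩, ?_⟩
    · rw [pairwise_replicate]; right; simp [ordRC]
    · rw [pairwise_replicate]; right; simp [ordRC]
    · rw [pairwise_replicate]; right; simp [ordRC]
    · intro a ha b hb
      rw [eq_of_mem_replicate ha, eq_of_mem_replicate hb]
      simp [ordRC]
    · intro a ha b hb
      rw [eq_of_mem_replicate ha]
      rw [mem_append] at hb
      rcases hb with hb | hb
      · rw [eq_of_mem_replicate hb]; simp [ordRC]
      · rw [eq_of_mem_replicate hb]; simp [ordRC]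
  rw [h, pairwise_append] at hp
  exact hp.2.2 x hx y hy

lemma wdRC_count0 (M s : ℕ) : (wdRC M s).count 0 = M ^ s := by
  unfold wdRC
  simp [count_replicate]

lemma wdRC_count1 (M s : ℕ) : (wdRC M s).count 1 = s := by
  unfold wdRC
  simp [count_replicate]

lemma wdRC_count2 (M s : ℕ) : (wdRC M s).count 2 = s := by
  unfold wdRC
  simp [count_replicate]

lemma wdRC_length (M s : ℕ) : (wdRC M s).length = s + (s + M ^ s) := by
  unfold wdRC
  simp

lemma mem_LRC_of {M : ℕ} {w : List ℕ} (h : w ∈ LRC M) (h0 : 0 ∈ w) (h1 : 1 ∈ w) :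
    ∃ j, 1 ≤ j ∧ w = wdRC M j := by
  rcases h with h | ⟨l, _, n, rfl⟩
  · exact h
  · have e1 := eq_of_mem_replicate h0
    have e2 := eq_of_mem_replicate h1
    omega

lemma LRC_pow {M l : ℕ} (hl : l ∈ ({0, 1, 2} : Finset ℕ)) (k : ℕ) (_hk : 1 ≤ k) :
    replicate k l ∈ LRC M ↔ ∃ n, k = 2 ^ n := by
  constructor
  · rintro (⟨s, hs, h⟩ | ⟨l', _, n, h⟩)
    · exfalso
      have h1 : 1 ∈ replicate k l := by
        rw [h]; unfold wdRC; simp; omega
      have h2 : 2 ∈ replicate k l := by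
        rw [h]; unfold wdRC; simp; omega
      have e1 := eq_of_mem_replicate h1
      have e2 := eq_of_mem_replicate h2
      omega
    · refine ⟨n, ?_⟩
      have := congrArg length h
      simpa using this
  · rintro ⟨n, rfl⟩
    right
    refine ⟨l, ?_, n, rfl⟩
    simp only [Finset.mem_insert, Finset.mem_singleton] at hl
    omega

lemma LRC_sig {M : ℕ} {w : List ℕ} (hw : w ∈ LRC M) : ∀ x ∈ w, x ∈ ({0, 1, 2} : Finset ℕ) := by
  intro x hx
  rcases hw with ⟨s, _, rfl⟩ | ⟨l, hl, n, rfl⟩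
  · unfold wdRC at hx
    simp only [mem_append] at hx
    rcases hx with hx | hx | hx
    · rw [eq_of_mem_replicate hx]; simp
    · rw [eq_of_mem_replicate hx]; simp
    · rw [eq_of_mem_replicate hx]; simp
  · rw [eq_of_mem_replicate hx]
    simp only [Finset.mem_insert, Finset.mem_singleton]
    omega

lemma Par.it_length_le {D n : ℕ} {z w : List ℕ} (hb : ∀ x w, pr G x w → w.length ≤ D)
    (h : Par (It (pr G) n) z w) : w.length ≤ D ^ n * z.length :=
  h.length_le (fun _ _ h => h.length_le hb)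

section RC

variable {M D K1 K2 n₀ P : ℕ} {Hv : ℕ → Prop}

/-- While one symbol covers letters `c` and `b`, the sentential form is short. -/
lemma joined_bound (ht : Test G (LRC M) {0, 1, 2} n₀ P)
    (hb : ∀ x w, pr G x w → w.length ≤ D) (hD : 1 ≤ D) (hM : 1 ≤ M)
    (r3 : ∀ n z w, Rc G z → Par (It (pr G) n) z w → (∀ x ∈ w, x ∈ G.T) →
      z.length ≤ K1 * (w.length + 1))
    {u v w₁ w w₂ : List ℕ} {X τ s : ℕ} (hR : Rc G (u ++ ([X] ++ v)))
    (hu : Par (It (pr G) τ) u w₁) (hX : It (pr G) τ X w) (hv : Par (It (pr G) τ) v w₂)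
    (hw : w₁ ++ (w ++ w₂) = wdRC M s) (hs : 1 ≤ s) (h0 : 0 ∈ w) (h1 : 1 ∈ w) (hτ : n₀ ≤ τ) :
    (u ++ ([X] ++ v)).length ≤
      K1 * (D ^ (n₀ + P) + (D ^ (n₀ + P) + M ^ (D ^ (n₀ + P))) + 1) := by
  obtain ⟨ρ, hρ1, hρ2, hρ3⟩ := exists_rep ht.hP n₀ τ
  have hL : w₁ ++ (w ++ w₂) ∈ LRC M := by rw [hw]; exact Or.inl ⟨s, hs, rfl⟩
  have hS := ht.sig _ hL
  obtain ⟨w₁', e1, f1⟩ := ht.tab.par hτ hρ1 hρ3 (fun x hx => hR.mem_V x (by simp [hx])) hu
    (fun x hx => hS x (by simp [hx]))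
  obtain ⟨w', e2, f2⟩ := ht.tab X (hR.mem_V X (by simp)) τ ρ hτ hρ1 hρ3 w hX
    (fun x hx => hS x (by simp [hx]))
  obtain ⟨w₂', e3, f3⟩ := ht.tab.par hτ hρ1 hρ3 (fun x hx => hR.mem_V x (by simp [hx])) hv
    (fun x hx => hS x (by simp [hx]))
  have tr : ∀ {a b : List ℕ}, a.toFinset = b.toFinset → ∀ x, x ∈ a ↔ x ∈ b := by
    intro a b h x
    rw [← mem_toFinset, h, mem_toFinset]
  have e4 : Par (It (pr G) ρ) (u ++ ([X] ++ v)) (w₁' ++ (w' ++ w₂')) :=
    e1.append ((par_single.2 e2).append e3)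
  have h0' : 0 ∈ w' := (tr f2 0).2 h0
  have h1' : 1 ∈ w' := (tr f2 1).2 h1
  have hT : ∀ x ∈ w₁' ++ (w' ++ w₂'), x ∈ G.T := by
    intro x hx
    apply ht.sigT
    apply hS
    simp only [mem_append] at hx ⊢
    rw [tr f1, tr f2, tr f3] at hx
    exact hx
  have h5 : w₁' ++ (w' ++ w₂') ∈ LRC M := by
    apply ht.gen.mem (hR.trans e4) hT
    intro h
    have : (0 : ℕ) ∈ w₁' ++ (w' ++ w₂') := by simp [h0']
    rw [h] at this
    simp at this
  obtain ⟨j, hj, h6⟩ := mem_LRC_of h5 (by simp [h0']) (by simp [h1'])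
  have hc1 : w₁'.count 2 = 0 := by
    rw [count_eq_zero]
    intro h
    exact (wdRC_ord h6.symm h (y := 1) (by simp [h1'])).1 ⟨rfl, rfl⟩
  have hc2 : w₂'.count 2 = 0 := by
    rw [count_eq_zero]
    intro h
    rw [← append_assoc] at h6
    exact (wdRC_ord h6.symm (x := 0) (by simp [h0']) h).2.2 ⟨rfl, rfl⟩
  have hcount : w'.count 2 = j := by
    have := congrArg (List.count 2) h6
    rw [wdRC_count2, count_append, count_append, hc1, hc2] at this
    omega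
  have hlen : w'.length ≤ D ^ ρ := e2.length_le hb
  have hDρ : D ^ ρ ≤ D ^ (n₀ + P) := Nat.pow_le_pow_right hD (by omega)
  have hj2 : j ≤ D ^ (n₀ + P) := by
    have := (count_le_length (a := 2) (l := w'))
    omega
  have hMj : M ^ j ≤ M ^ (D ^ (n₀ + P)) := Nat.pow_le_pow_right hM hj2
  have h7 := r3 _ _ _ hR e4 hT
  have h8 : (w₁' ++ (w' ++ w₂')).length = j + (j + M ^ j) := by rw [h6, wdRC_length]
  refine h7.trans (Nat.mul_le_mul_left _ ?_)
  omega

/-- The rules of nonheavy symbols without heavy children. -/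
def NB (G : Grammar) (Hv : ℕ → Prop) (X : ℕ) (α : List ℕ) : Prop :=
  pr G X α ∧ (α = [] ∨ ∃ Y, α = [Y] ∧ ¬ Hv Y)

lemma NB.it_short {k X : ℕ} {w : List ℕ} (h : It (NB G Hv) k X w) : w = [] ∨ ∃ Y, w = [Y] := by
  induction k generalizing X w with
  | zero => exact Or.inr ⟨X, h⟩
  | succ k ih =>
    obtain ⟨α, h1, h2⟩ := h
    rcases h1.2 with rfl | ⟨Y, rfl, _⟩
    · exact Or.inl (par_nil.1 h2)
    · rw [par_single] at h2
      exact ih h2

lemma NB.periodic (G : Grammar) (Hv : ℕ → Prop) : ∃ n₁ Q, 1 ≤ Q ∧ ∀ k k', n₁ ≤ k → n₁ ≤ k' →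
    k ≡ k' [MOD Q] → ∀ X ∈ G.V, ∀ w, It (NB G Hv) k X w → It (NB G Hv) k' X w := by
  set T : ℕ → Set (ℕ × List ℕ) := fun k => {p | p.1 ∈ G.V ∧ It (NB G Hv) k p.1 p.2} with hT
  have hV : ∀ k X, X ∈ G.V → ∀ w, It (NB G Hv) k X w → ∀ x ∈ w, x ∈ G.V := by
    intro k X hX w h
    exact mem_V_of_it hX (h.mono (fun _ _ h => h.1))
  have hfin : {p : ℕ × List ℕ | p.1 ∈ G.V ∧ (p.2 = [] ∨ ∃ Y ∈ G.V, p.2 = [Y])}.Finite := by
    have : {p : ℕ × List ℕ | p.1 ∈ G.V ∧ (p.2 = [] ∨ ∃ Y ∈ G.V, p.2 = [Y])} ⊆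
        (G.V ×ˢ (insert [] (G.V.image (fun Y => [Y]))) : Finset (ℕ × List ℕ)) := by
      rintro ⟨X, w⟩ ⟨h1, h2⟩
      simp only [Finset.coe_product, Set.mem_prod, Finset.mem_coe, Finset.mem_insert,
        Finset.mem_image]
      refine ⟨h1, ?_⟩
      rcases h2 with h2 | ⟨Y, hY, h2⟩
      · exact Or.inl h2
      · exact Or.inr ⟨Y, hY, h2.symm⟩
    exact (Finset.finite_toSet _).subset this
  obtain ⟨n₁, Q, hQ, h⟩ := eventually_periodic _ hfin T
    (by
      rintro k ⟨X, w⟩ ⟨h1, h2⟩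
      refine ⟨h1, ?_⟩
      rcases NB.it_short h2 with h3 | ⟨Y, h3⟩
      · exact Or.inl h3
      · refine Or.inr ⟨Y, hV k X h1 w h2 Y ?_, h3⟩
        have h3' : w = [Y] := h3
        rw [h3']; simp)
    (by
      have key : ∀ i j, T i = T j → T (i + 1) ⊆ T (j + 1) := by
        rintro i j hij ⟨X, w⟩ ⟨h1, h2⟩
        refine ⟨h1, ?_⟩
        obtain ⟨α, h3, h4⟩ := it_succ.1 h2
        refine it_succ.2 ⟨α, h3, ?_⟩
        apply h4.mono'
        intro x hx u hu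
        have : (x, u) ∈ T i := ⟨(G.prod_wf _ h3.1).2 x hx, hu⟩
        rw [hij] at this
        exact this.2
      intro i j hij
      exact Set.Subset.antisymm (key i j hij) (key j i hij.symm))
  refine ⟨n₁, Q, hQ, ?_⟩
  intro k k' hk hk' hmod X hX w hw
  have h1 : (X, w) ∈ T k := ⟨hX, hw⟩
  rw [periodic_modEq h hk hk' hmod] at h1
  exact h1.2

/-- Long before the end, a part of the sentential form with a short outcome has no heavy
symbols. -/
lemma not_heavy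
    (r4 : ∀ u v w₁ w w₂ Y τ, Rc G (u ++ ([Y] ++ v)) → Par (It (pr G) τ) u w₁ →
      It (pr G) τ Y w → Par (It (pr G) τ) v w₂ → (∀ x ∈ w₁, x ∈ Sig) → (∀ x ∈ w, x ∈ Sig) →
      (∀ x ∈ w₂, x ∈ Sig) → Hv Y → τ ≤ w.length + K2)
    {τ : ℕ} {u v wL wR : List ℕ} (hR : Rc G (u ++ v)) (hu : Par (It (pr G) τ) u wL)
    (hv : Par (It (pr G) τ) v wR) (hsL : ∀ x ∈ wL, x ∈ Sig) (hsR : ∀ x ∈ wR, x ∈ Sig)
    (hτ : wL.length + K2 < τ) : ∀ Y ∈ u, ¬ Hv Y := by
  intro Y hY hH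
  obtain ⟨a, b, rfl⟩ := append_of_mem hY
  rw [← singleton_append] at hu hR
  obtain ⟨wa, w', h1, h2, rfl⟩ := par_append.1 hu
  obtain ⟨wY, wb, h3, h4, rfl⟩ := par_append.1 h2
  rw [par_single] at h3
  have := r4 a (b ++ v) wa wY (wb ++ wR) Y τ (by simpa [append_assoc] using hR) h1 h3
    (h4.append hv) (fun x hx => hsL x (by simp [hx])) (fun x hx => hsL x (by simp [hx]))
    (by
      intro x hx
      rw [mem_append] at hx
      rcases hx with hx | hx
      · exact hsL x (by simp [hx])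
      · exact hsR x hx) hH
  simp only [length_append] at hτ
  omega

lemma nb_prefix
    (r1 : ∀ X α, ¬ Hv X → pr G X α → α = [] ∨ (∃ Y, α = [Y] ∧ ¬ Hv Y) ∨ ∃ Y ∈ α, Hv Y)
    (r4 : ∀ u v w₁ w w₂ Y τ, Rc G (u ++ ([Y] ++ v)) → Par (It (pr G) τ) u w₁ →
      It (pr G) τ Y w → Par (It (pr G) τ) v w₂ → (∀ x ∈ w₁, x ∈ Sig) → (∀ x ∈ w, x ∈ Sig) →
      (∀ x ∈ w₂, x ∈ Sig) → Hv Y → τ ≤ w.length + K2) (k : ℕ) :
    ∀ {τ : ℕ} {u v wL wR : List ℕ}, Rc G (u ++ v) → Par (It (pr G) (k + τ)) u wL →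
      Par (It (pr G) (k + τ)) v wR → (∀ x ∈ wL, x ∈ Sig) → (∀ x ∈ wR, x ∈ Sig) →
      wL.length + K2 < τ → ∃ u', Par (It (NB G Hv) k) u u' ∧ Par (It (pr G) τ) u' wL := by
  induction k with
  | zero =>
    intro τ u v wL wR _ hu _ _ _ _
    rw [Nat.zero_add] at hu
    exact ⟨u, par_it_zero.2 rfl, hu⟩
  | succ k ih =>
    intro τ u v wL wR hR hu hv hsL hsR hτ
    have hnh := not_heavy r4 hR hu hv hsL hsR (by omega)
    rw [show k + 1 + τ = (k + τ) + 1 by omega] at hu hv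
    obtain ⟨u₁, h1, h2⟩ := par_it_succ.1 hu
    obtain ⟨v₁, h3, h4⟩ := par_it_succ.1 hv
    have hR' := hR.step (h1.append h3)
    have hnh1 := not_heavy r4 hR' h2 h4 hsL hsR (by omega)
    obtain ⟨u', h5, h6⟩ := ih hR' h2 h4 hsL hsR hτ
    refine ⟨u', par_it_succ.2 ⟨u₁, ?_, h5⟩, h6⟩
    clear hR hu hv hR' h2 h4 h5 h6 h3
    induction h1 with
    | nil => exact Par.nil
    | @cons X α xs w hX _ ih2 =>
      refine Par.cons ⟨hX, ?_⟩ (ih2 (fun Y hY => hnh Y (by simp [hY]))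
        (fun Y hY => hnh1 Y (by simp [hY])))
      rcases r1 X α (hnh X (by simp)) hX with h | h | ⟨Y, hY, h⟩
      · exact Or.inl h
      · exact Or.inr h
      · exact absurd h (hnh1 Y (by simp [hY]))

/-- **The rate conflict theorem.** -/
theorem rate_conflict (hD2 : 2 ≤ D) (hb : ∀ x w, pr G x w → w.length ≤ D)
    (hG : Gen G (LRC (D ^ 3)))
    (r1 : ∀ X α, ¬ Hv X → pr G X α → α = [] ∨ (∃ Y, α = [Y] ∧ ¬ Hv Y) ∨ ∃ Y ∈ α, Hv Y)
    (r3 : ∃ K1, ∀ n z w, Rc G z → Par (It (pr G) n) z w → (∀ x ∈ w, x ∈ G.T) →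
      z.length ≤ K1 * (w.length + 1))
    (r4 : ∀ n₀ P, Test G (LRC (D ^ 3)) {0, 1, 2} n₀ P → ∃ K2, ∀ u v w₁ w w₂ Y τ,
      Rc G (u ++ ([Y] ++ v)) → Par (It (pr G) τ) u w₁ →
      It (pr G) τ Y w → Par (It (pr G) τ) v w₂ → (∀ x ∈ w₁, x ∈ ({0, 1, 2} : Finset ℕ)) →
      (∀ x ∈ w, x ∈ ({0, 1, 2} : Finset ℕ)) →
      (∀ x ∈ w₂, x ∈ ({0, 1, 2} : Finset ℕ)) → Hv Y → τ ≤ w.length + K2) : False := by
  obtain ⟨n₀, P, ht⟩ := exists_test hG (fun w hw => LRC_sig hw) (fun l hl => LRC_pow hl)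
  obtain ⟨K1, r3⟩ := r3
  obtain ⟨K2, r4⟩ := r4 n₀ P ht
  obtain ⟨n₁, Q, hQ, hper⟩ := NB.periodic G Hv
  have hP := ht.hP
  set C1 := K1 * (D ^ (n₀ + P) + (D ^ (n₀ + P) + (D ^ 3) ^ (D ^ (n₀ + P))) + 1) with hC1
  set C2 := D * C1 + 1 with hC2
  set s := C2 + n₁ + P * Q + K2 + n₀ + 2 with hs
  have hlt : ∀ k, k < D ^ k := fun k => Nat.lt_pow_self (by omega)
  have hpow : (D ^ 3) ^ s = D ^ (3 * s) := by rw [← pow_mul]
  -- the sizes
  have size : ∀ τ (z : List ℕ), z.length ≤ C2 → Par (It (pr G) τ) z (wdRC (D ^ 3) s) →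
      3 * s < C2 + τ := by
    intro τ z hz h
    have h1 := Par.it_length_le hb h
    rw [wdRC_length, hpow] at h1
    have h2 : D ^ τ * z.length ≤ D ^ τ * C2 := Nat.mul_le_mul_left _ hz
    have h3 : D ^ τ * C2 < D ^ τ * D ^ C2 :=
      Nat.mul_lt_mul_of_pos_left (hlt C2) (Nat.pow_pos (by omega))
    rw [← pow_add] at h3
    have h4 : D ^ (3 * s) < D ^ (τ + C2) := by omega
    have := (Nat.pow_lt_pow_iff_right (by omega)).1 h4
    omega
  -- separation
  have sep : ∀ τ (z : List ℕ), Rc G z → z.length ≤ C2 →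
      Par (It (pr G) τ) z (wdRC (D ^ 3) s) → ∃ τ u v w₁ w₂, Rc G (u ++ v) ∧
        (u ++ v).length ≤ C2 ∧ Par (It (pr G) τ) u w₁ ∧ Par (It (pr G) τ) v w₂ ∧
        wdRC (D ^ 3) s = w₁ ++ w₂ ∧ 0 ∉ w₁ ∧ 1 ∉ w₂ := by
    intro τ
    induction τ with
    | zero =>
      intro z _ hz h
      have := size _ z hz h
      omega
    | succ τ ih =>
      intro z hR hz h
      have hsz := size _ z hz h
      have hcut := cut_or (lr := 0) (ll := 1) (p := replicate s 1)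
        (q := replicate s 2 ++ replicate ((D ^ 3) ^ s) 0) h
        (by
          intro h
          have := eq_of_mem_replicate h
          omega)
        (by
          intro h
          rw [mem_append] at h
          rcases h with h | h
          · have := eq_of_mem_replicate h
            omega
          · have := eq_of_mem_replicate h
            omega)
      rcases hcut with ⟨u, X, v, w₁, w, w₂, rfl, e, h1, h2, h3, h4, h5⟩ |
        ⟨u, v, w₁, w₂, rfl, e, h1, h2, h3, h4⟩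
      · have hbd := joined_bound ht hb (by omega) (Nat.one_le_pow _ _ (by omega)) r3 hR h1 h2 h3
          (s := s) e.symm (by omega) h4 h5 (by omega)
        obtain ⟨z', h6, h7⟩ := par_it_succ.1 h
        refine ih z' (hR.step h6) ?_ h7
        have h8 := h6.length_le hb
        have h9 : D * (u ++ ([X] ++ v)).length ≤ D * C1 := Nat.mul_le_mul_left _ hbd
        omega
      · exact ⟨τ + 1, u, v, w₁, w₂, hR, hz, h1, h2, e, h3, h4⟩
  have hmem : wdRC (D ^ 3) s ∈ LRC (D ^ 3) := Or.inl ⟨s, by omega, rfl⟩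
  obtain ⟨_, _, n, hn⟩ := hG.exists hmem
  obtain ⟨τ, u, v, w₁, w₂, hR, hlen, h1, h2, h3, h4, h5⟩ :=
    sep n [G.S] Rc.start (by simp only [length_singleton]; omega) (par_single.2 hn)
  have hsz := size τ (u ++ v) hlen (by rw [h3]; exact h1.append h2)
  -- the left part is short
  have hc1 : w₁.length ≤ 2 * s := by
    have e0 : w₁.count 0 = 0 := count_eq_zero.2 h4
    have e1 := congrArg (List.count 0) h3
    rw [wdRC_count0, count_append, e0, Nat.zero_add] at e1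
    have e2 := congrArg length h3
    rw [wdRC_length, length_append] at e2
    have e3 := count_le_length (a := 0) (l := w₂)
    omega
  set τ₁ := 2 * s + K2 + 1 with hτ₁
  obtain ⟨k, hk⟩ : ∃ k, τ = k + τ₁ := ⟨τ - τ₁, by omega⟩
  have hkn : n₁ ≤ k := by omega
  have hS := ht.sig _ hmem
  have hs1 : ∀ x ∈ w₁, x ∈ ({0, 1, 2} : Finset ℕ) := fun x hx => hS x (by rw [h3]; simp [hx])
  have hs2 : ∀ x ∈ w₂, x ∈ ({0, 1, 2} : Finset ℕ) := fun x hx => hS x (by rw [h3]; simp [hx])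
  rw [hk] at h1
  obtain ⟨u', h6, h7⟩ := nb_prefix r1 r4 k hR h1 (by rw [← hk]; exact h2) hs1 hs2 (by omega)
  have hPQ : 1 ≤ P * Q := Nat.mul_pos hP hQ
  obtain ⟨k', hk1, hk2, hk3⟩ := exists_rep hPQ n₁ k
  have h8 : Par (It (pr G) k') u u' := by
    have h9 : Par (It (NB G Hv) k') u u' := by
      apply h6.mono'
      intro X hX w hw
      exact hper k k' hkn hk1 (hk3.of_dvd ⟨P, by ring⟩) X (hR.mem_V X (by simp [hX])) w hw
    exact h9.mono (fun _ _ h => h.mono (fun _ _ h => h.1))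
  have h9 : Par (It (pr G) (k' + τ₁)) u w₁ := par_it_add.2 ⟨u', h8, h7⟩
  have hmod : τ ≡ k' + τ₁ [MOD P] := by
    rw [hk]
    exact Nat.ModEq.add_right _ (hk3.of_dvd ⟨Q, rfl⟩)
  obtain ⟨w₂', h10, h11⟩ := ht.tab.par (by omega) (by omega) hmod
    (fun x hx => hR.mem_V x (by simp [hx])) h2 hs2
  have tr : ∀ x, x ∈ w₂' ↔ x ∈ w₂ := by
    intro x
    rw [← mem_toFinset, h11, mem_toFinset]
  have h0s : 0 ∈ wdRC (D ^ 3) s := by
    unfold wdRC
    simp only [mem_append, mem_replicate]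
    right; right
    exact ⟨by positivity, trivial⟩
  have h1s : 1 ∈ wdRC (D ^ 3) s := by
    unfold wdRC
    simp only [mem_append, mem_replicate]
    left
    exact ⟨by omega, trivial⟩
  have h0 : 0 ∈ w₂' := by
    rw [tr]
    rw [h3, mem_append] at h0s
    exact h0s.resolve_left h4
  have h1m : 1 ∈ w₁ := by
    rw [h3, mem_append] at h1s
    exact h1s.resolve_right h5
  have hL : w₁ ++ w₂' ∈ LRC (D ^ 3) := by
    apply hG.mem (hR.trans (h9.append h10))
    · intro x hx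
      apply ht.sigT
      rw [mem_append] at hx
      rcases hx with hx | hx
      · exact hs1 x hx
      · exact hs2 x ((tr x).1 hx)
    · intro h
      have : (0 : ℕ) ∈ w₁ ++ w₂' := by simp [h0]
      rw [h] at this
      simp at this
  obtain ⟨j, hj, e⟩ := mem_LRC_of hL (by simp [h0]) (by simp [h1m])
  have hjs : j = s := by
    have e1 := congrArg (List.count 1) e
    have e2 := congrArg (List.count 1) h3
    rw [wdRC_count1, count_append] at e1 e2
    have e3 : w₂.count 1 = 0 := count_eq_zero.2 h5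
    have e4 : w₂'.count 1 = 0 := count_eq_zero.2 (fun h => h5 ((tr 1).1 h))
    omega
  rw [hjs] at e
  have hc0 : D ^ (3 * s) ≤ w₂'.length := by
    have e1 := congrArg (List.count 0) e
    rw [wdRC_count0, count_append, count_eq_zero.2 h4, hpow] at e1
    have := count_le_length (a := 0) (l := w₂')
    omega
  have h12 := Par.it_length_le hb h10
  have hvl : v.length ≤ C2 := by
    rw [length_append] at hlen
    omega
  have h13 : D ^ (k' + τ₁) * v.length ≤ D ^ (k' + τ₁) * C2 := Nat.mul_le_mul_left _ hvl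
  have h14 : D ^ (k' + τ₁) * C2 < D ^ (k' + τ₁) * D ^ C2 :=
    Nat.mul_lt_mul_of_pos_left (hlt C2) (Nat.pow_pos (by omega))
  rw [← pow_add] at h14
  have h15 : D ^ (3 * s) < D ^ (k' + τ₁ + C2) := by omega
  have := (Nat.pow_lt_pow_iff_right (by omega)).1 h15
  omega

end RC

end Pool.Agent.Helper79.EOL
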