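import Pool.Agent.Helper79.EOL.LangTools
import Pool.Agent.Helper79.EOL.Grow

/-!
# The rate conflict language
-/

namespace Pool.Agent.Helper79.EOL

open List Pool.Agent.Helper76.EOL

/-- The words `c^s d^s b^(M^s)` with `b = 0`, `c = 1`, `d = 2`. -/
def wdRC (M s : ℕ) : List ℕ := replicate s 1 ++ (replicate s 2 ++ replicate (M ^ s) 0)

/-- The rate conflict language. -/
def LRC (M : ℕ) : Set (List ℕ) :=
  {w | (∃ s, 1 ≤ s ∧ w = wdRC M s) ∨ ∃ l, l < 3 ∧ ∃ n, w = replicate (2 ^ n) l}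

/-- Symbols of the system for the rate conflict language. -/
inductive VRC
  | st | c | c' | d | d' | b | p (l : Fin 3)
  deriving DecidableEq

instance : Finite VRC := by
  apply Finite.of_surjective (fun x : Fin 6 ⊕ Fin 3 => match x with
    | Sum.inl 0 => VRC.st | Sum.inl 1 => VRC.c | Sum.inl 2 => VRC.c' | Sum.inl 3 => VRC.d
    | Sum.inl 4 => VRC.d' | Sum.inl 5 => VRC.b | Sum.inr l => VRC.p l)
  intro y
  cases y with
  | st => exact ⟨Sum.inl 0, rfl⟩
  | c => exact ⟨Sum.inl 1, rfl⟩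
  | c' => exact ⟨Sum.inl 2, rfl⟩
  | d => exact ⟨Sum.inl 3, rfl⟩
  | d' => exact ⟨Sum.inl 4, rfl⟩
  | b => exact ⟨Sum.inl 5, rfl⟩
  | p l => exact ⟨Sum.inr l, rfl⟩

/-- Nonfinal rules. -/
def NRC (M : ℕ) : VRC → List (List VRC)
  | .st => [[.c, .d] ++ replicate M .b, [.p 0], [.p 1], [.p 2]]
  | .c => [[.c, .c']]
  | .c' => [[.c']]
  | .d => [[.d, .d']]
  | .d' => [[.d']]
  | .b => [replicate M .b]
  | .p l => [replicate 2 (.p l)]

/-- Final rules. -/
def FRC : VRC → List (List ℕ)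
  | .st => []
  | .c => [[1]]
  | .c' => [[1]]
  | .d => [[2]]
  | .d' => [[2]]
  | .b => [[0]]
  | .p l => [[l.1]]

/-- The system for the rate conflict language. -/
def sysRC (M : ℕ) (hM : 1 ≤ M) : Sys VRC := Sys.ofLists (NRC M) FRC
  (by
    intro x w hw
    have hne : ∀ (n : ℕ) (y : VRC), 1 ≤ n → replicate n y ≠ [] := by
      intro n y hn h
      have := congrArg length h
      simp at this; omega
    cases x <;> simp only [NRC, mem_cons, not_mem_nil, or_false] at hw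
    · rcases hw with rfl | rfl | rfl | rfl <;> simp
    · subst hw; simp
    · subst hw; simp
    · subst hw; simp
    · subst hw; simp
    · subst hw; exact hne _ _ hM
    · subst hw; exact hne _ _ (by omega))
  (by
    intro x w hw
    cases x <;> simp only [FRC, mem_cons, not_mem_nil, or_false] at hw <;> subst hw <;> simp)

lemma sysRC_L (M : ℕ) (hM : 1 ≤ M) : (sysRC M hM).L [VRC.st] = LRC M := by
  have hN : ∀ x u, (sysRC M hM).N x u ↔ u ∈ NRC M x := fun _ _ => Iff.rfl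
  have hF : ∀ x u, (sysRC M hM).F x u ↔ u ∈ FRC x := fun _ _ => Iff.rfl
  have hc := Sys.on_count (H := sysRC M hM) (x := VRC.c) (y := VRC.c') (l := 1)
    (by intro u; rw [hN]; simp [NRC]) (by intro u; rw [hF]; simp [FRC])
    (by intro u; rw [hN]; simp [NRC]) (by intro u; rw [hF]; simp [FRC])
  have hd := Sys.on_count (H := sysRC M hM) (x := VRC.d) (y := VRC.d') (l := 2)
    (by intro u; rw [hN]; simp [NRC]) (by intro u; rw [hF]; simp [FRC])
    (by intro u; rw [hN]; simp [NRC]) (by intro u; rw [hF]; simp [FRC])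
  have hb := Sys.on_mul (H := sysRC M hM) (x := VRC.b) (M := M) (l := 0)
    (by intro u; rw [hN]; simp [NRC]) (by intro u; rw [hF]; simp [FRC])
  have hp : ∀ l : Fin 3, ∀ n w, (sysRC M hM).On n [VRC.p l] w ↔ w = replicate (2 ^ n) l.1 := by
    intro l
    exact Sys.on_mul (H := sysRC M hM) (x := VRC.p l) (M := 2) (l := l.1)
      (by intro u; rw [hN]; simp only [NRC, mem_singleton]) (by intro u; rw [hF]; simp [FRC])
  have hmain : ∀ n w, (sysRC M hM).On n ([VRC.c, VRC.d] ++ replicate M VRC.b) w ↔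
      w = wdRC M (n + 1) := by
    intro n w
    have e : [VRC.c, VRC.d] ++ replicate M VRC.b = VRC.c :: (VRC.d :: replicate M VRC.b) := rfl
    rw [e, Sys.on_cons]
    have e2 : (replicate M (replicate (M ^ n) 0)).flatten = replicate (M ^ (n + 1)) 0 := by
      rw [replicate_flatten, pow_succ, Nat.mul_comm]
    constructor
    · rintro ⟨w₁, w₂, rfl, h1, h2⟩
      obtain ⟨w₃, w₄, rfl, h3, h4⟩ := Sys.on_cons.1 h2
      rw [hc] at h1
      rw [hd] at h3
      rw [Sys.on_replicate (hb n), e2] at h4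
      rw [h1, h3, h4]; rfl
    · rintro rfl
      refine ⟨_, _, rfl, (hc n _).2 rfl, Sys.on_cons.2 ⟨_, _, rfl, (hd n _).2 rfl, ?_⟩⟩
      rw [Sys.on_replicate (hb n), e2]
  ext w
  rw [Sys.mem_L_iff]
  constructor
  · rintro ⟨n, hn⟩
    cases n with
    | zero =>
      rw [Sys.on_zero, hF] at hn
      simp [FRC] at hn
    | succ n =>
      obtain ⟨u, h1, h2⟩ := Sys.on_succ.1 hn
      rw [hN] at h1
      simp only [NRC, mem_cons, not_mem_nil, or_false] at h1
      rcases h1 with h1 | rfl | rfl | rfl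
      · left
        rw [h1] at h2
        exact ⟨n + 1, by omega, (hmain n w).1 h2⟩
      · right; exact ⟨0, by omega, n, (hp 0 n w).1 h2⟩
      · right; exact ⟨1, by omega, n, (hp 1 n w).1 h2⟩
      · right; exact ⟨2, by omega, n, (hp 2 n w).1 h2⟩
  · rintro (⟨s, hs, rfl⟩ | ⟨l, hl, n, rfl⟩)
    · obtain ⟨n, rfl⟩ : ∃ n, s = n + 1 := ⟨s - 1, by omega⟩
      refine ⟨n + 1, Sys.on_succ.2 ⟨_, ?_, (hmain n _).2 rfl⟩⟩
      rw [hN]; simp [NRC]
    · refine ⟨n + 1, Sys.on_succ.2 ⟨[VRC.p ⟨l, hl⟩], ?_, (hp ⟨l, hl⟩ n _).2 rfl⟩⟩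
      rw [hN]
      have : l = 0 ∨ l = 1 ∨ l = 2 := by omega
      rcases this with rfl | rfl | rfl
      · simp [NRC]
      · simp [NRC]
      · simp [NRC]

end Pool.Agent.Helper79.EOL
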