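import Pool.Agent.Helper79.EOL.Regimes

/-!
# Regime V: `S → λ` and `a → S^i a S^j` with `i + j ≥ 1`
-/

namespace Pool.Agent.Helper79.EOL

open List Pool.Agent.Helper76.EOL

variable {Sp : Bool → List Bool → Prop}

/-- Marking all letters `κ` as live. -/
lemma mark_all (κ : Bool) (w : List Bool) : ∃ pat : List (Option Bool), pat.map (tyO κ) = w ∧
    pat.count none = w.count κ ∧ ∀ b, some b ∈ pat → b ≠ κ ∧ b ∈ w := by
  induction w with
  | nil => exact ⟨[], rfl, by simp, by simp⟩
  | cons x w ih =>
    obtain ⟨pat, h1, h2, h3⟩ := ih
    by_cases hx : x = κ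
    · subst hx
      refine ⟨none :: pat, by rw [map_cons, h1]; rfl, ?_, ?_⟩
      · rw [count_cons_self, count_cons_self, h2]
      · intro b hb
        rw [mem_cons] at hb
        rcases hb with hb | hb
        · cases hb
        · exact ⟨(h3 b hb).1, by simp [(h3 b hb).2]⟩
    · refine ⟨some x :: pat, by rw [map_cons, h1]; rfl, ?_, ?_⟩
      · rw [count_cons_of_ne (by simp), count_cons_of_ne hx, h2]
      · intro b hb
        rw [mem_cons] at hb
        rcases hb with hb | hb
        · have := Option.some.inj hb
          subst this
          exact ⟨hx, by simp⟩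
        · exact ⟨(h3 b hb).1, by simp [(h3 b hb).2]⟩

/-- Structure of the forms of regime V. -/
lemma regimeV_structure (hK : ∀ k, 1 ≤ k → GK Sp k) {d : ℕ} (hd : ∀ x w, Sp x w → w.length ≤ d)
    (ha : ∀ w, Sp false w → false ∈ w) (hp : ∀ s, 2 ≤ s → ¬ Sp true (replicate s true)) :
    (∃ w, Sp true w ∧ false ∈ w ∧ true ∈ w) ∧ ∃ p, 1 ≤ p ∧ Sp false (replicate p false) := by
  obtain ⟨t, ht⟩ := hK (d + 1) (by omega)
  obtain ⟨z, h1, h2, h3⟩ := GCh.succ'.1 ht
  have key : ∀ n z, GCh Sp n [true] z → true ∈ z →
      z = [true] ∨ ((∃ w, Sp true w ∧ false ∈ w ∧ true ∈ w) ∧ false ∈ z) := by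
    intro n
    induction n with
    | zero =>
      intro z h _
      have : [true] = z := h
      exact Or.inl this.symm
    | succ n ih =>
      intro z h hz
      obtain ⟨z', h4, h5, h6⟩ := GCh.succ'.1 h
      rcases ih z' h4 h5 with rfl | ⟨h7, h8⟩
      · rw [par_single] at h6
        by_cases hf : false ∈ z
        · exact Or.inr ⟨⟨z, h6, hf, hz⟩, hf⟩
        · left
          have hz' : z = replicate z.length true := by
            apply eq_replicate_of_mem
            intro b hb
            cases b
            · exact absurd hb hf
            · rfl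
          have h9 : 0 < z.length := length_pos_iff.2 (ne_nil_of_mem hz)
          have h10 : ¬ 2 ≤ z.length := by
            intro h
            apply hp z.length h
            rw [← hz']; exact h6
          rw [hz', show z.length = 1 by omega]
          rfl
      · right
        refine ⟨h7, ?_⟩
        obtain ⟨v, h9, h10⟩ := h6.sub h8
        exact h10 _ (ha v h9)
  rcases key _ _ h1 h2 with rfl | ⟨h4, h5⟩
  · rw [par_single] at h3
    have := hd _ _ h3
    simp at this
  · refine ⟨h4, ?_⟩
    obtain ⟨v, h6, h7⟩ := h3.sub h5
    have hv : v = replicate v.length false := by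
      apply eq_replicate_of_mem
      intro b hb
      exact eq_of_mem_replicate (h7 b hb)
    refine ⟨v.length, length_pos_iff.2 (ne_nil_of_mem (ha v h6)), ?_⟩
    rw [← hv]; exact h6

lemma HR_regimeV (hK : ∀ k, 1 ≤ k → GK Sp k) {d : ℕ} (hd : ∀ x w, Sp x w → w.length ≤ d)
    (h0 : Sp true []) (ha : ∀ w, Sp false w → false ∈ w)
    (hp : ∀ s, 2 ≤ s → ¬ Sp true (replicate s true))
    (hV : ∃ w, Sp false w ∧ w.count false = 1 ∧ true ∈ w) :
    ∃ k₀ l₀, 1 ≤ k₀ ∧ 1 ≤ l₀ ∧ HR Sp false k₀ 1 l₀ := by
  obtain ⟨⟨w₃, h31, h32, h33⟩, p, hp1, hp2⟩ := regimeV_structure hK hd ha hp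
  obtain ⟨W, hW1, hW2, hW3⟩ := hV
  have van : ∀ n, It Sp (n + 1) true [] := fun n => it_succ.2 ⟨[], h0, Par.nil⟩
  -- replacing the letters `a` of a word
  have repl : ∀ (n : ℕ) (w : List Bool), It Sp (n + 1) false w → ∀ u : List Bool,
      Par (It Sp (n + 1)) u (u.flatMap (fun b => if b then [] else w)) := by
    intro n w hw u
    apply par_flatMap
    intro b _
    cases b
    · simpa using hw
    · simpa using van n
  have replW : ∀ w : List Bool, Sp false w →
      Par Sp W (W.flatMap (fun b => if b then [] else w)) := by
    intro w hw
    apply par_flatMap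
    intro b _
    cases b
    · simpa using hw
    · simpa using h0
  have fl : ∀ (u w : List Bool), u.count false = 1 →
      u.flatMap (fun b => if b then [] else w) = w := by
    intro u w
    induction u with
    | nil => intro h; simp at h
    | cons x u ih =>
      intro h
      cases x
      · rw [count_cons_self] at h
        have h0 : u.count false = 0 := by omega
        have : ∀ b ∈ u, b = true := by
          intro b hb
          cases b
          · exact absurd (count_pos_iff.2 hb) (by omega)
          · rfl
        have h2 : u.flatMap (fun b => if b then [] else w) = [] := by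
          rw [flatMap_eq_nil_iff]
          intro b hb
          rw [this b hb]; rfl
        rw [flatMap_cons, h2]
        simp
      · rw [count_cons_of_ne (by simp)] at h
        rw [flatMap_cons, ih h]; rfl
  have WW : Par Sp W W := by
    have := replW W hW1
    rw [fl W W hW2] at this
    exact this
  have wait : ∀ n, GCh Sp n W W := by
    intro n
    induction n with
    | zero => rfl
    | succ n ih => exact ⟨hW3, W, WW, ih⟩
  have itW : ∀ n, It Sp (n + 1) false W := fun n => it_succ.2 ⟨W, hW1, (wait n).par⟩
  have itp : ∀ n, It Sp (n + 1) false (replicate p false) := by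
    intro n
    cases n with
    | zero => exact it_one.2 hp2
    | succ n =>
      rw [it_add (m := n + 1) (n := 1)]
      refine ⟨W, itW n, ?_⟩
      have h1 := replW _ hp2
      rw [fl W _ hW2] at h1
      exact h1.mono (fun x w h => it_one.2 h)
  -- a block of `S` inside `W`
  obtain ⟨u, v, hWuv⟩ := append_of_mem hW3
  have huv : u.count false + v.count false = 1 := by
    rw [hWuv, count_append, count_cons_of_ne (by simp)] at hW2
    exact hW2
  have flcount : ∀ (u w : List Bool), (u.flatMap (fun b => if b then [] else w)).length =
      u.count false * w.length := by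
    intro u w
    induction u with
    | nil => simp
    | cons x u ih =>
      rw [flatMap_cons, length_append, ih]
      cases x
      · rw [count_cons_self]; simp; ring
      · rw [count_cons_of_ne (by simp)]; simp
  have flcount2 : ∀ (u w : List Bool), (u.flatMap (fun b => if b then [] else w)).count false =
      u.count false * w.count false := by
    intro u w
    induction u with
    | nil => simp
    | cons x u ih =>
      rw [flatMap_cons, count_append, ih]
      cases x
      · rw [count_cons_self]; simp; ring
      · rw [count_cons_of_ne (by simp)]; simp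
  have flfalse : ∀ (u : List Bool) (n : ℕ), ∀ b ∈ u.flatMap (fun b => if b then [] else
      replicate n false), b = false := by
    intro u n b hb
    rw [mem_flatMap] at hb
    obtain ⟨c, _, hc⟩ := hb
    cases c
    · simp only [Bool.false_eq_true, if_false] at hc
      exact eq_of_mem_replicate hc
    · simp at hc
  refine ⟨p + 1, w₃.count false, by omega, count_pos_iff.2 h32, ?_⟩
  intro N
  obtain ⟨T, hT⟩ := GK_bound hK N
  -- patterns with `1 + m` live letters
  have hpat : ∀ m, m ≤ N → ∃ w, GCh Sp (T + 1) W w ∧ w.count false = 1 + m ∧ true ∈ w := by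
    intro m hm
    rcases Nat.eq_zero_or_pos m with rfl | hm0
    · exact ⟨W, wait _, by rw [hW2], hW3⟩
    · obtain ⟨t, ht1, ht2⟩ := hT m hm0 hm
      have h1 := ht2.ctx (repl t W (itW t) u) (repl t W (itW t) v)
      rw [singleton_append, ← hWuv] at h1
      have h2 := (wait (T - t)).trans h1
      rw [show T - t + (t + 1) = T + 1 by omega] at h2
      refine ⟨_, h2, ?_, ?_⟩
      · rw [count_append, count_append, flcount2, flcount2, hW2, count_replicate_self,
          Nat.mul_one, Nat.mul_one]
        omega
      · have h3 : false ∈ u ∨ false ∈ v := by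
          by_contra hcon
          push Not at hcon
          rw [← count_eq_zero, ← count_eq_zero] at hcon
          omega
        rw [mem_append, mem_append]
        rcases h3 with h3 | h3
        · left
          exact mem_flatMap.2 ⟨false, h3, by simpa using hW3⟩
        · right; right
          exact mem_flatMap.2 ⟨false, h3, by simpa using hW3⟩
  refine ⟨T + 1, ?_, ?_, 0, ?_⟩
  · intro k hk1 hk2
    obtain ⟨t, ht1, ht2⟩ := hT (k - p) (by omega) (by omega)
    have h1 := ht2.ctx (repl t _ (itp t) u) (repl t _ (itp t) v)
    rw [singleton_append, ← hWuv] at h1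
    have h2 := (wait (T - t)).trans h1
    rw [show T - t + (t + 1) = T + 1 by omega] at h2
    rw [go_iff]
    refine ⟨W, hW1, ?_⟩
    have h3 : (u.flatMap (fun b => if b then [] else replicate p false)) ++
        (replicate (k - p) false ++ v.flatMap (fun b => if b then [] else replicate p false)) =
        replicate k false := by
      rw [eq_replicate_iff]
      constructor
      · rw [length_append, length_append, flcount, flcount, length_replicate, length_replicate]
        have h4 : u.count false * p + v.count false * p = p := by
          rw [← Nat.add_mul, huv, Nat.one_mul]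
        omega
      · intro b hb
        rw [mem_append, mem_append] at hb
        rcases hb with hb | hb | hb
        · exact flfalse u p b hb
        · exact eq_of_mem_replicate hb
        · exact flfalse v p b hb
    rw [h3] at h2
    exact h2
  · intro m hm
    rw [Nat.one_mul] at hm ⊢
    obtain ⟨w, h1, h2, h3⟩ := hpat m (by omega)
    obtain ⟨pat, h4, h5, h6⟩ := mark_all false w
    refine ⟨pat, by rw [h5, h2], ?_, by rw [h4]; exact h3, ?_⟩
    · rw [h4]; exact go_iff.2 ⟨W, hW1, h1⟩
    · intro b hb
      have h7 := (h6 b hb).1
      cases b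
      · exact absurd rfl h7
      · exact go_false_iff.2 (van _)
  · obtain ⟨pat, h4, h5, h6⟩ := mark_all false w₃
    refine ⟨pat, h5, ?_, by rw [h4]; exact h33, ?_⟩
    · rw [h4, go_iff]
      exact ⟨w₃, h31, rfl⟩
    · intro b hb
      have h7 := (h6 b hb).1
      cases b
      · exact absurd rfl h7
      · exact go_false_iff.2 (van _)

end Pool.Agent.Helper79.EOL
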