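import Pool.Agent.Helper79.EOL.P1

/-!
# Forms covered by the first positive theorem
-/

namespace Pool.Agent.Helper79.EOL

open List Pool.Agent.Helper76.EOL

variable {Sp : Bool → List Bool → Prop}

lemma GCh.zero {z : List Bool} : GCh Sp 0 z z := rfl

lemma GCh.trans {m n : ℕ} {z z' w : List Bool} (h1 : GCh Sp m z z') (h2 : GCh Sp n z' w) :
    GCh Sp (m + n) z w := by
  induction m generalizing z with
  | zero =>
    have : z = z' := h1
    subst this
    rw [Nat.zero_add]; exact h2
  | succ m ih =>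
    obtain ⟨h3, y, h4, h5⟩ := h1
    rw [show m + 1 + n = (m + n) + 1 by omega]
    exact ⟨h3, y, h4, ih h5⟩

lemma GCh.succ' {n : ℕ} {z w : List Bool} :
    GCh Sp (n + 1) z w ↔ ∃ z', GCh Sp n z z' ∧ true ∈ z' ∧ Par Sp z' w := by
  constructor
  · intro h
    induction n generalizing z with
    | zero =>
      obtain ⟨h1, y, h2, h3⟩ := h
      have : y = w := h3
      subst this
      exact ⟨z, rfl, h1, h2⟩
    | succ n ih =>
      obtain ⟨h1, y, h2, h3⟩ := h
      obtain ⟨z', h4, h5, h6⟩ := ih h3
      exact ⟨z', ⟨h1, y, h2, h4⟩, h5, h6⟩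
  · rintro ⟨z', h1, h2, h3⟩
    exact h1.trans (n := 1) ⟨h2, w, h3, rfl⟩

lemma GCh.ctx {n : ℕ} {z w u u' v v' : List Bool} (h : GCh Sp n z w)
    (hu : Par (It Sp n) u u') (hv : Par (It Sp n) v v') :
    GCh Sp n (u ++ (z ++ v)) (u' ++ (w ++ v')) := by
  induction n generalizing z u v with
  | zero =>
    rw [par_it_zero] at hu hv
    have : z = w := h
    subst this; subst hu; subst hv
    rfl
  | succ n ih =>
    obtain ⟨h1, y, h2, h3⟩ := h
    obtain ⟨u1, h4, h5⟩ := par_it_succ.1 hu
    obtain ⟨v1, h6, h7⟩ := par_it_succ.1 hv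
    exact ⟨by simp [h1], u1 ++ (y ++ v1), h4.append (h2.append h6), ih h3 h5 h7⟩

lemma GCh.ctx_left {n : ℕ} {z w u u' : List Bool} (h : GCh Sp n z w)
    (hu : Par (It Sp n) u u') : GCh Sp n (u ++ z) (u' ++ w) := by
  have := h.ctx hu (v := []) (v' := []) Par.nil
  simpa using this

lemma GCh.ctx_right {n : ℕ} {z w v v' : List Bool} (h : GCh Sp n z w)
    (hv : Par (It Sp n) v v') : GCh Sp n (z ++ v) (w ++ v') := by
  have := h.ctx (u := []) (u' := []) Par.nil hv
  simpa using this

lemma go_true {r : ℕ} {w : List Bool} : Go Sp r True true w ↔ GCh Sp (r + 1) [true] w := by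
  constructor
  · rintro ⟨z, h1, _, h2⟩
    exact ⟨by simp, z, par_single.2 h1, h2 trivial⟩
  · rintro ⟨_, z, h1, h2⟩
    exact ⟨z, par_single.1 h1, h2.par, fun _ => h2⟩

lemma go_iff {r : ℕ} {x : Bool} {w : List Bool} :
    Go Sp r True x w ↔ ∃ z, Sp x z ∧ GCh Sp r z w := by
  constructor
  · rintro ⟨z, h1, _, h2⟩
    exact ⟨z, h1, h2 trivial⟩
  · rintro ⟨z, h1, h2⟩
    exact ⟨z, h1, h2.par, fun _ => h2⟩

lemma go_false_iff {r : ℕ} {x : Bool} {w : List Bool} :
    Go Sp r False x w ↔ It Sp (r + 1) x w := by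
  constructor
  · rintro ⟨z, h1, h2, _⟩
    exact ⟨z, h1, h2⟩
  · rintro ⟨z, h1, h2⟩
    exact ⟨z, h1, h2, fun h => absurd h not_false⟩

/-- The form derives `a^k` guardedly. -/
def GK (Sp : Bool → List Bool → Prop) (k : ℕ) : Prop :=
  ∃ t, GCh Sp (t + 1) [true] (replicate k false)

lemma par_replicate {α β : Type*} {N : α → List β → Prop} {x : α} {w : List β} (h : N x w) (n : ℕ) :
    Par N (replicate n x) (replicate n w).flatten := by
  induction n with
  | zero => exact Par.nil
  | succ n ih =>
    rw [replicate_succ, replicate_succ, flatten_cons]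
    exact Par.cons h ih

lemma par_replicate_nil {α β : Type*} {N : α → List β → Prop} {x : α} (h : N x []) (n : ℕ) :
    Par N (replicate n x) [] := by
  have := par_replicate h n
  simpa using this

lemma replicate_flatten {α : Type*} (n m : ℕ) (x : α) :
    (replicate n (replicate m x)).flatten = replicate (n * m) x := by
  induction n with
  | zero => simp
  | succ n ih =>
    rw [replicate_succ, flatten_cons, ih, ← replicate_add]
    congr 1
    ring

lemma GCh.length_le {n : ℕ} {z w : List Bool} (h : GCh Sp n z w) {d : ℕ}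
    (hd : ∀ x w, Sp x w → w.length ≤ d) : w.length ≤ d ^ n * z.length :=
  h.par.length_le (fun _ _ h => h.length_le hd)

/-- Marking `l` of the letters `κ` as live. -/
lemma exists_mark (κ : Bool) : ∀ (w : List Bool) (l : ℕ), l ≤ w.count κ →
    ∃ pat : List (Option Bool), pat.map (tyO κ) = w ∧ pat.count none = l ∧
      ∀ b, some b ∈ pat → b ∈ w := by
  intro w
  induction w with
  | nil =>
    intro l h
    rw [count_nil] at h
    exact ⟨[], rfl, by simp; omega, by simp⟩
  | cons x w ih =>
    intro l h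
    by_cases hx : x = κ
    · subst hx
      rw [count_cons_self] at h
      cases l with
      | zero =>
        obtain ⟨pat, h1, h2, h3⟩ := ih 0 (by omega)
        refine ⟨some x :: pat, by rw [map_cons, h1]; rfl, ?_, ?_⟩
        · rw [count_cons_of_ne (by simp), h2]
        · intro b hb
          rw [mem_cons] at hb ⊢
          rcases hb with hb | hb
          · left; exact Option.some.inj hb
          · exact Or.inr (h3 b hb)
      | succ l =>
        obtain ⟨pat, h1, h2, h3⟩ := ih l (by omega)
        refine ⟨none :: pat, by rw [map_cons, h1]; rfl, ?_, ?_⟩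
        · rw [count_cons_self, h2]
        · intro b hb
          rw [mem_cons] at hb ⊢
          rcases hb with hb | hb
          · cases hb
          · exact Or.inr (h3 b hb)
    · rw [count_cons_of_ne hx] at h
      obtain ⟨pat, h1, h2, h3⟩ := ih l h
      refine ⟨some x :: pat, by rw [map_cons, h1]; rfl, ?_, ?_⟩
      · rw [count_cons_of_ne (by simp), h2]
      · intro b hb
        rw [mem_cons] at hb ⊢
        rcases hb with hb | hb
        · left; exact Option.some.inj hb
        · exact Or.inr (h3 b hb)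

/-- The hypothesis of the first positive theorem. -/
def HR (Sp : Bool → List Bool → Prop) (κ : Bool) (k₀ lam l₀ : ℕ) : Prop :=
  ∀ N, ∃ r, (∀ k, k₀ ≤ k → k ≤ N → Go Sp r True κ (replicate k false)) ∧
      (∀ m, 1 + lam * m ≤ N → Pat Sp r r κ κ (1 + lam * m)) ∧
      ∃ t, Pat Sp r t κ true l₀

/-- A uniform bound for the times of the derivations of the powers of `a`. -/
lemma GK_bound (hK : ∀ k, 1 ≤ k → GK Sp k) (N : ℕ) :
    ∃ T, ∀ k, 1 ≤ k → k ≤ N → ∃ t ≤ T, GCh Sp (t + 1) [true] (replicate k false) := by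
  induction N with
  | zero => exact ⟨0, fun k h1 h2 => by omega⟩
  | succ N ih =>
    obtain ⟨T, hT⟩ := ih
    obtain ⟨t, ht⟩ := hK (N + 1) (by omega)
    refine ⟨max T t, ?_⟩
    intro k h1 h2
    by_cases h : k ≤ N
    · obtain ⟨t', h3, h4⟩ := hT k h1 h
      exact ⟨t', h3.trans (le_max_left _ _), h4⟩
    · have : k = N + 1 := by omega
      subst this
      exact ⟨t, le_max_right _ _, ht⟩

lemma par_nil_of {Sp : Bool → List Bool → Prop} {E : Bool → Prop} {e : ℕ}
    (hE : ∀ b, E b → ∀ n, e ≤ n → It Sp n b []) {n : ℕ} (hn : e ≤ n) :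
    ∀ {u : List Bool}, (∀ b ∈ u, E b) → Par (It Sp n) u [] := by
  intro u
  induction u with
  | nil => intro _; exact Par.nil
  | cons x u ih =>
    intro h
    exact Par.cons (u := []) (hE x (h x (by simp)) n hn) (ih (fun b hb => h b (by simp [hb])))

/-- Erasable letters: a common treatment of the regimes I and IV. -/
lemma HR_erasable (hK : ∀ k, 1 ≤ k → GK Sp k) {d : ℕ} (hd : ∀ x w, Sp x w → w.length ≤ d)
    (E : Bool → Prop) (e : ℕ) (hE : ∀ b, E b → ∀ n, e ≤ n → It Sp n b [])
    (grow : ∀ N, ∃ t, ∀ t', t ≤ t' → ∃ w, GCh Sp (t' + 1) [true] w ∧ true ∈ w ∧ (∀ b ∈ w, E b) ∧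
      N ≤ w.count true) : HR Sp true ((d + 1) ^ e + 1) 1 1 := by
  intro N
  have hd' : ∀ x w, Sp x w → w.length ≤ d + 1 := fun x w h => (hd x w h).trans (Nat.le_succ d)
  obtain ⟨T, hT⟩ := GK_bound hK N
  obtain ⟨t₁, ht₁⟩ := grow (N + 1)
  have hpat : ∀ l, l ≤ N + 1 → Pat Sp (T + t₁ + e + 1) (T + t₁ + e + 1) true true l := by
    intro l hl
    obtain ⟨w, h1, h2, h3, h4⟩ := ht₁ (T + t₁ + e + 1) (by omega)
    obtain ⟨pat, h5, h6, h7⟩ := exists_mark true w l (by omega)
    refine ⟨pat, h6, ?_, by rw [h5]; exact h2, ?_⟩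
    · rw [h5]; exact go_true.2 h1
    · intro b hb
      exact go_false_iff.2 (hE b (h3 b (h7 b hb)) _ (by omega))
  refine ⟨T + t₁ + e + 1, ?_, ?_, _, hpat 1 (by omega)⟩
  · intro k hk1 hk2
    obtain ⟨t, ht, ht2⟩ := hT k (by omega) hk2
    have het : e ≤ t + 1 := by
      by_contra hcon
      push Not at hcon
      have h1 := ht2.length_le hd'
      simp only [length_replicate, length_singleton, Nat.mul_one] at h1
      have h2 : (d + 1) ^ (t + 1) ≤ (d + 1) ^ e := Nat.pow_le_pow_right (by omega) (by omega)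
      omega
    obtain ⟨w, h1, h2, h3, _⟩ := ht₁ (T + t₁ + e - t) (by omega)
    obtain ⟨u, v, rfl⟩ := append_of_mem h2
    rw [go_true]
    have hu : Par (It Sp (t + 1)) u [] := par_nil_of hE het (fun b hb => h3 b (by simp [hb]))
    have hv : Par (It Sp (t + 1)) v [] := par_nil_of hE het (fun b hb => h3 b (by simp [hb]))
    have h4 := ht2.ctx hu hv
    simp only [nil_append, append_nil, singleton_append] at h4
    have h5 := h1.trans h4
    rw [show T + t₁ + e - t + 1 + (t + 1) = T + t₁ + e + 1 + 1 by omega] at h5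
    exact h5
  · intro m hm
    rw [Nat.one_mul] at hm ⊢
    exact hpat _ (by omega)

/-- The last word before a long power of `a`. -/
lemma exists_last {d : ℕ} (hd : ∀ x w, Sp x w → w.length ≤ d) (hK : ∀ k, 1 ≤ k → GK Sp k)
    (N : ℕ) : ∃ t z, GCh Sp t [true] z ∧ true ∈ z ∧ N ≤ z.length ∧
      ∃ k, d * N < k ∧ Par Sp z (replicate k false) := by
  obtain ⟨t, ht⟩ := hK (d * N + 1) (by omega)
  obtain ⟨z, h1, h2, h3⟩ := GCh.succ'.1 ht
  refine ⟨t, z, h1, h2, ?_, _, Nat.lt_succ_self _, h3⟩
  have h4 := h3.length_le (k := d) (fun x v h => hd x v h)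
  rw [length_replicate] at h4
  by_contra hcon
  push Not at hcon
  have : d * z.length ≤ d * N := Nat.mul_le_mul_left _ hcon.le
  omega

lemma count_true_le_of_par {w₂ w₁ : List Bool} (h1 : true ∈ w₁) (h2 : true ∈ w₂) (z : List Bool) :
    z.length ≤ (z.flatMap (fun b => if b then w₁ else w₂)).count true := by
  induction z with
  | nil => simp
  | cons x z ih =>
    rw [flatMap_cons, count_append, length_cons]
    have : 1 ≤ (if x then w₁ else w₂).count true := by
      cases x
      · simpa using count_pos_iff.2 h2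
      · simpa using count_pos_iff.2 h1
    omega

lemma par_flatMap {α β : Type*} {N : α → List β → Prop} {f : α → List β} {z : List α}
    (h : ∀ x ∈ z, N x (f x)) : Par N z (z.flatMap f) := by
  induction z with
  | nil => exact Par.nil
  | cons x z ih =>
    rw [flatMap_cons]
    exact Par.cons (h x (by simp)) (ih (fun y hy => h y (by simp [hy])))

/-- Regime I: every letter can be erased. -/
lemma HR_regimeI (hK : ∀ k, 1 ≤ k → GK Sp k) {d : ℕ} (hd : ∀ x w, Sp x w → w.length ≤ d)
    (hA : ∃ w, Sp false w ∧ true ∈ w) (hB : ∃ w, Sp true w ∧ true ∈ w)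
    {e : ℕ} (hE : ∀ b, ∀ n, e ≤ n → It Sp n b []) : HR Sp true ((d + 1) ^ e + 1) 1 1 := by
  obtain ⟨w₂, hw2, hw2'⟩ := hA
  obtain ⟨w₁, hw1, hw1'⟩ := hB
  apply HR_erasable hK hd (fun _ => True) e (fun b _ n hn => hE b n hn)
  intro N
  obtain ⟨t, z, h1, h2, h3, _⟩ := exists_last hd hK N
  refine ⟨t, ?_⟩
  intro t' ht'
  obtain ⟨j, rfl⟩ := Nat.exists_eq_add_of_le ht'
  have key : ∀ j, ∃ z, GCh Sp (t + j) [true] z ∧ true ∈ z ∧ N ≤ z.length := by
    intro j
    induction j with
    | zero => exact ⟨z, h1, h2, h3⟩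
    | succ j ih =>
      obtain ⟨y, h4, h5, h6⟩ := ih
      have h7 : Par Sp y (y.flatMap (fun b => if b then w₁ else w₂)) :=
        par_flatMap (fun b _ => by cases b <;> simp [hw1, hw2])
      have h8 := count_true_le_of_par hw1' hw2' y
      have h9 := length_pos_iff.2 (ne_nil_of_mem h5)
      refine ⟨_, GCh.succ'.2 ⟨y, h4, h5, h7⟩, ?_, ?_⟩
      · rw [← count_pos_iff]; omega
      · have := (count_le_length (a := true)
          (l := (y.flatMap (fun b => if b then w₁ else w₂))))
        omega
  obtain ⟨y, h4, h5, h6⟩ := key j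
  have h7 : Par Sp y (y.flatMap (fun b => if b then w₁ else w₂)) :=
    par_flatMap (fun b _ => by cases b <;> simp [hw1, hw2])
  have h8 := count_true_le_of_par hw1' hw2' y
  have h9 := length_pos_iff.2 (ne_nil_of_mem h5)
  refine ⟨_, GCh.succ'.2 ⟨y, h4, h5, h7⟩, ?_, fun _ _ => trivial, by omega⟩
  rw [← count_pos_iff]; omega

/-- Regime IV: `S → λ` and `S → S^s` with `s ≥ 2`. -/
lemma HR_regimeIV (hK : ∀ k, 1 ≤ k → GK Sp k) {d : ℕ} (hd : ∀ x w, Sp x w → w.length ≤ d)
    (h0 : Sp true []) {s : ℕ} (hs : 2 ≤ s) (hS : Sp true (replicate s true)) :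
    HR Sp true ((d + 1) ^ 1 + 1) 1 1 := by
  apply HR_erasable hK hd (fun b => b = true) 1
  · rintro b rfl n hn
    obtain ⟨n, rfl⟩ : ∃ m, n = m + 1 := ⟨n - 1, by omega⟩
    exact it_succ.2 ⟨[], h0, Par.nil⟩
  · intro N
    have key : ∀ n, GCh Sp n [true] (replicate (s ^ n) true) := by
      intro n
      induction n with
      | zero => exact rfl
      | succ n ih =>
        rw [GCh.succ']
        refine ⟨_, ih, ?_, ?_⟩
        · rw [mem_replicate]
          exact ⟨(Nat.pow_pos (by omega)).ne', rfl⟩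
        · have := par_replicate hS (s ^ n)
          rw [replicate_flatten, ← pow_succ] at this
          exact this
    refine ⟨N, ?_⟩
    intro t' ht'
    refine ⟨_, key (t' + 1), ?_, ?_, ?_⟩
    · rw [mem_replicate]
      exact ⟨(Nat.pow_pos (by omega)).ne', rfl⟩
    · intro b hb
      exact eq_of_mem_replicate hb
    · rw [count_replicate_self]
      have h1 : t' + 1 < s ^ (t' + 1) := Nat.lt_pow_self (by omega)
      omega

/-- Waiting `S`-blocks: `S → S` and a guarded derivation of a longer power of `S`. -/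
lemma HR_wait (hK : ∀ k, 1 ≤ k → GK Sp k) (hu : Sp true [true]) {t₀ m : ℕ} (hm : 1 ≤ m)
    (hS : GCh Sp (t₀ + 1) [true] (replicate (m + 1) true)) : HR Sp true 1 m 1 := by
  have wait : ∀ n, It Sp n true [true] := by
    intro n
    induction n with
    | zero => rfl
    | succ n ih => exact it_succ.2 ⟨[true], hu, par_single.2 ih⟩
  have waits : ∀ n l, Par (It Sp n) (replicate l true) (replicate l true) := by
    intro n l
    have := par_replicate (wait n) l
    rw [show [true] = replicate 1 true from rfl, replicate_flatten, Nat.mul_one] at this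
    exact this
  have gwait : ∀ n, GCh Sp n [true] [true] := by
    intro n
    induction n with
    | zero => rfl
    | succ n ih => exact ⟨by simp, [true], par_single.2 hu, ih⟩
  have grow : ∀ j, GCh Sp (j * (t₀ + 1)) [true] (replicate (1 + m * j) true) := by
    intro j
    induction j with
    | zero => rw [Nat.zero_mul]; exact rfl
    | succ j ih =>
      rw [Nat.succ_mul]
      refine ih.trans ?_
      rw [show 1 + m * (j + 1) = (m + 1) + m * j by ring, show 1 + m * j = 1 + m * j from rfl,
        replicate_add, replicate_add]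
      exact hS.ctx_right (waits _ _)
  intro N
  obtain ⟨T, hT⟩ := GK_bound hK N
  refine ⟨T + N * (t₀ + 1), ?_, ?_, ?_⟩
  · intro k hk1 hk2
    obtain ⟨t, ht, ht2⟩ := hT k (by omega) hk2
    rw [go_true]
    have h1 := (gwait (T + N * (t₀ + 1) - t)).trans ht2
    rw [show T + N * (t₀ + 1) - t + (t + 1) = T + N * (t₀ + 1) + 1 by omega] at h1
    exact h1
  · intro j hj
    have hjN : j ≤ N := by
      have := Nat.le_mul_of_pos_left j (show 0 < m by omega)
      omega
    refine ⟨replicate (1 + m * j) none, by rw [count_replicate_self], ?_, ?_, ?_⟩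
    · rw [map_replicate, go_true]
      have h2 : j * (t₀ + 1) ≤ N * (t₀ + 1) := Nat.mul_le_mul_right _ hjN
      have h1 := (gwait (T + N * (t₀ + 1) + 1 - j * (t₀ + 1))).trans (grow j)
      rw [show T + N * (t₀ + 1) + 1 - j * (t₀ + 1) + j * (t₀ + 1) = T + N * (t₀ + 1) + 1
        by omega] at h1
      exact h1
    · rw [map_replicate, mem_replicate]
      exact ⟨by omega, rfl⟩
    · intro b hb
      have := eq_of_mem_replicate hb
      cases this
  · refine ⟨0, [none], by simp, ?_, by simp [tyO], by simp⟩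
    rw [go_true]
    exact ⟨by simp, [true], par_single.2 hu, rfl⟩

/-- Regimes II and III with `S → S`. -/
lemma HR_regimeIII (hK : ∀ k, 1 ≤ k → GK Sp k) {d : ℕ} (hd : ∀ x w, Sp x w → w.length ≤ d)
    (hu : Sp true [true]) (h : (∃ j, 2 ≤ j ∧ Sp true (replicate j true)) ∨
      ∃ j, 1 ≤ j ∧ Sp false (replicate j true)) : ∃ m, 1 ≤ m ∧ HR Sp true 1 m 1 := by
  rcases h with ⟨j, hj, h⟩ | ⟨j, hj, h⟩
  · refine ⟨j - 1, by omega, ?_⟩
    apply HR_wait hK hu (t₀ := 0) (by omega)
    rw [show j - 1 + 1 = j by omega]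
    exact ⟨by simp, _, par_single.2 h, rfl⟩
  · obtain ⟨t, z, h1, h2, h3, _⟩ := exists_last hd hK 2
    have h4 : Par Sp z (z.flatMap (fun b => replicate (if b then 1 else j) true)) :=
      par_flatMap (fun b _ => by cases b <;> simp [hu, h])
    have h5 : ∀ z : List Bool, z.flatMap (fun b => replicate (if b then 1 else j) true) =
        replicate (z.map (fun b => if b then 1 else j)).sum true := by
      intro z
      induction z with
      | nil => rfl
      | cons x z ih => rw [flatMap_cons, ih, map_cons, sum_cons, ← replicate_add]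
    rw [h5] at h4
    have h6 : ∀ z : List Bool, z.length ≤ (z.map (fun b => if b then 1 else j)).sum := by
      intro z
      induction z with
      | nil => simp
      | cons x z ih =>
        rw [map_cons, sum_cons, length_cons]
        cases x <;> simp <;> omega
    have h7 := h6 z
    refine ⟨(z.map (fun b => if b then 1 else j)).sum - 1, by omega, ?_⟩
    apply HR_wait hK hu (t₀ := t) (by omega)
    rw [show (z.map (fun b => if b then 1 else j)).sum - 1 + 1 =
      (z.map (fun b => if b then 1 else j)).sum by omega]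
    exact GCh.succ'.2 ⟨z, h1, h2, h4⟩

end Pool.Agent.Helper79.EOL
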