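import Pool.Agent.Helper79.EOL.Dec

/-!
# Short guarded derivations in erasing forms
-/

namespace Pool.Agent.Helper79.EOL

open List Pool.Agent.Helper76.EOL

variable {Sp : Bool → List Bool → Prop}

lemma length_le_flatten {L : List (List Bool)} {v : List Bool} (h : v ∈ L) :
    v.length ≤ L.flatten.length := by
  obtain ⟨L₁, L₂, rfl⟩ := append_of_mem h
  rw [flatten_append, flatten_cons, length_append, length_append]
  omega

lemma length_le_flatten_of_ne {L : List (List Bool)} (h : ∀ v ∈ L, v ≠ []) :
    L.length ≤ L.flatten.length := by
  induction L with
  | nil => simp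
  | cons v L ih =>
    have := length_pos_iff.2 (h v (by simp))
    have := ih (fun v hv => h v (by simp [hv]))
    rw [flatten_cons, length_cons, length_append]
    omega

lemma no_a_of_no_rule (h : ∀ w, Sp true w → false ∉ w) : ∀ n z, GCh Sp n [true] z → false ∉ z := by
  intro n
  induction n with
  | zero =>
    intro z h1
    have : [true] = z := h1
    subst this
    simp
  | succ n ih =>
    intro z h1 hf
    obtain ⟨z', h2, _, h4⟩ := GCh.succ'.1 h1
    obtain ⟨x, hx, v, h5, h6⟩ := h4.mem hf
    cases x
    · exact ih z' h2 hx
    · exact h v h5 h6

/-- The rule producing the last letter `a`. -/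
lemma final_letter (h : GK Sp 1) : Sp true [false] ∨
    (Sp false [false] ∧ ∃ w, Sp true w ∧ false ∈ w) := by
  obtain ⟨t, ht⟩ := h
  obtain ⟨z, h1, _, h3⟩ := GCh.succ'.1 ht
  rw [replicate_one] at h3
  obtain ⟨L, M, h4, h5, h6, h7, h8⟩ := par_dec h3
  have h9 : (L.flatten ++ M.flatten).length = 1 := by rw [h8.length_eq]; rfl
  rw [length_append] at h9
  have h10 : false ∈ L.flatten ++ M.flatten := h8.mem_iff.2 (by simp)
  have key : ∀ v : List Bool, v.length ≤ 1 → false ∈ v → v = [false] := by
    intro v hv hf
    match v, hv, hf with
    | [x], _, hf => rw [mem_singleton.1 hf]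
  rw [mem_append, mem_flatten, mem_flatten] at h10
  rcases h10 with ⟨v, hv, hf⟩ | ⟨v, hv, hf⟩
  · left
    have := length_le_flatten hv
    rw [← key v (by omega) hf]
    exact h6 v hv
  · right
    have := length_le_flatten hv
    rw [key v (by omega) hf] at hv
    refine ⟨h7 _ hv, ?_⟩
    by_contra hcon
    push Not at hcon
    have hz := no_a_of_no_rule (fun w hw => hcon w hw) _ _ h1
    have : M.length = 0 := by rw [h5, count_eq_zero.2 hz]
    rw [length_eq_zero_iff] at this
    subst this
    simp at hv

/-- Both letters erasable at once. -/
lemma gs_C1 (ha : Sp false []) (hS : Sp true []) (h1 : GK Sp 1) {w₁ w₀ : List Bool}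
    (hw1 : Sp true w₁) (hw2 : true ∈ w₁) (hw3 : 2 ≤ w₁.length) (hw4 : Sp false w₀)
    (hw5 : true ∈ w₀) (k : ℕ) : GS Sp (2 * k + 2) k := by
  obtain ⟨z, hz1, hz2⟩ := growth hw1 hw2 hw3 hw4 hw5 k
  have hz3 : true ∈ z := count_pos_iff.1 (by omega)
  rcases final_letter h1 with h | ⟨h, w, h2, h3⟩
  · refine gs_final hz1 hz3 (by omega)
      (L := replicate k [false] ++ replicate (z.count true - k) [])
      (M := replicate (z.count false) []) ?_ ?_ ?_ ?_ ?_ ?_
    · rw [length_append, length_replicate, length_replicate]; omega
    · rw [length_replicate]
    · intro v hv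
      rw [mem_append] at hv
      rcases hv with hv | hv
      · rw [eq_of_mem_replicate hv]; exact h
      · rw [eq_of_mem_replicate hv]; exact hS
    · intro v hv
      rw [eq_of_mem_replicate hv]; exact ha
    · simp [map_append, sum_append]
    · simp [map_append, sum_append]
  · -- produce enough letters `a`
    obtain ⟨c, hc⟩ : ∃ c, z.count true = 1 + (k + c) := ⟨z.count true - 1 - k, by omega⟩
    obtain ⟨z', h4, h5, h6⟩ := step_dec (Sp := Sp) (z := z)
      (L := [w₁] ++ (replicate k w ++ replicate c [])) (M := replicate (z.count false) [])
      (by rw [hc, length_append, length_append, length_replicate, length_replicate,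
            length_singleton])
      (by simp)
      (by
        intro v hv
        rw [mem_append, mem_append, mem_singleton] at hv
        rcases hv with hv | hv | hv
        · rw [hv]; exact hw1
        · rw [eq_of_mem_replicate hv]; exact h2
        · rw [eq_of_mem_replicate hv]; exact hS)
      (by
        intro v hv
        rw [eq_of_mem_replicate hv]; exact ha)
    rw [map_append, map_append, sum_append, sum_append, sum_map_replicate, sum_map_replicate,
      sum_map_replicate] at h5 h6
    simp only [map_cons, map_nil, sum_cons, sum_nil, Nat.add_zero, count_nil, Nat.mul_zero]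
      at h5 h6
    have h7 : 1 ≤ w₁.count true := count_pos_iff.2 hw2
    have h8 : 1 ≤ w.count false := count_pos_iff.2 h3
    have h9 : k ≤ k * w.count false := Nat.le_mul_of_pos_right _ h8
    have hz4 : true ∈ z' := count_pos_iff.1 (by omega)
    refine gs_final (GCh.succ'.2 ⟨z, hz1, hz3, h4⟩) hz4 (by omega)
      (L := replicate (z'.count true) [])
      (M := replicate k [false] ++ replicate (z'.count false - k) []) ?_ ?_ ?_ ?_ ?_ ?_
    · rw [length_replicate]
    · rw [length_append, length_replicate, length_replicate]; omega
    · intro v hv
      rw [eq_of_mem_replicate hv]; exact hS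
    · intro v hv
      rw [mem_append] at hv
      rcases hv with hv | hv
      · rw [eq_of_mem_replicate hv]; exact h
      · rw [eq_of_mem_replicate hv]; exact ha
    · simp [map_append, sum_append]
    · simp [map_append, sum_append]

lemma growS {s : ℕ} (hs : 2 ≤ s) (h : Sp true (replicate s true)) (m : ℕ) :
    ∃ c, m + 1 ≤ c ∧ GCh Sp m [true] (replicate c true) := by
  induction m with
  | zero => exact ⟨1, le_rfl, rfl⟩
  | succ m ih =>
    obtain ⟨c, h1, h2⟩ := ih
    refine ⟨c * s, ?_, GCh.succ'.2 ⟨_, h2, ?_, ?_⟩⟩
    · have : c * 2 ≤ c * s := Nat.mul_le_mul_left _ hs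
      omega
    · rw [mem_replicate]
      exact ⟨by omega, rfl⟩
    · have := par_replicate h c
      rw [replicate_flatten] at this
      exact this

lemma sum_zero_or_two {L : List ℕ} (h : ∀ x ∈ L, x = 0 ∨ 2 ≤ x) : L.sum = 0 ∨ 2 ≤ L.sum := by
  induction L with
  | nil => exact Or.inl rfl
  | cons x L ih =>
    rw [sum_cons]
    have := ih (fun y hy => h y (by simp [hy]))
    have := h x (by simp)
    omega

lemma count_flatten_ge {L : List (List Bool)} (h : ∀ v ∈ L, false ∈ v) :
    L.length ≤ (L.map (fun v => v.count false)).sum := by
  induction L with
  | nil => simp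
  | cons v L ih =>
    have := count_pos_iff.2 (h v (by simp))
    have := ih (fun v hv => h v (by simp [hv]))
    rw [length_cons, map_cons, sum_cons]
    omega

lemma all_true {w : List Bool} (h : false ∉ w) : w = replicate w.length true := by
  apply eq_replicate_of_mem
  intro b hb
  cases b
  · exact absurd hb h
  · rfl

/-- The letter `S` erasable and doubling. -/
lemma gs_C3a (hS : Sp true []) {s : ℕ} (hs : 2 ≤ s) (hs' : Sp true (replicate s true))
    (ha : ¬ Sp false []) (h1 : GK Sp 1) (k : ℕ) : GS Sp (k + 3) k := by
  obtain ⟨c, hc, hz1⟩ := growS hs hs' k
  have hz3 : true ∈ replicate c true := by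
    rw [mem_replicate]; exact ⟨by omega, rfl⟩
  have hcT : (replicate c true).count true = c := count_replicate_self
  have hcF : (replicate c true).count false = 0 := by
    rw [count_eq_zero]
    intro h
    have := eq_of_mem_replicate h
    simp at this
  by_cases hSa : Sp true [false]
  · refine gs_final hz1 hz3 (by omega)
      (L := replicate k [false] ++ replicate (c - k) []) (M := []) ?_ ?_ ?_ ?_ ?_ ?_
    · rw [length_append, length_replicate, length_replicate]; omega
    · rw [hcF]; rfl
    · intro v hv
      rw [mem_append] at hv
      rcases hv with hv | hv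
      · rw [eq_of_mem_replicate hv]; exact hSa
      · rw [eq_of_mem_replicate hv]; exact hS
    · intro v hv
      simp at hv
    · simp [map_append, sum_append]
    · simp [map_append, sum_append]
  · obtain ⟨haa, w', hw', hw''⟩ := (final_letter h1).resolve_left hSa
    obtain ⟨c', rfl⟩ : ∃ c', c = 1 + (k + c') := ⟨c - 1 - k, by omega⟩
    -- the step with `k` copies of a rule
    have hstep : ∀ w, Sp true w → ∃ z, GCh Sp (k + 1) [true] z ∧ true ∈ z ∧
        z.count false = k * w.count false := by
      intro w hw
      obtain ⟨z', h4, h5, h6⟩ := step_dec (Sp := Sp) (z := replicate (1 + (k + c')) true)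
        (L := [replicate s true] ++ (replicate k w ++ replicate c' [])) (M := [])
        (by rw [hcT, length_append, length_append, length_replicate, length_replicate,
              length_singleton])
        (by rw [hcF]; rfl)
        (by
          intro v hv
          rw [mem_append, mem_append, mem_singleton] at hv
          rcases hv with hv | hv | hv
          · rw [hv]; exact hs'
          · rw [eq_of_mem_replicate hv]; exact hw
          · rw [eq_of_mem_replicate hv]; exact hS)
        (by intro v hv; simp at hv)
      rw [map_append, map_append, sum_append, sum_append, sum_map_replicate, sum_map_replicate]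
        at h5 h6
      simp only [map_cons, map_nil, sum_cons, sum_nil, Nat.add_zero, count_nil, Nat.mul_zero]
        at h5 h6
      have e1 : (replicate s true).count true = s := count_replicate_self
      have e2 : (replicate s true).count false = 0 := by
        rw [count_eq_zero]
        intro h
        have := eq_of_mem_replicate h
        simp at this
      refine ⟨z', GCh.succ'.2 ⟨_, hz1, hz3, h4⟩, count_pos_iff.1 (by omega), by omega⟩
    -- the final step with exactly `k` letters `a`
    have hfin : ∀ {n : ℕ} {z : List Bool}, n + 1 ≤ k + 3 → GCh Sp n [true] z → true ∈ z →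
        z.count false = k → GS Sp (k + 3) k := by
      intro n z hn hz hzt hzk
      refine gs_final hz hzt hn (L := replicate (z.count true) [])
        (M := replicate k [false]) ?_ ?_ ?_ ?_ ?_ ?_
      · rw [length_replicate]
      · rw [length_replicate, hzk]
      · intro v hv
        rw [eq_of_mem_replicate hv]; exact hS
      · intro v hv
        rw [eq_of_mem_replicate hv]; exact haa
      · simp
      · simp
    by_cases hone : ∃ w, Sp true w ∧ w.count false = 1
    · obtain ⟨w, hw, hw1⟩ := hone
      obtain ⟨z, hz, hzt, hzk⟩ := hstep w hw
      rw [hw1, Nat.mul_one] at hzk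
      exact hfin (by omega) hz hzt hzk
    · push Not at hone
      by_cases hj : ∃ j, 1 ≤ j ∧ Sp false (replicate j true)
      · obtain ⟨j, hj1, hj⟩ := hj
        obtain ⟨z, hz, hzt, hzk⟩ := hstep w' hw'
        have hw1 : 1 ≤ w'.count false := count_pos_iff.2 hw''
        have hk : k ≤ z.count false := by
          rw [hzk]
          exact Nat.le_mul_of_pos_right _ hw1
        have hzt' : 1 ≤ z.count true := count_pos_iff.2 hzt
        obtain ⟨z', h4, h5, h6⟩ := step_dec (Sp := Sp) (z := z)
          (L := [replicate s true] ++ replicate (z.count true - 1) [])
          (M := replicate k [false] ++ replicate (z.count false - k) (replicate j true))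
          (by rw [length_append, length_singleton, length_replicate]; omega)
          (by rw [length_append, length_replicate, length_replicate]; omega)
          (by
            intro v hv
            rw [mem_append, mem_singleton] at hv
            rcases hv with hv | hv
            · rw [hv]; exact hs'
            · rw [eq_of_mem_replicate hv]; exact hS)
          (by
            intro v hv
            rw [mem_append] at hv
            rcases hv with hv | hv
            · rw [eq_of_mem_replicate hv]; exact haa
            · rw [eq_of_mem_replicate hv]; exact hj)
        have e0 : ∀ n : ℕ, (replicate n true).count false = 0 := by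
          intro n
          rw [count_eq_zero]
          intro h
          have := eq_of_mem_replicate h
          simp at this
        rw [map_append, map_append, sum_append, sum_append, sum_map_replicate,
          sum_map_replicate, sum_map_replicate] at h5 h6
        simp only [map_cons, map_nil, sum_cons, sum_nil, Nat.add_zero, count_nil, Nat.mul_zero,
          e0, count_replicate_self, count_singleton_self, Nat.mul_one, Nat.zero_add] at h5 h6
        refine hfin (n := k + 1 + 1) (by omega) (GCh.succ'.2 ⟨z, hz, hzt, h4⟩)
          (count_pos_iff.1 (by omega)) h6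
      · -- contradiction
        exfalso
        push Not at hj
        have hF : ∀ v, Sp false v → false ∈ v := by
          intro v hv
          by_contra hcon
          have e := all_true hcon
          by_cases hl : v.length = 0
          · rw [length_eq_zero_iff] at hl
            subst hl
            exact ha hv
          · rw [e] at hv
            exact hj _ (by omega) hv
        have hinv : ∀ {z w : List Bool}, (z.count false = 0 ∨ 2 ≤ z.count false) → Par Sp z w →
            (w.count false = 0 ∨ 2 ≤ w.count false) := by
          intro z w hz h
          obtain ⟨L, M, h4, h5, h6, h7, h8⟩ := par_dec h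
          rw [← h8.count_eq, count_append, count_flatten', count_flatten']
          have h9 := count_flatten_ge (fun v hv => hF v (h7 v hv))
          rw [h5] at h9
          rcases hz with hz | hz
          · have : M = [] := by rw [← length_eq_zero_iff, h5, hz]
            subst this
            have := sum_zero_or_two (L := L.map (fun v => v.count false)) (by
              intro x hx
              rw [mem_map] at hx
              obtain ⟨v, hv, rfl⟩ := hx
              have := hone v (h6 v hv)
              omega)
            simpa using this
          · omega
        have hinv' : ∀ n z, GCh Sp n [true] z → (z.count false = 0 ∨ 2 ≤ z.count false) := by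
          intro n
          induction n with
          | zero =>
            intro z h
            have : [true] = z := h
            subst this
            exact Or.inl rfl
          | succ n ih =>
            intro z h
            obtain ⟨z', h2, _, h4⟩ := GCh.succ'.1 h
            exact hinv (ih z' h2) h4
        obtain ⟨t, ht⟩ := h1
        have := hinv' _ _ ht
        simp at this

/-- The letter `S` erasable, `a` rewritable to a power of `S`. -/
lemma gs_C3b (hS : Sp true []) {j : ℕ} (hj : 1 ≤ j) (hj' : Sp false (replicate j true))
    (h1 : GK Sp 1) {w₁ w₀ : List Bool} (hw1 : Sp true w₁) (hw2 : true ∈ w₁)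
    (hw3 : 2 ≤ w₁.length) (hw6 : false ∈ w₁) (hw4 : Sp false w₀) (hw5 : true ∈ w₀) (k : ℕ) :
    GS Sp (2 * k + 5) k := by
  obtain ⟨z, hz1, hz2⟩ := growth hw1 hw2 hw3 hw4 hw5 (k + 1)
  have hz3 : true ∈ z := count_pos_iff.1 (by omega)
  have e0 : ∀ n : ℕ, (replicate n true).count false = 0 := by
    intro n
    rw [count_eq_zero]
    intro h
    have := eq_of_mem_replicate h
    simp at this
  obtain ⟨z', h4, h5, h6⟩ := step_dec (Sp := Sp) (z := z)
    (L := replicate (z.count true) w₁) (M := replicate (z.count false) (replicate j true))
    (by simp) (by simp)
    (by intro v hv; rw [eq_of_mem_replicate hv]; exact hw1)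
    (by intro v hv; rw [eq_of_mem_replicate hv]; exact hj')
  rw [sum_map_replicate, sum_map_replicate] at h5 h6
  simp only [e0, count_replicate_self, Nat.mul_zero, Nat.add_zero] at h5 h6
  have h7 : 1 ≤ w₁.count true := count_pos_iff.2 hw2
  have h8 : 1 ≤ w₁.count false := count_pos_iff.2 hw6
  have h9 : z.count true ≤ z.count true * w₁.count true := Nat.le_mul_of_pos_right _ h7
  have h10 : z.count true ≤ z.count true * w₁.count false := Nat.le_mul_of_pos_right _ h8
  have hz4 : true ∈ z' := count_pos_iff.1 (by omega)
  have hz5 : GCh Sp (2 * k + 3) [true] z' := by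
    rw [show 2 * k + 3 = 2 * (k + 1) + 1 by ring]
    exact GCh.succ'.2 ⟨z, hz1, hz3, h4⟩
  by_cases hSa : Sp true [false]
  · obtain ⟨y, h11, h12, h13⟩ := step_dec (Sp := Sp) (z := z')
      (L := replicate (z'.count true) []) (M := replicate (z'.count false) (replicate j true))
      (by simp) (by simp)
      (by intro v hv; rw [eq_of_mem_replicate hv]; exact hS)
      (by intro v hv; rw [eq_of_mem_replicate hv]; exact hj')
    rw [sum_map_replicate, sum_map_replicate] at h12 h13
    simp only [e0, count_replicate_self, Nat.mul_zero, Nat.zero_add, count_nil] at h12 h13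
    have h14 : z'.count false ≤ z'.count false * j := Nat.le_mul_of_pos_right _ hj
    refine gs_final (n := 2 * k + 4) (GCh.succ'.2 ⟨z', hz5, hz4, h11⟩)
      (count_pos_iff.1 (by omega)) (by omega)
      (L := replicate k [false] ++ replicate (y.count true - k) []) (M := []) ?_ ?_ ?_ ?_ ?_ ?_
    · rw [length_append, length_replicate, length_replicate]; omega
    · rw [h13]; rfl
    · intro v hv
      rw [mem_append] at hv
      rcases hv with hv | hv
      · rw [eq_of_mem_replicate hv]; exact hSa
      · rw [eq_of_mem_replicate hv]; exact hS
    · intro v hv
      simp at hv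
    · simp [map_append, sum_append]
    · simp [map_append, sum_append]
  · obtain ⟨haa, _⟩ := (final_letter h1).resolve_left hSa
    obtain ⟨y, h11, h12, h13⟩ := step_dec (Sp := Sp) (z := z')
      (L := replicate (z'.count true) [])
      (M := replicate k [false] ++ replicate (z'.count false - k) (replicate j true))
      (by simp) (by rw [length_append, length_replicate, length_replicate]; omega)
      (by intro v hv; rw [eq_of_mem_replicate hv]; exact hS)
      (by
        intro v hv
        rw [mem_append] at hv
        rcases hv with hv | hv
        · rw [eq_of_mem_replicate hv]; exact haa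
        · rw [eq_of_mem_replicate hv]; exact hj')
    rw [map_append, sum_append, sum_map_replicate, sum_map_replicate, sum_map_replicate]
      at h12 h13
    simp only [e0, count_replicate_self, Nat.mul_zero, Nat.zero_add, count_nil,
      count_singleton_self, Nat.mul_one, Nat.add_zero] at h12 h13
    have h14 : (z'.count false - k) ≤ (z'.count false - k) * j := Nat.le_mul_of_pos_right _ hj
    refine gs_final (n := 2 * k + 4) (GCh.succ'.2 ⟨z', hz5, hz4, h11⟩)
      (count_pos_iff.1 (by omega)) (by omega)
      (L := replicate (y.count true) []) (M := replicate k [false]) ?_ ?_ ?_ ?_ ?_ ?_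
    · rw [length_replicate]
    · rw [length_replicate, h13]
    · intro v hv
      rw [eq_of_mem_replicate hv]; exact hS
    · intro v hv
      rw [eq_of_mem_replicate hv]; exact haa
    · simp
    · simp

end Pool.Agent.Helper79.EOL
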