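import Pool.Agent.Helper79.EOL.Short1
import Pool.Agent.Helper79.EOL.Positive1

/-!
# Short guarded derivations: insertion of a leader
-/

namespace Pool.Agent.Helper79.EOL

open List Pool.Agent.Helper76.EOL

variable {Sp : Bool → List Bool → Prop}

lemma par_vanish {t : ℕ} : ∀ {c : List Bool}, (∀ y ∈ c, It Sp t y []) → Par (It Sp t) c [] := by
  intro c
  induction c with
  | nil => intro _; exact Par.nil
  | cons x c ih =>
    intro h
    exact Par.cons (v := []) (h x (by simp)) (ih (fun y hy => h y (by simp [hy])))

lemma par_special {t p : ℕ} {c : List Bool} {x : Bool} (hx : x ∈ c)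
    (h : It Sp t x (replicate p false)) (hv : ∀ y, It Sp t y []) :
    Par (It Sp t) c (replicate p false) := by
  obtain ⟨c₁, c₂, rfl⟩ := append_of_mem hx
  have h1 : Par (It Sp t) c₁ [] := par_vanish (fun y _ => hv y)
  have h2 : Par (It Sp t) c₂ [] := par_vanish (fun y _ => hv y)
  have := h1.append (Par.cons h h2)
  simpa using this

/-- Insertion of a leader. -/
lemma ins {t k p q : ℕ} {u v : List Bool} (h1 : Sp true (u ++ true :: v))
    (hu : Par (It Sp t) u (replicate p false)) (hv : Par (It Sp t) v (replicate q false))
    (h : GCh Sp t [true] (replicate k false)) :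
    GCh Sp (t + 1) [true] (replicate (k + (p + q)) false) := by
  refine ⟨by simp, _, par_single.2 h1, ?_⟩
  have := h.ctx hu hv
  rw [← replicate_add, ← replicate_add, show p + (k + q) = k + (p + q) by omega] at this
  exact this

lemma ins_special {t k p : ℕ} {u v : List Bool} {x : Bool} (h1 : Sp true (u ++ true :: v))
    (hx : x ∈ u ∨ x ∈ v) (hx' : It Sp t x (replicate p false)) (hv : ∀ y, It Sp t y [])
    (h : GCh Sp t [true] (replicate k false)) :
    GCh Sp (t + 1) [true] (replicate (k + p) false) := by
  rcases hx with hx | hx
  · have := ins (q := 0) h1 (par_special hx hx' hv) (par_vanish (fun y _ => hv y)) h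
    simpa using this
  · have := ins (p := 0) h1 (par_vanish (fun y _ => hv y)) (par_special hx hx' hv) h
    simpa using this

/-- Every letter derives a constant power of `a`. -/
lemma par_const {t : ℕ} {f : Bool → ℕ} : ∀ {c : List Bool},
    (∀ y ∈ c, It Sp t y (replicate (f y) false)) →
      Par (It Sp t) c (replicate (f true * c.count true + f false * c.count false) false) := by
  intro c
  induction c with
  | nil => intro _; exact Par.nil
  | cons x c ih =>
    intro h
    have h1 := ih (fun y hy => h y (by simp [hy]))
    have h2 := Par.cons (h x (by simp)) h1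
    rw [← replicate_add] at h2
    cases x
    · rw [count_cons_self, count_cons_of_ne (by simp)]
      rw [show f false + (f true * count true c + f false * count false c) =
        f true * count true c + f false * (count false c + 1) by ring] at h2
      exact h2
    · rw [count_cons_self, count_cons_of_ne (by simp)]
      rw [show f true + (f true * count true c + f false * count false c) =
        f true * (count true c + 1) + f false * count false c by ring] at h2
      exact h2

lemma ins_const {t k : ℕ} {f : Bool → ℕ} {u v : List Bool} (h1 : Sp true (u ++ true :: v))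
    (hf : ∀ y ∈ u ++ v, It Sp t y (replicate (f y) false))
    (h : GCh Sp t [true] (replicate k false)) :
    GCh Sp (t + 1) [true] (replicate (k + (f true * (u ++ v).count true +
      f false * (u ++ v).count false)) false) := by
  have := ins h1 (par_const (fun y hy => hf y (by simp [hy])))
    (par_const (fun y hy => hf y (by simp [hy]))) h
  rw [count_append, count_append]
  rw [show f true * count true u + f false * count false u + (f true * count true v +
    f false * count false v) = f true * (count true u + count true v) +
      f false * (count false u + count false v) by ring] at this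
  exact this

lemma exists_long {d : ℕ} (hd : ∀ x w, Sp x w → w.length ≤ d) (hd1 : 1 ≤ d) {m k : ℕ}
    (hk : d ^ m < k) (h : GK Sp k) :
    ∃ t, m + 1 ≤ t ∧ GCh Sp t [true] (replicate k false) := by
  obtain ⟨t, ht⟩ := h
  refine ⟨t + 1, ?_, ht⟩
  by_contra hcon
  have h1 := ht.length_le hd
  rw [length_replicate, length_singleton, Nat.mul_one] at h1
  have h2 : d ^ (t + 1) ≤ d ^ m := Nat.pow_le_pow_right hd1 (by omega)
  omega

lemma count_add (w : List Bool) : w.count true + w.count false = w.length := by
  induction w with
  | nil => rfl
  | cons x w ih =>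
    cases x
    · rw [length_cons, ← ih, count_cons_self, count_cons_of_ne (by simp)]
      omega
    · rw [length_cons, ← ih, count_cons_self, count_cons_of_ne (by simp)]
      omega

/-- Closure under addition of a constant. -/
lemma clo_C2 {d : ℕ} (hd : ∀ x w, Sp x w → w.length ≤ d) (ha : Sp false [])
    (hSa : Sp true [false]) {w₁ w₀ : List Bool} (hw1 : Sp true w₁) (hw2 : true ∈ w₁)
    (hw3 : 2 ≤ w₁.length) (hw4 : Sp false w₀) (hw5 : true ∈ w₀) :
    ∃ p, 1 ≤ p ∧ p ≤ d ∧ ∀ k, d ^ 2 < k → GK Sp k → GK Sp (k + p) := by
  have hd1 : 1 ≤ d := by
    have := hd _ _ hw1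
    omega
  have hvan : ∀ t, 2 ≤ t → ∀ y, It Sp t y [] := by
    intro t ht y
    cases y
    · exact it_nil_of_le (it_one.2 ha) (by omega)
    · exact it_nil_of_le (n := 2) ⟨[false], hSa, par_single.2 (it_one.2 ha)⟩ ht
  have hσ : 1 ≤ w₁.count true := count_pos_iff.2 hw2
  have hσd : w₁.count true ≤ d := count_le_length.trans (hd _ _ hw1)
  obtain ⟨u, v, e⟩ := append_of_mem hw2
  have hS : ∀ t, 2 ≤ t → It Sp t true (replicate (w₁.count true) false) := by
    intro t ht
    obtain ⟨m, rfl⟩ := Nat.exists_eq_add_of_le ht
    clear ht
    induction m with
    | zero =>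
      refine ⟨w₁, hw1, ?_⟩
      have := par_const (Sp := Sp) (t := 1) (f := fun b => if b then 1 else 0) (c := w₁) (by
        intro y _
        cases y
        · exact it_one.2 ha
        · exact it_one.2 hSa)
      simpa using this
    | succ m ih =>
      rw [show 2 + (m + 1) = (2 + m) + 1 by ring]
      refine ⟨w₁, hw1, ?_⟩
      exact par_special hw2 ih (hvan _ (by omega))
  refine ⟨w₁.count true, hσ, hσd, ?_⟩
  intro k hk hGK
  obtain ⟨t, ht, hG⟩ := exists_long hd hd1 hk hGK
  by_cases hσ2 : 2 ≤ w₁.count true
  · have hx : true ∈ u ∨ true ∈ v := by
      rw [e, count_append, count_cons_self] at hσ2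
      by_cases hu : true ∈ u
      · exact Or.inl hu
      · rw [count_eq_zero.2 hu] at hσ2
        exact Or.inr (count_pos_iff.1 (by omega))
    exact GK.of_gch (ins_special (e ▸ hw1) hx (hS t (by omega)) (hvan t (by omega)) hG)
  · have hα : 1 ≤ w₁.count false := by
      have := count_add w₁
      omega
    have hx : false ∈ u ∨ false ∈ v := by
      rw [e, count_append, count_cons_of_ne (by simp)] at hα
      by_cases hu : false ∈ u
      · exact Or.inl hu
      · rw [count_eq_zero.2 hu] at hα
        exact Or.inr (count_pos_iff.1 (by omega))
    refine GK.of_gch (ins_special (e ▸ hw1) hx ?_ (hvan t (by omega)) hG)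
    obtain ⟨t, rfl⟩ : ∃ t', t = t' + 1 := ⟨t - 1, by omega⟩
    exact ⟨w₀, hw4, par_special hw5 (hS t (by omega)) (hvan t (by omega))⟩

/-- Nonempty words. -/
def nonE (v : List Bool) : Bool := decide (v ≠ [])

/-- Words containing `true`. -/
def hasT (v : List Bool) : Bool := decide (true ∈ v)

lemma filter_ne_length {L : List (List Bool)} :
    (L.filter nonE).length ≤ L.flatten.length := by
  induction L with
  | nil => simp
  | cons v L ih =>
    rw [flatten_cons, length_append]
    by_cases h : v = []
    · subst h
      rw [filter_cons_of_neg (by simp [nonE])]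
      simpa using ih
    · rw [filter_cons_of_pos (by simpa [nonE] using h), length_cons]
      have := length_pos_iff.2 h
      omega

lemma sum_filter_ne {L : List (List Bool)} (f : List Bool → ℕ) (hf : f [] = 0) :
    ((L.filter nonE).map f).sum = (L.map f).sum := by
  induction L with
  | nil => rfl
  | cons v L ih =>
    by_cases h : v = []
    · subst h
      rw [filter_cons_of_neg (by simp [nonE]), ih, map_cons, sum_cons, hf, Nat.zero_add]
    · rw [filter_cons_of_pos (by simpa [nonE] using h), map_cons, sum_cons, ih, map_cons,
        sum_cons]

lemma sum_filter_true {L : List (List Bool)} :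
    ((L.filter hasT).map (fun v => v.count true)).sum =
      (L.map (fun v => v.count true)).sum := by
  induction L with
  | nil => rfl
  | cons v L ih =>
    by_cases h : true ∈ v
    · rw [filter_cons_of_pos (by simpa [hasT] using h), map_cons, sum_cons, ih, map_cons,
        sum_cons]
    · rw [filter_cons_of_neg (by simpa [hasT] using h), ih, map_cons, sum_cons,
        count_eq_zero.2 h, Nat.zero_add]

lemma filter_true_length {L : List (List Bool)} :
    (L.filter hasT).length ≤ (L.map (fun v => v.count true)).sum := by
  induction L with
  | nil => simp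
  | cons v L ih =>
    rw [map_cons, sum_cons]
    by_cases h : true ∈ v
    · rw [filter_cons_of_pos (by simpa [hasT] using h), length_cons]
      have := count_pos_iff.2 h
      omega
    · rw [filter_cons_of_neg (by simpa [hasT] using h)]
      omega

/-- The letter `a` erasable, the letter `S` not. -/
lemma gs_C2 (ha : Sp false []) (hSa : Sp true [false]) (hS : ¬ Sp true [])
    {w₁ w₀ : List Bool} (hw1 : Sp true w₁) (hw2 : true ∈ w₁)
    (hw3 : 2 ≤ w₁.length) (hw4 : Sp false w₀) (hw5 : true ∈ w₀) {k : ℕ} (h : GK Sp k) :
    GS Sp (6 * k + 3) k := by
  obtain ⟨t, ht⟩ := h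
  obtain ⟨y, hy1, hy2, hy3⟩ := GCh.succ'.1 ht
  cases t with
  | zero =>
    have : [true] = y := hy1
    subst this
    exact ⟨1, by omega, ⟨by simp, _, hy3, rfl⟩⟩
  | succ t =>
    obtain ⟨x, hx1, hx2, hx3⟩ := GCh.succ'.1 hy1
    obtain ⟨L, M, h1, h2, h3, h4, h5⟩ := par_dec hy3
    obtain ⟨L₂, M₂, h6, h7, h8, h9, h10⟩ := par_dec hx3
    have hlen : L.flatten.length + M.flatten.length = k := by
      have := h5.length_eq
      rw [length_append, length_replicate] at this
      exact this
    have hL : L.length ≤ k := by
      have := length_le_flatten_of_ne (L := L) (fun v hv h => hS (h ▸ h3 v hv))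
      omega
    set M' := M.filter nonE with hM'
    have hM'k : M'.length ≤ k := by
      have := filter_ne_length (L := M)
      rw [← hM'] at this
      omega
    set L' := L₂.filter hasT with hL'
    set N' := M₂.filter hasT with hN'
    have hcy : y.count true = (L₂.map (fun v => v.count true)).sum +
        (M₂.map (fun v => v.count true)).sum := by
      rw [← h10.count_eq, count_append, count_flatten', count_flatten']
    have hL'k : L'.length ≤ k := by
      have := filter_true_length (L := L₂)
      rw [← hL'] at this
      omega
    have hN'k : N'.length ≤ k := by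
      have := filter_true_length (L := M₂)
      rw [← hN'] at this
      omega
    -- growth
    obtain ⟨z, hz1, hz2⟩ := growth hw1 hw2 hw3 hw4 hw5 (3 * k)
    obtain ⟨c, hc⟩ : ∃ c, z.count true = 2 * k + c := ⟨z.count true - 2 * k, by omega⟩
    obtain ⟨z', g1, g2, g3⟩ := step_dec (Sp := Sp) (z := z)
      (L := replicate (2 * k) w₁ ++ replicate c [false]) (M := replicate (z.count false) [])
      (by rw [hc, length_append, length_replicate, length_replicate]) (by simp)
      (by
        intro v hv
        rw [mem_append] at hv
        rcases hv with hv | hv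
        · rw [eq_of_mem_replicate hv]; exact hw1
        · rw [eq_of_mem_replicate hv]; exact hSa)
      (by intro v hv; rw [eq_of_mem_replicate hv]; exact ha)
    rw [map_append, sum_append, sum_map_replicate, sum_map_replicate, sum_map_replicate]
      at g2 g3
    simp only [count_nil, Nat.mul_zero, Nat.add_zero, count_singleton_self, Nat.mul_one] at g2 g3
    have hσ : 1 ≤ w₁.count true := count_pos_iff.2 hw2
    have g4 : 2 * k ≤ 2 * k * w₁.count true := Nat.le_mul_of_pos_right _ hσ
    have e1 : ([false] : List Bool).count true = 0 := by decide
    rw [e1] at g2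
    have hk1 : 1 ≤ k := by
      by_contra hcon
      have hk0 : k = 0 := by omega
      have := count_pos_iff.2 hy2
      omega
    have g5 : GCh Sp (6 * k + 1) [true] z' := by
      rw [show 6 * k + 1 = 2 * (3 * k) + 1 by ring]
      exact GCh.succ'.2 ⟨z, hz1, count_pos_iff.1 (by omega), g1⟩
    obtain ⟨c₁, hc₁⟩ : ∃ c, z'.count true = L'.length + c := ⟨z'.count true - L'.length, by omega⟩
    obtain ⟨c₂, hc₂⟩ : ∃ c, z'.count false = N'.length + c := ⟨z'.count false - N'.length, by omega⟩
    obtain ⟨y', g6, g7, g8⟩ := step_dec (Sp := Sp) (z := z')
      (L := L' ++ replicate c₁ [false]) (M := N' ++ replicate c₂ [])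
      (by rw [hc₁, length_append, length_replicate])
      (by rw [hc₂, length_append, length_replicate])
      (by
        intro v hv
        rw [mem_append] at hv
        rcases hv with hv | hv
        · exact h8 v (mem_of_mem_filter hv)
        · rw [eq_of_mem_replicate hv]; exact hSa)
      (by
        intro v hv
        rw [mem_append] at hv
        rcases hv with hv | hv
        · exact h9 v (mem_of_mem_filter hv)
        · rw [eq_of_mem_replicate hv]; exact ha)
    rw [map_append, map_append, sum_append, sum_append, sum_map_replicate, sum_map_replicate]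
      at g7 g8
    simp only [count_nil, Nat.mul_zero, Nat.add_zero, count_singleton_self, Nat.mul_one, e1]
      at g7 g8
    rw [sum_filter_true, sum_filter_true, ← hcy] at g7
    obtain ⟨c₃, hc₃⟩ : ∃ c, y'.count false = M'.length + c := ⟨y'.count false - M'.length, by omega⟩
    have hyt : 1 ≤ y.count true := count_pos_iff.2 hy2
    refine gs_final (n := 6 * k + 2) (GCh.succ'.2 ⟨z', g5, count_pos_iff.1 (by omega), g6⟩)
      (count_pos_iff.1 (by omega)) (by omega) (L := L) (M := M' ++ replicate c₃ []) ?_ ?_ h3 ?_ ?_ ?_
    · rw [h1, g7]
    · rw [hc₃, length_append, length_replicate]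
    · intro v hv
      rw [mem_append] at hv
      rcases hv with hv | hv
      · exact h4 v (mem_of_mem_filter hv)
      · rw [eq_of_mem_replicate hv]; exact ha
    · have hct : (L.map (fun v => v.count true)).sum + (M.map (fun v => v.count true)).sum = 0 := by
        have h := h5.count_eq true
        rw [count_append, count_flatten', count_flatten'] at h
        rw [h, count_eq_zero]
        intro hm
        have hm' := eq_of_mem_replicate hm
        exact absurd hm' (by decide)
      rw [map_append, sum_append, sum_filter_ne (fun v => v.count true) rfl, sum_map_replicate]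
      simpa using hct
    · have hct : (L.map (fun v => v.count false)).sum + (M.map (fun v => v.count false)).sum = k := by
        have := h5.count_eq false
        rw [count_append, count_flatten', count_flatten'] at this
        rw [this]
        simp
      rw [map_append, sum_append, sum_filter_ne (fun v => v.count false) rfl, sum_map_replicate]
      simpa using hct

end Pool.Agent.Helper79.EOL
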