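import Pool.Agent.Helper79.EOL.Short2

/-!
# Short guarded derivations: removing loops
-/

namespace Pool.Agent.Helper79.EOL

open List Pool.Agent.Helper76.EOL

/-- Chains of a relation. -/
def Ch {α : Type} (r : α → α → Prop) : ℕ → α → α → Prop
  | 0, x, y => x = y
  | n + 1, x, y => ∃ z, r x z ∧ Ch r n z y

section Ch

variable {α : Type} {r : α → α → Prop}

lemma Ch.trans {m n : ℕ} {x y z : α} (h1 : Ch r m x y) (h2 : Ch r n y z) :
    Ch r (m + n) x z := by
  induction m generalizing x with
  | zero =>
    have : x = y := h1
    subst this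
    rw [Nat.zero_add]; exact h2
  | succ m ih =>
    obtain ⟨w, h3, h4⟩ := h1
    rw [show m + 1 + n = (m + n) + 1 by omega]
    exact ⟨w, h3, ih h4⟩

lemma Ch.path {n : ℕ} : ∀ {x y : α}, Ch r n x y →
    ∃ f : ℕ → α, f 0 = x ∧ f n = y ∧ ∀ i < n, r (f i) (f (i + 1)) := by
  induction n with
  | zero =>
    intro x y h
    have : x = y := h
    subst this
    exact ⟨fun _ => x, rfl, rfl, fun i hi => absurd hi (by omega)⟩
  | succ n ih =>
    intro x y h
    obtain ⟨z, h1, h2⟩ := h
    obtain ⟨f, h3, h4, h5⟩ := ih h2
    refine ⟨fun i => match i with | 0 => x | i + 1 => f i, rfl, h4, ?_⟩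
    intro i hi
    cases i with
    | zero =>
      change r x (f 0)
      rw [h3]; exact h1
    | succ i => exact h5 i (by omega)

lemma ch_of_path {n : ℕ} {f : ℕ → α} (h : ∀ i < n, r (f i) (f (i + 1))) :
    ∀ {i m : ℕ}, i + m ≤ n → Ch r m (f i) (f (i + m)) := by
  intro i m
  induction m generalizing i with
  | zero => intro _; rfl
  | succ m ih =>
    intro him
    refine ⟨f (i + 1), h i (by omega), ?_⟩
    have := ih (i := i + 1) (by omega)
    rw [show i + 1 + m = i + (m + 1) by omega] at this
    exact this

lemma Ch.short [DecidableEq α] {Ω : Finset α} (hr : ∀ x y, r x y → x ∈ Ω) :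
    ∀ (n : ℕ) {x y : α}, Ch r n x y → ∃ m, m ≤ Ω.card ∧ Ch r m x y := by
  intro n
  induction n using Nat.strong_induction_on with
  | _ n ih =>
    intro x y h
    by_cases hn : n ≤ Ω.card
    · exact ⟨n, hn, h⟩
    · obtain ⟨f, h1, h2, h3⟩ := h.path
      obtain ⟨i, hi, j, hj, hij, he⟩ := Finset.exists_ne_map_eq_of_card_lt_of_maps_to
        (s := Finset.range n) (t := Ω) (by rw [Finset.card_range]; omega) (f := f)
        (fun i hi => hr _ _ (h3 i (Finset.mem_range.1 hi)))
      rw [Finset.mem_range] at hi hj
      wlog hlt : i < j generalizing i j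
      · exact this j hj i hi hij.symm he.symm (by omega)
      have h4 := ch_of_path h3 (i := 0) (m := i) (by omega)
      have h5 := ch_of_path h3 (i := j) (m := n - j) (by omega)
      rw [Nat.zero_add, h1] at h4
      rw [show j + (n - j) = n by omega, h2, ← he] at h5
      exact ih (i + (n - j)) (by omega) (h4.trans h5)

end Ch

variable {Sp : Bool → List Bool → Prop}

/-- The step relation on the numbers of letters, with bounded length. -/
def rP (Sp : Bool → List Bool → Prop) (k : ℕ) (x y : ℕ × ℕ) : Prop :=
  1 ≤ x.1 ∧ x.1 + x.2 ≤ k ∧ ∀ z : List Bool, z.count true = x.1 → z.count false = x.2 →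
    ∃ z', Par Sp z z' ∧ z'.count true = y.1 ∧ z'.count false = y.2

lemma GCh.le_length {n : ℕ} {z w : List Bool} (h : GCh Sp n z w)
    (hp : ∀ x w, Sp x w → w ≠ []) : z.length ≤ w.length :=
  h.par.le_length (fun _ _ h => h.ne_nil hp)

lemma gch_to_ch (hp : ∀ x w, Sp x w → w ≠ []) {k : ℕ} (n : ℕ) : ∀ {z w : List Bool},
    GCh Sp n z w → w.length ≤ k →
      Ch (rP Sp k) n (z.count true, z.count false) (w.count true, w.count false) := by
  induction n with
  | zero =>
    intro z w h _
    have : z = w := h
    subst this
    rfl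
  | succ n ih =>
    intro z w h hk
    have hl := h.le_length hp
    obtain ⟨h1, z', h2, h3⟩ := h
    refine ⟨(z'.count true, z'.count false), ⟨count_pos_iff.2 h1, ?_, ?_⟩, ih h3 hk⟩
    · change z.count true + z.count false ≤ k
      rw [count_add]
      omega
    · intro y hy1 hy2
      obtain ⟨L, M, h4, h5, h6, h7, h8⟩ := par_dec h2
      obtain ⟨y', h9, h10, h11⟩ := step_dec (Sp := Sp) (z := y) (L := L) (M := M)
        (by rw [h4, hy1]) (by rw [h5, hy2]) h6 h7
      refine ⟨y', h9, ?_, ?_⟩
      · change y'.count true = z'.count true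
        rw [h10, ← h8.count_eq, count_append, count_flatten', count_flatten']
      · change y'.count false = z'.count false
        rw [h11, ← h8.count_eq, count_append, count_flatten', count_flatten']

lemma ch_to_gch {k : ℕ} (n : ℕ) : ∀ {x y : ℕ × ℕ}, Ch (rP Sp k) n x y →
    ∀ z : List Bool, z.count true = x.1 → z.count false = x.2 →
      ∃ w, GCh Sp n z w ∧ w.count true = y.1 ∧ w.count false = y.2 := by
  induction n with
  | zero =>
    intro x y h z h1 h2
    have : x = y := h
    subst this
    exact ⟨z, rfl, h1, h2⟩
  | succ n ih =>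
    intro x y h z h1 h2
    obtain ⟨x', ⟨h3, _, h4⟩, h5⟩ := h
    obtain ⟨z', h6, h7, h8⟩ := h4 z h1 h2
    obtain ⟨w, h9, h10, h11⟩ := ih h5 z' h7 h8
    exact ⟨w, ⟨count_pos_iff.1 (by omega), z', h6, h9⟩, h10, h11⟩

lemma count_rep_true (k : ℕ) : (replicate k false).count true = 0 := by
  rw [count_eq_zero]
  intro h
  exact absurd (eq_of_mem_replicate h) (by decide)

lemma count_rep_false (k : ℕ) : (replicate k true).count false = 0 := by
  rw [count_eq_zero]
  intro h
  exact absurd (eq_of_mem_replicate h) (by decide)

/-- Propagating forms. -/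
lemma gs_prop (hp : ∀ x w, Sp x w → w ≠ []) {k : ℕ} (h : GK Sp k) :
    GS Sp ((k + 1) ^ 2) k := by
  obtain ⟨t, ht⟩ := h
  have h1 := gch_to_ch hp (k := k) (t + 1) ht (by simp)
  have hr : ∀ x y, rP Sp k x y → x ∈ Finset.range (k + 1) ×ˢ Finset.range (k + 1) := by
    intro x y h
    obtain ⟨h1, h2, _⟩ := h
    rw [Finset.mem_product, Finset.mem_range, Finset.mem_range]
    omega
  obtain ⟨m, hm, h2⟩ := Ch.short hr _ h1
  obtain ⟨w, h3, h4, h5⟩ := ch_to_gch m h2 [true] rfl rfl
  rw [Finset.card_product, Finset.card_range] at hm
  refine ⟨m, ?_, ?_⟩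
  · rw [sq]; exact hm
  · rw [← eq_replicate_false (w := w) (k := k)]
    · exact h3
    · rw [h4]; exact count_rep_true k
    · rw [h5]; exact count_replicate_self

/-- The step relation with kept letters. -/
def rE (Sp : Bool → List Bool → Prop) (k : ℕ) (x y : ℕ × ℕ) : Prop :=
  1 ≤ x.1 ∧ x.1 + x.2 ≤ k + 1 ∧ ∀ z : List Bool, x.1 ≤ z.count true → z.count false = x.2 →
    ∃ z', Par Sp z z' ∧ y.1 ≤ z'.count true ∧ z'.count false = y.2

/-- The last step with kept letters. -/
def fE (Sp : Bool → List Bool → Prop) (k : ℕ) (x : ℕ × ℕ) : Prop :=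
  1 ≤ x.1 ∧ ∀ z : List Bool, x.1 ≤ z.count true → z.count false = x.2 →
    Par Sp z (replicate k false)

/-- Words containing `false`. -/
def hasF (v : List Bool) : Bool := decide (false ∈ v)

lemma filter_false_length {L : List (List Bool)} :
    (L.filter hasF).length ≤ ((L.filter hasF).map (fun v => v.count false)).sum := by
  induction L with
  | nil => simp
  | cons v L ih =>
    by_cases h : false ∈ v
    · rw [filter_cons_of_pos (by simpa [hasF] using h), length_cons, map_cons, sum_cons]
      have := count_pos_iff.2 h
      omega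
    · rw [filter_cons_of_neg (by simpa [hasF] using h)]
      exact ih

lemma sum_filter_false {L : List (List Bool)} :
    ((L.filter hasF).map (fun v => v.count false)).sum =
      (L.map (fun v => v.count false)).sum := by
  induction L with
  | nil => rfl
  | cons v L ih =>
    by_cases h : false ∈ v
    · rw [filter_cons_of_pos (by simpa [hasF] using h), map_cons, sum_cons, ih, map_cons,
        sum_cons]
    · rw [filter_cons_of_neg (by simpa [hasF] using h), ih, map_cons, sum_cons,
        count_eq_zero.2 h, Nat.zero_add]

lemma split_rules : ∀ {L : List (List Bool)},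
    (∀ v ∈ L, false ∈ v ∨ v = [] ∨ v = [true]) →
      ∃ q, (L.filter hasF).length + q ≤ L.length ∧ (L.map (fun v => v.count true)).sum =
        ((L.filter hasF).map (fun v => v.count true)).sum + q ∧
        (1 ≤ q → Sp true [true] ∨ ¬ ∀ v ∈ L, Sp true v) := by
  intro L
  induction L with
  | nil => intro _; exact ⟨0, by simp, by simp, fun h => absurd h (by omega)⟩
  | cons v L ih =>
    intro h
    obtain ⟨q, h1, h2, h3⟩ := ih (fun v hv => h v (by simp [hv]))
    have h3' : 1 ≤ q → Sp true [true] ∨ ¬ ∀ v' ∈ v :: L, Sp true v' := by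
      intro hq
      rcases h3 hq with h | h
      · exact Or.inl h
      · exact Or.inr (fun hall => h (fun v' hv' => hall v' (by simp [hv'])))
    rcases h v (by simp) with hv | hv | hv
    · refine ⟨q, ?_, ?_, h3'⟩
      · rw [filter_cons_of_pos (by simpa [hasF] using hv), length_cons, length_cons]
        omega
      · rw [filter_cons_of_pos (by simpa [hasF] using hv), map_cons, sum_cons, map_cons,
          sum_cons, h2]
        omega
    · subst hv
      refine ⟨q, ?_, ?_, h3'⟩
      · rw [filter_cons_of_neg (by simp [hasF]), length_cons]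
        omega
      · rw [filter_cons_of_neg (by simp [hasF]), map_cons, sum_cons, h2, count_nil]
        omega
    · subst hv
      refine ⟨q + 1, ?_, ?_, ?_⟩
      · rw [filter_cons_of_neg (by simp [hasF]), length_cons]
        omega
      · rw [filter_cons_of_neg (by simp [hasF]), map_cons, sum_cons, h2,
          count_singleton_self]
        omega
      · intro _
        by_cases hS : Sp true [true]
        · exact Or.inl hS
        · exact Or.inr (fun hall => hS (hall _ (by simp)))

lemma keep_chain (hS : Sp true []) (hLa : ∀ v, Sp false v → false ∈ v)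
    (hLS : ∀ v, Sp true v → false ∈ v ∨ v = [] ∨ v = [true]) {k : ℕ} (t : ℕ) :
    ∀ {z : List Bool}, GCh Sp (t + 1) z (replicate k false) →
      ∃ s, s ≤ z.count true ∧ 1 ≤ s ∧ s + z.count false ≤ k + 1 ∧
        ∃ x, Ch (rE Sp k) t (s, z.count false) x ∧ fE Sp k x := by
  induction t with
  | zero =>
    intro z h
    obtain ⟨h1, z', h2, h3⟩ := h
    have : z' = replicate k false := h3
    subst this
    obtain ⟨L, M, h4, h5, h6, h7, h8⟩ := par_dec h2
    have hlen := h8.length_eq
    rw [length_append, length_replicate] at hlen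
    have h9 := filter_ne_length (L := L)
    have h10 := length_le_flatten_of_ne (L := M)
      (fun v hv e => by have := hLa v (h7 v hv); rw [e] at this; simp at this)
    have h11 : (L.filter nonE).length ≤ L.length := length_filter_le _ _
    have h12 : 1 ≤ z.count true := count_pos_iff.2 h1
    refine ⟨max 1 (L.filter nonE).length, ?_, ?_, ?_, _, rfl, ?_, ?_⟩
    · omega
    · omega
    · omega
    · exact Nat.le_max_left _ _
    · intro y hy1 hy2
      change max 1 (L.filter nonE).length ≤ y.count true at hy1
      change y.count false = z.count false at hy2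
      obtain ⟨c, hc⟩ : ∃ c, y.count true = (L.filter nonE).length + c :=
        ⟨y.count true - (L.filter nonE).length, by omega⟩
      obtain ⟨w, g1, g2, g3⟩ := step_dec (Sp := Sp) (z := y)
        (L := L.filter nonE ++ replicate c []) (M := M)
        (by rw [hc, length_append, length_replicate]) (by rw [h5, hy2])
        (by
          intro v hv
          rw [mem_append] at hv
          rcases hv with hv | hv
          · exact h6 v (mem_of_mem_filter hv)
          · rw [eq_of_mem_replicate hv]; exact hS) h7
      rw [map_append, sum_append, sum_map_replicate, sum_filter_ne (fun v => v.count true) rfl,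
        count_nil, Nat.mul_zero, Nat.add_zero] at g2
      rw [map_append, sum_append, sum_map_replicate, sum_filter_ne (fun v => v.count false) rfl,
        count_nil, Nat.mul_zero, Nat.add_zero] at g3
      have e1 := h8.count_eq true
      rw [count_append, count_flatten', count_flatten', count_rep_true] at e1
      have e2 := h8.count_eq false
      rw [count_append, count_flatten', count_flatten', count_replicate_self] at e2
      rw [← eq_replicate_false (g2.trans e1) (g3.trans e2)]
      exact g1
  | succ t ih =>
    intro z h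
    obtain ⟨h1, z₁, h2, h3⟩ := h
    obtain ⟨s₁, h4, h5, h6, x, h7, h8⟩ := ih h3
    obtain ⟨L, M, g1, g2, g3, g4, g5⟩ := par_dec h2
    obtain ⟨q, g6, g7, g8⟩ := split_rules (Sp := Sp) (L := L) (fun v hv => hLS v (g3 v hv))
    have g9 := filter_false_length (L := L)
    have g10 := count_flatten_ge (L := M) (fun v hv => hLa v (g4 v hv))
    have e1 := g5.count_eq true
    rw [count_append, count_flatten', count_flatten', g7] at e1
    have e2 := g5.count_eq false
    rw [count_append, count_flatten', count_flatten', ← sum_filter_false] at e2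
    have g11 : 1 ≤ z.count true := count_pos_iff.2 h1
    obtain ⟨X, hX⟩ : ∃ X, X = ((L.filter hasF).map (fun v => v.count true)).sum +
      (M.map (fun v => v.count true)).sum := ⟨_, rfl⟩
    obtain ⟨q', hq'⟩ : ∃ q', q' = min q (s₁ - X) := ⟨_, rfl⟩
    refine ⟨max 1 ((L.filter hasF).length + q'), ?_, Nat.le_max_left _ _, ?_, x, ?_, h8⟩
    · omega
    · omega
    · refine ⟨_, ⟨Nat.le_max_left _ _, ?_, ?_⟩, h7⟩
      · change max 1 ((L.filter hasF).length + q') + z.count false ≤ k + 1
        omega
      · intro y hy1 hy2
        change max 1 ((L.filter hasF).length + q') ≤ y.count true at hy1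
        change y.count false = z.count false at hy2
        obtain ⟨c, hc⟩ : ∃ c, y.count true = (L.filter hasF).length + (q' + c) :=
          ⟨y.count true - (L.filter hasF).length - q', by omega⟩
        obtain ⟨w, f1, f2, f3⟩ := step_dec (Sp := Sp) (z := y)
          (L := L.filter hasF ++ (replicate q' [true] ++ replicate c [])) (M := M)
          (by rw [hc, length_append, length_append, length_replicate, length_replicate])
          (by rw [g2, hy2])
          (by
            intro v hv
            rw [mem_append, mem_append] at hv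
            rcases hv with hv | hv | hv
            · exact g3 v (mem_of_mem_filter hv)
            · have hq1 : 1 ≤ q' := by
                by_contra hcon
                obtain rfl : q' = 0 := by omega
                simp at hv
              rw [eq_of_mem_replicate hv]
              rcases g8 (by omega) with h | h
              · exact h
              · exact absurd g3 h
            · rw [eq_of_mem_replicate hv]; exact hS) g4
        rw [map_append, map_append, sum_append, sum_append, sum_map_replicate,
          sum_map_replicate] at f2 f3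
        simp only [count_nil, Nat.mul_zero, Nat.add_zero, count_singleton_self, Nat.mul_one]
          at f2 f3
        have e3 : ([true] : List Bool).count false = 0 := by decide
        rw [e3, Nat.mul_zero, Nat.add_zero] at f3
        refine ⟨w, f1, ?_, ?_⟩
        · change s₁ ≤ w.count true
          omega
        · change w.count false = z₁.count false
          omega

lemma ch_to_gchE {k : ℕ} (n : ℕ) : ∀ {x y : ℕ × ℕ}, Ch (rE Sp k) n x y →
    ∀ z : List Bool, x.1 ≤ z.count true → z.count false = x.2 →
      ∃ w, GCh Sp n z w ∧ y.1 ≤ w.count true ∧ w.count false = y.2 := by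
  induction n with
  | zero =>
    intro x y h z h1 h2
    have : x = y := h
    subst this
    exact ⟨z, rfl, h1, h2⟩
  | succ n ih =>
    intro x y h z h1 h2
    obtain ⟨x', ⟨h3, _, h4⟩, h5⟩ := h
    obtain ⟨z', h6, h7, h8⟩ := h4 z h1 h2
    obtain ⟨w, h9, h10, h11⟩ := ih h5 z' h7 h8
    exact ⟨w, ⟨count_pos_iff.1 (by omega), z', h6, h9⟩, h10, h11⟩

/-- Erasable `S`, all right-hand sides of `a` contain `a`. -/
lemma gs_C3c (hS : Sp true []) (hLa : ∀ v, Sp false v → false ∈ v)
    (hLS : ∀ v, Sp true v → false ∈ v ∨ v = [] ∨ v = [true]) {k : ℕ} (h : GK Sp k) :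
    GS Sp ((k + 2) ^ 2 + 1) k := by
  obtain ⟨t, ht⟩ := h
  obtain ⟨s, h1, h2, h3, x, h4, h5, h6⟩ := keep_chain hS hLa hLS t ht
  have hs : s = 1 := by
    have : ([true] : List Bool).count true = 1 := rfl
    omega
  subst hs
  have hr : ∀ x y, rE Sp k x y → x ∈ Finset.range (k + 2) ×ˢ Finset.range (k + 2) := by
    intro x y h
    obtain ⟨h1, h2, _⟩ := h
    rw [Finset.mem_product, Finset.mem_range, Finset.mem_range]
    omega
  obtain ⟨m, hm, h7⟩ := Ch.short hr _ h4
  obtain ⟨w, h8, h9, h10⟩ := ch_to_gchE m h7 [true] le_rfl rfl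
  rw [Finset.card_product, Finset.card_range] at hm
  refine ⟨m + 1, ?_, ?_⟩
  · rw [sq]; omega
  · exact GCh.succ'.2 ⟨w, h8, count_pos_iff.1 (by omega), h6 w h9 h10⟩

end Pool.Agent.Helper79.EOL
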