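import Pool.Agent.Helper79.EOL.NegKA

/-!
# Periodicity of the supports of the outcomes, and quick finalisation
-/

namespace Pool.Agent.Helper79.EOL

open List Pool.Agent.Helper76.EOL

/-- A sequence of subsets of a finite set in which equal members have equal successors is
eventually periodic. -/
lemma eventually_periodic {α : Type*} (Ω : Set α) (hΩ : Ω.Finite) (T : ℕ → Set α)
    (hT : ∀ n, T n ⊆ Ω) (hstep : ∀ i j, T i = T j → T (i + 1) = T (j + 1)) :
    ∃ n₀ P, 1 ≤ P ∧ ∀ n, n₀ ≤ n → T (n + P) = T n := by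
  have : Finite {S : Set α // S ⊆ Ω} := hΩ.finite_subsets.to_subtype
  obtain ⟨i, j, hij, h⟩ := Finite.exists_ne_map_eq_of_infinite
    (fun n : ℕ => (⟨T n, hT n⟩ : {S : Set α // S ⊆ Ω}))
  have hTij : T i = T j := congrArg Subtype.val h
  have hk : ∀ i j, T i = T j → ∀ k, T (i + k) = T (j + k) := by
    intro i j h k
    induction k with
    | zero => exact h
    | succ k ih => exact hstep _ _ ih
  rcases lt_or_gt_of_ne hij with hlt | hlt
  · refine ⟨i, j - i, by omega, ?_⟩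
    intro n hn
    have := hk i j hTij (n - i)
    rw [show i + (n - i) = n by omega, show j + (n - i) = n + (j - i) by omega] at this
    exact this.symm
  · refine ⟨j, i - j, by omega, ?_⟩
    intro n hn
    have := hk j i hTij.symm (n - j)
    rw [show j + (n - j) = n by omega, show i + (n - j) = n + (i - j) by omega] at this
    exact this.symm

lemma periodic_modEq {α : Type*} {T : ℕ → Set α} {n₀ P : ℕ} (h : ∀ n, n₀ ≤ n → T (n + P) = T n)
    {m n : ℕ} (hm : n₀ ≤ m) (hn : n₀ ≤ n) (hmn : m ≡ n [MOD P]) : T m = T n := by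
  have key : ∀ k n, n₀ ≤ n → T (n + k * P) = T n := by
    intro k
    induction k with
    | zero => intro n _; simp
    | succ k ih =>
      intro n hn
      rw [show n + (k + 1) * P = (n + k * P) + P by ring, h _ (by omega), ih n hn]
  rcases le_total m n with hle | hle
  · obtain ⟨k, hk⟩ := (Nat.modEq_iff_dvd' hle).1 hmn
    have := key k m hm
    rw [show m + k * P = n by rw [Nat.mul_comm k P]; omega] at this
    exact this.symm
  · obtain ⟨k, hk⟩ := (Nat.modEq_iff_dvd' hle).1 hmn.symm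
    have := key k n hn
    rw [show n + k * P = m by rw [Nat.mul_comm k P]; omega] at this
    exact this

/-- The tables of a grammar: quick finalisation of single symbols. -/
def Tab (G : Grammar) (Sig : Finset ℕ) (n₀ P : ℕ) : Prop :=
  ∀ X ∈ G.V, ∀ τ τ', n₀ ≤ τ → n₀ ≤ τ' → τ ≡ τ' [MOD P] → ∀ w, It (pr G) τ X w →
    (∀ x ∈ w, x ∈ Sig) → ∃ w', It (pr G) τ' X w' ∧ w'.toFinset = w.toFinset

lemma tab_par_aux {G : Grammar} {Sig : Finset ℕ} {τ τ' : ℕ}
    (h : ∀ X ∈ G.V, ∀ w, It (pr G) τ X w → (∀ x ∈ w, x ∈ Sig) →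
      ∃ w', It (pr G) τ' X w' ∧ w'.toFinset = w.toFinset) :
    ∀ z : List ℕ, (∀ x ∈ z, x ∈ G.V) → ∀ w, Par (It (pr G) τ) z w → (∀ x ∈ w, x ∈ Sig) →
      ∃ w', Par (It (pr G) τ') z w' ∧ w'.toFinset = w.toFinset := by
  intro z
  induction z with
  | nil =>
    intro _ w hw _
    rw [par_nil] at hw
    subst hw
    exact ⟨[], Par.nil, rfl⟩
  | cons x z ih =>
    intro hz w hw hS
    obtain ⟨u, v, h1, h2, rfl⟩ := par_cons.1 hw
    obtain ⟨u', h3, h4⟩ := h x (hz x (by simp)) u h1 (fun y hy => hS y (by simp [hy]))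
    obtain ⟨v', h5, h6⟩ := ih (fun y hy => hz y (by simp [hy])) v h2
      (fun y hy => hS y (by simp [hy]))
    refine ⟨u' ++ v', Par.cons h3 h5, ?_⟩
    rw [toFinset_append, toFinset_append, h4, h6]

theorem exists_tab (G : Grammar) (Sig : Finset ℕ) : ∃ n₀ P, 1 ≤ P ∧ Tab G Sig n₀ P := by
  set T : ℕ → Set (ℕ × Finset ℕ) := fun τ =>
    {p | p.1 ∈ G.V ∧ p.2 ⊆ Sig ∧ ∃ w, It (pr G) τ p.1 w ∧ w.toFinset = p.2} with hTdef
  obtain ⟨n₀, P, hP, h⟩ := eventually_periodic (α := ℕ × Finset ℕ)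
    {p | p ∈ G.V ×ˢ Sig.powerset} (Finset.finite_toSet _) T
    (by
      rintro n ⟨X, A⟩ ⟨h1, h2, _⟩
      simp only [Set.mem_ofPred_eq, Finset.mem_product, Finset.mem_powerset]
      exact ⟨h1, h2⟩)
    (by
      have key : ∀ i j, T i = T j → T (i + 1) ⊆ T (j + 1) := by
        rintro i j hij ⟨X, A⟩ ⟨h1, h2, w, h3, h4⟩
        refine ⟨h1, h2, ?_⟩
        have hstep : ∀ X ∈ G.V, ∀ w, It (pr G) i X w → (∀ x ∈ w, x ∈ Sig) →
            ∃ w', It (pr G) j X w' ∧ w'.toFinset = w.toFinset := by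
          intro X hX w hw hS
          have : (X, w.toFinset) ∈ T i := ⟨hX, fun y hy => hS y (mem_toFinset.1 hy), w, hw, rfl⟩
          rw [hij] at this
          exact this.2.2
        obtain ⟨α, h5, h6⟩ := it_succ.1 h3
        obtain ⟨w', h7, h8⟩ := tab_par_aux hstep α (G.prod_wf _ h5).2 w h6 (by
          intro x hx
          apply h2
          rw [← h4]
          exact mem_toFinset.2 hx)
        exact ⟨w', it_succ.2 ⟨α, h5, h7⟩, by rw [h8, h4]⟩
      intro i j hij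
      exact Set.Subset.antisymm (key i j hij) (key j i hij.symm))
  refine ⟨n₀, P, hP, ?_⟩
  intro X hX τ τ' hτ hτ' hmod w hw hS
  have h1 : (X, w.toFinset) ∈ T τ := ⟨hX, fun y hy => hS y (mem_toFinset.1 hy), w, hw, rfl⟩
  rw [periodic_modEq h hτ hτ' hmod] at h1
  exact h1.2.2

lemma Tab.par {G : Grammar} {Sig : Finset ℕ} {n₀ P : ℕ} (h : Tab G Sig n₀ P) {τ τ' : ℕ}
    (hτ : n₀ ≤ τ) (hτ' : n₀ ≤ τ') (hmod : τ ≡ τ' [MOD P]) {z w : List ℕ}
    (hz : ∀ x ∈ z, x ∈ G.V) (hw : Par (It (pr G) τ) z w) (hS : ∀ x ∈ w, x ∈ Sig) :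
    ∃ w', Par (It (pr G) τ') z w' ∧ w'.toFinset = w.toFinset :=
  tab_par_aux (fun X hX => h X hX τ τ' hτ hτ' hmod) z hz w hw hS

lemma Tab.weaken {G : Grammar} {Sig : Finset ℕ} {n₀ P n₁ Q : ℕ} (h : Tab G Sig n₀ P)
    (h1 : n₀ ≤ n₁) (h2 : P ∣ Q) : Tab G Sig n₁ Q :=
  fun X hX τ τ' hτ hτ' hmod => h X hX τ τ' (h1.trans hτ) (h1.trans hτ')
    (hmod.of_dvd h2)

/-- The representative of a residue class just above `n₀`. -/
lemma exists_rep {P : ℕ} (hP : 1 ≤ P) (n₀ τ : ℕ) : ∃ ρ, n₀ ≤ ρ ∧ ρ < n₀ + P ∧ τ ≡ ρ [MOD P] := by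
  have h0 : n₀ % P < P := Nat.mod_lt _ (by omega)
  have h1 : τ % P < P := Nat.mod_lt _ (by omega)
  refine ⟨n₀ + (τ % P + (P - n₀ % P)) % P, by omega, ?_, ?_⟩
  · have := Nat.mod_lt (τ % P + (P - n₀ % P)) (show 0 < P by omega)
    omega
  · have h2 : n₀ + (τ % P + (P - n₀ % P)) % P ≡ n₀ + (τ % P + (P - n₀ % P)) [MOD P] :=
      Nat.ModEq.add_left _ (Nat.mod_modEq _ _)
    have h3 : n₀ + (τ % P + (P - n₀ % P)) = τ % P + P * (n₀ / P + 1) := by
      have := Nat.div_add_mod n₀ P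
      have e : P * (n₀ / P + 1) = P * (n₀ / P) + P := by ring
      omega
    rw [h3] at h2
    have h4 : τ % P + P * (n₀ / P + 1) ≡ τ [MOD P] := by
      have : τ % P + P * (n₀ / P + 1) ≡ τ % P + 0 [MOD P] :=
        Nat.ModEq.add_left _ ((Nat.modEq_zero_iff_dvd).2 ⟨_, rfl⟩)
      exact this.trans (by simpa using Nat.mod_modEq τ P)
    exact (h2.trans h4).symm

/-! ### Chains of unary steps through terminals -/

/-- Data of a test situation: `G` generates `L`, all letters of `L` lie in `Sig`, no letter of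
`Sig` derives itself, and `(n₀, P)` are tables. -/
structure Test (G : Grammar) (L : Set (List ℕ)) (Sig : Finset ℕ) (n₀ P : ℕ) : Prop where
  gen : Gen G L
  sig : ∀ w ∈ L, ∀ x ∈ w, x ∈ Sig
  sigT : ∀ x ∈ Sig, x ∈ G.T
  nowait : ∀ x ∈ Sig, ∀ δ, 1 ≤ δ → ¬ It (pr G) δ x [x]
  hP : 1 ≤ P
  tab : Tab G Sig n₀ P

lemma chain_it {G : Grammar} {c : ℕ → ℕ} {K : ℕ} (hc : ∀ i < K, pr G (c i) [c (i + 1)]) :
    ∀ i j, i + j ≤ K → It (pr G) j (c i) [c (i + j)] := by
  intro i j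
  induction j generalizing i with
  | zero => intro _; rfl
  | succ j ih =>
    intro h
    rw [it_succ]
    refine ⟨[c (i + 1)], hc i (by omega), par_single.2 ?_⟩
    have := ih (i + 1) (by omega)
    rwa [show i + 1 + j = i + (j + 1) by omega] at this

variable {G : Grammar} {L : Set (List ℕ)} {Sig : Finset ℕ} {n₀ P : ℕ}

/-- Long chains of unary steps through terminals do not exist. -/
lemma Test.no_chain (h : Test G L Sig n₀ P) {u v w₁ w₂ : List ℕ} {τ : ℕ} {c : ℕ → ℕ}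
    (hR : Rc G (u ++ ([c 0] ++ v))) (h1 : Par (It (pr G) τ) u w₁) (h2 : Par (It (pr G) τ) v w₂)
    (hw1 : ∀ x ∈ w₁, x ∈ Sig) (hw2 : ∀ x ∈ w₂, x ∈ Sig)
    (hτ : n₀ + P * (Sig.card + 2) ≤ τ)
    (hc : ∀ i < n₀ + P * (Sig.card + 2), pr G (c i) [c (i + 1)] ∧ c (i + 1) ∈ G.T) : False := by
  obtain ⟨ρ, hρ1, hρ2, hρ3⟩ := exists_rep h.hP n₀ τ
  have huV : ∀ x ∈ u, x ∈ G.V := fun x hx => hR.mem_V x (by simp [hx])
  have hvV : ∀ x ∈ v, x ∈ G.V := fun x hx => hR.mem_V x (by simp [hx])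
  have hP := h.hP
  -- at the times `ρ + m P` the chain is at a letter of `Sig`
  have key : ∀ m, 1 ≤ m → m ≤ Sig.card + 1 → c (ρ + m * P) ∈ Sig := by
    intro m hm1 hm2
    have hbd : ρ + m * P ≤ n₀ + P * (Sig.card + 2) := by
      have h3 : m * P ≤ (Sig.card + 1) * P := Nat.mul_le_mul_right _ hm2
      have h4 : P * (Sig.card + 2) = (Sig.card + 1) * P + P := by ring
      omega
    have hmod : τ ≡ ρ + m * P [MOD P] := by
      have : ρ + m * P ≡ ρ + 0 [MOD P] :=
        Nat.ModEq.add_left _ ((Nat.modEq_zero_iff_dvd).2 ⟨m, by ring⟩)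
      exact hρ3.trans this.symm
    obtain ⟨w₁', h3, h4⟩ := h.tab.par (by omega) (show n₀ ≤ ρ + m * P by omega) hmod huV h1 hw1
    obtain ⟨w₂', h5, h6⟩ := h.tab.par (by omega) (show n₀ ≤ ρ + m * P by omega) hmod hvV h2 hw2
    have h7 : It (pr G) (ρ + m * P) (c 0) [c (0 + (ρ + m * P))] :=
      chain_it (fun i hi => (hc i hi).1) 0 _ (by omega)
    rw [Nat.zero_add] at h7
    have hmP : 1 ≤ m * P := Nat.mul_pos hm1 hP
    have h8 : c (ρ + m * P) ∈ G.T := by
      have := (hc (ρ + m * P - 1) (by omega)).2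
      rwa [show ρ + m * P - 1 + 1 = ρ + m * P by omega] at this
    have hs1 : ∀ x ∈ w₁', x ∈ Sig := by
      intro x hx
      apply hw1
      rw [← mem_toFinset, ← h4]
      exact mem_toFinset.2 hx
    have hs2 : ∀ x ∈ w₂', x ∈ Sig := by
      intro x hx
      apply hw2
      rw [← mem_toFinset, ← h6]
      exact mem_toFinset.2 hx
    have h9 : w₁' ++ ([c (ρ + m * P)] ++ w₂') ∈ L := by
      apply h.gen.mem (hR.trans (h3.append ((par_single.2 h7).append h5)))
      · intro x hx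
        simp only [mem_append, mem_singleton] at hx
        rcases hx with hx | hx | hx
        · exact h.sigT x (hs1 x hx)
        · rw [hx]; exact h8
        · exact h.sigT x (hs2 x hx)
      · simp
    exact h.sig _ h9 _ (by simp)
  -- pigeonhole
  obtain ⟨m, hm, m', hm', hne, heq⟩ := Finset.exists_ne_map_eq_of_card_lt_of_maps_to
    (s := Finset.Icc 1 (Sig.card + 1)) (t := Sig) (f := fun m => c (ρ + m * P))
    (by rw [Nat.card_Icc]; omega) (by
      intro m hm
      simp only [Finset.coe_Icc, Set.mem_Icc] at hm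
      exact key m hm.1 hm.2)
  rw [Finset.mem_Icc] at hm hm'
  have fin : ∀ m m', 1 ≤ m → m < m' → m' ≤ Sig.card + 1 → c (ρ + m * P) = c (ρ + m' * P) →
      False := by
    intro m m' h1 h2 h3 h4
    have hbd : ρ + m' * P ≤ n₀ + P * (Sig.card + 2) := by
      have h3 : m' * P ≤ (Sig.card + 1) * P := Nat.mul_le_mul_right _ h3
      have h4 : P * (Sig.card + 2) = (Sig.card + 1) * P + P := by ring
      omega
    have h5 : m * P + P ≤ m' * P := by
      have : (m + 1) * P ≤ m' * P := Nat.mul_le_mul_right _ h2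
      rw [Nat.succ_mul] at this
      exact this
    have h6 := chain_it (K := n₀ + P * (Sig.card + 2)) (fun i hi => (hc i hi).1) (ρ + m * P)
      (m' * P - m * P) (by omega)
    rw [show ρ + m * P + (m' * P - m * P) = ρ + m' * P by omega, ← h4] at h6
    exact h.nowait _ (key m h1 (by omega)) _ (by omega) h6
  rcases lt_or_gt_of_ne hne with hlt | hlt
  · exact fin m m' hm.1 hlt hm'.2 heq
  · exact fin m' m hm'.1 hlt hm.2 heq.symm

end Pool.Agent.Helper79.EOL
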